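import Mathlib

set_option autoImplicit false

/-!
# Tame automorphisms of free associative algebras
-/

open MvPolynomial

namespace Pool.Agent.Helper555_TN

section free

variable {K : Type*} [Field K] {n : ℕ}

/-- affine automorphisms of the free associative algebra: the images of the generators have degree
at most one and the linear parts are invertible -/
def IsAffF (φ : FreeAlgebra K (Fin n) ≃ₐ[K] FreeAlgebra K (Fin n)) : Prop :=
  ∃ (M : Matrix (Fin n) (Fin n) K) (b : Fin n → K), M.det ≠ 0 ∧
    ∀ i, φ (FreeAlgebra.ι K i) =
      ∑ j, M i j • FreeAlgebra.ι K j + algebraMap K (FreeAlgebra K (Fin n)) (b i)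

/-- elementary automorphisms of the free associative algebra: some generator `x i` is sent to
`α x i + f` where `f` is a noncommutative polynomial in the other generators, and the other
generators are fixed -/
def IsElemF (φ : FreeAlgebra K (Fin n) ≃ₐ[K] FreeAlgebra K (Fin n)) : Prop :=
  ∃ (i : Fin n) (α : K) (f : FreeAlgebra K (Fin n)), α ≠ 0 ∧
    f ∈ Algebra.adjoin K (FreeAlgebra.ι K '' {i}ᶜ) ∧
    φ (FreeAlgebra.ι K i) = α • FreeAlgebra.ι K i + f ∧
    ∀ j, j ≠ i → φ (FreeAlgebra.ι K j) = FreeAlgebra.ι K j

/-- the tame subgroup of the automorphism group of the free associative algebra, generated by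
affine and elementary automorphisms -/
noncomputable def TAutF (n : ℕ) (K : Type*) [Field K] :
    Subgroup (FreeAlgebra K (Fin n) ≃ₐ[K] FreeAlgebra K (Fin n)) :=
  Subgroup.closure {φ | IsAffF φ ∨ IsElemF φ}

/-- the abelianization homomorphism from the free associative algebra to the polynomial algebra,
sending generators to variables -/
noncomputable def abel (K : Type*) [Field K] (n : ℕ) :
    FreeAlgebra K (Fin n) →ₐ[K] MvPolynomial (Fin n) K :=
  FreeAlgebra.lift K (fun i => (X i : MvPolynomial (Fin n) K))

end free

end Pool.Agent.Helper555_TN
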