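import Mathlib

set_option autoImplicit false

/-!
# Weights on three variables

A triple of positive real weights which is linearly independent over the rationals.
-/

open MvPolynomial

namespace Pool.Agent.Helper555_TN

theorem exists_wv : ∃ w : Fin 3 → NNReal, (∀ i, 0 < w i) ∧
    Function.Injective (fun a : Fin 3 →₀ ℕ => ∑ i, (a i : NNReal) * w i) := by
  set t : ℝ := liouvilleNumber 2 with ht
  have htr : Transcendental ℤ t := transcendental_liouvilleNumber le_rfl
  have ht0 : t ≠ 0 := by
    rintro h
    rw [h] at htr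
    exact htr (isAlgebraic_zero)
  have hpos : 0 < |t| := abs_pos.2 ht0
  have htr' : Transcendental ℤ |t| := by
    rcases abs_choice t with h | h
    · rw [h]; exact htr
    · rw [h]
      intro h2
      apply htr
      have := h2.neg
      rwa [neg_neg] at this
  set u : NNReal := ⟨|t|, hpos.le⟩ with hu
  have hu' : (u : ℝ) = |t| := rfl
  have hupos : 0 < u := hpos
  refine ⟨![1, u, u ^ 2], ?_, ?_⟩
  · intro i
    fin_cases i
    · exact one_pos
    · exact hupos
    · change 0 < u ^ 2
      positivity
  · intro a b hab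
    have h1 : (a 0 : ℝ) + a 1 * |t| + a 2 * |t| ^ 2 = b 0 + b 1 * |t| + b 2 * |t| ^ 2 := by
      have := congrArg (fun x : NNReal => (x : ℝ)) hab
      simpa [Fin.sum_univ_three, hu'] using this
    by_contra hne
    apply htr'
    refine ⟨Polynomial.C ((a 0 : ℤ) - b 0) + Polynomial.C ((a 1 : ℤ) - b 1) * Polynomial.X +
      Polynomial.C ((a 2 : ℤ) - b 2) * Polynomial.X ^ 2, ?_, ?_⟩
    · intro h0
      apply hne
      ext i
      have h2 : ∀ n, (Polynomial.C ((a 0 : ℤ) - b 0) + Polynomial.C ((a 1 : ℤ) - b 1) * Polynomial.X +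
      Polynomial.C ((a 2 : ℤ) - b 2) * Polynomial.X ^ 2).coeff n = 0 := by
        intro n; rw [h0]; simp
      have e0 := h2 0
      have e1 := h2 1
      have e2 := h2 2
      simp only [Polynomial.coeff_add, Polynomial.coeff_C_mul, Polynomial.coeff_X,
        Polynomial.coeff_X_pow, Polynomial.coeff_C] at e0 e1 e2
      norm_num at e0 e1 e2
      fin_cases i
      · simp only [Fin.zero_eta]; omega
      · simp only [Fin.mk_one]; omega
      · change a 2 = b 2; omega
    · rw [sq_abs] at h1
      simp
      linarith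

/-- the weights -/
noncomputable def wv : Fin 3 → NNReal := Classical.choose exists_wv

theorem wv_pos (i : Fin 3) : 0 < wv i := (Classical.choose_spec exists_wv).1 i

/-- the weight of an exponent -/
noncomputable def wt (a : Fin 3 →₀ ℕ) : NNReal := ∑ i, (a i : NNReal) * wv i

theorem wt_inj : Function.Injective wt := (Classical.choose_spec exists_wv).2

theorem wt_add (a b : Fin 3 →₀ ℕ) : wt (a + b) = wt a + wt b := by
  simp [wt, add_mul, Finset.sum_add_distrib]

theorem wt_zero : wt 0 = 0 := by simp [wt]

theorem wt_nsmul (n : ℕ) (a : Fin 3 →₀ ℕ) : wt (n • a) = n * wt a := by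
  simp [wt, Finset.mul_sum, mul_assoc]

theorem wt_pos {a : Fin 3 →₀ ℕ} (ha : a ≠ 0) : 0 < wt a := by
  rw [pos_iff_ne_zero]
  intro h
  exact ha (wt_inj (h.trans wt_zero.symm))

end Pool.Agent.Helper555_TN
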