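import Mathlib
import Pool.Agent.Helper555_TN.Wt

set_option autoImplicit false

/-!
# The weighted degree
-/

open MvPolynomial

namespace Pool.Agent.Helper555_TN

variable {K : Type*} [Field K]

/-- polynomials in three variables -/
abbrev A (K : Type*) [Field K] := MvPolynomial (Fin 3) K

/-- the weighted degree; the degree of zero is zero -/
noncomputable def deg (f : A K) : ℝ := ((f.support.sup wt : NNReal) : ℝ)

theorem deg_nonneg (f : A K) : 0 ≤ deg f := NNReal.coe_nonneg _

@[simp] theorem deg_zero : deg (0 : A K) = 0 := by simp [deg]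

theorem le_deg {f : A K} {a : Fin 3 →₀ ℕ} (h : coeff a f ≠ 0) : (wt a : ℝ) ≤ deg f := by
  rw [deg]
  exact_mod_cast Finset.le_sup (f := wt) (mem_support_iff.2 h)

theorem deg_le {f : A K} {r : ℝ} (hr : 0 ≤ r) (h : ∀ a, coeff a f ≠ 0 → (wt a : ℝ) ≤ r) :
    deg f ≤ r := by
  obtain ⟨s, rfl⟩ : ∃ s : NNReal, r = s := ⟨⟨r, hr⟩, rfl⟩
  rw [deg, NNReal.coe_le_coe]
  apply Finset.sup_le
  intro a ha
  exact_mod_cast h a (mem_support_iff.1 ha)

theorem deg_lt {f : A K} {r : ℝ} (hr : 0 < r) (h : ∀ a, coeff a f ≠ 0 → (wt a : ℝ) < r) :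
    deg f < r := by
  obtain ⟨s, rfl⟩ : ∃ s : NNReal, r = s := ⟨⟨r, hr.le⟩, rfl⟩
  rw [deg, NNReal.coe_lt_coe, Finset.sup_lt_iff (by simpa using hr)]
  intro a ha
  exact_mod_cast h a (mem_support_iff.1 ha)

theorem coeff_eq_zero_of_deg_lt {f : A K} {a : Fin 3 →₀ ℕ} (h : deg f < wt a) : coeff a f = 0 := by
  by_contra h2
  exact absurd (le_deg h2) (not_le.2 h)

theorem exists_lead {f : A K} (hf : f ≠ 0) : ∃ a, coeff a f ≠ 0 ∧ (wt a : ℝ) = deg f := by
  have hne : f.support.Nonempty := by
    rw [Finset.nonempty_iff_ne_empty]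
    intro h
    exact hf (support_eq_empty.1 h)
  obtain ⟨a, ha, h2⟩ := Finset.exists_mem_eq_sup f.support hne wt
  refine ⟨a, mem_support_iff.1 ha, ?_⟩
  rw [deg, h2]

theorem deg_neg (f : A K) : deg (-f) = deg f := by simp [deg, support_neg]

theorem deg_C (c : K) : deg (C c : A K) = 0 := by
  apply le_antisymm _ (deg_nonneg _)
  apply deg_le le_rfl
  intro a ha
  rw [coeff_C] at ha
  have : a = 0 := by
    by_contra h
    exact ha (if_neg (Ne.symm h))
  rw [this, wt_zero]
  simp

@[simp] theorem deg_one : deg (1 : A K) = 0 := by rw [← C_1, deg_C]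

theorem deg_add_le (f g : A K) : deg (f + g) ≤ max (deg f) (deg g) := by
  apply deg_le (le_max_of_le_left (deg_nonneg f))
  intro a ha
  rw [coeff_add] at ha
  by_cases h : coeff a f = 0
  · rw [h, zero_add] at ha
    exact (le_deg ha).trans (le_max_right _ _)
  · exact (le_deg h).trans (le_max_left _ _)

theorem deg_sub_le (f g : A K) : deg (f - g) ≤ max (deg f) (deg g) := by
  rw [sub_eq_add_neg, ← deg_neg g]
  exact deg_add_le _ _

theorem deg_add_le_of {f g : A K} {r : ℝ} (hf : deg f ≤ r) (hg : deg g ≤ r) : deg (f + g) ≤ r :=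
  (deg_add_le f g).trans (max_le hf hg)

theorem deg_sub_le_of {f g : A K} {r : ℝ} (hf : deg f ≤ r) (hg : deg g ≤ r) : deg (f - g) ≤ r :=
  (deg_sub_le f g).trans (max_le hf hg)

theorem deg_add_lt_of {f g : A K} {r : ℝ} (hf : deg f < r) (hg : deg g < r) : deg (f + g) < r :=
  (deg_add_le f g).trans_lt (max_lt hf hg)

theorem deg_sub_lt_of {f g : A K} {r : ℝ} (hf : deg f < r) (hg : deg g < r) : deg (f - g) < r :=
  (deg_sub_le f g).trans_lt (max_lt hf hg)

theorem deg_sum_le {ι : Type*} (s : Finset ι) (f : ι → A K) {r : ℝ} (hr : 0 ≤ r)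
    (h : ∀ i ∈ s, deg (f i) ≤ r) : deg (∑ i ∈ s, f i) ≤ r := by
  classical
  induction s using Finset.induction_on with
  | empty => simpa using hr
  | insert i s hi ih =>
    rw [Finset.sum_insert hi]
    exact deg_add_le_of (h i (Finset.mem_insert_self i s))
      (ih fun j hj => h j (Finset.mem_insert_of_mem hj))

theorem deg_add_eq_left {f g : A K} (h : deg g < deg f) : deg (f + g) = deg f := by
  apply le_antisymm
  · exact deg_add_le_of le_rfl h.le
  · by_contra h2
    push Not at h2
    have : deg f < deg f := by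
      conv_lhs => rw [show f = (f + g) - g by ring]
      exact deg_sub_lt_of h2 h
    exact lt_irrefl _ this

theorem deg_add_eq_right {f g : A K} (h : deg f < deg g) : deg (f + g) = deg g := by
  rw [add_comm]; exact deg_add_eq_left h

theorem deg_sub_eq_left {f g : A K} (h : deg g < deg f) : deg (f - g) = deg f := by
  rw [sub_eq_add_neg]; apply deg_add_eq_left; rwa [deg_neg]

theorem deg_sub_eq_right {f g : A K} (h : deg f < deg g) : deg (f - g) = deg g := by
  rw [sub_eq_add_neg, deg_add_eq_right, deg_neg]; rwa [deg_neg]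

theorem coeff_mul_top {f g : A K} {a b : Fin 3 →₀ ℕ} (hf : deg f ≤ wt a) (hg : deg g ≤ wt b) :
    coeff (a + b) (f * g) = coeff a f * coeff b g := by
  classical
  rw [coeff_mul, Finset.sum_eq_single (a, b)]
  · rintro ⟨c, d⟩ hcd hne
    rw [Finset.HasAntidiagonal.mem_antidiagonal] at hcd
    simp only at hcd ⊢
    by_contra h
    have h1 : coeff c f ≠ 0 := left_ne_zero_of_mul h
    have h2 : coeff d g ≠ 0 := right_ne_zero_of_mul h
    have h3 := (le_deg h1).trans hf
    have h4 := (le_deg h2).trans hg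
    have h5 : (wt c : ℝ) + wt d = wt a + wt b := by
      rw [← NNReal.coe_add, ← NNReal.coe_add, ← wt_add, ← wt_add, hcd]
    have h6 : (wt c : ℝ) = wt a := by linarith
    have h7 : (wt d : ℝ) = wt b := by linarith
    have hca : c = a := wt_inj (NNReal.coe_injective h6)
    have hdb : d = b := wt_inj (NNReal.coe_injective h7)
    exact hne (by rw [hca, hdb])
  · intro h
    exfalso
    apply h
    rw [Finset.HasAntidiagonal.mem_antidiagonal]

theorem deg_mul_le (f g : A K) : deg (f * g) ≤ deg f + deg g := by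
  classical
  apply deg_le (add_nonneg (deg_nonneg f) (deg_nonneg g))
  intro e he
  rw [coeff_mul] at he
  obtain ⟨⟨c, d⟩, hcd, hne⟩ := Finset.exists_ne_zero_of_sum_ne_zero he
  rw [Finset.HasAntidiagonal.mem_antidiagonal] at hcd
  simp only at hcd hne
  have h1 := le_deg (left_ne_zero_of_mul hne)
  have h2 := le_deg (right_ne_zero_of_mul hne)
  rw [← hcd, wt_add, NNReal.coe_add]
  linarith

theorem deg_mul {f g : A K} (hf : f ≠ 0) (hg : g ≠ 0) : deg (f * g) = deg f + deg g := by
  apply le_antisymm (deg_mul_le f g)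
  obtain ⟨a, ha, ha'⟩ := exists_lead hf
  obtain ⟨b, hb, hb'⟩ := exists_lead hg
  have h := coeff_mul_top (f := f) (g := g) (a := a) (b := b) ha'.ge hb'.ge
  have h2 : coeff (a + b) (f * g) ≠ 0 := by rw [h]; exact mul_ne_zero ha hb
  have h3 := le_deg h2
  rw [wt_add, NNReal.coe_add] at h3
  linarith

theorem deg_smul {c : K} (hc : c ≠ 0) (f : A K) : deg (c • f) = deg f := by
  rw [deg, deg]
  congr 2
  ext a
  simp [mem_support_iff, hc]

theorem deg_smul_le (c : K) (f : A K) : deg (c • f) ≤ deg f := by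
  by_cases hc : c = 0
  · rw [hc, zero_smul, deg_zero]; exact deg_nonneg f
  · rw [deg_smul hc]

theorem deg_C_mul {c : K} (hc : c ≠ 0) (f : A K) : deg (C c * f) = deg f := by
  rw [← smul_eq_C_mul, deg_smul hc]

theorem deg_pow {f : A K} (n : ℕ) (hf : f ≠ 0) : deg (f ^ n) = n * deg f := by
  induction n with
  | zero => simp
  | succ n ih =>
    rw [pow_succ, deg_mul (pow_ne_zero n hf) hf, ih]
    push_cast
    ring

theorem deg_pow_le (f : A K) (n : ℕ) : deg (f ^ n) ≤ n * deg f := by
  by_cases hf : f = 0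
  · subst hf
    rcases Nat.eq_zero_or_pos n with rfl | hn
    · simp
    · rw [zero_pow hn.ne', deg_zero]; simp
  · rw [deg_pow n hf]

theorem deg_monomial {a : Fin 3 →₀ ℕ} {c : K} (hc : c ≠ 0) : deg (monomial a c) = wt a := by
  apply le_antisymm
  · apply deg_le (NNReal.coe_nonneg _)
    intro b hb
    rw [coeff_monomial] at hb
    have : a = b := by
      by_contra h
      exact hb (if_neg h)
    rw [this]
  · apply le_deg
    rwa [coeff_monomial, if_pos rfl]

theorem ne_zero_of_deg_pos {f : A K} (h : 0 < deg f) : f ≠ 0 := by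
  rintro rfl
  simp at h

theorem eq_C_of_deg_le_zero {f : A K} (h : deg f ≤ 0) : f = C (coeff 0 f) := by
  ext a
  rw [coeff_C]
  split_ifs with h2
  · rw [h2]
  · by_contra h3
    have h4 := (le_deg h3).trans h
    have h5 : 0 < wt a := wt_pos (Ne.symm h2)
    have : (0 : ℝ) < wt a := h5
    linarith

/-- cancellation of leading terms -/
theorem exists_cancel {f g : A K} (h0 : 0 < deg f) (h : deg f = deg g) :
    ∃ c : K, c ≠ 0 ∧ deg (f - c • g) < deg f := by
  obtain ⟨a, ha, ha'⟩ := exists_lead (ne_zero_of_deg_pos h0)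
  obtain ⟨b, hb, hb'⟩ := exists_lead (ne_zero_of_deg_pos (h ▸ h0))
  have hab : b = a := wt_inj (NNReal.coe_injective (by rw [ha', hb', h]))
  rw [hab] at hb
  refine ⟨coeff a f / coeff a g, div_ne_zero ha hb, ?_⟩
  apply deg_lt h0
  intro e he
  have h1 : (wt e : ℝ) ≤ deg f := by
    by_contra h2
    push Not at h2
    apply he
    rw [coeff_sub, coeff_smul, coeff_eq_zero_of_deg_lt h2, coeff_eq_zero_of_deg_lt (f := g) (a := e) (by rw [← h]; exact h2)]
    simp
  rcases h1.lt_or_eq with h2 | h2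
  · exact h2
  · exfalso
    apply he
    have : e = a := wt_inj (NNReal.coe_injective (by rw [h2, ha']))
    rw [this, coeff_sub, coeff_smul, smul_eq_mul, div_mul_cancel₀ _ hb, sub_self]

/-- the set of exponents of weight less than a bound is finite -/
theorem finite_wt_lt (r : ℝ) : {a : Fin 3 →₀ ℕ | (wt a : ℝ) < r}.Finite := by
  obtain ⟨N, hN⟩ : ∃ N : ℕ, ∀ i, r ≤ N * (wv i : ℝ) := by
    have : ∀ i, ∃ N : ℕ, r ≤ N * (wv i : ℝ) := by
      intro i
      obtain ⟨N, hN⟩ := exists_nat_ge (r / wv i)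
      refine ⟨N, ?_⟩
      have : (0 : ℝ) < wv i := wv_pos i
      rwa [div_le_iff₀ this] at hN
    choose N hN using this
    refine ⟨Finset.univ.sup N, fun i => (hN i).trans ?_⟩
    apply mul_le_mul_of_nonneg_right _ (NNReal.coe_nonneg _)
    exact_mod_cast Finset.le_sup (Finset.mem_univ i)
  apply Set.Finite.subset (Set.finite_Iic (Finsupp.equivFunOnFinite.symm fun _ => N))
  intro a ha
  rw [Set.mem_Iic, Finsupp.le_def]
  intro i
  simp only [Finsupp.equivFunOnFinite_symm_apply_apply]
  by_contra h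
  push Not at h
  have h1 : (a i : ℝ) * wv i ≤ wt a := by
    have : (a i : NNReal) * wv i ≤ wt a :=
      Finset.single_le_sum (f := fun i => (a i : NNReal) * wv i) (fun _ _ => zero_le) (Finset.mem_univ i)
    exact_mod_cast this
  have h2 : (N : ℝ) * wv i ≤ a i * wv i := by
    apply mul_le_mul_of_nonneg_right _ (NNReal.coe_nonneg _)
    exact_mod_cast h.le
  have := hN i
  have h3 : (wt a : ℝ) < r := ha
  linarith

end Pool.Agent.Helper555_TN
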