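import Mathlib
import Pool.Agent.Helper555_TN.Deg

set_option autoImplicit false

/-!
# Logarithmic derivations and the degree of two-forms
-/

open MvPolynomial

namespace Pool.Agent.Helper555_TN

variable {K : Type*} [Field K]

/-- the logarithmic derivation `x_i ∂_i` -/
noncomputable def th (i : Fin 3) : Derivation K (A K) (A K) := (X i : A K) • pderiv i

theorem th_apply (i : Fin 3) (f : A K) : th i f = X i * pderiv i f := by
  simp [th]

theorem coeff_th (i : Fin 3) (f : A K) (a : Fin 3 →₀ ℕ) : coeff a (th i f) = a i * coeff a f := by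
  classical
  induction f using MvPolynomial.induction_on' with
  | monomial b c =>
    rw [th_apply, X_mul_pderiv_monomial, coeff_smul, coeff_monomial, nsmul_eq_mul]
    split_ifs with h
    · rw [h]
    · simp
  | add p q hp hq => rw [map_add, coeff_add, coeff_add, hp, hq, mul_add]

theorem deg_th_le (i : Fin 3) (f : A K) : deg (th i f) ≤ deg f := by
  apply deg_le (deg_nonneg f)
  intro a ha
  rw [coeff_th] at ha
  exact le_deg (right_ne_zero_of_mul ha)

/-- the Euler derivation -/
noncomputable def eul (f : A K) : A K := th 0 f + th 1 f + th 2 f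

theorem coeff_eul (f : A K) (a : Fin 3 →₀ ℕ) :
    coeff a (eul f) = ((a 0 + a 1 + a 2 : ℕ) : K) * coeff a f := by
  rw [eul, coeff_add, coeff_add, coeff_th, coeff_th, coeff_th]
  push_cast
  ring

theorem deg_eul [CharZero K] (f : A K) : deg (eul f) = deg f := by
  apply le_antisymm
  · exact deg_add_le_of (deg_add_le_of (deg_th_le _ _) (deg_th_le _ _)) (deg_th_le _ _)
  · rcases (deg_nonneg f).eq_or_lt with h | h
    · rw [← h]; exact deg_nonneg _
    · obtain ⟨a, ha, ha'⟩ := exists_lead (ne_zero_of_deg_pos h)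
      rw [← ha']
      apply le_deg
      rw [coeff_eul]
      apply mul_ne_zero _ ha
      rw [Nat.cast_ne_zero]
      intro h0
      have : a = 0 := by
        ext i
        fin_cases i
        · change a 0 = 0; omega
        · change a 1 = 0; omega
        · change a 2 = 0; omega
      rw [this, wt_zero] at ha'
      simp at ha'
      linarith

/-- the coefficients of the two-form `df ∧ dg` -/
noncomputable def M (i j : Fin 3) (f g : A K) : A K := th i f * th j g - th j f * th i g

/-- the degree of the two-form `df ∧ dg` -/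
noncomputable def V (f g : A K) : ℝ :=
  Finset.univ.sup' Finset.univ_nonempty (fun p : Fin 3 × Fin 3 => deg (M p.1 p.2 f g))

theorem le_V (i j : Fin 3) (f g : A K) : deg (M i j f g) ≤ V f g :=
  Finset.le_sup' (fun p : Fin 3 × Fin 3 => deg (M p.1 p.2 f g)) (Finset.mem_univ (i, j))

theorem V_le {f g : A K} {r : ℝ} (h : ∀ i j, deg (M i j f g) ≤ r) : V f g ≤ r := by
  apply Finset.sup'_le
  rintro ⟨i, j⟩ -
  exact h i j

theorem V_lt {f g : A K} {r : ℝ} (h : ∀ i j, deg (M i j f g) < r) : V f g < r := by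
  rw [V, Finset.sup'_lt_iff]
  rintro ⟨i, j⟩ -
  exact h i j

theorem exists_V (f g : A K) : ∃ i j, deg (M i j f g) = V f g := by
  obtain ⟨⟨i, j⟩, -, h⟩ := Finset.exists_mem_eq_sup' Finset.univ_nonempty
    (fun p : Fin 3 × Fin 3 => deg (M p.1 p.2 f g))
  exact ⟨i, j, h.symm⟩

theorem V_nonneg (f g : A K) : 0 ≤ V f g := (deg_nonneg _).trans (le_V 0 0 f g)

theorem M_swap (i j : Fin 3) (f g : A K) : M i j g f = - M i j f g := by
  rw [M, M]; ring

theorem V_comm (f g : A K) : V g f = V f g := by
  have : ∀ f g : A K, V g f ≤ V f g := by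
    intro f g
    apply V_le
    intro i j
    rw [M_swap, deg_neg]
    exact le_V i j f g
  exact le_antisymm (this f g) (this g f)

theorem M_self (i j : Fin 3) (f : A K) : M i j f f = 0 := by rw [M]; ring

theorem M_add_right (i j : Fin 3) (f g h : A K) : M i j f (g + h) = M i j f g + M i j f h := by
  simp only [M, map_add]; ring

theorem M_sub_right (i j : Fin 3) (f g h : A K) : M i j f (g - h) = M i j f g - M i j f h := by
  simp only [M, map_sub]; ring

theorem M_add_left (i j : Fin 3) (f g h : A K) : M i j (f + g) h = M i j f h + M i j g h := by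
  simp only [M, map_add]; ring

theorem M_sub_left (i j : Fin 3) (f g h : A K) : M i j (f - g) h = M i j f h - M i j g h := by
  simp only [M, map_sub]; ring

theorem M_smul_right (i j : Fin 3) (c : K) (f g : A K) : M i j f (c • g) = c • M i j f g := by
  simp only [M, Derivation.map_smul, smul_sub, mul_smul_comm]

theorem M_smul_left (i j : Fin 3) (c : K) (f g : A K) : M i j (c • f) g = c • M i j f g := by
  simp only [M, Derivation.map_smul, smul_sub, smul_mul_assoc]

theorem V_le_add (f g : A K) : V f g ≤ deg f + deg g := by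
  apply V_le
  intro i j
  apply deg_sub_le_of
  · exact (deg_mul_le _ _).trans (add_le_add (deg_th_le _ _) (deg_th_le _ _))
  · exact (deg_mul_le _ _).trans (add_le_add (deg_th_le _ _) (deg_th_le _ _))

theorem coeff_M_top {f g : A K} {a b : Fin 3 →₀ ℕ} (i j : Fin 3) (hf : deg f ≤ wt a)
    (hg : deg g ≤ wt b) :
    coeff (a + b) (M i j f g) = ((a i : K) * b j - a j * b i) * (coeff a f * coeff b g) := by
  rw [M, coeff_sub, coeff_mul_top ((deg_th_le _ _).trans hf) ((deg_th_le _ _).trans hg),
    coeff_mul_top ((deg_th_le _ _).trans hf) ((deg_th_le _ _).trans hg)]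
  simp only [coeff_th]
  ring

/-- the form of two commensurable polynomials has smaller degree -/
theorem V_lt_of_comm {f g : A K} {p q : ℕ} (hq : 0 < q) (hf : 0 < deg f)
    (hg : 0 < deg g) (h : (q : ℝ) * deg f = p * deg g) : V f g < deg f + deg g := by
  apply V_lt
  intro i j
  apply deg_lt (by linarith)
  intro e he
  have h1 : (wt e : ℝ) ≤ deg f + deg g := (le_deg he).trans ((le_V i j f g).trans (V_le_add f g))
  refine lt_of_le_of_ne h1 fun h2 => he ?_
  obtain ⟨a, ha, ha'⟩ := exists_lead (ne_zero_of_deg_pos hf)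
  obtain ⟨b, hb, hb'⟩ := exists_lead (ne_zero_of_deg_pos hg)
  have h3 : e = a + b := by
    apply wt_inj
    apply NNReal.coe_injective
    rw [wt_add, NNReal.coe_add, ha', hb', h2]
  have h4 : q • a = p • b := by
    apply wt_inj
    apply NNReal.coe_injective
    rw [wt_nsmul, wt_nsmul]
    push_cast
    rw [ha', hb', h]
  have h5 : ∀ k, q * a k = p * b k := by
    intro k
    have := DFunLike.congr_fun h4 k
    simpa using this
  rw [h3, coeff_M_top i j ha'.ge hb'.ge]
  have h6 : (a i : ℕ) * b j = a j * b i := by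
    have e1 := h5 i
    have e2 := h5 j
    have : q * (a i * b j) = q * (a j * b i) := by
      calc q * (a i * b j) = (q * a i) * b j := by ring
        _ = (p * b i) * b j := by rw [e1]
        _ = (p * b j) * b i := by ring
        _ = (q * a j) * b i := by rw [e2]
        _ = q * (a j * b i) := by ring
    exact Nat.eq_of_mul_eq_mul_left hq this
  have h7 : (a i : K) * b j - a j * b i = 0 := by
    rw [sub_eq_zero, ← Nat.cast_mul, ← Nat.cast_mul, h6]
  rw [h7, zero_mul]

/-- the form of two incommensurable polynomials has the full degree -/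
theorem V_eq_of_incomm [CharZero K] {f g : A K} (hf : 0 < deg f) (hg : 0 < deg g)
    (h : ∀ p q : ℕ, 0 < p → 0 < q → (q : ℝ) * deg f ≠ p * deg g) : V f g = deg f + deg g := by
  apply le_antisymm (V_le_add f g)
  obtain ⟨a, ha, ha'⟩ := exists_lead (ne_zero_of_deg_pos hf)
  obtain ⟨b, hb, hb'⟩ := exists_lead (ne_zero_of_deg_pos hg)
  by_contra hlt
  push Not at hlt
  have hz : ∀ i j, a i * b j = a j * b i := by
    intro i j
    by_contra hne
    have h1 : coeff (a + b) (M i j f g) ≠ 0 := by
      rw [coeff_M_top i j ha'.ge hb'.ge]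
      apply mul_ne_zero _ (mul_ne_zero ha hb)
      rw [sub_ne_zero]
      have h0 : ((a i * b j : ℕ) : K) ≠ ((a j * b i : ℕ) : K) :=
        fun h => hne (Nat.cast_injective h)
      push_cast at h0
      exact h0
    have h2 := (le_deg h1).trans (le_V i j f g)
    rw [wt_add, NNReal.coe_add, ha', hb'] at h2
    linarith
  have hane : a ≠ 0 := by
    rintro rfl
    rw [wt_zero] at ha'
    simp at ha'
    linarith
  have hbne : b ≠ 0 := by
    rintro rfl
    rw [wt_zero] at hb'
    simp at hb'
    linarith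
  obtain ⟨i, hi⟩ : ∃ i, a i ≠ 0 := by
    by_contra hc
    push Not at hc
    exact hane (Finsupp.ext hc)
  have hbi : b i ≠ 0 := by
    intro h0
    apply hbne
    ext j
    have := hz i j
    rw [h0, mul_zero] at this
    rcases Nat.mul_eq_zero.1 this with h1 | h1
    · exact absurd h1 hi
    · simpa using h1
  apply h (a i) (b i) (Nat.pos_of_ne_zero hi) (Nat.pos_of_ne_zero hbi)
  rw [← ha', ← hb']
  have : wt (b i • a) = wt (a i • b) := by
    congr 1
    ext j
    simp only [Finsupp.smul_apply, smul_eq_mul]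
    rw [mul_comm, ← hz i j]
  rw [wt_nsmul, wt_nsmul] at this
  exact_mod_cast this

theorem coeff_zero_M (i j : Fin 3) (f g : A K) : coeff 0 (M i j f g) = 0 := by
  classical
  rw [M, coeff_sub, coeff_mul, coeff_mul]
  simp [coeff_th]

theorem M_eq_zero_of_deg {i j : Fin 3} {f g : A K} (h : deg (M i j f g) ≤ 0) : M i j f g = 0 := by
  rw [eq_C_of_deg_le_zero h, coeff_zero_M, C_0]

/-- the Jacobian determinant with respect to the logarithmic derivations -/
noncomputable def Jm (f g h : A K) : A K :=
  th 0 f * M 1 2 g h - th 1 f * M 0 2 g h + th 2 f * M 0 1 g h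

/-- the total weight -/
noncomputable def W : ℝ := wv 0 + wv 1 + wv 2

theorem W_pos : 0 < W := by
  have h0 : (0 : ℝ) < wv 0 := wv_pos 0
  have h1 : (0 : ℝ) < wv 1 := wv_pos 1
  have h2 : (0 : ℝ) < wv 2 := wv_pos 2
  rw [W]
  linarith

/-- three polynomials whose Jacobian is a nonzero constant -/
def Kel (f g h : A K) : Prop := ∃ c : K, c ≠ 0 ∧ Jm f g h = C c * (X 0 * X 1 * X 2)

theorem deg_X (i : Fin 3) : deg (X i : A K) = wv i := by
  rw [X, deg_monomial one_ne_zero]
  congr 1
  simp [wt, Finsupp.single_apply]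

theorem deg_Jm {f g h : A K} (H : Kel f g h) : deg (Jm f g h) = W := by
  obtain ⟨c, hc, h2⟩ := H
  rw [h2, deg_C_mul hc, deg_mul, deg_mul, deg_X, deg_X, deg_X, W]
  · exact X_ne_zero 0
  · exact X_ne_zero 1
  · exact mul_ne_zero (X_ne_zero 0) (X_ne_zero 1)
  · exact X_ne_zero 2

theorem deg_Jm_le (f g h : A K) : deg (Jm f g h) ≤ deg f + V g h := by
  rw [Jm]
  apply deg_add_le_of
  · apply deg_sub_le_of
    · exact (deg_mul_le _ _).trans (add_le_add (deg_th_le _ _) (le_V _ _ _ _))
    · exact (deg_mul_le _ _).trans (add_le_add (deg_th_le _ _) (le_V _ _ _ _))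
  · exact (deg_mul_le _ _).trans (add_le_add (deg_th_le _ _) (le_V _ _ _ _))

theorem Jm_swap12 (f g h : A K) : Jm g f h = - Jm f g h := by
  simp only [Jm, M]; ring

theorem Jm_swap23 (f g h : A K) : Jm f h g = - Jm f g h := by
  simp only [Jm, M]; ring

theorem Kel.swap12 {f g h : A K} (H : Kel f g h) : Kel g f h := by
  obtain ⟨c, hc, h2⟩ := H
  refine ⟨-c, neg_ne_zero.2 hc, ?_⟩
  rw [Jm_swap12, h2, C_neg]; ring

theorem Kel.swap23 {f g h : A K} (H : Kel f g h) : Kel f h g := by
  obtain ⟨c, hc, h2⟩ := H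
  refine ⟨-c, neg_ne_zero.2 hc, ?_⟩
  rw [Jm_swap23, h2, C_neg]; ring

theorem Kel.rot {f g h : A K} (H : Kel f g h) : Kel g h f := H.swap12.swap23

theorem Kel.rot' {f g h : A K} (H : Kel f g h) : Kel h f g := H.swap23.swap12

theorem Kel.swap13 {f g h : A K} (H : Kel f g h) : Kel h g f := H.swap12.swap23.swap12

theorem Kel.W_le {f g h : A K} (H : Kel f g h) : W ≤ deg f + V g h := by
  rw [← deg_Jm H]; exact deg_Jm_le f g h

theorem Kel.V_pos {f g h : A K} (H : Kel f g h) : 0 < V g h := by
  by_contra h0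
  push Not at h0
  have h1 : ∀ i j, M i j g h = 0 := fun i j => M_eq_zero_of_deg ((le_V i j g h).trans h0)
  have h2 := deg_Jm H
  rw [Jm, h1, h1, h1] at h2
  simp at h2
  have := W_pos
  linarith

theorem Kel.deg_pos {f g h : A K} (H : Kel f g h) : 0 < deg f := by
  by_contra h0
  push Not at h0
  have h1 : ∀ i, th i f = 0 := by
    intro i
    rw [eq_C_of_deg_le_zero h0]
    simp [th]
  have h2 := deg_Jm H
  rw [Jm, h1, h1, h1] at h2
  simp at h2
  have := W_pos
  linarith

/-- the Euler identity -/
theorem euler_id (f g h : A K) (i j : Fin 3) : ∃ ε : K,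
    eul f * M i j g h = C ε * Jm f g h + eul g * M i j f h - eul h * M i j f g := by
  fin_cases i <;> fin_cases j
  · exact ⟨0, by simp only [eul, Jm, M, C_0, Fin.zero_eta]; ring⟩
  · exact ⟨1, by simp only [eul, Jm, M, C_1, Fin.zero_eta, Fin.mk_one]; ring⟩
  · exact ⟨-1, by simp only [eul, Jm, M, C_neg, C_1, Fin.zero_eta, Fin.reduceFinMk]; ring⟩
  · exact ⟨-1, by simp only [eul, Jm, M, C_neg, C_1, Fin.zero_eta, Fin.mk_one]; ring⟩
  · exact ⟨0, by simp only [eul, Jm, M, C_0, Fin.mk_one]; ring⟩
  · exact ⟨1, by simp only [eul, Jm, M, C_1, Fin.mk_one, Fin.reduceFinMk]; ring⟩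
  · exact ⟨1, by simp only [eul, Jm, M, C_1, Fin.zero_eta, Fin.reduceFinMk]; ring⟩
  · exact ⟨-1, by simp only [eul, Jm, M, C_neg, C_1, Fin.mk_one, Fin.reduceFinMk]; ring⟩
  · exact ⟨0, by simp only [eul, Jm, M, C_0, Fin.reduceFinMk]; ring⟩

/-- the maximum of the three numbers `deg f_i + deg (df_j ∧ df_k)` is attained twice -/
theorem Kel.tri [CharZero K] {f g h : A K} (H : Kel f g h) :
    deg f + V g h ≤ max (deg g + V f h) (deg h + V f g) := by
  by_contra hc
  push Not at hc
  rw [max_lt_iff] at hc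
  obtain ⟨h1, h2⟩ := hc
  obtain ⟨i, j, hij⟩ := exists_V g h
  obtain ⟨ε, hε⟩ := euler_id f g h i j
  have hfpos := H.deg_pos
  have hVpos := H.V_pos
  have hef : eul f ≠ 0 := ne_zero_of_deg_pos (by rw [deg_eul]; exact hfpos)
  have hM : M i j g h ≠ 0 := ne_zero_of_deg_pos (by rw [hij]; exact hVpos)
  have h3 : deg (eul f * M i j g h) = deg f + V g h := by rw [deg_mul hef hM, deg_eul, hij]
  have h4 : W ≤ deg g + V f h := H.swap12.W_le
  have h5 : deg (eul f * M i j g h) < deg f + V g h := by
    rw [hε]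
    apply deg_sub_lt_of
    · apply deg_add_lt_of
      · rw [← smul_eq_C_mul]
        refine (deg_smul_le _ _).trans_lt ?_
        rw [deg_Jm H]
        linarith
      · refine (deg_mul_le _ _).trans_lt ?_
        rw [deg_eul]
        have := le_V i j f h
        linarith
    · refine (deg_mul_le _ _).trans_lt ?_
      rw [deg_eul]
      have := le_V i j f g
      linarith
  linarith

/-- evaluation of a polynomial in two variables -/
noncomputable def ev (f g : A K) : MvPolynomial (Fin 2) K →ₐ[K] A K := aeval ![f, g]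

@[simp] theorem ev_X0 (f g : A K) : ev f g (X 0) = f := by simp [ev]
@[simp] theorem ev_X1 (f g : A K) : ev f g (X 1) = g := by simp [ev]
@[simp] theorem ev_C (f g : A K) (c : K) : ev f g (C c) = C c := by simp [ev, algebraMap_eq]

/-- the chain rule -/
theorem der_ev (D : Derivation K (A K) (A K)) (f g : A K) (Φ : MvPolynomial (Fin 2) K) :
    D (ev f g Φ) = ev f g (pderiv 0 Φ) * D f + ev f g (pderiv 1 Φ) * D g := by
  induction Φ using MvPolynomial.induction_on with
  | C a => simp [← algebraMap_eq]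
  | add p q hp hq => simp only [map_add, hp, hq]; ring
  | mul_X p k hp =>
    fin_cases k
    · simp only [Fin.zero_eta, map_mul, ev_X0, Derivation.leibniz, hp, smul_eq_mul, map_add,
        pderiv_X_self, pderiv_X_of_ne (show (0 : Fin 2) ≠ 1 by decide), map_one, map_zero]
      ring
    · simp only [Fin.mk_one, map_mul, ev_X1, Derivation.leibniz, hp, smul_eq_mul, map_add,
        pderiv_X_self, pderiv_X_of_ne (show (1 : Fin 2) ≠ 0 by decide), map_one, map_zero]
      ring

theorem M_ev_left (i j : Fin 3) (f g : A K) (Φ : MvPolynomial (Fin 2) K) :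
    M i j f (ev f g Φ) = ev f g (pderiv 1 Φ) * M i j f g := by
  simp only [M, der_ev]; ring

theorem M_ev_right (i j : Fin 3) (f g : A K) (Φ : MvPolynomial (Fin 2) K) :
    M i j (ev f g Φ) g = ev f g (pderiv 0 Φ) * M i j f g := by
  simp only [M, der_ev]; ring

theorem eul_ev (f g : A K) (Φ : MvPolynomial (Fin 2) K) :
    eul (ev f g Φ) = ev f g (pderiv 0 Φ) * eul f + ev f g (pderiv 1 Φ) * eul g := by
  simp only [eul, der_ev]; ring

theorem Jm_ev_left (f g h : A K) (Φ : MvPolynomial (Fin 2) K) :
    Jm f (ev f g Φ) h = ev f g (pderiv 1 Φ) * Jm f g h := by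
  simp only [Jm, M, der_ev]; ring

theorem Jm_ev_right (f g h : A K) (Φ : MvPolynomial (Fin 2) K) :
    Jm (ev f g Φ) g h = ev f g (pderiv 0 Φ) * Jm f g h := by
  simp only [Jm, M, der_ev]; ring

end Pool.Agent.Helper555_TN
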