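import Mathlib
import Pool.Agent.Helper555_TN.Form

set_option autoImplicit false

/-!
# The Shestakov-Umirbaev inequality for two-generated subalgebras
-/

open MvPolynomial

namespace Pool.Agent.Helper555_TN

variable {K : Type*} [Field K]

/-- formal weight of an exponent -/
noncomputable def fw (f g : A K) (s : Fin 2 →₀ ℕ) : ℝ := s 0 * deg f + s 1 * deg g

theorem fw_nonneg (f g : A K) (s : Fin 2 →₀ ℕ) : 0 ≤ fw f g s :=
  add_nonneg (mul_nonneg (Nat.cast_nonneg _) (deg_nonneg f))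
    (mul_nonneg (Nat.cast_nonneg _) (deg_nonneg g))

theorem ev_eq_sum (f g : A K) (Φ : MvPolynomial (Fin 2) K) :
    ev f g Φ = ∑ s ∈ Φ.support, C (coeff s Φ) * (f ^ s 0 * g ^ s 1) := by
  rw [ev, aeval_def, eval₂_eq']
  simp [Fin.prod_univ_two, algebraMap_eq]

theorem deg_term_le (f g : A K) (s : Fin 2 →₀ ℕ) (c : K) :
    deg (C c * (f ^ s 0 * g ^ s 1)) ≤ fw f g s := by
  rw [← smul_eq_C_mul]
  refine (deg_smul_le _ _).trans ((deg_mul_le _ _).trans ?_)
  exact add_le_add (deg_pow_le _ _) (deg_pow_le _ _)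

theorem deg_ev_le (f g : A K) (Φ : MvPolynomial (Fin 2) K) {e : ℝ} (he : 0 ≤ e)
    (h : ∀ s, coeff s Φ ≠ 0 → fw f g s ≤ e) : deg (ev f g Φ) ≤ e := by
  rw [ev_eq_sum]
  apply deg_sum_le _ _ he
  intro s hs
  exact (deg_term_le f g s _).trans (h s (mem_support_iff.1 hs))

theorem coeff_pow_top {f : A K} {a : Fin 3 →₀ ℕ} (hf : deg f ≤ wt a) (n : ℕ) :
    coeff (n • a) (f ^ n) = coeff a f ^ n := by
  induction n with
  | zero => simp
  | succ n ih =>
    rw [pow_succ, succ_nsmul, coeff_mul_top _ hf, ih, pow_succ]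
    refine (deg_pow_le f n).trans ?_
    rw [wt_nsmul]
    push_cast
    exact mul_le_mul_of_nonneg_left hf (Nat.cast_nonneg n)

/-- the top coefficient of an evaluation -/
theorem coeff_ev_top {f g : A K} {a b : Fin 3 →₀ ℕ} (ha : (wt a : ℝ) = deg f)
    (hb : (wt b : ℝ) = deg g) (Φ : MvPolynomial (Fin 2) K) {e : ℝ} (s₀ : Fin 2 →₀ ℕ)
    (hs₀ : fw f g s₀ = e) (h : ∀ s, coeff s Φ ≠ 0 → fw f g s ≤ e) :
    coeff (s₀ 0 • a + s₀ 1 • b) (ev f g Φ) =
      ∑ s ∈ Φ.support.filter (fun s => fw f g s = e),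
        coeff s Φ * (coeff a f ^ s 0 * coeff b g ^ s 1) := by
  classical
  have hwt : ∀ s : Fin 2 →₀ ℕ, (wt (s 0 • a + s 1 • b) : ℝ) = fw f g s := by
    intro s
    rw [wt_add, wt_nsmul, wt_nsmul, fw, ← ha, ← hb]
    push_cast
    rfl
  rw [ev_eq_sum, coeff_sum, Finset.sum_filter]
  apply Finset.sum_congr rfl
  intro s hs
  have hs' := h s (mem_support_iff.1 hs)
  rw [coeff_C_mul]
  split_ifs with h1
  · have h2 : s₀ 0 • a + s₀ 1 • b = s 0 • a + s 1 • b := by
      apply wt_inj
      apply NNReal.coe_injective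
      rw [hwt, hwt, hs₀, h1]
    rw [h2, coeff_mul_top, coeff_pow_top ha.ge, coeff_pow_top hb.ge]
    · rw [wt_nsmul]
      push_cast
      rw [ha]
      exact deg_pow_le _ _
    · rw [wt_nsmul]
      push_cast
      rw [hb]
      exact deg_pow_le _ _
  · have h2 : fw f g s < e := lt_of_le_of_ne hs' h1
    rw [coeff_eq_zero_of_deg_lt, mul_zero]
    rw [hwt, hs₀]
    refine lt_of_le_of_lt ?_ h2
    exact (deg_mul_le _ _).trans (add_le_add (deg_pow_le _ _) (deg_pow_le _ _))

/-- the logarithmic derivation in two variables -/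
noncomputable def Th (t : Fin 2) (Φ : MvPolynomial (Fin 2) K) : MvPolynomial (Fin 2) K :=
  X t * pderiv t Φ

theorem coeff_Th (t : Fin 2) (Φ : MvPolynomial (Fin 2) K) (s : Fin 2 →₀ ℕ) :
    coeff s (Th t Φ) = s t * coeff s Φ := by
  classical
  unfold Th
  induction Φ using MvPolynomial.induction_on' with
  | monomial b c =>
    rw [X_mul_pderiv_monomial, coeff_smul, coeff_monomial, nsmul_eq_mul]
    split_ifs with h
    · rw [h]
    · simp
  | add p q hp hq => rw [map_add, mul_add, coeff_add, coeff_add, hp, hq, mul_add]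

theorem coeff_Th_iterate (t : Fin 2) (Φ : MvPolynomial (Fin 2) K) (s : Fin 2 →₀ ℕ) (k : ℕ) :
    coeff s ((Th t)^[k] Φ) = (s t : K) ^ k * coeff s Φ := by
  induction k with
  | zero => simp
  | succ k ih => rw [Function.iterate_succ_apply', coeff_Th, ih, pow_succ]; ring

/-- the defect -/
noncomputable def kap (f g : A K) : ℝ := deg f + deg g - V f g

theorem kap_nonneg (f g : A K) : 0 ≤ kap f g := by
  have := V_le_add f g
  rw [kap]; linarith

theorem deg_ev_Th {f g : A K} (hV : 0 < V f g) (t : Fin 2) (Φ : MvPolynomial (Fin 2) K) :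
    deg (ev f g (Th t Φ)) ≤ deg (ev f g Φ) + kap f g := by
  obtain ⟨i, j, hij⟩ := exists_V f g
  have hM : M i j f g ≠ 0 := ne_zero_of_deg_pos (by rw [hij]; exact hV)
  have h0 : ev f g (Th t Φ) = ev f g (X t) * ev f g (pderiv t Φ) := by rw [Th, map_mul]
  by_cases hz : ev f g (pderiv t Φ) = 0
  · rw [h0, hz, mul_zero, deg_zero]
    exact add_nonneg (deg_nonneg _) (kap_nonneg _ _)
  · rw [h0]
    refine (deg_mul_le _ _).trans ?_
    rw [kap]
    fin_cases t
    · simp only [Fin.zero_eta, ev_X0]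
      replace hz : ¬ ev f g (pderiv 0 Φ) = 0 := hz
      have h1 := M_ev_right i j f g Φ
      have h2 : deg (ev f g (pderiv 0 Φ)) + V f g ≤ deg (ev f g Φ) + deg g := by
        rw [← hij, ← deg_mul hz hM, ← h1]
        exact (le_V i j _ _).trans (V_le_add _ _)
      linarith
    · simp only [Fin.mk_one, ev_X1]
      replace hz : ¬ ev f g (pderiv 1 Φ) = 0 := hz
      have h1 := M_ev_left i j f g Φ
      have h2 : deg (ev f g (pderiv 1 Φ)) + V f g ≤ deg f + deg (ev f g Φ) := by
        rw [← hij, ← deg_mul hz hM, ← h1]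
        exact (le_V i j _ _).trans (V_le_add _ _)
      linarith

theorem deg_ev_Th_iterate {f g : A K} (hV : 0 < V f g) (t : Fin 2) (Φ : MvPolynomial (Fin 2) K)
    (k : ℕ) : deg (ev f g ((Th t)^[k] Φ)) ≤ deg (ev f g Φ) + k * kap f g := by
  induction k with
  | zero => simp
  | succ k ih =>
    rw [Function.iterate_succ_apply']
    refine (deg_ev_Th hV t _).trans ?_
    push_cast
    linarith

/-- a polynomial in the logarithmic derivation -/
noncomputable def PT (t : Fin 2) (R : Polynomial K) (Φ : MvPolynomial (Fin 2) K) :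
    MvPolynomial (Fin 2) K :=
  ∑ k ∈ Finset.range (R.natDegree + 1), C (R.coeff k) * (Th t)^[k] Φ

theorem coeff_PT (t : Fin 2) (R : Polynomial K) (Φ : MvPolynomial (Fin 2) K) (s : Fin 2 →₀ ℕ) :
    coeff s (PT t R Φ) = R.eval (s t : K) * coeff s Φ := by
  rw [PT, coeff_sum, Polynomial.eval_eq_sum_range, Finset.sum_mul]
  apply Finset.sum_congr rfl
  intro k _
  rw [coeff_C_mul, coeff_Th_iterate]
  ring

theorem deg_ev_PT {f g : A K} (hV : 0 < V f g) (t : Fin 2) (R : Polynomial K)
    (Φ : MvPolynomial (Fin 2) K) :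
    deg (ev f g (PT t R Φ)) ≤ deg (ev f g Φ) + R.natDegree * kap f g := by
  rw [PT, map_sum]
  apply deg_sum_le
  · exact add_nonneg (deg_nonneg _) (mul_nonneg (Nat.cast_nonneg _) (kap_nonneg _ _))
  · intro k hk
    rw [map_mul, ev_C, ← smul_eq_C_mul]
    refine (deg_smul_le _ _).trans ((deg_ev_Th_iterate hV t Φ k).trans ?_)
    have : (k : ℝ) ≤ R.natDegree := by
      exact_mod_cast Nat.lt_succ_iff.1 (Finset.mem_range.1 hk)
    have := mul_le_mul_of_nonneg_right this (kap_nonneg f g)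
    linarith

/-- a finite set of naturals pairwise congruent modulo `p` has a large element -/
theorem exists_large {I : Finset ℕ} {p : ℕ} (hI : I.Nonempty)
    (h : ∀ x ∈ I, ∀ y ∈ I, x ≡ y [MOD p]) : ∃ x ∈ I, (I.card - 1) * p ≤ x := by
  classical
  refine ⟨I.max' hI, I.max'_mem hI, ?_⟩
  have h1 : (I.image (fun x => x / p)).card = I.card := by
    apply Finset.card_image_of_injOn
    intro x hx y hy hxy
    have h2 : x % p = y % p := h x hx y hy
    have h3 : x / p = y / p := hxy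
    rw [← Nat.div_add_mod x p, ← Nat.div_add_mod y p, h2, h3]
  have h2 : I.image (fun x => x / p) ⊆ Finset.range (I.max' hI / p + 1) := by
    intro x hx
    rw [Finset.mem_image] at hx
    obtain ⟨y, hy, rfl⟩ := hx
    rw [Finset.mem_range, Nat.lt_succ_iff]
    exact Nat.div_le_div_right (I.le_max' y hy)
  have h3 := Finset.card_le_card h2
  rw [h1, Finset.card_range] at h3
  have h4 : I.card - 1 ≤ I.max' hI / p := by
    generalize I.max' hI / p = m at h3 ⊢
    omega
  calc (I.card - 1) * p ≤ I.max' hI / p * p := Nat.mul_le_mul_right p h4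
    _ ≤ I.max' hI := Nat.div_mul_le_self _ _

theorem exists_pq {x y : ℝ} (hx : 0 < x) {m n : ℕ} (hm : 0 < m) (hn : 0 < n)
    (h : (m : ℝ) * x = n * y) :
    ∃ p q : ℕ, ∃ δ : ℝ, 0 < p ∧ 0 < q ∧ p.Coprime q ∧ 0 < δ ∧ x = p * δ ∧ y = q * δ := by
  set g := Nat.gcd n m with hg
  have hgpos : 0 < g := Nat.gcd_pos_of_pos_left _ hn
  obtain ⟨p, hp⟩ : g ∣ n := Nat.gcd_dvd_left n m
  obtain ⟨q, hq⟩ : g ∣ m := Nat.gcd_dvd_right n m
  have hppos : 0 < p := Nat.pos_of_ne_zero (by rintro rfl; omega)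
  have hqpos : 0 < q := Nat.pos_of_ne_zero (by rintro rfl; omega)
  have hcop : p.Coprime q := by
    have := Nat.coprime_div_gcd_div_gcd (m := n) (n := m) (by rw [← hg]; exact hgpos)
    rwa [← hg, hp, hq, Nat.mul_div_cancel_left _ hgpos, Nat.mul_div_cancel_left _ hgpos] at this
  have hpR : (0 : ℝ) < p := by exact_mod_cast hppos
  have hqR : (0 : ℝ) < q := by exact_mod_cast hqpos
  have hgR : (0 : ℝ) < g := by exact_mod_cast hgpos
  refine ⟨p, q, x / p, hppos, hqpos, hcop, div_pos hx hpR, ?_, ?_⟩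
  · field_simp
  · rw [hp, hq] at h
    push_cast at h
    have h2 : (q : ℝ) * x = p * y := by
      have : (g : ℝ) * (q * x) = g * (p * y) := by linarith
      exact mul_left_cancel₀ hgR.ne' this
    field_simp
    linarith

/-- the basic inequality -/
theorem su_basic [CharZero K] {f g : A K} (hf : 0 < deg f) (hg : 0 < deg g) (hV : 0 < V f g)
    (Φ : MvPolynomial (Fin 2) K) :
    (∀ s, coeff s Φ ≠ 0 → fw f g s ≤ deg (ev f g Φ)) ∨
    (∃ p q : ℕ, ∃ δ : ℝ, 0 < p ∧ 0 < q ∧ p.Coprime q ∧ 0 < δ ∧ deg f = p * δ ∧ deg g = q * δ ∧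
      ∃ r : ℕ, 1 ≤ r ∧ ∃ e : ℝ, r * (p * q * δ) ≤ e ∧ (∀ s, coeff s Φ ≠ 0 → fw f g s ≤ e) ∧
        e ≤ deg (ev f g Φ) + r * kap f g ∧
        e ≤ deg f + deg (ev f g (pderiv 0 Φ)) + (r - 1) * kap f g ∧
        e ≤ deg g + deg (ev f g (pderiv 1 Φ)) + (r - 1) * kap f g) := by
  classical
  by_cases hΦ : Φ = 0
  · left
    intro s hs
    rw [hΦ, coeff_zero] at hs
    exact absurd rfl hs
  have hne : Φ.support.Nonempty := by
    rw [Finset.nonempty_iff_ne_empty]
    intro h
    exact hΦ (support_eq_empty.1 h)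
  obtain ⟨s₀, hs₀, hmax⟩ := Finset.exists_max_image Φ.support (fw f g) hne
  set e := fw f g s₀ with he
  have hmax' : ∀ s, coeff s Φ ≠ 0 → fw f g s ≤ e := fun s hs => hmax s (mem_support_iff.2 hs)
  have he0 : 0 ≤ e := fw_nonneg f g s₀
  obtain ⟨a, ha, ha'⟩ := exists_lead (ne_zero_of_deg_pos hf)
  obtain ⟨b, hb, hb'⟩ := exists_lead (ne_zero_of_deg_pos hg)
  set S := Φ.support.filter (fun s => fw f g s = e) with hS
  have hs₀S : s₀ ∈ S := Finset.mem_filter.2 ⟨hs₀, rfl⟩
  have hwt : ∀ s : Fin 2 →₀ ℕ, (wt (s 0 • a + s 1 • b) : ℝ) = fw f g s := by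
    intro s
    rw [wt_add, wt_nsmul, wt_nsmul, fw, ← ha', ← hb']
    push_cast
    rfl
  set τ : (Fin 2 →₀ ℕ) → K := fun s => coeff s Φ * (coeff a f ^ s 0 * coeff b g ^ s 1) with hτ
  have hτne : ∀ s ∈ S, τ s ≠ 0 := by
    intro s hs
    exact mul_ne_zero (mem_support_iff.1 (Finset.mem_filter.1 hs).1)
      (mul_ne_zero (pow_ne_zero _ ha) (pow_ne_zero _ hb))
  -- the key estimate
  have key : ∀ (u : (Fin 2 →₀ ℕ) → K) (Ψ : MvPolynomial (Fin 2) K),
      (∀ s, coeff s Ψ = u s * coeff s Φ) → ∑ s ∈ S, u s * τ s ≠ 0 → e ≤ deg (ev f g Ψ) := by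
    intro u Ψ hu hsum
    have h1 : ∀ s, coeff s Ψ ≠ 0 → fw f g s ≤ e := by
      intro s hs
      rw [hu] at hs
      exact hmax' s (right_ne_zero_of_mul hs)
    have h2 := coeff_ev_top ha' hb' Ψ s₀ he.symm h1
    have h3 : ∑ s ∈ Ψ.support.filter (fun s => fw f g s = e),
        coeff s Ψ * (coeff a f ^ s 0 * coeff b g ^ s 1) = ∑ s ∈ S, u s * τ s := by
      rw [hS, Finset.sum_filter, Finset.sum_filter]
      have h4 : Ψ.support ⊆ Φ.support := by
        intro s hs
        rw [mem_support_iff, hu] at hs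
        exact mem_support_iff.2 (right_ne_zero_of_mul hs)
      rw [← Finset.sum_subset h4]
      · apply Finset.sum_congr rfl
        intro s _
        split_ifs
        · rw [hu, hτ]; ring
        · rfl
      · intro s _ hs
        split_ifs
        · have : coeff s Ψ = 0 := by
            by_contra h
            exact hs (mem_support_iff.2 h)
          rw [hu] at this
          rw [hτ]
          simp only
          rw [← mul_assoc, this, zero_mul]
        · rfl
    rw [h3] at h2
    rw [he, ← hwt]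
    apply le_deg
    rw [h2]
    exact hsum
  by_cases hT : ∑ s ∈ S, τ s = 0
  swap
  · left
    intro s hs
    refine (hmax' s hs).trans (key (fun _ => 1) Φ (fun s => by rw [one_mul]) ?_)
    simpa using hT
  right
  -- two elements
  have hcard : 1 < S.card := by
    by_contra hc
    have h1 : S.card = 1 := by
      have : 0 < S.card := Finset.card_pos.2 ⟨s₀, hs₀S⟩
      omega
    obtain ⟨x, hx⟩ := Finset.card_eq_one.1 h1
    rw [hx, Finset.sum_singleton] at hT
    exact hτne x (by rw [hx]; exact Finset.mem_singleton_self x) hT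
  have hSe : ∀ s ∈ S, (s 0 : ℝ) * deg f + s 1 * deg g = e := fun s hs => (Finset.mem_filter.1 hs).2
  have hinj : ∀ t : Fin 2, ∀ s ∈ S, ∀ s' ∈ S, s t = s' t → s = s' := by
    intro t s hs s' hs' hst
    have h1 := hSe s hs
    have h2 := hSe s' hs'
    ext k
    fin_cases t
    · simp only [Fin.zero_eta] at hst
      have h3 : (s 1 : ℝ) * deg g = s' 1 * deg g := by
        rw [hst] at h1; linarith
      have h4 := mul_right_cancel₀ hg.ne' h3
      fin_cases k
      · exact hst
      · exact_mod_cast h4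
    · simp only [Fin.mk_one] at hst
      have h3 : (s 0 : ℝ) * deg f = s' 0 * deg f := by
        rw [hst] at h1; linarith
      have h4 := mul_right_cancel₀ hf.ne' h3
      fin_cases k
      · exact_mod_cast h4
      · exact hst
  obtain ⟨s₁, hs₁, s₂, hs₂, hne12⟩ := Finset.one_lt_card.1 hcard
  obtain ⟨p, q, δ, hp, hq, hpq, hδ, hfp, hgq⟩ :
      ∃ p q : ℕ, ∃ δ : ℝ, 0 < p ∧ 0 < q ∧ p.Coprime q ∧ 0 < δ ∧ deg f = p * δ ∧ deg g = q * δ := by
    have h1 := hSe s₁ hs₁
    have h2 := hSe s₂ hs₂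
    rcases lt_trichotomy (s₁ 0) (s₂ 0) with h | h | h
    · have h5 : s₂ 1 < s₁ 1 := by
        by_contra hc
        push Not at hc
        have e1 : (s₁ 0 : ℝ) * deg f < s₂ 0 * deg f :=
          mul_lt_mul_of_pos_right (by exact_mod_cast h) hf
        have e2 : (s₁ 1 : ℝ) * deg g ≤ s₂ 1 * deg g :=
          mul_le_mul_of_nonneg_right (by exact_mod_cast hc) hg.le
        linarith
      refine exists_pq hf (m := s₂ 0 - s₁ 0) (n := s₁ 1 - s₂ 1) (by omega) (by omega) ?_
      rw [Nat.cast_sub h.le, Nat.cast_sub h5.le]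
      linarith
    · exact absurd (hinj 0 s₁ hs₁ s₂ hs₂ h) hne12
    · have h5 : s₁ 1 < s₂ 1 := by
        by_contra hc
        push Not at hc
        have e1 : (s₂ 0 : ℝ) * deg f < s₁ 0 * deg f :=
          mul_lt_mul_of_pos_right (by exact_mod_cast h) hf
        have e2 : (s₂ 1 : ℝ) * deg g ≤ s₁ 1 * deg g :=
          mul_le_mul_of_nonneg_right (by exact_mod_cast hc) hg.le
        linarith
      refine exists_pq hf (m := s₁ 0 - s₂ 0) (n := s₂ 1 - s₁ 1) (by omega) (by omega) ?_
      rw [Nat.cast_sub h.le, Nat.cast_sub h5.le]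
      linarith
  refine ⟨p, q, δ, hp, hq, hpq, hδ, hfp, hgq, S.card - 1, by omega, e, ?_, hmax', ?_, ?_⟩
  · -- the size of e
    have hmod : ∀ x ∈ S.image (fun s => s 1), ∀ y ∈ S.image (fun s => s 1), x ≡ y [MOD p] := by
      intro x hx y hy
      rw [Finset.mem_image] at hx hy
      obtain ⟨s, hs, rfl⟩ := hx
      obtain ⟨s', hs', rfl⟩ := hy
      have h1 := hSe s hs
      have h2 := hSe s' hs'
      rw [hfp, hgq] at h1 h2
      have h3 : (s 0 : ℝ) * p + s 1 * q = s' 0 * p + s' 1 * q := by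
        have : δ * ((s 0 : ℝ) * p + s 1 * q) = δ * (s' 0 * p + s' 1 * q) := by linarith
        exact mul_left_cancel₀ hδ.ne' this
      have h4 : s 0 * p + s 1 * q = s' 0 * p + s' 1 * q := by exact_mod_cast h3
      have h5 : s 1 * q ≡ s' 1 * q [MOD p] := by
        have e1 : s 0 * p + s 1 * q ≡ s' 0 * p + s' 1 * q [MOD p] := by rw [h4]
        have e2 : s 0 * p + s 1 * q ≡ s 1 * q [MOD p] := by
          simp [Nat.ModEq]
        have e3 : s' 0 * p + s' 1 * q ≡ s' 1 * q [MOD p] := by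
          simp [Nat.ModEq]
        exact e2.symm.trans (e1.trans e3)
      exact Nat.ModEq.cancel_right_of_coprime hpq h5
    obtain ⟨x, hx, hx2⟩ := exists_large
      (Finset.Nonempty.image ⟨s₀, hs₀S⟩ _) hmod
    rw [Finset.card_image_of_injOn] at hx2
    · rw [Finset.mem_image] at hx
      obtain ⟨s, hs, rfl⟩ := hx
      have h1 := hSe s hs
      have h2 : ((S.card - 1 : ℕ) : ℝ) * p ≤ s 1 := by exact_mod_cast hx2
      have h3 : 0 ≤ (s 0 : ℝ) * deg f := mul_nonneg (Nat.cast_nonneg _) hf.le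
      calc ((S.card - 1 : ℕ) : ℝ) * (p * q * δ) = ((S.card - 1 : ℕ) : ℝ) * p * (q * δ) := by ring
        _ ≤ s 1 * (q * δ) := mul_le_mul_of_nonneg_right h2 (by rw [← hgq]; exact hg.le)
        _ = s 1 * deg g := by rw [hgq]
        _ ≤ e := by linarith
    · intro s hs s' hs' hss
      exact hinj 1 s hs s' hs' hss
  · -- first estimate
    set Q : Polynomial K := ∏ s ∈ S.erase s₀, (Polynomial.X - Polynomial.C ((s 1 : ℕ) : K)) with hQ
    have hQdeg : Q.natDegree = S.card - 1 := by
      rw [hQ, Polynomial.natDegree_prod_of_monic _ _ (fun s _ => Polynomial.monic_X_sub_C _)]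
      rw [Finset.sum_congr rfl (fun s _ => Polynomial.natDegree_X_sub_C _), Finset.sum_const,
        smul_eq_mul, mul_one, Finset.card_erase_of_mem hs₀S]
    have hQz : ∀ s ∈ S, s ≠ s₀ → Q.eval ((s 1 : ℕ) : K) = 0 := by
      intro s hs hne
      rw [hQ, Polynomial.eval_prod]
      apply Finset.prod_eq_zero (Finset.mem_erase.2 ⟨hne, hs⟩)
      simp
    have hQn : Q.eval ((s₀ 1 : ℕ) : K) ≠ 0 := by
      rw [hQ, Polynomial.eval_prod]
      apply Finset.prod_ne_zero_iff.2
      intro s hs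
      rw [Finset.mem_erase] at hs
      simp only [Polynomial.eval_sub, Polynomial.eval_X, Polynomial.eval_C]
      rw [sub_ne_zero]
      intro h
      exact hs.1 (hinj 1 s hs.2 s₀ hs₀S (Nat.cast_injective h).symm)
    have h1 : e ≤ deg (ev f g (PT 1 Q Φ)) := by
      apply key (fun s => Q.eval ((s 1 : ℕ) : K)) _ (fun s => coeff_PT 1 Q Φ s)
      rw [Finset.sum_eq_single s₀]
      · exact mul_ne_zero hQn (hτne s₀ hs₀S)
      · intro s hs hne
        rw [hQz s hs hne, zero_mul]
      · intro h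
        exact absurd hs₀S h
    have h2 := deg_ev_PT hV 1 Q Φ
    rw [hQdeg] at h2
    linarith
  · -- second estimate
    have hcast : ((S.card - 1 : ℕ) : ℝ) - 1 = ((S.card - 1 - 1 : ℕ) : ℝ) :=
      (Nat.cast_pred (by omega)).symm
    have main : ∀ t : Fin 2, e ≤ deg (ev f g (Th t Φ)) + ((S.card - 1 : ℕ) - 1 : ℝ) * kap f g := by
      intro t
      set Q : Polynomial K := ∏ s ∈ S.erase s₀, (Polynomial.X - Polynomial.C ((s t : ℕ) : K))
        with hQ
      have hQdeg : Q.natDegree = S.card - 1 := by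
        rw [hQ, Polynomial.natDegree_prod_of_monic _ _ (fun s _ => Polynomial.monic_X_sub_C _)]
        rw [Finset.sum_congr rfl (fun s _ => Polynomial.natDegree_X_sub_C _), Finset.sum_const,
          smul_eq_mul, mul_one, Finset.card_erase_of_mem hs₀S]
      have hQz : ∀ s ∈ S, s ≠ s₀ → Q.eval ((s t : ℕ) : K) = 0 := by
        intro s hs hne
        rw [hQ, Polynomial.eval_prod]
        apply Finset.prod_eq_zero (Finset.mem_erase.2 ⟨hne, hs⟩)
        simp
      have hQn : Q.eval ((s₀ t : ℕ) : K) ≠ 0 := by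
        rw [hQ, Polynomial.eval_prod]
        apply Finset.prod_ne_zero_iff.2
        intro s hs
        rw [Finset.mem_erase] at hs
        simp only [Polynomial.eval_sub, Polynomial.eval_X, Polynomial.eval_C]
        rw [sub_ne_zero]
        intro h
        exact hs.1 (hinj t s hs.2 s₀ hs₀S (Nat.cast_injective h).symm)
      have hR : ∀ x : K, Q.divX.eval x * x = Q.eval x - Q.coeff 0 := by
        intro x
        conv_rhs => rw [← Polynomial.divX_mul_X_add Q]
        simp
      have hRdeg : Q.divX.natDegree = S.card - 1 - 1 := by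
        rw [Polynomial.natDegree_divX_eq_natDegree_tsub_one, hQdeg]
      have h1 : e ≤ deg (ev f g (PT t Q.divX (Th t Φ))) := by
        apply key (fun s => Q.divX.eval ((s t : ℕ) : K) * (s t : ℕ))
        · intro s
          rw [coeff_PT, coeff_Th]
          ring
        · simp only [hR]
          have : ∑ s ∈ S, (Q.eval ((s t : ℕ) : K) - Q.coeff 0) * τ s =
              ∑ s ∈ S, Q.eval ((s t : ℕ) : K) * τ s - Q.coeff 0 * ∑ s ∈ S, τ s := by
            rw [Finset.mul_sum, ← Finset.sum_sub_distrib]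
            apply Finset.sum_congr rfl
            intro s _
            ring
          rw [this, hT, mul_zero, sub_zero, Finset.sum_eq_single s₀]
          · exact mul_ne_zero hQn (hτne s₀ hs₀S)
          · intro s hs hne
            rw [hQz s hs hne, zero_mul]
          · intro h
            exact absurd hs₀S h
      have h2 := deg_ev_PT hV t Q.divX (Th t Φ)
      rw [hRdeg, ← hcast] at h2
      linarith
    constructor
    · have h1 := main 0
      have h2 : deg (ev f g (Th 0 Φ)) ≤ deg f + deg (ev f g (pderiv 0 Φ)) := by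
        rw [Th, map_mul, ev_X0]
        exact deg_mul_le _ _
      linarith
    · have h1 := main 1
      have h2 : deg (ev f g (Th 1 Φ)) ≤ deg g + deg (ev f g (pderiv 1 Φ)) := by
        rw [Th, map_mul, ev_X1]
        exact deg_mul_le _ _
      linarith

/-- the dichotomy: either there is no cancellation, or the degrees are commensurable and the
degree is large -/
theorem dich [CharZero K] {f g : A K} (hf : 0 < deg f) (hg : 0 < deg g) (hV : 0 < V f g)
    (Φ : MvPolynomial (Fin 2) K) :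
    (∀ s, coeff s Φ ≠ 0 → fw f g s ≤ deg (ev f g Φ)) ∨
    (∃ p q : ℕ, ∃ δ : ℝ, 0 < p ∧ 0 < q ∧ p.Coprime q ∧ 0 < δ ∧ deg f = p * δ ∧ deg g = q * δ ∧
      (2 ≤ p → 2 ≤ q → p * q * δ + V f g ≤ deg f + deg g + deg (ev f g Φ) ∧
        p * q * δ ≤ deg f + deg (ev f g (pderiv 0 Φ)) ∧
        p * q * δ ≤ deg g + deg (ev f g (pderiv 1 Φ)) ∧
        ∀ s, coeff s Φ ≠ 0 → fw f g s ≤ 6 * deg (ev f g Φ))) := by
  rcases su_basic hf hg hV Φ with h | ⟨p, q, δ, hp, hq, hpq, hδ, hfp, hgq, r, hr, e, h1, h2, h3, h4, h5⟩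
  · exact Or.inl h
  refine Or.inr ⟨p, q, δ, hp, hq, hpq, hδ, hfp, hgq, fun hp2 hq2 => ?_⟩
  have hp2' : (2 : ℝ) ≤ p := by exact_mod_cast hp2
  have hq2' : (2 : ℝ) ≤ q := by exact_mod_cast hq2
  have hr' : (1 : ℝ) ≤ r := by exact_mod_cast hr
  have hkap : kap f g = deg f + deg g - V f g := rfl
  have hpqδ : (p : ℝ) * δ + q * δ ≤ p * q * δ := by
    have h6 : (p : ℝ) + q ≤ p * q := by nlinarith
    have := mul_le_mul_of_nonneg_right h6 hδ.le
    linarith
  have hpos : 0 < p * q * δ - kap f g := by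
    rw [hkap, hfp, hgq]; linarith
  have h7 : (r - 1 : ℝ) * kap f g ≤ (r - 1) * (p * q * δ) :=
    mul_le_mul_of_nonneg_left (by linarith) (by linarith)
  have h7' : (r - 1 : ℝ) * (p * q * δ - kap f g) ≥ 0 := mul_nonneg (by linarith) hpos.le
  refine ⟨?_, ?_, ?_, ?_⟩
  · have h8 : r * (p * q * δ) - r * kap f g ≤ deg (ev f g Φ) := by linarith
    have h9 : p * q * δ - kap f g ≤ r * (p * q * δ - kap f g) := by nlinarith
    rw [hkap] at h8 h9
    linarith
  · linarith
  · linarith
  · intro s hs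
    refine (h2 s hs).trans ?_
    have hcop3 : 3 ≤ p ∨ 3 ≤ q := by
      by_contra hc
      push Not at hc
      have e1 : p = 2 := by omega
      have e2 : q = 2 := by omega
      rw [e1, e2] at hpq
      exact absurd hpq (by decide)
    have hsix : (6 : ℝ) * (p + q) ≤ 5 * (p * q) := by
      rcases hcop3 with h | h
      · have h' : (3 : ℝ) ≤ p := by exact_mod_cast h
        nlinarith
      · have h' : (3 : ℝ) ≤ q := by exact_mod_cast h
        nlinarith
    have hVn := V_nonneg f g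
    have hk6 : 6 * kap f g ≤ 5 * (p * q * δ) := by
      rw [hkap, hfp, hgq]
      have := mul_le_mul_of_nonneg_right hsix hδ.le
      linarith
    have hr0 : (0 : ℝ) ≤ r := by linarith
    have h10 : 6 * (r * kap f g) ≤ 5 * (r * (p * q * δ)) := by nlinarith
    linarith

end Pool.Agent.Helper555_TN
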