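import Mathlib
import Pool.Agent.Helper555_TN.SUI

set_option autoImplicit false

/-!
# Elementary changes, Shestakov-Umirbaev pairs, reducible triples
-/

open MvPolynomial

namespace Pool.Agent.Helper555_TN

variable {K : Type*} [Field K]

/-- the subalgebra generated by two polynomials -/
noncomputable def Sb (f g : A K) : Subalgebra K (A K) := Algebra.adjoin K {f, g}

theorem left_mem (f g : A K) : f ∈ Sb f g := Algebra.subset_adjoin (by simp)
theorem right_mem (f g : A K) : g ∈ Sb f g := Algebra.subset_adjoin (by simp)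

theorem ev_mem (f g : A K) (Φ : MvPolynomial (Fin 2) K) : ev f g Φ ∈ Sb f g := by
  rw [ev_eq_sum]
  apply Subalgebra.sum_mem
  intro s _
  exact Subalgebra.mul_mem _ (Subalgebra.algebraMap_mem _ _)
    (Subalgebra.mul_mem _ (Subalgebra.pow_mem _ (left_mem f g) _)
      (Subalgebra.pow_mem _ (right_mem f g) _))

theorem exists_ev {f g x : A K} (h : x ∈ Sb f g) : ∃ Φ, ev f g Φ = x := by
  have h1 : Sb f g = (ev f g).range := by
    rw [Sb, ev, ← Algebra.adjoin_range_eq_range_aeval]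
    congr 1
    ext y
    simp [Matrix.range_cons, Matrix.range_empty]
    tauto
  rw [h1] at h
  exact h

theorem Sb_le {f g : A K} {S : Subalgebra K (A K)} (hf : f ∈ S) (hg : g ∈ S) : Sb f g ≤ S := by
  apply Algebra.adjoin_le
  intro x hx
  rcases hx with rfl | hx
  · exact hf
  · rw [Set.mem_singleton_iff] at hx
    rw [hx]; exact hg

theorem Sb_comm (f g : A K) : Sb f g = Sb g f := by
  rw [Sb, Sb, Set.pair_comm]

theorem C_mem (S : Subalgebra K (A K)) (c : K) : (C c : A K) ∈ S := S.algebraMap_mem c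

/-- elementary change of the third polynomial -/
def El (f g h h' : A K) : Prop := ∃ c : K, c ≠ 0 ∧ h' - c • h ∈ Sb f g

theorem El.refl (f g h : A K) : El f g h h := ⟨1, one_ne_zero, by simp⟩

theorem El.symm {f g h h' : A K} (H : El f g h h') : El f g h' h := by
  obtain ⟨c, hc, h1⟩ := H
  refine ⟨c⁻¹, inv_ne_zero hc, ?_⟩
  have h2 := (Sb f g).smul_mem h1 (-c⁻¹)
  have h3 : (-c⁻¹) • (h' - c • h) = h - c⁻¹ • h' := by
    rw [smul_sub, smul_smul, neg_mul, inv_mul_cancel₀ hc, neg_smul, neg_smul, one_smul]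
    abel
  rwa [h3] at h2

theorem El.trans {f g h h' h'' : A K} (H : El f g h h') (H' : El f g h' h'') : El f g h h'' := by
  obtain ⟨c, hc, h1⟩ := H
  obtain ⟨d, hd, h2⟩ := H'
  refine ⟨d * c, mul_ne_zero hd hc, ?_⟩
  have h3 := (Sb f g).add_mem h2 ((Sb f g).smul_mem h1 d)
  have h4 : h'' - d • h' + d • (h' - c • h) = h'' - (d * c) • h := by
    rw [smul_sub, smul_smul]; abel
  rwa [h4] at h3

theorem El.comm {f g h h' : A K} (H : El f g h h') : El g f h h' := by
  obtain ⟨c, hc, h1⟩ := H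
  exact ⟨c, hc, by rw [Sb_comm]; exact h1⟩

theorem El.mono {f g f' g' h h' : A K} (H : El f g h h') (hle : Sb f g ≤ Sb f' g') :
    El f' g' h h' := by
  obtain ⟨c, hc, h1⟩ := H
  exact ⟨c, hc, hle h1⟩

theorem El.add {f g h u : A K} (hu : u ∈ Sb f g) : El f g h (h + u) :=
  ⟨1, one_ne_zero, by simpa using hu⟩

theorem El.sub {f g h u : A K} (hu : u ∈ Sb f g) : El f g h (h - u) :=
  ⟨1, one_ne_zero, by simpa using hu⟩

/-- Keller triples are preserved -/
theorem Kel.el {f g h h' : A K} (H : Kel f g h) (E : El f g h h') : Kel f g h' := by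
  obtain ⟨c, hc, h1⟩ := E
  obtain ⟨d, hd, h2⟩ := H
  obtain ⟨Φ, hΦ⟩ := exists_ev h1
  have h3 : h' = c • h + ev f g Φ := by rw [hΦ]; abel
  refine ⟨c * d, mul_ne_zero hc hd, ?_⟩
  have h4 : Jm f g h' = c • Jm f g h := by
    have e1 : Jm f g h' = c • Jm f g h + Jm f g (ev f g Φ) := by
      rw [h3]
      simp only [Jm, M, map_add, Derivation.map_smul]
      simp only [smul_eq_C_mul]
      ring
    have e2 : Jm f g (ev f g Φ) = 0 := by
      simp only [Jm, M, der_ev]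
      ring
    rw [e1, e2, add_zero]
  rw [h4, h2, smul_eq_C_mul, C_mul]
  ring

/-- a Shestakov-Umirbaev pair `(F, G)` -/
structure SU (f₁ f₂ f₃ g₁ g₂ g₃ : A K) (s : ℕ) (δ : ℝ) (a b c : K) : Prop where
  h1 : g₁ = f₁ + a • f₃ ^ 2 + c • f₃
  h2 : g₂ = f₂ + b • f₃
  h3 : f₃ - g₃ ∈ Sb g₁ g₂
  habc : a ≠ 0 ∨ b ≠ 0 ∨ c ≠ 0
  hδ : 0 < δ
  hs : 3 ≤ s
  hodd : s % 2 = 1
  d1 : deg g₁ = s * δ
  d2 : deg g₂ = 2 * δ
  e2 : deg f₂ = 2 * δ
  e1 : deg f₁ ≤ s * δ
  e3 : deg f₃ < s * δ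
  e3' : ∀ k : ℕ, deg f₃ ≠ k * (2 * δ)
  d3 : deg g₃ < deg f₃
  v23 : V g₂ g₃ < s * δ + V g₁ g₂
  sp : 2 * deg f₃ = s * δ → deg g₃ < (s - 2) * δ + V g₁ g₂

/-- triples reducible to a triangular triple -/
inductive Good : A K → A K → A K → Prop
  | base {f g h : A K} : Kel f g h → deg f + deg g + deg h ≤ W → Good f g h
  | s12 {f g h : A K} : Good f g h → Good g f h
  | s23 {f g h : A K} : Good f g h → Good f h g
  | el {f g h h' : A K} : Good f g h' → El f g h h' → deg h' < deg h → Good f g h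
  | su {f₁ f₂ f₃ g₁ g₂ g₃ : A K} {s : ℕ} {δ : ℝ} {a b c : K} :
      SU f₁ f₂ f₃ g₁ g₂ g₃ s δ a b c → Good g₁ g₂ g₃ → Good f₁ f₂ f₃

theorem SU.kel {f₁ f₂ f₃ g₁ g₂ g₃ : A K} {s : ℕ} {δ : ℝ} {a b c : K}
    (H : SU f₁ f₂ f₃ g₁ g₂ g₃ s δ a b c) (HK : Kel g₁ g₂ g₃) : Kel f₁ f₂ f₃ := by
  have h1 : Kel g₁ g₂ f₃ := HK.el ⟨1, one_ne_zero, by rw [one_smul]; exact H.h3⟩
  have h2 : Kel g₁ f₂ f₃ := by
    have h3 : El g₁ f₃ g₂ f₂ := by
      refine ⟨1, one_ne_zero, ?_⟩
      rw [one_smul, H.h2]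
      have : f₂ - (f₂ + b • f₃) = (-b) • f₃ := by rw [neg_smul]; abel
      rw [this]
      exact Subalgebra.smul_mem _ (right_mem _ _) _
    exact (h1.swap23.el h3).swap23
  have h4 : El f₂ f₃ g₁ f₁ := by
    refine ⟨1, one_ne_zero, ?_⟩
    rw [one_smul, H.h1]
    have : f₁ - (f₁ + a • f₃ ^ 2 + c • f₃) = (-a) • f₃ ^ 2 + (-c) • f₃ := by
      rw [neg_smul, neg_smul]; abel
    rw [this]
    exact Subalgebra.add_mem _
      (Subalgebra.smul_mem _ (Subalgebra.pow_mem _ (right_mem _ _) _) _)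
      (Subalgebra.smul_mem _ (right_mem _ _) _)
  exact (h2.rot.el h4).rot'

theorem Good.kel {f g h : A K} (H : Good f g h) : Kel f g h := by
  induction H with
  | base h _ => exact h
  | s12 _ ih => exact ih.swap12
  | s23 _ ih => exact ih.swap23
  | el _ E _ ih => exact ih.el E.symm
  | su S _ ih => exact S.kel ih

theorem Good.rot {f g h : A K} (H : Good f g h) : Good g h f := H.s12.s23
theorem Good.rot' {f g h : A K} (H : Good f g h) : Good h f g := H.s23.s12
theorem Good.s13 {f g h : A K} (H : Good f g h) : Good h g f := H.s12.s23.s12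

/-- the third polynomial can be reduced -/
def RedG (f g h : A K) : Prop := ∃ h', El f g h h' ∧ deg h' < deg h ∧ Good f g h'

theorem RedG.comm {f g h : A K} (H : RedG f g h) : RedG g f h := by
  obtain ⟨h', h1, h2, h3⟩ := H
  exact ⟨h', h1.comm, h2, h3.s12⟩

/-- there is a Shestakov-Umirbaev reduction -/
def SUG (f g h : A K) : Prop := ∃ g₁ g₂ g₃ s δ a b c, SU f g h g₁ g₂ g₃ s δ a b c ∧ Good g₁ g₂ g₃

theorem Good.inv {f g h : A K} (H : Good f g h) : deg f + deg g + deg h ≤ W ∨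
    (RedG f g h ∨ RedG g h f ∨ RedG h f g) ∨
    (SUG f g h ∨ SUG f h g ∨ SUG g f h ∨ SUG g h f ∨ SUG h f g ∨ SUG h g f) := by
  induction H with
  | base _ h => exact Or.inl h
  | s12 _ ih =>
    rcases ih with h | (h | h | h) | h
    · left; linarith
    · have := h.comm; tauto
    · have := h.comm; tauto
    · have := h.comm; tauto
    · tauto
  | s23 _ ih =>
    rcases ih with h | (h | h | h) | h
    · left; linarith
    · have := h.comm; tauto
    · have := h.comm; tauto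
    · have := h.comm; tauto
    · tauto
  | el h1 E hd _ => exact Or.inr (Or.inl (Or.inl ⟨_, E, hd, h1⟩))
  | su S h1 _ => exact Or.inr (Or.inr (Or.inl ⟨_, _, _, _, _, _, _, _, S, h1⟩))

end Pool.Agent.Helper555_TN
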