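import Mathlib
import Pool.Agent.Helper555_TN.Red

set_option autoImplicit false

/-!
# Values of two-generated subalgebras, properties of Shestakov-Umirbaev pairs
-/

open MvPolynomial

namespace Pool.Agent.Helper555_TN

variable {K : Type*} [Field K]

/-- the bounds in the case of cancellation -/
structure HardW (f g : A K) (Φ : MvPolynomial (Fin 2) K) (l : ℝ) : Prop where
  n1 : l + V f g ≤ deg f + deg g + deg (ev f g Φ)
  n2 : l ≤ deg f + deg (ev f g (pderiv 0 Φ))
  n3 : l ≤ deg g + deg (ev f g (pderiv 1 Φ))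
  n4 : ∀ s, coeff s Φ ≠ 0 → fw f g s ≤ 6 * deg (ev f g Φ)

theorem val [CharZero K] {f g x : A K} (hf : 0 < deg f) (hg : 0 < deg g) (hV : 0 < V f g)
    (hx : x ∈ Sb f g) (hx0 : 0 < deg x) :
    (∃ i j : ℕ, (i : ℝ) * deg f + j * deg g = deg x) ∨
    (∃ p q : ℕ, ∃ δ : ℝ, 0 < p ∧ 0 < q ∧ p.Coprime q ∧ 0 < δ ∧ deg f = p * δ ∧ deg g = q * δ ∧
      (2 ≤ p → 2 ≤ q → ∃ Φ, ev f g Φ = x ∧ HardW f g Φ (p * q * δ))) := by
  obtain ⟨Φ, rfl⟩ := exists_ev hx
  rcases dich hf hg hV Φ with h | ⟨p, q, δ, hp, hq, hpq, hδ, h1, h2, h3⟩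
  · left
    by_contra hc
    push Not at hc
    have h1 : deg (ev f g Φ) < deg (ev f g Φ) := by
      by_cases hΦ : Φ.support.Nonempty
      · obtain ⟨s₀, hs₀, hmax⟩ := Finset.exists_max_image Φ.support (fw f g) hΦ
        have h2 : fw f g s₀ < deg (ev f g Φ) :=
          lt_of_le_of_ne (h s₀ (mem_support_iff.1 hs₀)) (hc (s₀ 0) (s₀ 1))
        refine lt_of_le_of_lt (deg_ev_le f g Φ (fw_nonneg f g s₀) ?_) h2
        intro s hs
        exact hmax s (mem_support_iff.2 hs)
      · rw [Finset.not_nonempty_iff_eq_empty, support_eq_empty] at hΦ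
        rw [hΦ, map_zero, deg_zero] at hx0
        exact absurd hx0 (lt_irrefl _)
    exact lt_irrefl _ h1
  · right
    refine ⟨p, q, δ, hp, hq, hpq, hδ, h1, h2, fun hp2 hq2 => ⟨Φ, rfl, ?_⟩⟩
    obtain ⟨e1, e2, e3, e4⟩ := h3 hp2 hq2
    exact ⟨e1, e2, e3, e4⟩

/-- identification of the coprime pair -/
theorem pq_eq {p q m n : ℕ} {x y δ : ℝ} (hδ : 0 < δ) (hpq : p.Coprime q) (hmn : m.Coprime n)
    (hx : x = p * δ) (hy : y = q * δ) (h : (n : ℝ) * x = m * y) : p = m ∧ q = n := by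
  have h1 : (n : ℝ) * p = m * q := by
    have : δ * ((n : ℝ) * p) = δ * (m * q) := by rw [hx, hy] at h; linarith
    exact mul_left_cancel₀ hδ.ne' this
  have h2 : n * p = m * q := by exact_mod_cast h1
  have d1 : p ∣ m := by
    have : p ∣ m * q := by rw [← h2]; exact Dvd.intro_left n rfl
    exact hpq.dvd_of_dvd_mul_right this
  have d2 : m ∣ p := by
    have : m ∣ n * p := by rw [h2]; exact Dvd.intro q rfl
    exact hmn.dvd_of_dvd_mul_left this
  have d3 : q ∣ n := by
    have : q ∣ n * p := by rw [h2]; exact Dvd.intro_left m rfl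
    exact hpq.symm.dvd_of_dvd_mul_right this
  have d4 : n ∣ q := by
    have : n ∣ m * q := by rw [← h2]; exact Dvd.intro p rfl
    exact hmn.symm.dvd_of_dvd_mul_left this
  exact ⟨Nat.dvd_antisymm d1 d2, Nat.dvd_antisymm d3 d4⟩

theorem V_eq_of {a b f g u : A K} (P : Fin 3 → Fin 3 → A K)
    (h : ∀ i j, M i j a b = P i j + u * M i j f g) (hu : u ≠ 0) (hV : 0 < V f g)
    (hP : ∀ i j, deg (P i j) < deg u + V f g) : V a b = deg u + V f g := by
  apply le_antisymm
  · apply V_le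
    intro i j
    rw [h]
    refine deg_add_le_of (hP i j).le ((deg_mul_le _ _).trans ?_)
    have := le_V i j f g
    linarith
  · obtain ⟨i, j, hij⟩ := exists_V f g
    have hM : M i j f g ≠ 0 := ne_zero_of_deg_pos (by rw [hij]; exact hV)
    have h1 : deg (u * M i j f g) = deg u + V f g := by rw [deg_mul hu hM, hij]
    have h2 : deg (M i j a b) = deg u + V f g := by
      rw [h, deg_add_eq_right, h1]
      rw [h1]; exact hP i j
    rw [← h2]
    exact le_V i j a b

/-- relation between the degrees of the two partial derivatives -/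
theorem deriv_rel [CharZero K] {f g : A K} {Φ : MvPolynomial (Fin 2) K} {l : ℝ}
    (hf : 0 < deg f) (hg : 0 < deg g) (H : HardW f g Φ l)
    (hl : deg (ev f g Φ) < l) (h0 : deg f < l) (h0' : deg g < l) :
    deg f + deg (ev f g (pderiv 0 Φ)) = deg g + deg (ev f g (pderiv 1 Φ)) := by
  have h1 := eul_ev f g Φ
  have e1 : ev f g (pderiv 0 Φ) ≠ 0 := by
    apply ne_zero_of_deg_pos
    have := H.n2
    linarith
  have e2 : ev f g (pderiv 1 Φ) ≠ 0 := by
    apply ne_zero_of_deg_pos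
    have := H.n3
    linarith
  have e3 : eul f ≠ 0 := ne_zero_of_deg_pos (by rw [deg_eul]; exact hf)
  have e4 : eul g ≠ 0 := ne_zero_of_deg_pos (by rw [deg_eul]; exact hg)
  have d1 : deg (ev f g (pderiv 0 Φ) * eul f) = deg (ev f g (pderiv 0 Φ)) + deg f := by
    rw [deg_mul e1 e3, deg_eul]
  have d2 : deg (ev f g (pderiv 1 Φ) * eul g) = deg (ev f g (pderiv 1 Φ)) + deg g := by
    rw [deg_mul e2 e4, deg_eul]
  have d3 : deg (ev f g Φ) = deg (ev f g (pderiv 0 Φ) * eul f + ev f g (pderiv 1 Φ) * eul g) := by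
    rw [← h1, deg_eul]
  have n2 := H.n2
  have n3 := H.n3
  rcases lt_trichotomy (deg (ev f g (pderiv 0 Φ) * eul f))
    (deg (ev f g (pderiv 1 Φ) * eul g)) with h | h | h
  · rw [deg_add_eq_right h] at d3
    linarith
  · linarith
  · rw [deg_add_eq_left h] at d3
    linarith

/-- the properties of Shestakov-Umirbaev pairs -/
structure SUProp (f₁ f₂ f₃ : A K) (s : ℕ) (δ : ℝ) (a b c : K) (v x : ℝ) : Prop where
  hv : 0 < v
  lo : (s - 2) * δ + v ≤ deg f₃
  xs : s * δ ≤ x
  v23 : V f₂ f₃ = x + v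
  v13 : V f₁ f₃ = x + (s - 2) * δ + v
  v12a : a ≠ 0 → V f₁ f₂ = deg f₃ + x + v
  v12b : a = 0 → b ≠ 0 → V f₁ f₂ = x + (s - 2) * δ + v
  v12c : a = 0 → b = 0 → V f₁ f₂ = x + v
  top : deg f₁ = s * δ ∨ (s = 3 ∧ 2 * deg f₃ = 3 * δ ∧ a ≠ 0 ∧ 5 / 2 * δ + v ≤ deg f₁ ∧
    deg f₁ < 3 * δ)
  apar : a ≠ 0 → 2 * deg f₃ ≤ s * δ
  bpar : b ≠ 0 → deg f₃ < 2 * δ

theorem SU.props [CharZero K] {f₁ f₂ f₃ g₁ g₂ g₃ : A K} {s : ℕ} {δ : ℝ} {a b c : K}
    (H : SU f₁ f₂ f₃ g₁ g₂ g₃ s δ a b c) (HK : Kel g₁ g₂ g₃) :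
    ∃ x, SUProp f₁ f₂ f₃ s δ a b c (V g₁ g₂) x := by
  have hδ := H.hδ
  have hs : (3 : ℝ) ≤ s := by exact_mod_cast H.hs
  have hsδ : 3 * δ ≤ s * δ := mul_le_mul_of_nonneg_right hs hδ.le
  set v := V g₁ g₂ with hv
  have hvpos : 0 < v := HK.rot'.V_pos
  have hf3 : 0 < deg f₃ := lt_of_le_of_lt (deg_nonneg _) H.d3
  have hg1 : 0 < deg g₁ := by rw [H.d1]; linarith
  have hg2 : 0 < deg g₂ := by rw [H.d2]; linarith
  have hdχ : deg (f₃ - g₃) = deg f₃ := deg_sub_eq_left H.d3
  obtain ⟨Φ, hΦ, HW⟩ : ∃ Φ, ev g₁ g₂ Φ = f₃ - g₃ ∧ HardW g₁ g₂ Φ (2 * (s * δ)) := by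
    rcases val hg1 hg2 hvpos H.h3 (by rw [hdχ]; exact hf3) with ⟨i, j, hij⟩ |
      ⟨p, q, ε, hp, hq, hpq, hε, h1, h2, h3⟩
    · exfalso
      rw [hdχ, H.d1, H.d2] at hij
      have h3 := H.e3
      rcases Nat.eq_zero_or_pos i with rfl | hi
      · apply H.e3' j
        rw [← hij]; simp
      · have h4 : (1 : ℝ) ≤ i := by exact_mod_cast hi
        have h5 : (s * δ : ℝ) ≤ i * (s * δ) := by nlinarith
        have h6 : 0 ≤ (j : ℝ) * (2 * δ) := by positivity
        linarith
    · have hcop : s.Coprime 2 := by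
        rw [Nat.coprime_two_right, Nat.odd_iff]
        exact H.hodd
      obtain ⟨rfl, rfl⟩ := pq_eq hε hpq hcop h1 h2 (by rw [H.d1, H.d2]; push_cast; ring)
      obtain ⟨Φ, hΦ, HW⟩ := h3 (by have := H.hs; omega) le_rfl
      refine ⟨Φ, hΦ, ?_⟩
      have : (p : ℝ) * (2 : ℕ) * ε = 2 * (p * δ) := by
        have e1 := H.d1
        rw [h1] at e1
        push_cast
        linarith
      rwa [this] at HW
  have hdΦ : deg (ev g₁ g₂ Φ) = deg f₃ := by rw [hΦ, hdχ]
  set x := deg (ev g₁ g₂ (pderiv 0 Φ)) with hx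
  have n2 := HW.n2
  have n1 := HW.n1
  rw [hdΦ] at n1
  have e3 := H.e3
  have d1 := H.d1
  have d2 := H.d2
  have hrel : deg g₁ + x = deg g₂ + deg (ev g₁ g₂ (pderiv 1 Φ)) :=
    deriv_rel hg1 hg2 HW (by rw [hdΦ]; linarith) (by linarith) (by linarith)
  have hy : deg (ev g₁ g₂ (pderiv 1 Φ)) = x + (s - 2) * δ := by linarith
  have xs : s * δ ≤ x := by linarith
  have hx0 : 0 < x := by linarith
  have hev0 : ev g₁ g₂ (pderiv 0 Φ) ≠ 0 := ne_zero_of_deg_pos hx0
  have hev1 : ev g₁ g₂ (pderiv 1 Φ) ≠ 0 := ne_zero_of_deg_pos (by rw [hy]; linarith)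
  have hlo : (s - 2) * δ + v ≤ deg f₃ := by linarith
  have hf3eq : f₃ = g₃ + ev g₁ g₂ Φ := by rw [hΦ]; abel
  have v23 := H.v23
  -- V g₁ g₃
  have v13 : V g₁ g₃ < (2 * s - 2) * δ + v := by
    have h1 := HK.swap12.tri
    have d3 := H.d3
    rcases le_max_iff.1 h1 with h2 | h2
    · linarith
    · rw [V_comm g₁ g₂] at h2
      have : V g₁ g₂ = v := rfl
      linarith
  -- V g₂ f₃
  have w23 : V g₂ f₃ = x + v := by
    have hvv : V g₂ g₁ = v := V_comm g₁ g₂
    rw [hx, ← hvv]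
    have : deg (ev g₁ g₂ (pderiv 0 Φ)) = deg (- ev g₁ g₂ (pderiv 0 Φ)) := (deg_neg _).symm
    rw [← V_comm, this]
    apply V_eq_of (fun i j => M i j g₃ g₂)
    · intro i j
      rw [hf3eq, M_add_left, M_ev_right, M_swap i j g₂ g₁]
      ring
    · exact neg_ne_zero.2 hev0
    · rw [hvv]; exact hvpos
    · intro i j
      rw [deg_neg, hvv, ← hx]
      have := le_V i j g₃ g₂
      rw [V_comm] at this
      linarith
  have w13 : V g₁ f₃ = x + (s - 2) * δ + v := by
    rw [← hy]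
    apply V_eq_of (fun i j => M i j g₁ g₃)
    · intro i j
      rw [hf3eq, M_add_right, M_ev_left]
    · exact hev1
    · exact hvpos
    · intro i j
      have := le_V i j g₁ g₃
      rw [hy]
      have : V g₁ g₂ = v := rfl
      linarith
  have hf1 : f₁ = g₁ - a • f₃ ^ 2 - c • f₃ := by rw [H.h1]; abel
  have hf2 : f₂ = g₂ - b • f₃ := by rw [H.h2]; abel
  have Msq : ∀ i j (u : A K), M i j (f₃ ^ 2) u = 2 * f₃ * M i j f₃ u := by
    intro i j u
    simp only [M, pow_two, Derivation.leibniz, smul_eq_mul]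
    ring
  have z23 : V f₂ f₃ = x + v := by
    rw [← w23]
    have : ∀ i j, M i j f₂ f₃ = M i j g₂ f₃ := by
      intro i j
      rw [hf2, M_sub_left, M_smul_left, M_self]; simp
    simp only [V, this]
  have z13 : V f₁ f₃ = x + (s - 2) * δ + v := by
    rw [← w13]
    have : ∀ i j, M i j f₁ f₃ = M i j g₁ f₃ := by
      intro i j
      rw [hf1, M_sub_left, M_sub_left, M_smul_left, M_smul_left, M_self, Msq, M_self]; simp
    simp only [V, this]
  have M12 : ∀ i j, M i j f₁ f₂ = M i j g₁ g₂ - b • M i j g₁ f₃ -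
      (C (2 * a) * f₃ + C c) * M i j f₃ g₂ := by
    intro i j
    rw [hf1, hf2]
    rw [M_sub_left, M_sub_left, M_smul_left, M_smul_left, M_sub_right, M_sub_right, M_sub_right,
      M_smul_right, M_smul_right, M_smul_right, M_self, Msq, Msq, M_self]
    simp only [smul_eq_C_mul, C_mul, map_ofNat]
    ring
  have V32 : V f₃ g₂ = x + v := by rw [V_comm, w23]
  have hxvpos : 0 < x + v := by linarith
  have hdegu : ∀ r : K, r ≠ 0 → deg (C (2 * r) * f₃ + C c) = deg f₃ := by
    intro r hr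
    have h2r : (2 * r : K) ≠ 0 := mul_ne_zero two_ne_zero hr
    rw [deg_add_eq_left, deg_C_mul h2r]
    rw [deg_C_mul h2r, deg_C]
    exact hf3
  have z12a : a ≠ 0 → V f₁ f₂ = deg f₃ + x + v := by
    intro ha
    have hu := hdegu a ha
    have hune : (C (2 * a) * f₃ + C c : A K) ≠ 0 := ne_zero_of_deg_pos (by rw [hu]; exact hf3)
    have key : V f₁ f₂ = deg (-(C (2 * a) * f₃ + C c) : A K) + V f₃ g₂ := by
      apply V_eq_of (fun i j => M i j g₁ g₂ - b • M i j g₁ f₃)
      · intro i j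
        rw [M12]; ring
      · exact neg_ne_zero.2 hune
      · rw [V32]; exact hxvpos
      · intro i j
        rw [deg_neg, hu, V32]
        apply deg_sub_lt_of
        · have := le_V i j g₁ g₂
          have : V g₁ g₂ = v := rfl
          linarith
        · refine (deg_smul_le _ _).trans_lt ?_
          have := le_V i j g₁ f₃
          rw [w13] at this
          linarith
    rw [key, deg_neg, hu, V32]; ring
  have z12b : a = 0 → b ≠ 0 → V f₁ f₂ = x + (s - 2) * δ + v := by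
    intro ha hb
    have hCb : (C (-b) : A K) ≠ 0 := by
      rw [Ne, C_eq_zero]; exact neg_ne_zero.2 hb
    have key : V f₁ f₂ = deg (C (-b) : A K) + V g₁ f₃ := by
      apply V_eq_of (fun i j => M i j g₁ g₂ - C c * M i j f₃ g₂)
      · intro i j
        rw [M12, ha]
        simp only [smul_eq_C_mul, mul_zero, C_0, zero_mul, zero_add, C_neg]
        ring
      · exact hCb
      · rw [w13]; linarith
      · intro i j
        rw [deg_C, w13]
        apply deg_sub_lt_of
        · have := le_V i j g₁ g₂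
          have : V g₁ g₂ = v := rfl
          linarith
        · rw [← smul_eq_C_mul]
          refine (deg_smul_le _ _).trans_lt ?_
          have := le_V i j f₃ g₂
          rw [V32] at this
          linarith
    rw [key, deg_C, w13]; ring
  have z12c : a = 0 → b = 0 → V f₁ f₂ = x + v := by
    intro ha hb
    have hc : c ≠ 0 := by
      rcases H.habc with h | h | h
      · exact absurd ha h
      · exact absurd hb h
      · exact h
    have hCc : (C (-c) : A K) ≠ 0 := by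
      rw [Ne, C_eq_zero]; exact neg_ne_zero.2 hc
    have key : V f₁ f₂ = deg (C (-c) : A K) + V f₃ g₂ := by
      apply V_eq_of (fun i j => M i j g₁ g₂)
      · intro i j
        rw [M12, ha, hb]
        simp only [zero_smul, mul_zero, C_0, zero_mul, zero_add, C_neg]
        ring
      · exact hCc
      · rw [V32]; exact hxvpos
      · intro i j
        rw [deg_C, V32]
        have := le_V i j g₁ g₂
        have : V g₁ g₂ = v := rfl
        linarith
    rw [key, deg_C, V32]; ring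
  have hdsq : a ≠ 0 → deg (a • f₃ ^ 2 + c • f₃) = 2 * deg f₃ := by
    intro ha
    have hf3ne : f₃ ≠ 0 := ne_zero_of_deg_pos hf3
    have h1 : deg (a • f₃ ^ 2) = 2 * deg f₃ := by
      rw [deg_smul ha, deg_pow 2 hf3ne]; norm_num
    rw [deg_add_eq_left, h1]
    rw [h1]
    refine (deg_smul_le _ _).trans_lt ?_
    linarith
  have hapar : a ≠ 0 → 2 * deg f₃ ≤ s * δ := by
    intro ha
    rw [← hdsq ha]
    have : a • f₃ ^ 2 + c • f₃ = g₁ - f₁ := by rw [H.h1]; abel
    rw [this]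
    exact deg_sub_le_of d1.le H.e1
  have hbpar : b ≠ 0 → deg f₃ < 2 * δ := by
    intro hb
    have h1 : deg f₃ ≤ 2 * δ := by
      rw [← deg_smul hb]
      have : b • f₃ = g₂ - f₂ := by rw [H.h2]; abel
      rw [this]
      exact deg_sub_le_of d2.le H.e2.le
    exact lt_of_le_of_ne h1 (by have := H.e3' 1; simpa using this)
  refine ⟨x, hvpos, hlo, xs, z23, z13, z12a, z12b, z12c, ?_, hapar, hbpar⟩
  rcases H.e1.eq_or_lt with h | h
  · exact Or.inl h
  · right
    have h1 : deg (a • f₃ ^ 2 + c • f₃) = s * δ := by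
      have h2 : a • f₃ ^ 2 + c • f₃ = g₁ - f₁ := by rw [H.h1]; abel
      rw [h2, deg_sub_eq_left, d1]
      rw [d1]; exact h
    have ha : a ≠ 0 := by
      rintro rfl
      rw [zero_smul, zero_add] at h1
      have := deg_smul_le c f₃
      linarith
    have h2 : 2 * deg f₃ = s * δ := by rw [← hdsq ha, h1]
    have hs3 : s = 3 := by
      have h3 : ((s : ℝ) - 4) * δ < 0 := by linarith
      have h4 : (s : ℝ) < 4 := by
        by_contra hc
        push Not at hc
        have : 0 ≤ ((s : ℝ) - 4) * δ := mul_nonneg (by linarith) hδ.le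
        linarith
      have h5 : s < 4 := by exact_mod_cast h4
      have := H.hs
      omega
    have h3 := z12a ha
    have h4 := V_le_add f₁ f₂
    rw [h3, H.e2] at h4
    subst hs3
    push_cast at h2 xs h
    refine ⟨rfl, h2, ha, ?_, h⟩
    linarith

/-- the total degree decreases in a Shestakov-Umirbaev reduction -/
theorem SU.sum_lt [CharZero K] {f₁ f₂ f₃ g₁ g₂ g₃ : A K} {s : ℕ} {δ : ℝ} {a b c : K}
    (H : SU f₁ f₂ f₃ g₁ g₂ g₃ s δ a b c) (HK : Kel g₁ g₂ g₃) :
    deg g₁ + deg g₂ + deg g₃ < deg f₁ + deg f₂ + deg f₃ := by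
  obtain ⟨x, P⟩ := H.props HK
  have d1 := H.d1
  have d2 := H.d2
  have e2 := H.e2
  have d3 := H.d3
  rcases P.top with h | ⟨rfl, h1, -, h2, h3⟩
  · linarith
  · have := H.sp (by push_cast; linarith)
    push_cast at this d1
    linarith

end Pool.Agent.Helper555_TN
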