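import Mathlib
import Pool.Agent.Helper555_TN.SUP

set_option autoImplicit false

/-!
# Key lemmas on reducible triples
-/

open MvPolynomial

namespace Pool.Agent.Helper555_TN

variable {K : Type*} [Field K]

/-- the rank of a real number -/
noncomputable def rk (r : ℝ) : ℕ := (finite_wt_lt r).toFinset.card

theorem rk_lt {r r' : ℝ} {a : Fin 3 →₀ ℕ} (ha : (wt a : ℝ) = r') (h : r' < r) : rk r' < rk r := by
  apply Finset.card_lt_card
  rw [Finset.ssubset_iff_of_subset]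
  · refine ⟨a, ?_, ?_⟩
    · simp [ha, h]
    · simp [ha]
  · intro b hb
    simp only [Set.Finite.mem_toFinset, Set.mem_ofPred_eq] at hb ⊢
    linarith

theorem exists_wt (f : A K) : ∃ a, (wt a : ℝ) = deg f := by
  by_cases hf : f = 0
  · exact ⟨0, by rw [hf, deg_zero, wt_zero]; rfl⟩
  · obtain ⟨a, -, ha⟩ := exists_lead hf
    exact ⟨a, ha⟩

theorem exists_wt_sum (f g h : A K) : ∃ a, (wt a : ℝ) = deg f + deg g + deg h := by
  obtain ⟨a, ha⟩ := exists_wt f
  obtain ⟨b, hb⟩ := exists_wt g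
  obtain ⟨c, hc⟩ := exists_wt h
  refine ⟨a + b + c, ?_⟩
  rw [wt_add, wt_add]
  push_cast
  rw [ha, hb, hc]

/-- a reduction comes from a value -/
theorem El.val {f g h h' : A K} (E : El f g h h') (hlt : deg h' < deg h) :
    ∃ x ∈ Sb f g, deg x = deg h := by
  obtain ⟨c, hc, h1⟩ := E
  refine ⟨_, h1, ?_⟩
  rw [← deg_smul hc h]
  apply deg_sub_eq_right
  rwa [deg_smul hc]

/-- a value gives a reduction -/
theorem El.of_val {f g h x : A K} (hx : x ∈ Sb f g) (h0 : 0 < deg h) (hxh : deg x = deg h) :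
    ∃ c : K, c ≠ 0 ∧ El f g h (h - c • x) ∧ deg (h - c • x) < deg h := by
  obtain ⟨c, hc, h1⟩ := exists_cancel h0 hxh.symm
  refine ⟨c, hc, ⟨1, one_ne_zero, ?_⟩, h1⟩
  rw [one_smul]
  have : h - c • x - h = (-c) • x := by rw [neg_smul]; abel
  rw [this]
  exact Subalgebra.smul_mem _ hx _

theorem exists_min {f g h : A K} (HK : Kel f g h) :
    ∃ h', El f g h h' ∧ deg h' ≤ deg h ∧ ∀ x ∈ Sb f g, deg x ≠ deg h' := by
  induction hn : rk (deg h) using Nat.strong_induction_on generalizing h with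
  | _ n ih =>
    by_cases hc : ∀ x ∈ Sb f g, deg x ≠ deg h
    · exact ⟨h, El.refl _ _ _, le_rfl, hc⟩
    · push Not at hc
      obtain ⟨x, hx, hxh⟩ := hc
      have h0 : 0 < deg h := HK.rot'.deg_pos
      obtain ⟨c, hc, hE, hlt⟩ := El.of_val hx h0 hxh
      obtain ⟨a, ha⟩ := exists_wt (h - c • x)
      obtain ⟨h', h1, h2, h3⟩ := ih (rk (deg (h - c • x))) (by rw [← hn]; exact rk_lt ha hlt)
        (HK.el hE) rfl
      exact ⟨h', hE.trans h1, h2.trans hlt.le, h3⟩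

/-- good triples of total degree less than `d` stay good under elementary changes -/
def Cl (K : Type*) [Field K] (d : ℝ) : Prop :=
  ∀ f g h h' : A K, Good f g h → deg f + deg g + deg h < d → El f g h h' → Good f g h'

theorem Cl.first {d : ℝ} (H : Cl K d) {f g h f' : A K} (hG : Good f g h)
    (hd : deg f + deg g + deg h < d) (E : El g h f f') : Good f' g h :=
  (H g h f f' hG.rot (by linarith) E).rot'

theorem Cl.second {d : ℝ} (H : Cl K d) {f g h g' : A K} (hG : Good f g h)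
    (hd : deg f + deg g + deg h < d) (E : El f h g g') : Good f g' h :=
  (H f h g g' hG.s23 (by linarith) E).s23

/-- crude form of the dichotomy -/
theorem val2 [CharZero K] {f g x : A K} (hf : 0 < deg f) (hg : 0 < deg g) (hV : 0 < V f g)
    (hx : x ∈ Sb f g) (hx0 : 0 < deg x) :
    (∃ i j : ℕ, (i : ℝ) * deg f + j * deg g = deg x) ∨
    (∃ k : ℕ, 1 ≤ k ∧ deg g = k * deg f) ∨ (∃ k : ℕ, 2 ≤ k ∧ deg f = k * deg g) ∨
    (V f g + deg f ≤ deg x + deg g ∧ V f g + deg g ≤ deg x + deg f) := by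
  rcases val hf hg hV hx hx0 with h | ⟨p, q, δ, hp, hq, hpq, hδ, h1, h2, h3⟩
  · exact Or.inl h
  right
  rcases Nat.lt_or_ge p 2 with hp2 | hp2
  · left
    have : p = 1 := by omega
    subst this
    exact ⟨q, hq, by rw [h2, h1]; push_cast; ring⟩
  right
  rcases Nat.lt_or_ge q 2 with hq2 | hq2
  · left
    have : q = 1 := by omega
    subst this
    exact ⟨p, hp2, by rw [h2, h1]; push_cast; ring⟩
  right
  obtain ⟨Φ, hΦ, HW⟩ := h3 hp2 hq2
  have n1 := HW.n1
  rw [hΦ] at n1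
  have hp2' : (2 : ℝ) ≤ p := by exact_mod_cast hp2
  have hq2' : (2 : ℝ) ≤ q := by exact_mod_cast hq2
  have e1 : 2 * deg f ≤ p * q * δ := by
    rw [h1]
    have : 0 ≤ (p : ℝ) * δ := by positivity
    nlinarith
  have e2 : 2 * deg g ≤ p * q * δ := by
    rw [h2]
    have : 0 ≤ (q : ℝ) * δ := by positivity
    nlinarith
  constructor <;> linarith

/-- data of a Shestakov-Umirbaev reduction -/
theorem SUG.data [CharZero K] {f g h : A K} (H : SUG f g h) :
    ∃ (g₁ g₂ g₃ : A K) (s : ℕ) (δ : ℝ) (a b c : K) (x : ℝ), SU f g h g₁ g₂ g₃ s δ a b c ∧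
      Good g₁ g₂ g₃ ∧ SUProp f g h s δ a b c (V g₁ g₂) x ∧ 0 < δ ∧ deg g = 2 * δ ∧
      deg h < deg f ∧ 5 / 2 * δ ≤ deg f ∧ 3 ≤ s ∧ s % 2 = 1 ∧ 3 * δ ≤ s * δ ∧
      x + V g₁ g₂ ≤ V f g := by
  obtain ⟨g₁, g₂, g₃, s, δ, a, b, c, S, hG⟩ := H
  obtain ⟨x, P⟩ := S.props hG.kel
  have hδ := S.hδ
  have hs : (3 : ℝ) ≤ s := by exact_mod_cast S.hs
  have hsδ : 3 * δ ≤ s * δ := mul_le_mul_of_nonneg_right hs hδ.le
  have hv := P.hv
  refine ⟨g₁, g₂, g₃, s, δ, a, b, c, x, S, hG, P, hδ, S.e2, ?_, ?_, S.hs, S.hodd, hsδ, ?_⟩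
  · rcases P.top with h1 | ⟨h1, h2, h3, h4, h5⟩
    · rw [h1]; exact S.e3
    · linarith
  · rcases P.top with h1 | ⟨h1, h2, h3, h4, h5⟩
    · rw [h1]; linarith
    · linarith
  · have hh : 0 ≤ deg h := deg_nonneg h
    by_cases ha : a = 0
    · by_cases hb : b = 0
      · rw [P.v12c ha hb]
      · rw [P.v12b ha hb]; linarith
    · rw [P.v12a ha]; linarith

end Pool.Agent.Helper555_TN
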