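import Mathlib
import Pool.Agent.Helper555_TN.Key

set_option autoImplicit false

/-!
# The exceptional configurations
-/

open MvPolynomial

namespace Pool.Agent.Helper555_TN

variable {K : Type*} [Field K]

theorem nat_eq_zero_or_one_le (i : ℕ) : (i : ℝ) = 0 ∨ (1 : ℝ) ≤ i := by
  rcases Nat.eq_zero_or_pos i with rfl | h
  · left; simp
  · right; exact_mod_cast h

theorem nat_cases2 (i : ℕ) : (i : ℝ) = 0 ∨ (i : ℝ) = 1 ∨ (2 : ℝ) ≤ i := by
  rcases Nat.lt_or_ge i 1 with h | h
  · left; have : i = 0 := by omega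
    rw [this]; simp
  · right
    rcases Nat.lt_or_ge i 2 with h2 | h2
    · left; have : i = 1 := by omega
      rw [this]; simp
    · right; exact_mod_cast h2

theorem nat_cases3 (i : ℕ) : (i : ℝ) = 0 ∨ (i : ℝ) = 1 ∨ (i : ℝ) = 2 ∨ (3 : ℝ) ≤ i := by
  rcases nat_cases2 i with h | h | h
  · exact Or.inl h
  · exact Or.inr (Or.inl h)
  · right; right
    have h' : 2 ≤ i := by exact_mod_cast h
    rcases Nat.lt_or_ge i 3 with h2 | h2
    · left; have : i = 2 := by omega
      rw [this]; simp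
    · right; exact_mod_cast h2

theorem odd_cases {s : ℕ} (h3 : 3 ≤ s) (hodd : s % 2 = 1) : (s : ℝ) = 3 ∨ (5 : ℝ) ≤ s := by
  rcases Nat.lt_or_ge s 5 with h | h
  · left; have : s = 3 := by omega
    rw [this]; simp
  · right; exact_mod_cast h

/-- Lemma Y: an irreducible configuration -/
theorem lemY [CharZero K] {f₁ f₂ h : A K} {ε : ℝ} (hG : Good f₁ f₂ h) (hε : 0 < ε)
    (h1 : deg f₁ = 3 * ε) (h2 : deg f₂ = 2 * ε) (h3 : 3 * ε < deg h) (h4 : deg h < 9 / 2 * ε)
    (hirr : ∀ x ∈ Sb f₁ f₂, deg x ≠ deg h) (hV1 : 4 * ε ≤ V f₁ h) (hV2 : 3 * ε ≤ V f₂ h) :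
    False := by
  have HK := hG.kel
  have hf1 : 0 < deg f₁ := by rw [h1]; linarith
  have hf2 : 0 < deg f₂ := by rw [h2]; linarith
  have hh : 0 < deg h := by linarith
  rcases hG.inv with hb | (hr | hr | hr) | (hs | hs | hs | hs | hs | hs)
  · have h5 := V_lt_of_comm (f := f₁) (g := f₂) (p := 3) (q := 2) (by norm_num) hf1 hf2
      (by rw [h1, h2]; push_cast; ring)
    have h6 := HK.rot'.W_le
    linarith
  · obtain ⟨h', hE, hlt, -⟩ := hr
    obtain ⟨x, hx, hxh⟩ := hE.val hlt
    exact hirr x hx hxh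
  · -- f₁ by f₂ h
    obtain ⟨h', hE, hlt, -⟩ := hr
    obtain ⟨x, hx, hxh⟩ := hE.val hlt
    rcases val2 hf2 hh HK.V_pos hx (by rw [hxh]; exact hf1) with ⟨i, j, hij⟩ | ⟨k, hk, hk2⟩ |
      ⟨k, hk, hk2⟩ | ⟨hh1, hh2⟩
    · rw [hxh, h1, h2] at hij
      have hi0 : (0 : ℝ) ≤ i := Nat.cast_nonneg i
      rcases nat_eq_zero_or_one_le j with hj | hj
      · rw [hj] at hij
        have : (i : ℝ) * 2 = 3 := by
          have : ε * ((i : ℝ) * 2) = ε * 3 := by linarith
          exact mul_left_cancel₀ hε.ne' this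
        have : i * 2 = 3 := by exact_mod_cast this
        omega
      · have : deg h ≤ j * deg h := by nlinarith
        have : 0 ≤ (i : ℝ) * (2 * ε) := by positivity
        linarith
    · rw [h2] at hk2
      rcases nat_cases3 k with h | h | h | h
      · rw [h] at hk2; linarith
      · rw [h] at hk2; linarith
      · apply hirr (f₂ ^ 2) (Subalgebra.pow_mem _ (right_mem _ _) _)
        rw [deg_pow 2 (ne_zero_of_deg_pos hf2), hk2, h, h2]
        push_cast; ring
      · nlinarith
    · rw [h2] at hk2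
      have : (2 : ℝ) ≤ k := by exact_mod_cast hk
      nlinarith
    · rw [hxh, h1, h2] at hh2
      linarith
  · -- f₂ by h f₁
    obtain ⟨h', hE, hlt, -⟩ := hr
    obtain ⟨x, hx, hxh⟩ := hE.val hlt
    rcases val2 hh hf1 HK.rot.V_pos hx (by rw [hxh]; exact hf2) with ⟨i, j, hij⟩ | ⟨k, hk, hk2⟩ |
      ⟨k, hk, hk2⟩ | ⟨hh1, hh2⟩
    · rw [hxh, h1, h2] at hij
      have hi0 : (0 : ℝ) ≤ i := Nat.cast_nonneg i
      have hj0 : (0 : ℝ) ≤ j := Nat.cast_nonneg j
      rcases nat_eq_zero_or_one_le j with hj | hj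
      · rcases nat_eq_zero_or_one_le i with hi | hi
        · rw [hi, hj] at hij; linarith
        · rw [hj] at hij
          nlinarith
      · have : 0 ≤ (i : ℝ) * deg h := by positivity
        nlinarith
    · rw [h1] at hk2
      have : (1 : ℝ) ≤ k := by exact_mod_cast hk
      nlinarith
    · rw [h1] at hk2
      have : (2 : ℝ) ≤ k := by exact_mod_cast hk
      nlinarith
    · rw [hxh, h1, h2, V_comm] at hh1
      linarith
  · obtain ⟨g₁, g₂, g₃, s, δ, a, b, c, x, S, hG', P, hδ, d2, hlt, hbig, hs3, hodd, hsδ, hV⟩ := hs.data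
    linarith
  · obtain ⟨g₁, g₂, g₃, s, δ, a, b, c, x, S, hG', P, hδ, d2, hlt, hbig, hs3, hodd, hsδ, hV⟩ := hs.data
    linarith
  · obtain ⟨g₁, g₂, g₃, s, δ, a, b, c, x, S, hG', P, hδ, d2, hlt, hbig, hs3, hodd, hsδ, hV⟩ := hs.data
    linarith
  · obtain ⟨g₁, g₂, g₃, s, δ, a, b, c, x, S, hG', P, hδ, d2, hlt, hbig, hs3, hodd, hsδ, hV⟩ := hs.data
    linarith
  · obtain ⟨g₁, g₂, g₃, s, δ, a, b, c, x, S, hG', P, hδ, d2, hlt, hbig, hs3, hodd, hsδ, hV⟩ := hs.data
    have hδ' : δ = 3 / 2 * ε := by linarith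
    rcases P.top with ht | ⟨-, ht, -⟩
    · rcases odd_cases hs3 hodd with h | h
      · rw [h, hδ'] at ht; linarith
      · rw [hδ'] at ht; nlinarith
    · linarith
  · obtain ⟨g₁, g₂, g₃, s, δ, a, b, c, x, S, hG', P, hδ, d2, hlt, hbig, hs3, hodd, hsδ, hV⟩ := hs.data
    have hδ' : δ = ε := by linarith
    rcases P.top with ht | ⟨-, -, -, -, ht⟩
    · rcases odd_cases hs3 hodd with h | h
      · rw [h, hδ'] at ht; linarith
      · rw [hδ'] at ht; nlinarith
    · linarith

/-- the exceptional case of the key proposition -/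
theorem KP_rem [CharZero K] {f₁ f₂ g₃ : A K} {d δ : ℝ} (hcl : Cl K d) (hG : Good f₁ f₂ g₃)
    (hd : deg f₁ + deg f₂ + deg g₃ < d) (hδ : 0 < δ) (h1 : deg f₁ = 2 * δ) (h2 : deg f₂ = 3 * δ)
    (h3 : deg g₃ = 3 / 2 * δ) (hirr : ∀ x ∈ Sb f₁ f₂, deg x ≠ deg g₃)
    (H0 : 3 * δ + V f₁ f₂ ≤ V f₁ g₃) : False := by
  have HK := hG.kel
  have hf1 : 0 < deg f₁ := by rw [h1]; linarith
  have hf2 : 0 < deg f₂ := by rw [h2]; linarith
  have hg3 : 0 < deg g₃ := by rw [h3]; linarith
  have hg3ne := ne_zero_of_deg_pos hg3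
  have hV12 : 0 < V f₁ f₂ := HK.rot'.V_pos
  set μ := V f₁ g₃ with hμ
  have hμ1 : μ ≤ 7 / 2 * δ := by
    have := V_le_add f₁ g₃
    rw [h1, h3] at this
    linarith
  obtain ⟨c', hc', hlt⟩ := exists_cancel (f := f₂) (g := g₃ ^ 2) hf2
    (by rw [deg_pow 2 hg3ne, h2, h3]; push_cast; ring)
  set h := f₂ - c' • g₃ ^ 2 with hh
  have hE : El f₁ g₃ f₂ h := by
    refine ⟨1, one_ne_zero, ?_⟩
    rw [one_smul, hh]
    have : f₂ - c' • g₃ ^ 2 - f₂ = (-c') • g₃ ^ 2 := by rw [neg_smul]; abel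
    rw [this]
    exact Subalgebra.smul_mem _ (Subalgebra.pow_mem _ (right_mem _ _) _) _
  have hG' : Good f₁ h g₃ := hcl.second hG hd hE
  have HK' := hG'.kel
  have Msq : ∀ i j (u : A K), M i j u (g₃ ^ 2) = 2 * g₃ * M i j u g₃ := by
    intro i j u
    simp only [M, pow_two, Derivation.leibniz, smul_eq_mul]
    ring
  have h2c : (2 * c' : K) ≠ 0 := mul_ne_zero two_ne_zero hc'
  have hudeg : deg (-(C (2 * c') * g₃) : A K) = 3 / 2 * δ := by
    rw [deg_neg, deg_C_mul h2c, h3]
  have hVh : V f₁ h = 3 / 2 * δ + μ := by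
    rw [← hudeg]
    apply V_eq_of (fun i j => M i j f₁ f₂)
    · intro i j
      rw [hh, M_sub_right, M_smul_right, Msq]
      simp only [smul_eq_C_mul, C_mul, map_ofNat]
      ring
    · apply ne_zero_of_deg_pos
      rw [hudeg]; linarith
    · linarith
    · intro i j
      have := le_V i j f₁ f₂
      rw [hudeg]
      linarith
  have hηlo : 5 / 2 * δ < deg h := by
    have := V_le_add f₁ h
    rw [hVh, h1] at this
    linarith
  have hη : deg h < 3 * δ := by rw [← h2]; exact hlt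
  have hh0 : 0 < deg h := by linarith
  have tri1 := HK'.rot'.tri
  have tri2 := HK'.tri
  have hVhg : V h g₃ = δ + μ := by
    rw [hVh, h3, h1, V_comm h g₃, V_comm f₁ g₃, ← hμ] at tri1
    rw [hVh, h1, h3, ← hμ] at tri2
    have h6 : δ + μ ≤ V h g₃ := by
      rcases le_max_iff.1 tri1 with h | h <;> linarith
    have h7 : V h g₃ ≤ δ + μ := by
      rcases le_max_iff.1 tri2 with h | h <;> linarith
    exact le_antisymm h7 h6
  rcases hG'.inv with hb | (hr | hr | hr) | (hs | hs | hs | hs | hs | hs)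
  · have h5 := V_lt_of_comm (f := f₁) (g := g₃) (p := 4) (q := 3) (by norm_num) hf1 hg3
      (by rw [h1, h3]; push_cast; ring)
    have h6 := HK'.swap12.W_le
    linarith
  · -- g₃ by f₁ h
    obtain ⟨h', hE, hlt, -⟩ := hr
    obtain ⟨x, hx, hxh⟩ := hE.val hlt
    rcases val2 hf1 hh0 (by rw [hVh]; linarith) hx (by rw [hxh]; exact hg3) with ⟨i, j, hij⟩ |
      ⟨k, hk, hk2⟩ | ⟨k, hk, hk2⟩ | ⟨hh1, hh2⟩
    · rw [hxh, h1, h3] at hij
      have hi0 : (0 : ℝ) ≤ i := Nat.cast_nonneg i
      have hj0 : (0 : ℝ) ≤ j := Nat.cast_nonneg j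
      rcases nat_eq_zero_or_one_le j with hj | hj
      · rcases nat_eq_zero_or_one_le i with hi | hi
        · rw [hi, hj] at hij; linarith
        · rw [hj] at hij
          nlinarith
      · have : 0 ≤ (i : ℝ) * (2 * δ) := by positivity
        nlinarith
    · rw [h1] at hk2
      rcases nat_cases2 k with h | h | h
      · rw [h] at hk2; linarith
      · rw [h] at hk2; linarith
      · nlinarith
    · rw [h1] at hk2
      have : (2 : ℝ) ≤ k := by exact_mod_cast hk
      nlinarith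
    · linarith
  · -- f₁ by h g₃
    obtain ⟨h', hE, hlt, -⟩ := hr
    obtain ⟨x, hx, hxh⟩ := hE.val hlt
    rcases val2 hh0 hg3 (by rw [hVhg]; linarith) hx (by rw [hxh]; exact hf1) with ⟨i, j, hij⟩ |
      ⟨k, hk, hk2⟩ | ⟨k, hk, hk2⟩ | ⟨hh1, hh2⟩
    · rw [hxh, h1, h3] at hij
      have hi0 : (0 : ℝ) ≤ i := Nat.cast_nonneg i
      have hj0 : (0 : ℝ) ≤ j := Nat.cast_nonneg j
      rcases nat_eq_zero_or_one_le i with hi | hi
      · rcases nat_cases2 j with hj | hj | hj
        · rw [hi, hj] at hij; linarith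
        · rw [hi, hj] at hij; linarith
        · rw [hi] at hij; nlinarith
      · have : 0 ≤ (j : ℝ) * (3 / 2 * δ) := by positivity
        nlinarith
    · rw [h3] at hk2
      have : (1 : ℝ) ≤ k := by exact_mod_cast hk
      nlinarith
    · rw [h3] at hk2
      rcases nat_cases3 k with h | h | h | h
      · rw [h] at hk2; linarith
      · rw [h] at hk2; linarith
      · rw [h] at hk2; linarith
      · nlinarith
    · linarith
  · -- h by g₃ f₁
    obtain ⟨h', hE, hlt, -⟩ := hr
    obtain ⟨x, hx, hxh⟩ := hE.val hlt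
    rcases val2 hg3 hf1 (by rw [V_comm, ← hμ]; linarith) hx (by rw [hxh]; exact hh0) with
      ⟨i, j, hij⟩ | ⟨k, hk, hk2⟩ | ⟨k, hk, hk2⟩ | ⟨hh1, hh2⟩
    · rw [hxh, h1, h3] at hij
      have hi0 : (0 : ℝ) ≤ i := Nat.cast_nonneg i
      have hj0 : (0 : ℝ) ≤ j := Nat.cast_nonneg j
      rcases nat_cases2 i with hi | hi | hi
      · rcases nat_cases2 j with hj | hj | hj
        · rw [hi, hj] at hij; linarith
        · rw [hi, hj] at hij; linarith
        · rw [hi] at hij; nlinarith
      · rcases nat_cases2 j with hj | hj | hj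
        · rw [hi, hj] at hij; linarith
        · rw [hi, hj] at hij; linarith
        · rw [hi] at hij; nlinarith
      · have : 0 ≤ (j : ℝ) * (2 * δ) := by positivity
        nlinarith
    · rw [h1, h3] at hk2
      rcases nat_cases2 k with h | h | h
      · rw [h] at hk2; linarith
      · rw [h] at hk2; linarith
      · nlinarith
    · rw [h1, h3] at hk2
      have : (2 : ℝ) ≤ k := by exact_mod_cast hk
      nlinarith
    · rw [V_comm, ← hμ] at hh2
      linarith
  · obtain ⟨g₁, g₂, g₃', s, Δ, a, b, c, x, S, hG'', P, hΔ, d2, hlt2, hbig, hs3, hodd, hsδ, hV⟩ := hs.data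
    linarith
  · obtain ⟨g₁, g₂, g₃', s, Δ, a, b, c, x, S, hG'', P, hΔ, d2, hlt2, hbig, hs3, hodd, hsδ, hV⟩ := hs.data
    linarith
  · -- the special one
    obtain ⟨g₁, g₂, g₃', s, Δ, a, b, c, x, S, hG'', P, hΔ, d2, hlt2, hbig, hs3, hodd, hsδ, hV⟩ := hs.data
    have hΔ' : Δ = δ := by linarith
    subst hΔ'
    have hv := P.lo
    have hs3' : (s : ℝ) = 3 := by
      rcases P.top with ht | ⟨ht, -⟩
      · rcases odd_cases hs3 hodd with h | h
        · exact h
        · nlinarith
      · rw [ht]; simp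
    rw [hs3', h3] at hv
    have hv' : V g₁ g₂ ≤ 1 / 2 * Δ := by linarith
    have hM : ∀ i j, M i j g₁ g₂ = M i j f₂ f₁ + b • M i j h g₃ +
        (C (2 * (a - c')) * g₃ + C c) * M i j g₃ f₁ := by
      intro i j
      have Msq' : ∀ (u : A K), M i j (g₃ ^ 2) u = 2 * g₃ * M i j g₃ u := by
        intro u
        simp only [M, pow_two, Derivation.leibniz, smul_eq_mul]
        ring
      have e1 : M i j h f₁ = M i j f₂ f₁ - c' • (2 * g₃ * M i j g₃ f₁) := by
        rw [hh, M_sub_left, M_smul_left, Msq']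
      rw [S.h1, S.h2]
      rw [M_add_left, M_add_left, M_smul_left, M_smul_left, M_add_right, M_add_right, M_add_right,
        M_smul_right, M_smul_right, M_smul_right, M_self, Msq', Msq', M_self, e1]
      simp only [smul_eq_C_mul, C_mul, C_sub, map_ofNat]
      ring
    have hV21 : ∀ i j, deg (M i j f₂ f₁) ≤ 1 / 2 * Δ := by
      intro i j
      have := le_V i j f₂ f₁
      rw [V_comm] at this
      linarith
    have hVhg' : ∀ i j, deg (b • M i j h g₃) ≤ Δ + μ := by
      intro i j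
      refine (deg_smul_le _ _).trans ?_
      rw [← hVhg]
      exact le_V i j h g₃
    have hμ' : V g₃ f₁ = μ := V_comm _ _
    have hac : a = c' := by
      by_contra hne
      have h2c : (2 * (a - c') : K) ≠ 0 := mul_ne_zero two_ne_zero (sub_ne_zero.2 hne)
      have hu : deg (C (2 * (a - c')) * g₃ + C c : A K) = 3 / 2 * Δ := by
        rw [deg_add_eq_left, deg_C_mul h2c, h3]
        rw [deg_C_mul h2c, deg_C, h3]
        linarith
      have key : V g₁ g₂ = deg (C (2 * (a - c')) * g₃ + C c : A K) + V g₃ f₁ := by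
        apply V_eq_of (fun i j => M i j f₂ f₁ + b • M i j h g₃) hM
        · apply ne_zero_of_deg_pos; rw [hu]; linarith
        · rw [hμ']; linarith
        · intro i j
          rw [hu, hμ']
          refine deg_add_lt_of ?_ ?_
          · have := hV21 i j
            linarith
          · have := hVhg' i j
            linarith
      rw [key, hu, hμ'] at hv'
      linarith
    have hM2 : ∀ i j, M i j g₁ g₂ = M i j f₂ f₁ + b • M i j h g₃ + C c * M i j g₃ f₁ := by
      intro i j
      rw [hM, hac, sub_self, mul_zero, C_0, zero_mul, zero_add]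
    have hb : b = 0 := by
      by_contra hne
      have hCb : (C b : A K) ≠ 0 := by rw [Ne, C_eq_zero]; exact hne
      have key : V g₁ g₂ = deg (C b : A K) + V h g₃ := by
        apply V_eq_of (fun i j => M i j f₂ f₁ + C c * M i j g₃ f₁)
        · intro i j
          rw [hM2, smul_eq_C_mul]; ring
        · exact hCb
        · rw [hVhg]; linarith
        · intro i j
          rw [deg_C, hVhg]
          refine deg_add_lt_of ?_ ?_
          · have := hV21 i j
            linarith
          · rw [← smul_eq_C_mul]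
            refine (deg_smul_le _ _).trans_lt ?_
            have := le_V i j g₃ f₁
            linarith
      rw [key, deg_C, hVhg] at hv'
      linarith
    have hc0 : c = 0 := by
      by_contra hne
      have hCc : (C c : A K) ≠ 0 := by rw [Ne, C_eq_zero]; exact hne
      have key : V g₁ g₂ = deg (C c : A K) + V g₃ f₁ := by
        apply V_eq_of (fun i j => M i j f₂ f₁)
        · intro i j
          rw [hM2, hb, zero_smul, add_zero]
        · exact hCc
        · rw [hμ']; linarith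
        · intro i j
          rw [deg_C, hμ']
          have := hV21 i j
          linarith
      rw [key, deg_C, hμ'] at hv'
      linarith
    have e1 : g₁ = f₂ := by
      rw [S.h1, hac, hc0, hh, zero_smul]; abel
    have e2 : g₂ = f₁ := by rw [S.h2, hb, zero_smul, add_zero]
    have e3 := S.h3
    rw [e1, e2, Sb_comm] at e3
    exact hirr _ e3 (deg_sub_eq_left S.d3)
  · obtain ⟨g₁, g₂, g₃', s, Δ, a, b, c, x, S, hG'', P, hΔ, d2, hlt2, hbig, hs3, hodd, hsδ, hV⟩ := hs.data
    have hΔ' : Δ = 3 / 4 * δ := by linarith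
    rcases P.top with ht | ⟨-, ht, -⟩
    · rcases odd_cases hs3 hodd with h | h
      · rw [h, hΔ'] at ht; linarith
      · rw [hΔ'] at ht; nlinarith
    · linarith
  · obtain ⟨g₁, g₂, g₃', s, Δ, a, b, c, x, S, hG'', P, hΔ, d2, hlt2, hbig, hs3, hodd, hsδ, hV⟩ := hs.data
    linarith
  · obtain ⟨g₁, g₂, g₃', s, Δ, a, b, c, x, S, hG'', P, hΔ, d2, hlt2, hbig, hs3, hodd, hsδ, hV⟩ := hs.data
    linarith

end Pool.Agent.Helper555_TN
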