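import Mathlib
import Pool.Agent.Helper555_TN.KeyA

set_option autoImplicit false

/-!
# The key proposition
-/

open MvPolynomial

namespace Pool.Agent.Helper555_TN

variable {K : Type*} [Field K]

/-- the key proposition: in an irreducible triple with degrees `2δ, sδ, t` the form
`df₁ ∧ dg₃` has small degree -/
theorem KP [CharZero K] {f₁ f₂ g₃ : A K} {d δ : ℝ} {s : ℕ} (hcl : Cl K d) (hG : Good f₁ f₂ g₃)
    (hd : deg f₁ + deg f₂ + deg g₃ < d) (hδ : 0 < δ) (hs : 3 ≤ s) (hodd : s % 2 = 1)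
    (h1 : deg f₁ = 2 * δ) (h2 : deg f₂ = s * δ)
    (h3 : deg g₃ < s * δ) (hirr : ∀ x ∈ Sb f₁ f₂, deg x ≠ deg g₃) :
    V f₁ g₃ < s * δ + V f₁ f₂ := by
  by_contra hH0
  push Not at hH0
  have HK := hG.kel
  have hsR : (3 : ℝ) ≤ s := by exact_mod_cast hs
  have hsδ : 3 * δ ≤ s * δ := mul_le_mul_of_nonneg_right hsR hδ.le
  have hf1 : 0 < deg f₁ := by rw [h1]; linarith
  have hf2 : 0 < deg f₂ := by rw [h2]; linarith
  have hV12 : 0 < V f₁ f₂ := HK.rot'.V_pos
  set t := deg g₃ with ht
  set μ := V f₁ g₃ with hμ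
  set v := V f₁ f₂ with hv
  have htlo : (s - 2) * δ + v ≤ t := by
    have := V_le_add f₁ g₃
    rw [h1, ← hμ, ← ht] at this
    linarith
  have htδ : δ < t := by linarith
  have hg3 : 0 < t := by linarith
  have ht2 : ∀ k : ℕ, t ≠ k * (2 * δ) := by
    intro k hk
    apply hirr (f₁ ^ k) (Subalgebra.pow_mem _ (left_mem _ _) _)
    rw [deg_pow k (ne_zero_of_deg_pos hf1), h1, hk]
  -- the special case
  have special : (s : ℝ) = 3 → t = 3 / 2 * δ → False := by
    intro hs3 ht3
    apply KP_rem hcl hG hd hδ h1 (by rw [h2, hs3]) ht3 hirr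
    rw [hs3] at hH0
    exact hH0
  rcases hG.inv with hb | (hr | hr | hr) | (hr | hr | hr | hr | hr | hr)
  · have h5 := V_lt_of_comm (f := f₁) (g := f₂) (p := 2) (q := s) (by omega) hf1 hf2
      (by rw [h1, h2]; push_cast; ring)
    have h6 := HK.rot'.W_le
    linarith
  · obtain ⟨h', hE, hlt, -⟩ := hr
    obtain ⟨x, hx, hxh⟩ := hE.val hlt
    exact hirr x hx hxh
  · -- f₁ by f₂ g₃
    obtain ⟨h', hE, hlt, -⟩ := hr
    obtain ⟨x, hx, hxh⟩ := hE.val hlt
    rcases val2 hf2 hg3 HK.V_pos hx (by rw [hxh]; exact hf1) with ⟨i, j, hij⟩ | ⟨k, hk, hk2⟩ |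
      ⟨k, hk, hk2⟩ | ⟨hh1, hh2⟩
    · rw [hxh, h1, h2, ← ht] at hij
      have hj0 : (0 : ℝ) ≤ j := Nat.cast_nonneg j
      rcases nat_eq_zero_or_one_le i with hi | hi
      · rcases nat_cases2 j with hj | hj | hj
        · rw [hi, hj] at hij; linarith
        · rw [hi, hj] at hij
          apply ht2 1; push_cast; linarith
        · rw [hi] at hij; nlinarith
      · have : 0 ≤ (j : ℝ) * t := by positivity
        have : (s * δ : ℝ) ≤ i * (s * δ) := by nlinarith
        linarith
    · rw [h2, ← ht] at hk2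
      have : (1 : ℝ) ≤ k := by exact_mod_cast hk
      have : (s * δ : ℝ) ≤ k * (s * δ) := by nlinarith
      linarith
    · rw [h2, ← ht] at hk2
      have hk' : (2 : ℝ) ≤ k := by exact_mod_cast hk
      have h7 : 2 * t ≤ s * δ := by rw [hk2]; nlinarith
      rcases odd_cases hs hodd with h | h
      · rw [h] at hk2 htlo
        rcases nat_cases3 k with h8 | h8 | h8 | h8
        · rw [h8] at hk2; linarith
        · rw [h8] at hk2; linarith
        · rw [h8] at hk2; exact special h (by linarith)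
        · nlinarith
      · nlinarith
    · rw [hxh, h1, h2, ← ht] at hh1
      have h8 := HK.swap12.tri
      rw [h1, h2, V_comm f₁ f₂, ← hμ, ← hv, ← ht] at h8
      rcases le_max_iff.1 h8 with h | h
      · linarith
      · linarith
  · -- f₂ by g₃ f₁
    obtain ⟨h', hE, hlt, -⟩ := hr
    obtain ⟨x, hx, hxh⟩ := hE.val hlt
    have hV31 : V g₃ f₁ = μ := V_comm _ _
    rcases val2 hg3 hf1 (by rw [hV31]; linarith) hx (by rw [hxh]; exact hf2) with
      ⟨i, j, hij⟩ | ⟨k, hk, hk2⟩ | ⟨k, hk, hk2⟩ | ⟨hh1, hh2⟩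
    · rw [hxh, h1, h2, ← ht] at hij
      have hi0 : (0 : ℝ) ≤ i := Nat.cast_nonneg i
      have hj0 : (0 : ℝ) ≤ j := Nat.cast_nonneg j
      rcases nat_eq_zero_or_one_le i with hi | hi
      · rw [hi] at hij
        have h8 : (j : ℝ) * 2 = s := by
          have : δ * ((j : ℝ) * 2) = δ * s := by linarith
          exact mul_left_cancel₀ hδ.ne' this
        have h9 : j * 2 = s := by exact_mod_cast h8
        omega
      · rcases nat_eq_zero_or_one_le j with hj | hj
        · rw [hj] at hij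
          rcases nat_cases3 i with h8 | h8 | h8 | h8
          · rw [h8] at hij; linarith
          · rw [h8] at hij; linarith
          · rw [h8] at hij
            rcases odd_cases hs hodd with h | h
            · exact special h (by rw [h] at hij; linarith)
            · nlinarith
          · nlinarith
        · nlinarith
    · rw [h1, ← ht] at hk2
      rcases nat_cases2 k with h | h | h
      · rw [h] at hk2; linarith
      · apply ht2 1; rw [h] at hk2; push_cast; linarith
      · nlinarith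
    · rw [h1, ← ht] at hk2
      exact ht2 k hk2
    · rw [hV31, hxh, h1, h2, ← ht] at hh1 hh2
      linarith
  · obtain ⟨g₁, g₂, g₃', s', Δ, a, b, c, x, S, hG'', P, hΔ, d2, hlt2, hbig, hs3, hodd', hsδ', hV⟩ := hr.data
    linarith
  · obtain ⟨g₁, g₂, g₃', s', Δ, a, b, c, x, S, hG'', P, hΔ, d2, hlt2, hbig, hs3, hodd', hsδ', hV⟩ := hr.data
    linarith
  · obtain ⟨g₁, g₂, g₃', s', Δ, a, b, c, x, S, hG'', P, hΔ, d2, hlt2, hbig, hs3, hodd', hsδ', hV⟩ := hr.data
    have hΔ' : Δ = δ := by linarith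
    subst hΔ'
    have hV' : x + V g₁ g₂ ≤ v := by rw [V_comm f₁ f₂, ← hv] at hV; exact hV
    have hxs := P.xs
    have hvv := P.hv
    rcases P.top with ht' | ⟨-, -, -, ht1, ht2'⟩
    · rw [h2] at ht'
      have : (s' : ℝ) = s := by
        have : Δ * (s' : ℝ) = Δ * s := by linarith
        exact mul_left_cancel₀ hΔ.ne' this
      rw [this] at hxs
      nlinarith
    · linarith
  · obtain ⟨g₁, g₂, g₃', s', Δ, a, b, c, x, S, hG'', P, hΔ, d2, hlt2, hbig, hs3, hodd', hsδ', hV⟩ := hr.data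
    have h13 := P.v13
    have hxs := P.xs
    have hvv := P.hv
    rw [V_comm, ← hv] at h13
    linarith
  · obtain ⟨g₁, g₂, g₃', s', Δ, a, b, c, x, S, hG'', P, hΔ, d2, hlt2, hbig, hs3, hodd', hsδ', hV⟩ := hr.data
    linarith
  · obtain ⟨g₁, g₂, g₃', s', Δ, a, b, c, x, S, hG'', P, hΔ, d2, hlt2, hbig, hs3, hodd', hsδ', hV⟩ := hr.data
    linarith

theorem Jm_bound_left {f g h : A K} (HK : Kel f g h) (Φ : MvPolynomial (Fin 2) K)
    (h0 : ev f g (pderiv 1 Φ) ≠ 0) :
    deg (ev f g (pderiv 1 Φ)) + W ≤ deg (ev f g Φ) + V f h := by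
  have h1 := Jm_ev_left f g h Φ
  have h2 : Jm f g h ≠ 0 := by
    apply ne_zero_of_deg_pos
    rw [deg_Jm HK]
    exact W_pos
  have h3 : deg (Jm f (ev f g Φ) h) = deg (ev f g (pderiv 1 Φ)) + W := by
    rw [h1, deg_mul h0 h2, deg_Jm HK]
  rw [← h3, ← neg_neg (Jm f (ev f g Φ) h), ← Jm_swap12, deg_neg]
  exact deg_Jm_le _ _ _

theorem Jm_bound_right {f g h : A K} (HK : Kel f g h) (Φ : MvPolynomial (Fin 2) K)
    (h0 : ev f g (pderiv 0 Φ) ≠ 0) :
    deg (ev f g (pderiv 0 Φ)) + W ≤ deg (ev f g Φ) + V g h := by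
  have h1 := Jm_ev_right f g h Φ
  have h2 : Jm f g h ≠ 0 := by
    apply ne_zero_of_deg_pos
    rw [deg_Jm HK]
    exact W_pos
  have h3 : deg (Jm (ev f g Φ) g h) = deg (ev f g (pderiv 0 Φ)) + W := by
    rw [h1, deg_mul h0 h2, deg_Jm HK]
  rw [← h3]
  exact deg_Jm_le _ _ _

/-- the second key lemma -/
theorem MK [CharZero K] {f₁ f₂ g₃ : A K} {d δ : ℝ} {Φ : MvPolynomial (Fin 2) K} (hcl : Cl K d)
    (hG : Good f₁ f₂ g₃) (hd : deg f₁ + deg f₂ + deg g₃ < d) (hδ : 0 < δ)
    (h1 : deg f₁ = 2 * δ) (h2 : deg f₂ = 3 * δ) (h3 : deg g₃ < 3 / 2 * δ)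
    (hirr : ∀ x ∈ Sb f₁ f₂, deg x ≠ deg g₃) (HW : HardW f₁ f₂ Φ (6 * δ))
    (hΦ : deg (ev f₁ f₂ Φ) = 3 / 2 * δ) :
    deg g₃ < δ + V f₁ f₂ := by
  by_contra hH0
  push Not at hH0
  have HK := hG.kel
  have hf1 : 0 < deg f₁ := by rw [h1]; linarith
  have hf2 : 0 < deg f₂ := by rw [h2]; linarith
  have hV12 : 0 < V f₁ f₂ := HK.rot'.V_pos
  have hW := W_pos
  set t := deg g₃ with ht
  set μ := V f₁ g₃ with hμ
  set v := V f₁ f₂ with hv
  have htδ : δ < t := by linarith
  have hg3 : 0 < t := by linarith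
  have n2 := HW.n2
  have n3 := HW.n3
  have hμlo : 3 / 2 * δ + W ≤ μ := by
    have := Jm_bound_left HK Φ (ne_zero_of_deg_pos (by linarith))
    rw [hΦ, ← hμ] at this
    linarith
  have hV23 : 5 / 2 * δ + W ≤ V f₂ g₃ := by
    have := Jm_bound_right HK Φ (ne_zero_of_deg_pos (by linarith))
    rw [hΦ] at this
    linarith
  rcases hG.inv with hb | (hr | hr | hr) | (hr | hr | hr | hr | hr | hr)
  · have h5 := V_lt_of_comm (f := f₁) (g := f₂) (p := 2) (q := 3) (by omega) hf1 hf2
      (by rw [h1, h2]; push_cast; ring)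
    have h6 := HK.rot'.W_le
    linarith
  · obtain ⟨h', hE, hlt, -⟩ := hr
    obtain ⟨x, hx, hxh⟩ := hE.val hlt
    exact hirr x hx hxh
  · -- f₁ by f₂ g₃
    obtain ⟨h', hE, hlt, -⟩ := hr
    obtain ⟨x, hx, hxh⟩ := hE.val hlt
    rcases val2 hf2 hg3 HK.V_pos hx (by rw [hxh]; exact hf1) with ⟨i, j, hij⟩ | ⟨k, hk, hk2⟩ |
      ⟨k, hk, hk2⟩ | ⟨hh1, hh2⟩
    · rw [hxh, h1, h2, ← ht] at hij
      have hj0 : (0 : ℝ) ≤ j := Nat.cast_nonneg j
      rcases nat_eq_zero_or_one_le i with hi | hi
      · rcases nat_cases2 j with hj | hj | hj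
        · rw [hi, hj] at hij; linarith
        · rw [hi, hj] at hij; linarith
        · rw [hi] at hij; nlinarith
      · have : 0 ≤ (j : ℝ) * t := by positivity
        nlinarith
    · rw [h2, ← ht] at hk2
      have : (1 : ℝ) ≤ k := by exact_mod_cast hk
      nlinarith
    · rw [h2, ← ht] at hk2
      rcases nat_cases3 k with h8 | h8 | h8 | h8
      · rw [h8] at hk2; linarith
      · rw [h8] at hk2; linarith
      · rw [h8] at hk2; linarith
      · nlinarith
    · linarith
  · -- f₂ by g₃ f₁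
    obtain ⟨h', hE, hlt, -⟩ := hr
    obtain ⟨x, hx, hxh⟩ := hE.val hlt
    have hV31 : V g₃ f₁ = μ := V_comm _ _
    have ht43 : t = 4 / 3 * δ := by
      rcases val hg3 hf1 (by rw [hV31]; linarith) hx (by rw [hxh]; exact hf2) with
        ⟨i, j, hij⟩ | ⟨p, q, ε, hp, hq, hpq, hε, e1, e2, e3⟩
      · exfalso
        rw [hxh, h1, h2, ← ht] at hij
        have hi0 : (0 : ℝ) ≤ i := Nat.cast_nonneg i
        have hj0 : (0 : ℝ) ≤ j := Nat.cast_nonneg j
        rcases nat_cases2 j with hj | hj | hj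
        · rw [hj] at hij
          rcases nat_cases3 i with h8 | h8 | h8 | h8
          · rw [h8] at hij; linarith
          · rw [h8] at hij; linarith
          · rw [h8] at hij; linarith
          · nlinarith
        · rw [hj] at hij
          rcases nat_eq_zero_or_one_le i with h8 | h8
          · rw [h8] at hij; linarith
          · nlinarith
        · have : 0 ≤ (i : ℝ) * t := by positivity
          nlinarith
      · rw [h1] at e2
        rw [← ht] at e1
        rcases Nat.lt_or_ge p 2 with hp2 | hp2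
        · exfalso
          have : p = 1 := by omega
          subst this
          push_cast at e1
          rcases nat_cases2 q with h8 | h8 | h8
          · rw [h8] at e2; linarith
          · rw [h8] at e2; linarith
          · have : 2 * ε ≤ q * ε := mul_le_mul_of_nonneg_right h8 hε.le
            linarith
        rcases Nat.lt_or_ge q 2 with hq2 | hq2
        · exfalso
          have : q = 1 := by omega
          subst this
          have hp2' : (2 : ℝ) ≤ p := by exact_mod_cast hp2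
          have : 2 * ε ≤ p * ε := mul_le_mul_of_nonneg_right hp2' hε.le
          push_cast at e2
          linarith
        obtain ⟨Ψ, hΨ, HWΨ⟩ := e3 hp2 hq2
        have n1 := HWΨ.n1
        rw [hΨ, hxh, h1, h2, hV31, ← ht] at n1
        have e4 : (p : ℝ) * q * ε = q * t := by rw [e1]; ring
        rw [e4] at n1
        -- (q - 1) t < 3.5 δ
        have e5 : ((q : ℝ) - 1) * t < 7 / 2 * δ := by linarith
        have hq4 : q < 5 := by
          by_contra hc
          push Not at hc
          have : (5 : ℝ) ≤ q := by exact_mod_cast hc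
          nlinarith
        interval_cases q
        · -- q = 2
          exfalso
          push_cast at e2
          have : ε = δ := by linarith
          rw [this] at e1
          rcases nat_cases2 p with h8 | h8 | h8
          · rw [h8] at e1; linarith
          · rw [h8] at e1; linarith
          · have : 2 * δ ≤ p * δ := mul_le_mul_of_nonneg_right h8 hδ.le
            linarith
        · -- q = 3
          push_cast at e2
          have : ε = 2 / 3 * δ := by linarith
          rw [this] at e1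
          rcases nat_cases3 p with h8 | h8 | h8 | h8
          · rw [h8] at e1; linarith
          · rw [h8] at e1; linarith
          · rw [h8] at e1; linarith
          · have : 3 * (2 / 3 * δ) ≤ p * (2 / 3 * δ) :=
              mul_le_mul_of_nonneg_right h8 (by linarith)
            linarith
        · -- q = 4
          exfalso
          push_cast at e2
          have : ε = 1 / 2 * δ := by linarith
          rw [this] at e1
          rcases nat_cases3 p with h8 | h8 | h8 | h8
          · rw [h8] at e1; linarith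
          · rw [h8] at e1; linarith
          · rw [h8] at e1; linarith
          · have : 3 * (1 / 2 * δ) ≤ p * (1 / 2 * δ) :=
              mul_le_mul_of_nonneg_right h8 (by linarith)
            linarith
    -- the case t = 4/3 δ
    obtain ⟨h, hEh, hle, hirrh⟩ := exists_min (f := f₁) (g := g₃) (h := f₂) HK.swap23
    have hhlt : deg h < 3 * δ := by
      rw [← h2]
      refine lt_of_le_of_ne hle fun heq => ?_
      apply hirrh x (by rw [Sb_comm]; exact hx)
      rw [hxh, heq]
    have hGh : Good f₁ h g₃ := hcl.second hG hd hEh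
    have HKh := hGh.kel
    obtain ⟨c, hc, hu⟩ := hEh
    have hdu : deg (h - c • f₂) = 3 * δ := by
      rw [deg_sub_eq_right, deg_smul hc, h2]
      rw [deg_smul hc, h2]; exact hhlt
    obtain ⟨Ψ, hΨ, HWΨ⟩ : ∃ Ψ, ev f₁ g₃ Ψ = h - c • f₂ ∧ HardW f₁ g₃ Ψ (4 * δ) := by
      rcases val hf1 hg3 (by rw [← hμ]; linarith) hu (by rw [hdu]; linarith) with
        ⟨i, j, hij⟩ | ⟨p, q, ε, hp, hq, hpq, hε, e1, e2, e3⟩
      · exfalso
        rw [hdu, h1, ← ht, ht43] at hij
        have h8 : (i : ℝ) * 6 + j * 4 = 9 := by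
          have : δ * ((i : ℝ) * 6 + j * 4) = δ * 9 := by linarith
          exact mul_left_cancel₀ hδ.ne' this
        have h9 : i * 6 + j * 4 = 9 := by exact_mod_cast h8
        omega
      · obtain ⟨rfl, rfl⟩ := pq_eq (m := 3) (n := 2) hε hpq (by norm_num) e1 e2
          (by rw [h1, ← ht, ht43]; push_cast; ring)
        obtain ⟨Ψ, hΨ, HWΨ⟩ := e3 (by norm_num) le_rfl
        refine ⟨Ψ, hΨ, ?_⟩
        have : ((3 : ℕ) : ℝ) * (2 : ℕ) * ε = 4 * δ := by
          rw [h1] at e1
          push_cast at e1 ⊢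
          linarith
        rwa [this] at HWΨ
    have n3' := HWΨ.n3
    rw [← ht, ht43] at n3'
    have hdY : 8 / 3 * δ ≤ deg (ev f₁ g₃ (pderiv 1 Ψ)) := by linarith
    set y := deg (ev f₁ g₃ (pderiv 1 Ψ)) with hy
    have hVh : V f₁ h = y + μ := by
      rw [hy, hμ]
      apply V_eq_of (fun i j => c • M i j f₁ f₂)
      · intro i j
        have : h = c • f₂ + ev f₁ g₃ Ψ := by rw [hΨ]; abel
        rw [this, M_add_right, M_smul_right, M_ev_left]
      · apply ne_zero_of_deg_pos; rw [← hy]; linarith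
      · rw [← hμ]; linarith
      · intro i j
        rw [← hy, ← hμ]
        refine (deg_smul_le _ _).trans_lt ?_
        have := le_V i j f₁ f₂
        rw [← hv] at this
        linarith
    have hη : 2 * δ < deg h := by
      have := V_le_add f₁ h
      rw [hVh, h1] at this
      linarith
    have tri := HKh.rot'.tri
    rw [hVh, h1, V_comm h g₃, V_comm f₁ g₃, ← ht, ht43, ← hμ] at tri
    have hVhg : 2 * δ ≤ V h g₃ := by
      rcases le_max_iff.1 tri with h' | h' <;> linarith
    refine lemY (f₁ := f₁) (f₂ := g₃) (h := h) (ε := 2 / 3 * δ) hGh.s23 (by linarith)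
      (by rw [h1]; ring) (by rw [← ht, ht43]; ring) (by linarith) (by linarith) hirrh
      (by rw [hVh]; linarith) (by rw [V_comm]; linarith)
  · obtain ⟨g₁, g₂, g₃', s', Δ, a, b, c, x, S, hG'', P, hΔ, d2, hlt2, hbig, hs3, hodd', hsδ', hV⟩ := hr.data
    linarith
  · obtain ⟨g₁, g₂, g₃', s', Δ, a, b, c, x, S, hG'', P, hΔ, d2, hlt2, hbig, hs3, hodd', hsδ', hV⟩ := hr.data
    linarith
  · obtain ⟨g₁, g₂, g₃', s', Δ, a, b, c, x, S, hG'', P, hΔ, d2, hlt2, hbig, hs3, hodd', hsδ', hV⟩ := hr.data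
    have hV' : x + V g₁ g₂ ≤ v := by rw [V_comm f₁ f₂, ← hv] at hV; exact hV
    have hxs := P.xs
    have hvv := P.hv
    linarith
  · obtain ⟨g₁, g₂, g₃', s', Δ, a, b, c, x, S, hG'', P, hΔ, d2, hlt2, hbig, hs3, hodd', hsδ', hV⟩ := hr.data
    have h13 := P.v13
    have hxs := P.xs
    have hvv := P.hv
    rw [V_comm, ← hv] at h13
    linarith
  · obtain ⟨g₁, g₂, g₃', s', Δ, a, b, c, x, S, hG'', P, hΔ, d2, hlt2, hbig, hs3, hodd', hsδ', hV⟩ := hr.data
    linarith
  · obtain ⟨g₁, g₂, g₃', s', Δ, a, b, c, x, S, hG'', P, hΔ, d2, hlt2, hbig, hs3, hodd', hsδ', hV⟩ := hr.data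
    linarith

end Pool.Agent.Helper555_TN
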