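import Mathlib
import Pool.Agent.Helper555_TN.KeyB

set_option autoImplicit false

/-!
# Simple peaks
-/

open MvPolynomial

namespace Pool.Agent.Helper555_TN

variable {K : Type*} [Field K]

theorem self_le_left (f g : A K) : Sb f f ≤ Sb f g := Sb_le (left_mem _ _) (left_mem _ _)
theorem self_le_right (f g : A K) : Sb g g ≤ Sb f g := Sb_le (right_mem _ _) (right_mem _ _)

/-- replace the second generator -/
theorem Sb_congr_right {f g g' : A K} (E : El f f g g') : Sb f g' ≤ Sb f g := by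
  obtain ⟨c, hc, h⟩ := E
  apply Sb_le (left_mem _ _)
  have : g' = (g' - c • g) + c • g := by abel
  rw [this]
  exact Subalgebra.add_mem _ (self_le_left f g h) (Subalgebra.smul_mem _ (right_mem _ _) _)

theorem Sb_congr_left {f g f' : A K} (E : El g g f f') : Sb f' g ≤ Sb f g := by
  rw [Sb_comm f' g, Sb_comm f g]
  exact Sb_congr_right E

/-- all reductions of the third polynomial are good -/
theorem RedG.all {f g h : A K} {d : ℝ} (hcl : Cl K d) (hd : deg f + deg g + deg h = d)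
    (H : RedG f g h) {g₃ : A K} (E : El f g h g₃) : Good f g g₃ := by
  obtain ⟨h', h1, h2, h3⟩ := H
  exact hcl f g h' g₃ h3 (by linarith) (h1.symm.trans E)

theorem P1a {f₁ f₂ f₃ f₂' : A K} {d : ℝ} (hcl : Cl K d) (hd : deg f₁ + deg f₂ + deg f₃ = d)
    (hR : RedG f₁ f₂ f₃) (hM : El f₁ f₁ f₂ f₂') (hle : deg f₂' ≤ deg f₂) : Good f₁ f₂' f₃ := by
  obtain ⟨g₃, h1, h2, h3⟩ := hR
  have h4 : Good f₁ f₂' g₃ := hcl.second h3 (by linarith) (hM.mono (self_le_left _ _))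
  apply hcl f₁ f₂' g₃ f₃ h4 (by linarith)
  exact h1.symm.mono (Sb_congr_right hM.symm)

theorem P1a' {f₁ f₂ f₃ g₃ f₂' : A K} {d : ℝ} (hcl : Cl K d) (hd : deg f₁ + deg f₂ + deg f₃ = d)
    (hR : RedG f₁ f₂ f₃) (hM : El f₁ f₃ f₂ f₂') (hle : deg f₂' ≤ deg f₂)
    (hE : El f₁ f₁ f₃ g₃) (hlt : deg g₃ < deg f₃) : Good f₁ f₂' f₃ := by
  have h3 : Good f₁ f₂ g₃ := hR.all hcl hd (hE.mono (self_le_left _ _))
  have h4 : Good f₁ f₂' g₃ := hcl.second h3 (by linarith) (hM.mono (Sb_congr_right hE.symm))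
  exact hcl f₁ f₂' g₃ f₃ h4 (by linarith) (hE.symm.mono (self_le_left _ _))

/-- equal degrees -/
theorem PX {f₁ f₂ f₃ f₂' : A K} {d : ℝ} (hcl : Cl K d) (hd : deg f₁ + deg f₂ + deg f₃ = d)
    (hR : RedG f₁ f₂ f₃) (hM : El f₁ f₃ f₂ f₂') (hle : deg f₂' ≤ deg f₂)
    (hpos : 0 < deg f₃) (heq : deg f₂ = deg f₃) : Good f₁ f₂' f₃ := by
  obtain ⟨c, hc, h1⟩ := exists_cancel hpos heq.symm
  set g := f₃ - c • f₂ with hg
  have hE : El f₁ f₂ f₃ g := by
    refine ⟨1, one_ne_zero, ?_⟩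
    rw [one_smul, hg]
    have : f₃ - c • f₂ - f₃ = (-c) • f₂ := by rw [neg_smul]; abel
    rw [this]
    exact Subalgebra.smul_mem _ (right_mem _ _) _
  have h2 : Good f₁ f₂ g := hR.all hcl hd hE
  have h3 : Good f₁ g f₃ := by
    apply hcl f₁ g f₂ f₃ h2.s23 (by linarith)
    exact ⟨c, hc, by rw [← hg]; exact right_mem _ _⟩
  apply hcl.second h3 (by linarith)
  obtain ⟨c₂, hc₂, hu⟩ := hM
  refine ⟨-(c₂ * c⁻¹), neg_ne_zero.2 (mul_ne_zero hc₂ (inv_ne_zero hc)), ?_⟩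
  have : f₂' - (-(c₂ * c⁻¹)) • g = (f₂' - c₂ • f₂) + (c₂ * c⁻¹) • f₃ := by
    have e1 : (c₂ * c⁻¹) • (c • f₂) = c₂ • f₂ := by
      rw [smul_smul, mul_assoc, inv_mul_cancel₀ hc, mul_one]
    rw [hg, neg_smul, smul_sub, e1]
    abel
  rw [this]
  exact Subalgebra.add_mem _ hu (Subalgebra.smul_mem _ (right_mem _ _) _)

/-- the moved polynomial can be reduced by the common one -/
theorem PB1 {f₁ f₂ f₃ f₂' x : A K} {d : ℝ} (hcl : Cl K d) (hd : deg f₁ + deg f₂ + deg f₃ = d)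
    (hR : RedG f₁ f₂ f₃) (hM : El f₁ f₃ f₂ f₂') (hpos : 0 < deg f₂)
    (hx : x ∈ Sb f₁ f₁) (hdx : deg x = deg f₂) : Good f₁ f₂' f₃ := by
  obtain ⟨c, hc, hE, hlt⟩ := El.of_val hx hpos hdx
  have h1 : Good f₁ (f₂ - c • x) f₃ := P1a hcl hd hR hE hlt.le
  exact hcl.second h1 (by linarith) ((hE.symm.mono (self_le_left _ _)).trans hM)

/-- the first polynomial has been reduced by the third -/
theorem PF {f₁ f₂ f₃ f₂' f₁' : A K} {d : ℝ} (hcl : Cl K d) (hd : deg f₁ + deg f₂ + deg f₃ = d)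
    (hG : Good f₁' f₂ f₃) (hE : El f₃ f₃ f₁ f₁') (hlt : deg f₁' < deg f₁)
    (hM : El f₁ f₃ f₂ f₂') (hle : deg f₂' ≤ deg f₂) : Good f₁ f₂' f₃ := by
  have h1 : Good f₁' f₂' f₃ := hcl.second hG (by linarith) (hM.mono (Sb_congr_left hE.symm))
  exact hcl.first h1 (by linarith) (hE.symm.mono (self_le_right _ _))

/-- the common polynomial can be reduced by the moved one and the move uses only the third -/
theorem PB2 {f₁ f₂ f₃ f₂' x : A K} {d : ℝ} (hcl : Cl K d) (hd : deg f₁ + deg f₂ + deg f₃ = d)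
    (hR : RedG f₁ f₂ f₃) (hM : El f₃ f₃ f₂ f₂') (hle : deg f₂' ≤ deg f₂) (hpos : 0 < deg f₁)
    (hx : x ∈ Sb f₂ f₂) (hdx : deg x = deg f₁) : Good f₁ f₂' f₃ := by
  obtain ⟨c, hc, hE, hlt⟩ := El.of_val hx hpos hdx
  set f₁' := f₁ - c • x with hf1'
  have h1 : Good f₂ f₁' f₃ := P1a hcl (by linarith) hR.comm hE hlt.le
  have h2 : Good f₁' f₂' f₃ := hcl.second h1.s12 (by linarith) (hM.mono (self_le_right _ _))
  apply hcl.first h2 (by linarith)
  refine ⟨1, one_ne_zero, ?_⟩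
  have : f₁ - (1 : K) • f₁' = c • x := by rw [hf1', one_smul]; abel
  rw [this]
  apply Subalgebra.smul_mem
  have h3 : f₂ ∈ Sb f₂' f₃ := by
    obtain ⟨e, he, h4⟩ := hM.symm
    have : f₂ = (f₂ - e • f₂') + e • f₂' := by abel
    rw [this]
    exact Subalgebra.add_mem _ (self_le_right _ _ h4) (Subalgebra.smul_mem _ (left_mem _ _) _)
  exact Sb_le h3 h3 hx

/-- the third polynomial can be reduced by the second and the first by the third -/
theorem PC {f₁ f₂ f₃ f₂' x y : A K} {d : ℝ} (hcl : Cl K d) (hd : deg f₁ + deg f₂ + deg f₃ = d)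
    (hR : RedG f₁ f₂ f₃) (hM : El f₁ f₃ f₂ f₂') (hle : deg f₂' ≤ deg f₂) (hpos : 0 < deg f₁)
    (hpos3 : 0 < deg f₃)
    (hx : x ∈ Sb f₂ f₂) (hdx : deg x = deg f₃) (hy : y ∈ Sb f₃ f₃) (hdy : deg y = deg f₁) :
    Good f₁ f₂' f₃ := by
  obtain ⟨c, hc, hE, hlt⟩ := El.of_val hx hpos3 hdx
  obtain ⟨c', hc', hE', hlt'⟩ := El.of_val hy hpos hdy
  have h1 : Good f₂ (f₁ - c' • y) f₃ :=
    P1a' hcl (by linarith) hR.comm (hE'.mono (self_le_right _ _)) hlt'.le hE hlt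
  exact PF hcl hd h1.s12 hE' hlt' hM hle

end Pool.Agent.Helper555_TN
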