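import Mathlib
import Pool.Agent.Helper555_TN.PeakA

set_option autoImplicit false

/-!
# Peaks with a simple move
-/

open MvPolynomial

namespace Pool.Agent.Helper555_TN

variable {K : Type*} [Field K]

theorem ev_mem_left {f g : A K} {Ψ : MvPolynomial (Fin 2) K}
    (h : ∀ s, coeff s Ψ ≠ 0 → s 1 = 0) : ev f g Ψ ∈ Sb f f := by
  rw [ev_eq_sum]
  apply Subalgebra.sum_mem
  intro s hs
  rw [h s (mem_support_iff.1 hs), pow_zero, mul_one]
  exact Subalgebra.mul_mem _ (Subalgebra.algebraMap_mem _ _)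
    (Subalgebra.pow_mem _ (left_mem f f) _)

theorem ev_mem_right {f g : A K} {Ψ : MvPolynomial (Fin 2) K}
    (h : ∀ s, coeff s Ψ ≠ 0 → s 0 = 0) : ev f g Ψ ∈ Sb g g := by
  rw [ev_eq_sum]
  apply Subalgebra.sum_mem
  intro s hs
  rw [h s (mem_support_iff.1 hs), pow_zero, one_mul]
  exact Subalgebra.mul_mem _ (Subalgebra.algebraMap_mem _ _)
    (Subalgebra.pow_mem _ (left_mem g g) _)

theorem ev_monomial (f g : A K) (s : Fin 2 →₀ ℕ) (c : K) :
    ev f g (monomial s c) = C c * (f ^ s 0 * g ^ s 1) := by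
  rw [ev, aeval_monomial, Finsupp.prod_fintype _ _ (by simp)]
  simp [Fin.prod_univ_two, algebraMap_eq]

theorem split2 (f g : A K) {Ψ : MvPolynomial (Fin 2) K}
    (h : ∀ s, coeff s Ψ ≠ 0 → s 1 = 0 ∨ (s 0 = 0 ∧ s 1 = 1) ∨ (s 0 = 0 ∧ s 1 = 2)) :
    ∃ (Ψ₀ : MvPolynomial (Fin 2) K) (α β : K), ev f g Ψ = ev f g Ψ₀ + α • g ^ 2 + β • g ∧
      (∀ s, coeff s Ψ₀ ≠ 0 → s 1 = 0 ∧ coeff s Ψ ≠ 0) ∧
      (α ≠ 0 → coeff (Finsupp.single 1 2) Ψ ≠ 0) ∧ (β ≠ 0 → coeff (Finsupp.single 1 1) Ψ ≠ 0) := by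
  classical
  refine ⟨Ψ - monomial (Finsupp.single 1 2) (coeff (Finsupp.single 1 2) Ψ) -
    monomial (Finsupp.single 1 1) (coeff (Finsupp.single 1 1) Ψ),
    coeff (Finsupp.single 1 2) Ψ, coeff (Finsupp.single 1 1) Ψ, ?_, ?_, id, id⟩
  · rw [map_sub, map_sub, ev_monomial, ev_monomial]
    simp [smul_eq_C_mul]
    ring
  · intro s hs
    rw [coeff_sub, coeff_sub, coeff_monomial, coeff_monomial] at hs
    by_cases h2 : Finsupp.single 1 2 = s
    · have h3 : ¬ (Finsupp.single (1 : Fin 2) 1 = s) := by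
        rw [← h2]
        intro h4
        have := congrArg (fun t => t 1) h4
        simp at this
      rw [if_pos h2, if_neg h3, h2] at hs
      simp at hs
    · by_cases h3 : Finsupp.single 1 1 = s
      · rw [if_neg h2, if_pos h3, h3] at hs
        simp at hs
      · rw [if_neg h2, if_neg h3, sub_zero, sub_zero] at hs
        refine ⟨?_, hs⟩
        rcases h s hs with h4 | ⟨h4, h5⟩ | ⟨h4, h5⟩
        · exact h4
        · exfalso
          apply h3
          ext i
          fin_cases i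
          · simpa using h4.symm
          · simpa using h5.symm
        · exfalso
          apply h2
          ext i
          fin_cases i
          · simpa using h4.symm
          · simpa using h5.symm

/-- construction of a Shestakov-Umirbaev reduction -/
theorem mkSU [CharZero K] {u w f₃ g f₁ f₂ : A K} {d δ : ℝ} {s : ℕ} {a b c : K} (hcl : Cl K d)
    (hd : deg u + deg w + deg g < d) (hG : Good u w g) (hE : El u w f₃ g) (hlt : deg g < deg f₃)
    (hδ : 0 < δ) (hs : 3 ≤ s) (hodd : s % 2 = 1) (hu : deg u = s * δ) (hw : deg w = 2 * δ)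
    (h3 : deg f₃ < s * δ) (h3' : ∀ k : ℕ, deg f₃ ≠ k * (2 * δ)) (h1 : u = f₁ + a • f₃ ^ 2 + c • f₃)
    (h2 : w = f₂ + b • f₃) (hf1 : deg f₁ ≤ s * δ) (hf2 : deg f₂ = 2 * δ) : Good f₁ f₂ f₃ := by
  by_cases habc : a ≠ 0 ∨ b ≠ 0 ∨ c ≠ 0
  swap
  · push Not at habc
    obtain ⟨rfl, rfl, rfl⟩ := habc
    simp only [zero_smul, add_zero] at h1 h2
    subst h1 h2
    exact Good.el hG hE hlt
  obtain ⟨h', hE', hle', hmin⟩ := exists_min hG.kel
  obtain ⟨e, he, hm⟩ := hE.trans hE'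
  have hsR : (3 : ℝ) ≤ s := by exact_mod_cast hs
  have hsδ : 3 * δ ≤ s * δ := mul_le_mul_of_nonneg_right hsR hδ.le
  set g₃ := e⁻¹ • h' with hg₃
  have hdg : deg g₃ = deg h' := deg_smul (inv_ne_zero he) _
  have hmem : f₃ - g₃ ∈ Sb u w := by
    have h4 := (Sb u w).smul_mem hm (-e⁻¹)
    have h5 : (-e⁻¹) • (h' - e • f₃) = f₃ - g₃ := by
      rw [hg₃, smul_sub, smul_smul, neg_mul, inv_mul_cancel₀ he, neg_smul, neg_smul, one_smul]
      abel
    rwa [h5] at h4
  have hG3 : Good u w g₃ := by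
    apply hcl u w g g₃ hG (by linarith)
    exact hE'.trans ⟨e⁻¹, inv_ne_zero he, by simp [hg₃]⟩
  have hlt3 : deg g₃ < deg f₃ := by rw [hdg]; linarith
  have hmin' : ∀ x ∈ Sb w u, deg x ≠ deg g₃ := by
    intro x hx
    rw [hdg]
    exact hmin x (by rw [Sb_comm]; exact hx)
  have HK := hG3.kel
  have hu0 : 0 < deg u := by rw [hu]; linarith
  have hw0 : 0 < deg w := by rw [hw]; linarith
  have hdφ : deg (f₃ - g₃) = deg f₃ := deg_sub_eq_left hlt3
  have h30 : 0 < deg f₃ := lt_of_le_of_lt (deg_nonneg _) hlt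
  have hkp : V w g₃ < s * δ + V u w := by
    rw [V_comm w u]
    exact KP hcl hG3.s12 (by linarith) hδ hs hodd hw hu (by linarith) hmin'
  refine Good.su (g₁ := u) (g₂ := w) (g₃ := g₃) (s := s) (δ := δ) (a := a) (b := b) (c := c)
    ⟨h1, h2, hmem, habc, hδ, hs, hodd, hu, hw, hf2, hf1, h3, h3', hlt3, hkp, ?_⟩ hG3
  intro hsp
  rcases val hw0 hu0 HK.swap12.rot'.V_pos (by rw [Sb_comm]; exact hmem) (by rw [hdφ]; exact h30)
    with ⟨i, j, hij⟩ | ⟨p, q, ε, hp, hq, hpq, hε, e1, e2, e3⟩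
  · exfalso
    rw [hdφ, hw, hu] at hij
    have hi : (0 : ℝ) ≤ i * (2 * δ) := by positivity
    rcases nat_eq_zero_or_one_le j with hj | hj
    · apply h3' i
      rw [hj] at hij
      linarith
    · have : (s * δ : ℝ) ≤ j * (s * δ) := by nlinarith
      linarith
  · have hcop : Nat.Coprime 2 s := by
      rw [Nat.coprime_two_left, Nat.odd_iff]
      exact hodd
    obtain ⟨rfl, rfl⟩ := pq_eq hε hpq hcop e1 e2 (by rw [hw, hu]; push_cast; ring)
    obtain ⟨Φ, hΦ, HW⟩ := e3 le_rfl (by omega)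
    have hεδ : ε = δ := by
      rw [hw] at e1
      push_cast at e1
      linarith
    subst hεδ
    have n1 := HW.n1
    rw [hΦ, hdφ] at n1
    push_cast at n1
    have hv : 0 < V w u := HK.swap12.rot'.V_pos
    have hs3 : q = 3 := by
      rcases odd_cases hs hodd with h | h
      · exact_mod_cast h
      · exfalso
        have : 5 * ε ≤ q * ε := mul_le_mul_of_nonneg_right h hδ.le
        linarith
    subst hs3
    push_cast at hsp HW h3
    have := MK (Φ := Φ) hcl hG3.s12 (by linarith) hδ hw (by rw [hu]; push_cast; ring) (by linarith)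
      hmin' (by
        have e4 : (2 : ℝ) * 3 * ε = 6 * ε := by ring
        rwa [e4] at HW) (by rw [hΦ, hdφ]; linarith)
    rw [V_comm w u]
    push_cast
    linarith

theorem caseB [CharZero K] {f₁ f₂ f₃ f₂' : A K} {d : ℝ} {c₂ : K} {Ψ : MvPolynomial (Fin 2) K}
    (hcl : Cl K d) (hd : deg f₁ + deg f₂ + deg f₃ = d) (hR : RedG f₁ f₂ f₃)
    (hnv : ∀ i j : ℕ, (i : ℝ) * deg f₁ + j * deg f₂ ≠ deg f₃)
    (hc₂ : c₂ ≠ 0) (hf2 : f₂' = c₂ • f₂ + ev f₁ f₃ Ψ) (hle : deg f₂' ≤ deg f₂)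
    (hs : ∀ s, coeff s Ψ ≠ 0 → fw f₁ f₃ s ≤ deg f₂) : Good f₁ f₂' f₃ := by
  have hM : El f₁ f₃ f₂ f₂' := ⟨c₂, hc₂, by rw [hf2, add_sub_cancel_left]; exact ev_mem _ _ _⟩
  by_cases hY : ∀ s, coeff s Ψ ≠ 0 → s 1 = 0
  · refine P1a hcl hd hR ⟨c₂, hc₂, ?_⟩ hle
    rw [hf2, add_sub_cancel_left]
    exact ev_mem_left hY
  push Not at hY
  obtain ⟨s₀, hs₀, hs₀1⟩ := hY
  obtain ⟨h', hE, hlt, hG⟩ := hR
  have hR : RedG f₁ f₂ f₃ := ⟨h', hE, hlt, hG⟩
  have HK : Kel f₁ f₂ f₃ := hG.kel.el hE.symm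
  have h10 : 0 < deg f₁ := HK.deg_pos
  have h20 : 0 < deg f₂ := HK.rot.deg_pos
  have h30 : 0 < deg f₃ := HK.rot'.deg_pos
  have h32 : deg f₃ < deg f₂ := by
    have h1 := hs s₀ hs₀
    have h2 : (1 : ℝ) ≤ s₀ 1 := by
      have : 1 ≤ s₀ 1 := Nat.one_le_iff_ne_zero.2 hs₀1
      exact_mod_cast this
    have h3 : (0 : ℝ) ≤ s₀ 0 * deg f₁ := by positivity
    have h4 : deg f₃ ≤ s₀ 1 * deg f₃ := by nlinarith
    rw [fw] at h1
    refine lt_of_le_of_ne (by linarith) ?_
    have := hnv 0 1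
    intro h5
    apply this
    rw [h5]; push_cast; ring
  obtain ⟨x, hx, hdx⟩ := hE.val hlt
  rcases val h10 h20 HK.rot'.V_pos hx (by rw [hdx]; exact h30) with ⟨i, j, hij⟩ |
    ⟨p, q, δ, hp, hq, hpq, hδ, h1, h2, h3⟩
  · exact absurd (by rw [hij, hdx]) (hnv i j)
  rcases Nat.lt_or_ge p 2 with hp2 | hp2
  · have hp1 : p = 1 := by omega
    subst hp1
    refine PB1 hcl hd hR hM h20 (x := f₁ ^ q) (Subalgebra.pow_mem _ (left_mem _ _) _) ?_
    rw [deg_pow q (ne_zero_of_deg_pos h10), h2, h1]; push_cast; ring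
  rcases Nat.lt_or_ge q 2 with hq2 | hq2
  · have hq1 : q = 1 := by omega
    subst hq1
    have hX : ∀ s, coeff s Ψ ≠ 0 → s 0 = 0 := by
      intro s hsΨ
      by_contra hc
      have h4 := hs s hsΨ
      have h5 : (1 : ℝ) ≤ s 0 := by
        have : 1 ≤ s 0 := Nat.one_le_iff_ne_zero.2 hc
        exact_mod_cast this
      have h6 : (0 : ℝ) ≤ s 1 * deg f₃ := by positivity
      have h7 : deg f₁ ≤ s 0 * deg f₁ := by nlinarith
      have h8 : (2 : ℝ) ≤ p := by exact_mod_cast hp2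
      have h9 : 2 * δ ≤ p * δ := mul_le_mul_of_nonneg_right h8 hδ.le
      rw [fw] at h4
      push_cast at h2
      linarith
    refine PB2 hcl hd hR (x := f₂ ^ p) ⟨c₂, hc₂, ?_⟩ hle h10
      (Subalgebra.pow_mem _ (left_mem _ _) _) ?_
    · rw [hf2, add_sub_cancel_left]
      exact ev_mem_right hX
    · rw [deg_pow p (ne_zero_of_deg_pos h20), h2, h1]; push_cast; ring
  obtain ⟨Φ, hΦ, HW⟩ := h3 hp2 hq2
  have n1 := HW.n1
  rw [hΦ, hdx] at n1
  have hv : 0 < V f₁ f₂ := HK.rot'.V_pos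
  have hpq2 : p * q < p + 2 * q := by
    have : δ * ((p : ℝ) * q) < δ * (p + 2 * q) := by
      rw [h1, h2] at n1
      rw [h2] at h32
      nlinarith
    have := lt_of_mul_lt_mul_left this hδ.le
    exact_mod_cast this
  have hp3 : p = 2 ∨ (p = 3 ∧ q = 2) := by
    rcases Nat.lt_or_ge p 4 with h | h
    · rcases Nat.lt_or_ge p 3 with h' | h'
      · left; omega
      · right
        have : p = 3 := by omega
        subst this
        exact ⟨rfl, by omega⟩
    · exfalso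
      nlinarith
  rcases hp3 with rfl | ⟨rfl, rfl⟩
  · -- the case (2, s)
    have hodd : q % 2 = 1 := by
      rw [Nat.coprime_two_left, Nat.odd_iff] at hpq
      exact hpq
    have hq3 : 3 ≤ q := by omega
    push_cast at h1 n1
    have hqR : (3 : ℝ) ≤ q := by exact_mod_cast hq3
    have hqδ : 3 * δ ≤ q * δ := mul_le_mul_of_nonneg_right hqR hδ.le
    have hlo : (q - 2) * δ < deg f₃ := by linarith
    have hsup : ∀ s, coeff s Ψ ≠ 0 → s 1 = 0 ∨ (s 0 = 0 ∧ s 1 = 1) ∨ (s 0 = 0 ∧ s 1 = 2) := by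
      intro s hsΨ
      have h4 := hs s hsΨ
      rw [fw, h1, h2] at h4
      rcases Nat.eq_zero_or_pos (s 1) with h5 | h5
      · exact Or.inl h5
      right
      have h6 : s 0 = 0 := by
        by_contra hc
        have h7 : (1 : ℝ) ≤ s 0 := by
          have : 1 ≤ s 0 := Nat.one_le_iff_ne_zero.2 hc
          exact_mod_cast this
        have h8 : (1 : ℝ) ≤ s 1 := by exact_mod_cast h5
        have h9 : deg f₃ ≤ s 1 * deg f₃ := by nlinarith
        have h10' : 2 * δ ≤ s 0 * (2 * δ) := by nlinarith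
        linarith
      rcases Nat.lt_or_ge (s 1) 3 with h7 | h7
      · have : s 1 = 1 ∨ s 1 = 2 := by omega
        tauto
      · exfalso
        have h8 : (3 : ℝ) ≤ s 1 := by exact_mod_cast h7
        have h9 : 3 * deg f₃ ≤ s 1 * deg f₃ := mul_le_mul_of_nonneg_right h8 h30.le
        have h10' : 0 ≤ (s 0 : ℝ) * (2 * δ) := by positivity
        linarith
    obtain ⟨Ψ₀, α, β, h4, h5, h6, h7⟩ := split2 f₁ f₃ hsup
    have hu0 : deg (ev f₁ f₃ Ψ₀) < q * δ := by
      apply lt_of_le_of_lt (b := (q - 1) * δ)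
      · apply deg_ev_le
        · apply mul_nonneg _ hδ.le
          linarith
        · intro s hsΨ
          obtain ⟨h8, h9⟩ := h5 s hsΨ
          have h10' := hs s h9
          rw [fw, h1, h2, h8] at h10'
          rw [fw, h1, h8]
          push_cast at h10' ⊢
          have h11 : δ * ((s 0 : ℝ) * 2) ≤ δ * q := by linarith
          have h12 : (s 0 : ℝ) * 2 ≤ q := le_of_mul_le_mul_left h11 hδ
          have h13 : s 0 * 2 ≤ q := by exact_mod_cast h12
          have h14 : s 0 * 2 + 1 ≤ q := by omega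
          have h15 : (s 0 : ℝ) * 2 + 1 ≤ q := by exact_mod_cast h14
          nlinarith
      · nlinarith
    set u := c₂ • f₂ + ev f₁ f₃ Ψ₀ with hu
    have hdu : deg u = q * δ := by
      rw [hu, deg_add_eq_left, deg_smul hc₂, h2]
      rw [deg_smul hc₂, h2]; exact hu0
    have hEu : El f₁ f₁ f₂ u := ⟨c₂, hc₂, by
      rw [hu, add_sub_cancel_left]; exact ev_mem_left (fun s hs => (h5 s hs).1)⟩
    have hGu : Good f₁ u h' := hcl.second hG (by linarith) (hEu.mono (self_le_left _ _))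
    refine (mkSU (u := u) (w := f₁) (f₃ := f₃) (g := h') (a := -α) (b := 0) (c := -β) (s := q)
      (δ := δ) hcl (by linarith) hGu.s12 ?_ hlt hδ hq3 hodd hdu h1 (by linarith) ?_ ?_ (by simp)
      (by linarith) h1).s12
    · exact (hE.mono (Sb_congr_right hEu.symm)).comm
    · intro k hk
      apply hnv k 0
      rw [hk, h1]; push_cast; ring
    · rw [hf2, h4, hu, neg_smul, neg_smul]; abel
  · -- the case (3, 2)
    push_cast at h1 h2 n1
    have hlo : δ < deg f₃ := by linarith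
    have hsup : ∀ s, coeff s Ψ ≠ 0 → s 0 = 0 ∧ (s 1 = 0 ∨ s 1 = 1) := by
      intro s hsΨ
      have h4 := hs s hsΨ
      rw [fw, h1, h2] at h4
      have h8 : 0 ≤ (s 1 : ℝ) * deg f₃ := by positivity
      have h6 : s 0 = 0 := by
        by_contra hc
        have h7 : (1 : ℝ) ≤ s 0 := by
          have : 1 ≤ s 0 := Nat.one_le_iff_ne_zero.2 hc
          exact_mod_cast this
        have h10' : 3 * δ ≤ s 0 * (3 * δ) := by nlinarith
        linarith
      refine ⟨h6, ?_⟩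
      rcases Nat.lt_or_ge (s 1) 2 with h7 | h7
      · omega
      · exfalso
        have h8 : (2 : ℝ) ≤ s 1 := by exact_mod_cast h7
        have h9 : 2 * deg f₃ ≤ s 1 * deg f₃ := mul_le_mul_of_nonneg_right h8 h30.le
        have h10' : 0 ≤ (s 0 : ℝ) * (3 * δ) := by positivity
        linarith
    obtain ⟨Ψ₀, α, β, h4, h5, h6, h7⟩ := split2 f₁ f₃ (fun s hs => by
      have := hsup s hs; tauto)
    have hα : α = 0 := by
      by_contra hα
      have := (hsup _ (h6 hα)).2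
      simp at this
    subst hα
    rw [zero_smul, add_zero] at h4
    have hu0 : deg (ev f₁ f₃ Ψ₀) ≤ 0 := by
      apply deg_ev_le _ _ _ le_rfl
      intro s hsΨ
      obtain ⟨h8, h9⟩ := h5 s hsΨ
      rw [fw, h8, (hsup s h9).1]
      simp
    set w := c₂ • f₂ + ev f₁ f₃ Ψ₀ with hw
    have hdw : deg w = 2 * δ := by
      rw [hw, deg_add_eq_left, deg_smul hc₂, h2]
      rw [deg_smul hc₂, h2]; linarith
    have hEw : El f₁ f₁ f₂ w := ⟨c₂, hc₂, by
      rw [hw, add_sub_cancel_left]; exact ev_mem_left (fun s hs => (h5 s hs).1)⟩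
    have hGw : Good f₁ w h' := hcl.second hG (by linarith) (hEw.mono (self_le_left _ _))
    have hf2' : f₂' = w + β • f₃ := by rw [hf2, h4, hw]; abel
    refine mkSU (u := f₁) (w := w) (f₃ := f₃) (g := h') (a := 0) (b := -β) (c := 0) (s := 3)
      (δ := δ) hcl (by linarith) hGw ?_ hlt hδ le_rfl rfl (by rw [h1]; push_cast; ring) hdw
      (by push_cast; linarith) ?_ (by simp) ?_ (by push_cast; linarith) ?_
    · exact hE.mono (Sb_congr_right hEw.symm)
    · intro k hk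
      rcases nat_cases2 k with h | h | h
      · rw [h] at hk; linarith
      · rw [h] at hk; linarith
      · have : 2 * (2 * δ) ≤ k * (2 * δ) := by nlinarith
        linarith
    · rw [hf2', neg_smul]; abel
    · rw [hf2', deg_add_eq_left, hdw]
      rw [hdw]
      exact (deg_smul_le _ _).trans_lt (by linarith)

end Pool.Agent.Helper555_TN
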