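import Mathlib
import Pool.Agent.Helper555_TN.PeakB

set_option autoImplicit false

/-!
# Peaks with a value
-/

open MvPolynomial

namespace Pool.Agent.Helper555_TN

variable {K : Type*} [Field K]

theorem RedG.min {f g h : A K} {d : ℝ} (hcl : Cl K d) (hd : deg f + deg g + deg h ≤ d)
    (H : RedG f g h) : ∃ g₃, h - g₃ ∈ Sb f g ∧ deg g₃ < deg h ∧ Good f g g₃ ∧
      ∀ x ∈ Sb f g, deg x ≠ deg g₃ := by
  obtain ⟨k, hE, hlt, hG⟩ := H
  obtain ⟨h', hE', hle', hmin⟩ := exists_min hG.kel
  obtain ⟨e, he, hm⟩ := hE.trans hE'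
  have hdg : deg (e⁻¹ • h') = deg h' := deg_smul (inv_ne_zero he) _
  refine ⟨e⁻¹ • h', ?_, by rw [hdg]; linarith, ?_, ?_⟩
  · have h4 := (Sb f g).smul_mem hm (-e⁻¹)
    have h5 : (-e⁻¹) • (h' - e • h) = h - e⁻¹ • h' := by
      rw [smul_sub, smul_smul, neg_mul, inv_mul_cancel₀ he, neg_smul, neg_smul, one_smul]
      abel
    rwa [h5] at h4
  · apply hcl f g k _ hG (by linarith)
    exact hE'.trans ⟨e⁻¹, inv_ne_zero he, by simp⟩
  · intro x hx
    rw [hdg]
    exact hmin x hx

theorem split1 (f g : A K) {Ψ : MvPolynomial (Fin 2) K}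
    (h : ∀ s, coeff s Ψ ≠ 0 → s 1 = 0 ∧ (s 0 = 0 ∨ s 0 = 1)) :
    ∃ c₀ c₁ : K, ev f g Ψ = C c₀ + c₁ • f := by
  classical
  refine ⟨coeff 0 Ψ, coeff (Finsupp.single 0 1) Ψ, ?_⟩
  have h1 : Ψ = C (coeff 0 Ψ) + monomial (Finsupp.single 0 1) (coeff (Finsupp.single 0 1) Ψ) := by
    ext s
    rw [coeff_add, coeff_C, coeff_monomial]
    by_cases h2 : 0 = s
    · have h3 : ¬ (Finsupp.single (0 : Fin 2) 1 = s) := by
        rw [← h2]
        intro h4
        have := congrArg (fun t => t 0) h4
        simp at this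
      rw [if_pos h2, if_neg h3, h2, add_zero]
    · by_cases h3 : Finsupp.single 0 1 = s
      · rw [if_neg h2, if_pos h3, h3, zero_add]
      · rw [if_neg h2, if_neg h3, add_zero]
        by_contra hs
        obtain ⟨h4, h5 | h5⟩ := h s hs
        · apply h2
          ext i
          fin_cases i
          · simpa using h5.symm
          · simpa using h4.symm
        · apply h3
          ext i
          fin_cases i
          · simpa using h5.symm
          · simpa using h4.symm
  have h6 : ev f g Ψ = ev f g (C (coeff 0 Ψ) +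
      monomial (Finsupp.single 0 1) (coeff (Finsupp.single 0 1) Ψ)) := congrArg _ h1
  rw [h6, map_add, ev_C, ev_monomial]
  simp [smul_eq_C_mul]

theorem M_sq_right (i j : Fin 3) (u v : A K) : M i j u (v ^ 2) = 2 * v * M i j u v := by
  simp only [M, pow_two, Derivation.leibniz, smul_eq_mul]
  ring

theorem M_sq_left (i j : Fin 3) (u v : A K) : M i j (v ^ 2) u = 2 * v * M i j v u := by
  simp only [M, pow_two, Derivation.leibniz, smul_eq_mul]
  ring

theorem M_C_right (i j : Fin 3) (u : A K) (c : K) : M i j u (C c) = 0 := by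
  simp [M, ← algebraMap_eq]

theorem caseC1b [CharZero K] {f₁ f₂ f₃ f₂' : A K} {d δ : ℝ} {Ψ : MvPolynomial (Fin 2) K}
    (hcl : Cl K d) (hd : deg f₁ + deg f₂ + deg f₃ = d) (hR : RedG f₁ f₂ f₃)
    (hM : El f₁ f₃ f₂ f₂') (hδ : 0 < δ) (h1 : deg f₁ = 2 * δ) (h2 : deg f₂ = 3 / 2 * δ)
    (h3 : deg f₃ = 3 * δ) (HW : HardW f₁ f₃ Ψ (6 * δ)) (hΨ : deg (ev f₁ f₃ Ψ) ≤ 3 / 2 * δ) :
    Good f₁ f₂' f₃ := by
  obtain ⟨g₃, hmem, hlt, hG, hmin⟩ := hR.min hcl hd.le
  have HKg := hG.kel
  have HK : Kel f₁ f₂ f₃ := HKg.el ⟨1, one_ne_zero, by rw [one_smul]; exact hmem⟩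
  have hW := W_pos
  have n1 := HW.n1
  have n2 := HW.n2
  have n3 := HW.n3
  have hf10 : 0 < deg f₁ := by rw [h1]; linarith
  have hf20 : 0 < deg f₂ := by rw [h2]; linarith
  have hf30 : 0 < deg f₃ := by rw [h3]; linarith
  have hV13 : V f₁ f₃ ≤ 1 / 2 * δ := by linarith
  have hV12 : 3 / 2 * δ + W ≤ V f₁ f₂ := by
    have := Jm_bound_left HK.swap23 Ψ (ne_zero_of_deg_pos (by linarith))
    linarith
  have hV12pos : 0 < V f₁ f₂ := by linarith
  have hV12u : V f₁ f₂ < 7 / 2 * δ := by
    have := V_lt_of_comm (f := f₁) (g := f₂) (p := 4) (q := 3) (by norm_num) hf10 hf20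
      (by rw [h1, h2]; push_cast; ring)
    linarith
  have hV23 : V f₂ f₃ = δ + V f₁ f₂ := by
    apply le_antisymm
    · rcases le_max_iff.1 HK.tri with h | h
      · linarith
      · linarith
    · rcases le_max_iff.1 HK.rot'.tri with h | h
      · rw [V_comm f₂ f₃] at h; linarith
      · rw [V_comm f₁ f₃] at h; linarith
  obtain ⟨Φ, hΦ⟩ := exists_ev hmem
  have hdφ : deg (f₃ - g₃) = 3 * δ := by rw [deg_sub_eq_left hlt, h3]
  have hsup : ∀ s, coeff s Φ ≠ 0 → fw f₁ f₂ s ≤ 3 * δ := by
    rcases dich hf10 hf20 hV12pos Φ with h | ⟨p, q, ε, hp, hq, hpq, hε, e1, e2, e3⟩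
    · rw [hΦ, hdφ] at h; exact h
    · exfalso
      obtain ⟨rfl, rfl⟩ := pq_eq (m := 4) (n := 3) hε hpq (by decide) e1 e2
        (by rw [h1, h2]; push_cast; ring)
      obtain ⟨e4, -⟩ := e3 (by norm_num) (by norm_num)
      rw [hΦ, hdφ] at e4
      push_cast at e4 e1
      linarith
  have hsup2 : ∀ s, coeff s Φ ≠ 0 → (s 1 = 0 ∧ (s 0 = 0 ∨ s 0 = 1)) ∨ (s 0 = 0 ∧ s 1 = 1) ∨
      (s 0 = 0 ∧ s 1 = 2) := by
    intro s hs
    have h4 := hsup s hs
    rw [fw, h1, h2] at h4
    have h5 : s 0 * 4 + s 1 * 3 ≤ 6 := by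
      have : δ * ((s 0 : ℝ) * 4 + s 1 * 3) ≤ δ * 6 := by linarith
      have := le_of_mul_le_mul_left this hδ
      exact_mod_cast this
    omega
  obtain ⟨Φ₀, κ₂, κ₁, hs1, hs2, -, -⟩ := split2 f₁ f₂ (fun s hs => by
    have := hsup2 s hs; tauto)
  obtain ⟨κ₀, κ₁', hs3⟩ := split1 f₁ f₂ (Ψ := Φ₀) (fun s hs => by
    obtain ⟨h5, h6⟩ := hs2 s hs
    rcases hsup2 s h6 with h7 | h7 | h7
    · exact h7
    · exact ⟨h5, Or.inl h7.1⟩
    · exact ⟨h5, Or.inl h7.1⟩)
  rw [hs3, hΦ] at hs1
  have hg3 : g₃ = f₃ - (C κ₀ + κ₁' • f₁ + κ₂ • f₂ ^ 2 + κ₁ • f₂) := by rw [← hs1]; abel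
  have hκ₂ : κ₂ ≠ 0 := by
    rintro rfl
    have : deg (f₃ - g₃) ≤ 2 * δ := by
      rw [hs1, zero_smul, add_zero]
      apply deg_add_le_of (deg_add_le_of _ _)
      · exact (deg_smul_le _ _).trans (by linarith)
      · rw [deg_C]; linarith
      · exact (deg_smul_le _ _).trans (by linarith)
    linarith
  have hdeglin : ∀ r r' : K, r ≠ 0 → deg (C (2 * r) * f₂ + C r') = 3 / 2 * δ := by
    intro r r' hr
    have h2r : (2 * r : K) ≠ 0 := mul_ne_zero two_ne_zero hr
    rw [deg_add_eq_left, deg_C_mul h2r, h2]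
    rw [deg_C_mul h2r, deg_C]
    exact hf20
  have hVa : V f₁ g₃ = 3 / 2 * δ + V f₁ f₂ := by
    have hu := hdeglin κ₂ κ₁ hκ₂
    have key : V f₁ g₃ = deg (-(C (2 * κ₂) * f₂ + C κ₁) : A K) + V f₁ f₂ := by
      apply V_eq_of (fun i j => M i j f₁ f₃)
      · intro i j
        rw [hg3, M_sub_right, M_add_right, M_add_right, M_add_right, M_smul_right, M_smul_right,
          M_smul_right, M_self, M_sq_right, M_C_right]
        simp only [smul_eq_C_mul, C_mul, map_ofNat]
        ring
      · exact neg_ne_zero.2 (ne_zero_of_deg_pos (by rw [hu]; linarith))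
      · exact hV12pos
      · intro i j
        rw [deg_neg, hu]
        have := le_V i j f₁ f₃
        linarith
    rw [key, deg_neg, hu]
  have hVb : V f₂ g₃ = δ + V f₁ f₂ := by
    have key : V f₂ g₃ = deg (1 : A K) + V f₂ f₃ := by
      apply V_eq_of (fun i j => - κ₁' • M i j f₂ f₁)
      · intro i j
        rw [hg3, M_sub_right, M_add_right, M_add_right, M_add_right, M_smul_right, M_smul_right,
          M_smul_right, M_self, M_sq_right, M_self, M_C_right]
        simp only [smul_eq_C_mul, neg_smul]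
        ring
      · exact one_ne_zero
      · linarith
      · intro i j
        rw [← C_1, deg_C]
        refine (deg_smul_le _ _).trans_lt ?_
        have := le_V i j f₂ f₁
        rw [V_comm] at this
        linarith
    rw [key, ← C_1, deg_C, hV23]; ring
  set t := deg g₃ with ht
  have ht1 : δ + V f₁ f₂ ≤ 3 / 2 * δ + t := by
    have := V_le_add f₂ g₃
    rw [hVb, h2] at this
    exact this
  have htδ : δ < t := by linarith
  have ht3 : t < 3 * δ := by rw [← h3]; exact hlt
  have ht0 : 0 < deg g₃ := by linarith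
  have ht32 : t ≠ 3 / 2 * δ := by
    rw [← h2]; exact fun h => hmin f₂ (right_mem _ _) h.symm
  have ht2 : t ≠ 2 * δ := by
    rw [← h1]; exact fun h => hmin f₁ (left_mem _ _) h.symm
  rcases hG.inv with hb | (hr | hr | hr) | (hs | hs | hs | hs | hs | hs)
  · exfalso; linarith
  · exfalso
    obtain ⟨h', hE, hlt', -⟩ := hr
    obtain ⟨x, hx, hxh⟩ := hE.val hlt'
    exact hmin x hx hxh
  · exfalso
    obtain ⟨h', hE, hlt', -⟩ := hr
    obtain ⟨x, hx, hxh⟩ := hE.val hlt'
    rcases val2 hf20 ht0 HKg.V_pos hx (by rw [hxh]; exact hf10) with ⟨i, j, hij⟩ | ⟨k, hk, hk2⟩ |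
      ⟨k, hk, hk2⟩ | ⟨hh1, hh2⟩
    · rw [hxh, h1, h2, ← ht] at hij
      rcases nat_cases2 j with hj | hj | hj
      · rw [hj] at hij
        have : (i : ℝ) * 3 = 4 := by
          have : δ * ((i : ℝ) * 3) = δ * 4 := by linarith
          exact mul_left_cancel₀ hδ.ne' this
        have : i * 3 = 4 := by exact_mod_cast this
        omega
      · rw [hj] at hij
        rcases nat_eq_zero_or_one_le i with hi | hi
        · rw [hi] at hij; apply ht2; linarith
        · have : 1 * (3 / 2 * δ) ≤ i * (3 / 2 * δ) := by nlinarith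
          linarith
      · have h4 : 2 * t ≤ j * t := by nlinarith
        have h5 : 0 ≤ (i : ℝ) * (3 / 2 * δ) := by positivity
        linarith
    · rw [h2, ← ht] at hk2
      rcases nat_cases2 k with hj | hj | hj
      · rw [hj] at hk2; linarith
      · rw [hj] at hk2; apply ht32; linarith
      · have h4 : 2 * (3 / 2 * δ) ≤ k * (3 / 2 * δ) := by nlinarith
        linarith
    · rw [h2, ← ht] at hk2
      have h4 : (2 : ℝ) ≤ k := by exact_mod_cast hk
      have h5 : 2 * t ≤ k * t := by nlinarith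
      linarith
    · linarith
  · exfalso
    obtain ⟨h', hE, hlt', -⟩ := hr
    obtain ⟨x, hx, hxh⟩ := hE.val hlt'
    rcases val2 ht0 hf10 HKg.rot.V_pos hx (by rw [hxh]; exact hf20) with ⟨i, j, hij⟩ |
      ⟨k, hk, hk2⟩ | ⟨k, hk, hk2⟩ | ⟨hh1, hh2⟩
    · rw [hxh, h1, h2, ← ht] at hij
      rcases nat_eq_zero_or_one_le j with hj | hj
      · rcases nat_cases2 i with hi | hi | hi
        · rw [hj, hi] at hij; linarith
        · rw [hj, hi] at hij; apply ht32; linarith
        · have h4 : 2 * t ≤ i * t := by nlinarith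
          rw [hj] at hij
          linarith
      · have h4 : 1 * (2 * δ) ≤ j * (2 * δ) := by nlinarith
        have h5 : 0 ≤ (i : ℝ) * t := by positivity
        linarith
    · rw [h1, ← ht] at hk2
      rcases nat_cases2 k with hj | hj | hj
      · rw [hj] at hk2; linarith
      · rw [hj] at hk2; apply ht2; linarith
      · have h5 : 2 * t ≤ k * t := by nlinarith
        linarith
    · rw [h1, ← ht] at hk2
      have h4 : (2 : ℝ) ≤ k := by exact_mod_cast hk
      have h5 : 2 * (2 * δ) ≤ k * (2 * δ) := by nlinarith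
      linarith
    · rw [V_comm f₁ g₃] at hh1 hh2
      linarith
  · -- SUG f₁ f₂ g₃
    exfalso
    obtain ⟨k₁, k₂, k₃, s, Δ, a, b, c, x, S, -, P, hΔ, q1, q2, q3, q4, q5, q6, q7⟩ := hs.data
    rw [h2] at q1
    have hxs := P.xs
    have hv := P.hv
    rcases P.top with p1 | ⟨p1, p2, p3, p4, p5⟩
    · rw [h1] at p1
      have : (s : ℝ) * 3 = 8 := by
        have : δ * ((s : ℝ) * 3) = δ * 8 := by
          have : Δ = 3 / 4 * δ := by linarith
          rw [this] at p1
          linarith
        exact mul_left_cancel₀ hδ.ne' this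
      have : s * 3 = 8 := by exact_mod_cast this
      omega
    · have := P.v12a p3
      rw [p1] at hxs
      push_cast at hxs
      linarith
  · -- SUG f₁ g₃ f₂
    exfalso
    obtain ⟨k₁, k₂, k₃, s, Δ, a, b, c, x, S, -, P, hΔ, q1, q2, q3, q4, q5, q6, q7⟩ := hs.data
    have hxs := P.xs
    have hv := P.hv
    have h13 := P.v13
    rw [← ht] at q1
    have q8 : Δ ≤ (s - 2) * Δ := by linarith
    linarith
  · -- SUG f₂ f₁ g₃
    exfalso
    obtain ⟨k₁, k₂, k₃, s, Δ, a, b, c, x, S, -, P, hΔ, q1, q2, q3, q4, q5, q6, q7⟩ := hs.data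
    linarith
  · -- SUG f₂ g₃ f₁
    exfalso
    obtain ⟨k₁, k₂, k₃, s, Δ, a, b, c, x, S, -, P, hΔ, q1, q2, q3, q4, q5, q6, q7⟩ := hs.data
    linarith
  · -- SUG g₃ f₁ f₂
    obtain ⟨k₁, k₂, k₃, s, Δ, a, b, c, x, S, hGk, P, hΔ, q1, q2, q3, q4, q5, q6, q7⟩ := hs.data
    have hΔδ : Δ = δ := by linarith
    rcases P.top with p1 | ⟨p1, p2, p3, p4, p5⟩
    · exfalso; linarith
    subst p1
    have hvle : V k₁ k₂ ≤ 1 / 2 * δ := by linarith
    set u := f₃ - (C κ₀ + κ₁' • f₁) with hu
    have hg3u : g₃ = u - κ₂ • f₂ ^ 2 - κ₁ • f₂ := by rw [hg3, hu]; abel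
    have hk1 : k₁ = u + (a - κ₂) • f₂ ^ 2 + (c - κ₁) • f₂ := by
      rw [S.h1, hg3u, sub_smul, sub_smul]; abel
    have hk2 : k₂ = f₁ + b • f₂ := S.h2
    have hMu1 : ∀ i j, M i j u f₁ = - M i j f₁ f₃ := by
      intro i j
      rw [M_swap i j f₁ u, hu, M_sub_right, M_add_right, M_C_right, M_smul_right, M_self]
      simp
    have hdMu1 : ∀ i j, deg (M i j u f₁) ≤ 1 / 2 * δ := by
      intro i j
      rw [hMu1, deg_neg]
      exact (le_V i j f₁ f₃).trans hV13
    have hMu2 : ∀ i j, M i j u f₂ = κ₁' • M i j f₂ f₁ + (-1) * M i j f₂ f₃ := by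
      intro i j
      rw [M_swap i j f₂ u, hu, M_sub_right, M_add_right, M_C_right, M_smul_right]
      simp only [smul_eq_C_mul]
      ring
    have hVu2 : V u f₂ = δ + V f₁ f₂ := by
      have key : V u f₂ = deg (-1 : A K) + V f₂ f₃ := by
        apply V_eq_of (fun i j => κ₁' • M i j f₂ f₁)
        · exact hMu2
        · exact neg_ne_zero.2 one_ne_zero
        · linarith
        · intro i j
          rw [deg_neg, ← C_1, deg_C]
          refine (deg_smul_le _ _).trans_lt ?_
          have := le_V i j f₂ f₁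
          rw [V_comm] at this
          linarith
      rw [key, deg_neg, ← C_1, deg_C, hV23]; ring
    have hMk : ∀ i j, M i j k₁ k₂ = M i j u f₁ + b • M i j u f₂ +
        (C (2 * (a - κ₂)) * f₂ + C (c - κ₁)) * M i j f₂ f₁ := by
      intro i j
      rw [hk1, hk2, M_add_right, M_add_left, M_add_left, M_smul_left, M_smul_left, M_smul_right,
        M_add_left, M_add_left, M_smul_left, M_smul_left, M_sq_left, M_sq_left, M_self]
      simp only [smul_eq_C_mul, C_mul, map_ofNat]
      ring
    have hV21 : V f₂ f₁ = V f₁ f₂ := V_comm f₁ f₂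
    by_cases haκ : a = κ₂
    · by_cases hb : b = 0
      · by_cases hcκ : c = κ₁
        · rw [haκ, hcκ, sub_self, sub_self, zero_smul, zero_smul, add_zero, add_zero] at hk1
          rw [hb, zero_smul, add_zero] at hk2
          have hsum := S.sum_lt hGk.kel
          have hd1 := S.d1
          push_cast at hd1
          rw [hk1, hk2] at hGk
          have hsum' : deg u + deg f₁ + deg k₃ < d := by
            rw [← hk1]
            rw [← hk2] at hd ⊢
            rw [hk2] at hd ⊢
            rw [hk2] at hsum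
            linarith
          have hu3 : deg u = 3 * δ := by rw [← hk1, hd1, hΔδ]
          have hEu : El f₁ f₁ u f₃ := by
            refine ⟨1, one_ne_zero, ?_⟩
            have : f₃ - (1 : K) • u = C κ₀ + κ₁' • f₁ := by rw [hu, one_smul]; abel
            rw [this]
            exact Subalgebra.add_mem _ (C_mem _ _) (Subalgebra.smul_mem _ (left_mem _ _) _)
          have hG4 : Good f₃ f₁ k₃ := hcl.first hGk hsum' (hEu.mono (self_le_left _ _))
          have hE4 : El f₃ f₁ k₃ f₂ := by
            have h5 : El u f₁ k₃ f₂ := ⟨1, one_ne_zero, by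
              rw [one_smul]
              have := S.h3
              rwa [hk1, hk2] at this⟩
            exact h5.mono (Sb_congr_left hEu.symm)
          have hG5 : Good f₃ f₁ f₂' := by
            apply hcl f₃ f₁ k₃ f₂' hG4 (by linarith)
            exact hE4.trans hM.comm
          exact hG5.rot
        · exfalso
          have hne : (C (c - κ₁) : A K) ≠ 0 := by
            rw [Ne, C_eq_zero]; exact sub_ne_zero.2 hcκ
          have key : V k₁ k₂ = deg (C (c - κ₁) : A K) + V f₂ f₁ := by
            apply V_eq_of (fun i j => M i j u f₁)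
            · intro i j
              rw [hMk, haκ, hb]
              simp
            · exact hne
            · linarith
            · intro i j
              rw [deg_C]
              have := hdMu1 i j
              linarith
          rw [deg_C] at key
          linarith
      · exfalso
        have hne : (C b : A K) ≠ 0 := by
          rw [Ne, C_eq_zero]; exact hb
        have key : V k₁ k₂ = deg (C b : A K) + V u f₂ := by
          apply V_eq_of (fun i j => M i j u f₁ + C (c - κ₁) * M i j f₂ f₁)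
          · intro i j
            rw [hMk, haκ]
            simp only [sub_self, mul_zero, C_0, zero_mul, zero_add, smul_eq_C_mul]
            ring
          · exact hne
          · linarith
          · intro i j
            rw [deg_C]
            apply deg_add_lt_of
            · have := hdMu1 i j
              linarith
            · rw [← smul_eq_C_mul]
              refine (deg_smul_le _ _).trans_lt ?_
              have := le_V i j f₂ f₁
              linarith
        rw [deg_C] at key
        linarith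
    · exfalso
      have hu' := hdeglin (a - κ₂) (c - κ₁) (sub_ne_zero.2 haκ)
      have key : V k₁ k₂ = deg (C (2 * (a - κ₂)) * f₂ + C (c - κ₁)) + V f₂ f₁ := by
        apply V_eq_of (fun i j => M i j u f₁ + b • M i j u f₂)
        · exact hMk
        · exact ne_zero_of_deg_pos (by rw [hu']; linarith)
        · linarith
        · intro i j
          rw [hu']
          apply deg_add_lt_of
          · have := hdMu1 i j
            linarith
          · refine (deg_smul_le _ _).trans_lt ?_
            have := le_V i j u f₂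
            linarith
      linarith
  · -- SUG g₃ f₂ f₁
    exfalso
    obtain ⟨k₁, k₂, k₃, s, Δ, a, b, c, x, S, -, P, hΔ, q1, q2, q3, q4, q5, q6, q7⟩ := hs.data
    have hb : b = 0 := by
      by_contra hb
      have := P.bpar hb
      linarith
    have ha : a = 0 := by
      by_contra ha
      have := P.apar ha
      rcases P.top with p1 | ⟨p1, p2, p3, p4, p5⟩
      · linarith
      · linarith
    have h4 := P.v12c ha hb
    have h5 := P.v23
    rw [V_comm f₂ g₃] at h4
    rw [V_comm f₁ f₂] at h5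
    linarith

theorem caseC [CharZero K] {f₁ f₂ f₃ f₂' : A K} {d : ℝ} (hcl : Cl K d)
    (hd : deg f₁ + deg f₂ + deg f₃ = d) (hR : RedG f₁ f₂ f₃)
    (hv : ∃ i j : ℕ, (i : ℝ) * deg f₁ + j * deg f₂ = deg f₃)
    (hM : El f₁ f₃ f₂ f₂') (hle : deg f₂' ≤ deg f₂) : Good f₁ f₂' f₃ := by
  obtain ⟨h', hE, hlt, hG⟩ := hR
  have hR : RedG f₁ f₂ f₃ := ⟨h', hE, hlt, hG⟩
  have HK : Kel f₁ f₂ f₃ := hG.kel.el hE.symm
  have h10 : 0 < deg f₁ := HK.deg_pos
  have h20 : 0 < deg f₂ := HK.rot.deg_pos
  have h30 : 0 < deg f₃ := HK.rot'.deg_pos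
  -- reduction of the third polynomial by a power of the first
  have hA : ∀ n : ℕ, deg f₃ = n * deg f₁ → Good f₁ f₂' f₃ := by
    intro n hn
    obtain ⟨c, hc, hE1, hlt1⟩ := El.of_val (f := f₁) (g := f₁) (h := f₃) (x := f₁ ^ n)
      (Subalgebra.pow_mem _ (left_mem _ _) _) h30
      (by rw [deg_pow n (ne_zero_of_deg_pos h10), hn])
    exact P1a' hcl hd hR hM hle hE1 hlt1
  by_cases heq : deg f₂ = deg f₃
  · exact PX hcl hd hR hM hle h30 heq
  obtain ⟨i, j, hij⟩ := hv
  rcases Nat.eq_zero_or_pos j with hj | hj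
  · apply hA i
    rw [← hij, hj]; simp
  have hjR : (1 : ℝ) ≤ j := by exact_mod_cast hj
  have hi0 : 0 ≤ (i : ℝ) * deg f₁ := by positivity
  have hj1 : deg f₂ ≤ j * deg f₂ := by nlinarith
  have h23 : deg f₂ < deg f₃ := lt_of_le_of_ne (by linarith) heq
  obtain ⟨c₂, hc₂, hψ⟩ := hM
  have hM : El f₁ f₃ f₂ f₂' := ⟨c₂, hc₂, hψ⟩
  obtain ⟨Ψ, hΨ⟩ := exists_ev hψ
  have hdψ : deg (ev f₁ f₃ Ψ) ≤ deg f₂ := by
    rw [hΨ]
    exact deg_sub_le_of hle (deg_smul_le _ _)
  rcases dich h10 h30 HK.swap23.rot'.V_pos Ψ with h | ⟨p, q, δ, hp, hq, hpq, hδ, h1, h2, h3⟩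
  · refine P1a hcl hd hR ⟨c₂, hc₂, ?_⟩ hle
    rw [← hΨ]
    apply ev_mem_left
    intro s hs
    by_contra hc
    have h4 := h s hs
    have h5 : (1 : ℝ) ≤ s 1 := by
      have : 1 ≤ s 1 := Nat.one_le_iff_ne_zero.2 hc
      exact_mod_cast this
    have h6 : (0 : ℝ) ≤ s 0 * deg f₁ := by positivity
    have h7 : deg f₃ ≤ s 1 * deg f₃ := by nlinarith
    rw [fw] at h4
    linarith
  rcases Nat.lt_or_ge p 2 with hp2 | hp2
  · have hp1 : p = 1 := by omega
    subst hp1
    apply hA q
    rw [h2, h1]; push_cast; ring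
  have hp2R : (2 : ℝ) ≤ p := by exact_mod_cast hp2
  have h2δ : 2 * δ ≤ p * δ := mul_le_mul_of_nonneg_right hp2R hδ.le
  rcases Nat.lt_or_ge q 2 with hq2 | hq2
  · have hq1 : q = 1 := by omega
    subst hq1
    push_cast at h2
    have hi : (i : ℝ) = 0 := by
      rcases nat_eq_zero_or_one_le i with h | h
      · exact h
      · exfalso
        have : deg f₁ ≤ i * deg f₁ := by nlinarith
        linarith
    rw [hi] at hij
    refine PC hcl hd hR hM hle h10 h30 (x := f₂ ^ j) (y := f₃ ^ p)
      (Subalgebra.pow_mem _ (left_mem _ _) _) ?_ (Subalgebra.pow_mem _ (left_mem _ _) _) ?_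
    · rw [deg_pow j (ne_zero_of_deg_pos h20)]; linarith
    · rw [deg_pow p (ne_zero_of_deg_pos h30), h1, h2]; ring
  obtain ⟨n1, n2, n3, n4⟩ := h3 hp2 hq2
  have hV : 0 < V f₁ f₃ := HK.swap23.rot'.V_pos
  have hpq2 : p * q < p + 2 * q := by
    have : δ * ((p : ℝ) * q) < δ * (p + 2 * q) := by
      rw [h1, h2] at n1
      rw [h2] at h23
      nlinarith
    have := lt_of_mul_lt_mul_left this hδ.le
    exact_mod_cast this
  have hp3 : p = 2 ∨ (p = 3 ∧ q = 2) := by
    rcases Nat.lt_or_ge p 4 with h | h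
    · rcases Nat.lt_or_ge p 3 with h' | h'
      · left; omega
      · right
        have : p = 3 := by omega
        subst this
        exact ⟨rfl, by omega⟩
    · exfalso
      nlinarith
  rcases hp3 with rfl | ⟨rfl, rfl⟩
  · have hodd : q % 2 = 1 := by
      rw [Nat.coprime_two_left, Nat.odd_iff] at hpq
      exact hpq
    have hq3 : 3 ≤ q := by omega
    push_cast at h1 n1
    have hqR : (3 : ℝ) ≤ q := by exact_mod_cast hq3
    have hqδ : 3 * δ ≤ q * δ := mul_le_mul_of_nonneg_right hqR hδ.le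
    have hlo : (q - 2) * δ < deg f₂ := by linarith
    have hi : (i : ℝ) = 0 := by
      rcases nat_eq_zero_or_one_le i with h | h
      · exact h
      · exfalso
        have : deg f₁ ≤ i * deg f₁ := by nlinarith
        linarith
    rw [hi] at hij
    rcases nat_cases3 j with h | h | h | h
    · rw [h] at hjR; linarith
    · rw [h] at hij; exfalso; linarith
    · rw [h] at hij
      have hq3' : q = 3 := by
        rcases odd_cases hq3 hodd with h | h
        · exact_mod_cast h
        · exfalso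
          have : 5 * δ ≤ q * δ := mul_le_mul_of_nonneg_right h hδ.le
          linarith
      subst hq3'
      push_cast at h2
      refine caseC1b (δ := δ) (Ψ := Ψ) hcl hd hR hM hδ h1 (by linarith) h2 ?_ (by linarith)
      have e1 : ((2 : ℕ) : ℝ) * (3 : ℕ) * δ = 6 * δ := by push_cast; ring
      rw [e1] at n2 n3
      push_cast at n1
      exact ⟨by linarith, n2, n3, n4⟩
    · exfalso
      have : 3 * deg f₂ ≤ j * deg f₂ := by nlinarith
      linarith
  · exfalso
    push_cast at h1 h2 n1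
    have hi : (i : ℝ) = 0 := by
      rcases nat_eq_zero_or_one_le i with h | h
      · exact h
      · exfalso
        have : deg f₁ ≤ i * deg f₁ := by nlinarith
        linarith
    rw [hi] at hij
    rcases nat_cases2 j with h | h | h
    · rw [h] at hjR; linarith
    · rw [h] at hij; linarith
    · have : 2 * deg f₂ ≤ j * deg f₂ := by nlinarith
      linarith

end Pool.Agent.Helper555_TN
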