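import Mathlib
import Pool.Agent.Helper555_TN.PeakC

set_option autoImplicit false

/-!
# Peaks with two cancellations
-/

open MvPolynomial

namespace Pool.Agent.Helper555_TN

variable {K : Type*} [Field K]

theorem pq_small {p q : ℕ} (hp : 2 ≤ p) (hq : 2 ≤ q) (h : p * q < p + 2 * q) :
    p = 2 ∨ (p = 3 ∧ q = 2) := by
  rcases Nat.lt_or_ge p 4 with h1 | h1
  · rcases Nat.lt_or_ge p 3 with h' | h'
    · left; omega
    · right
      have : p = 3 := by omega
      subst this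
      exact ⟨rfl, by omega⟩
  · exfalso
    nlinarith

theorem pq_small' {p q : ℕ} {x y δ : ℝ} (hδ : 0 < δ) (hp : 2 ≤ p) (hq : 2 ≤ q) (hx : x = p * δ)
    (hy : y = q * δ) (h : (p : ℝ) * q * δ < x + 2 * y) : p = 2 ∨ (p = 3 ∧ q = 2) := by
  apply pq_small hp hq
  have : δ * ((p : ℝ) * q) < δ * (p + 2 * q) := by
    rw [hx, hy] at h
    nlinarith
  have := lt_of_mul_lt_mul_left this hδ.le
  exact_mod_cast this

theorem odd_of_two {q : ℕ} (h : Nat.Coprime 2 q) : q % 2 = 1 := by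
  rwa [Nat.coprime_two_left, Nat.odd_iff] at h

theorem caseD_core [CharZero K] {f₁ f₂ f₃ g₃ : A K} {d : ℝ} {Φ Ψ : MvPolynomial (Fin 2) K}
    {p q p' q' : ℕ} {δ δ' : ℝ}
    (hcl : Cl K d) (hd : deg f₁ + deg f₂ + deg f₃ = d) (hG : Good f₁ f₂ g₃)
    (hmem : f₃ - g₃ ∈ Sb f₁ f₂) (hlt : deg g₃ < deg f₃)
    (hmin : ∀ x ∈ Sb f₁ f₂, deg x ≠ deg g₃)
    (hnv : ∀ i j : ℕ, (i : ℝ) * deg f₁ + j * deg f₂ ≠ deg f₃)
    (hpq : p.Coprime q) (hδ : 0 < δ) (hp2 : 2 ≤ p) (hq2 : 2 ≤ q)
    (h1 : deg f₁ = p * δ) (h2 : deg f₂ = q * δ) (hΦ : ev f₁ f₂ Φ = f₃ - g₃)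
    (HW : HardW f₁ f₂ Φ (p * q * δ))
    (hpq' : p'.Coprime q') (hδ' : 0 < δ') (hp2' : 2 ≤ p') (hq2' : 2 ≤ q')
    (h1' : deg f₁ = p' * δ') (h3' : deg f₃ = q' * δ') (hΨ : deg (ev f₁ f₃ Ψ) ≤ deg f₂)
    (HW' : HardW f₁ f₃ Ψ (p' * q' * δ')) : False := by
  have HK : Kel f₁ f₂ f₃ := hG.kel.el ⟨1, one_ne_zero, by rw [one_smul]; exact hmem⟩
  have hW := W_pos
  have h10 : 0 < deg f₁ := HK.deg_pos
  have h20 : 0 < deg f₂ := HK.rot.deg_pos
  have h30 : 0 < deg f₃ := HK.rot'.deg_pos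
  have hV12 : 0 < V f₁ f₂ := HK.rot'.V_pos
  have hV13 : 0 < V f₁ f₃ := HK.swap23.rot'.V_pos
  have hdφ : deg (ev f₁ f₂ Φ) = deg f₃ := by rw [hΦ, deg_sub_eq_left hlt]
  have n1 := HW.n1
  have n2 := HW.n2
  have n3 := HW.n3
  have n1' := HW'.n1
  have n2' := HW'.n2
  have n3' := HW'.n3
  rw [hdφ] at n1
  have hp2R : (2 : ℝ) ≤ p := by exact_mod_cast hp2
  have hq2R : (2 : ℝ) ≤ q := by exact_mod_cast hq2
  have hp2R' : (2 : ℝ) ≤ p' := by exact_mod_cast hp2'
  have hq2R' : (2 : ℝ) ≤ q' := by exact_mod_cast hq2'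
  have L1 : (p : ℝ) * q * δ = q * deg f₁ := by rw [h1]; ring
  have L2 : (p : ℝ) * q * δ = p * deg f₂ := by rw [h2]; ring
  have L1' : (p' : ℝ) * q' * δ' = q' * deg f₁ := by rw [h1']; ring
  have L3' : (p' : ℝ) * q' * δ' = p' * deg f₃ := by rw [h3']; ring
  set L := (p : ℝ) * q * δ with hL
  set L' := (p' : ℝ) * q' * δ' with hL'
  have m1 : 2 * deg f₁ ≤ L := by rw [L1]; exact mul_le_mul_of_nonneg_right hq2R h10.le
  have m2 : 2 * deg f₂ ≤ L := by rw [L2]; exact mul_le_mul_of_nonneg_right hp2R h20.le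
  have m1' : 2 * deg f₁ ≤ L' := by rw [L1']; exact mul_le_mul_of_nonneg_right hq2R' h10.le
  have m3' : 2 * deg f₃ ≤ L' := by rw [L3']; exact mul_le_mul_of_nonneg_right hp2R' h30.le
  have hJ : deg (ev f₁ f₃ (pderiv 1 Ψ)) + W ≤ deg (ev f₁ f₃ Ψ) + V f₁ f₂ :=
    Jm_bound_left HK.swap23 Ψ (ne_zero_of_deg_pos (by linarith))
  have hI : L + L' < deg f₁ + 2 * deg f₂ + 2 * deg f₃ := by linarith
  have h23 : deg f₂ ≠ deg f₃ := by
    intro h
    apply hnv 0 1
    rw [h]; push_cast; ring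
  have hp3q : q = 2 → 3 ≤ p := by
    rintro rfl
    have : p ≠ 2 := by
      rintro rfl
      revert hpq
      decide
    omega
  have hp3q' : q' = 2 → 3 ≤ p' := by
    rintro rfl
    have : p' ≠ 2 := by
      rintro rfl
      revert hpq'
      decide
    omega
  -- the first degree is maximal
  by_cases hc1 : deg f₂ ≤ deg f₁ ∧ deg f₃ ≤ deg f₁
  · obtain ⟨hc1, hc2⟩ := hc1
    have a1 : (L = 2 * deg f₁ ∧ 3 * deg f₂ ≤ L) ∨ 3 * deg f₁ ≤ L := by
      rcases Nat.lt_or_ge q 3 with h | h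
      · left
        have hq : q = 2 := by omega
        have h5 : (3 : ℝ) ≤ p := by exact_mod_cast hp3q hq
        constructor
        · rw [L1, hq]; push_cast; ring
        · rw [L2]; exact mul_le_mul_of_nonneg_right h5 h20.le
      · right
        have h5 : (3 : ℝ) ≤ q := by exact_mod_cast h
        rw [L1]; exact mul_le_mul_of_nonneg_right h5 h10.le
    have a2 : (L' = 2 * deg f₁ ∧ 3 * deg f₃ ≤ L') ∨ 3 * deg f₁ ≤ L' := by
      rcases Nat.lt_or_ge q' 3 with h | h
      · left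
        have hq : q' = 2 := by omega
        have h5 : (3 : ℝ) ≤ p' := by exact_mod_cast hp3q' hq
        constructor
        · rw [L1', hq]; push_cast; ring
        · rw [L3']; exact mul_le_mul_of_nonneg_right h5 h30.le
      · right
        have h5 : (3 : ℝ) ≤ q' := by exact_mod_cast h
        rw [L1']; exact mul_le_mul_of_nonneg_right h5 h10.le
    rcases a1 with ⟨a1, a1'⟩ | a1 <;> rcases a2 with ⟨a2, a2'⟩ | a2 <;> linarith
  rcases lt_or_gt_of_ne h23 with h23 | h23
  · -- the third degree is maximal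
    rcases Nat.lt_or_ge p' 3 with hp' | hp'
    swap
    · have h5 : (3 : ℝ) ≤ p' := by exact_mod_cast hp'
      have : 3 * deg f₃ ≤ L' := by rw [L3']; exact mul_le_mul_of_nonneg_right h5 h30.le
      linarith
    have hp' : p' = 2 := by omega
    subst hp'
    have hodd' := odd_of_two hpq'
    push_cast at L3' h1'
    rcases pq_small' hδ hp2 hq2 h1 h2 (by rw [← hL]; linarith) with rfl | ⟨rfl, rfl⟩
    · have hodd := odd_of_two hpq
      push_cast at h1
      have hδδ : δ = δ' := by linarith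
      have e1 : q < q' := by
        rw [h2, h3', hδδ] at h23
        have := lt_of_mul_lt_mul_right h23 hδ'.le
        exact_mod_cast this
      have e2 : q' < 2 + q := by
        have : (q' : ℝ) * δ' < (2 + q) * δ' := by
          rw [h2, hδδ] at hΨ
          linarith
        have := lt_of_mul_lt_mul_right this hδ'.le
        exact_mod_cast this
      omega
    · push_cast at h1 h2
      have hδδ : δ' = 3 / 2 * δ := by linarith
      have hq3 : q' = 3 := by
        have : (q' : ℝ) * δ' < 4 * δ' := by linarith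
        have := lt_of_mul_lt_mul_right this hδ'.le
        have : q' < 4 := by exact_mod_cast this
        omega
      subst hq3
      push_cast at h3'
      have hL6 : L = 6 * δ := by rw [hL]; push_cast; ring
      have hL9 : L' = 9 * δ := by linarith
      have hV13u : V f₁ f₃ ≤ 1 / 2 * δ := by linarith
      have hV12l : 5 / 2 * δ + W ≤ V f₁ f₂ := by linarith
      have k1 : V f₁ g₃ = deg (- ev f₁ f₂ (pderiv 1 Φ)) + V f₁ f₂ := by
        apply V_eq_of (fun i j => M i j f₁ f₃)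
        · intro i j
          have : g₃ = f₃ - ev f₁ f₂ Φ := by rw [hΦ]; abel
          rw [this, M_sub_right, M_ev_left]; ring
        · exact neg_ne_zero.2 (ne_zero_of_deg_pos (by linarith))
        · exact hV12
        · intro i j
          rw [deg_neg]
          have := le_V i j f₁ f₃
          linarith
      rw [deg_neg] at k1
      have hV23 : V f₂ f₃ ≤ 3 / 2 * δ + V f₁ f₂ := by
        rcases le_max_iff.1 HK.tri with h | h
        · linarith
        · linarith
      have k2 : V f₂ g₃ = deg (ev f₁ f₂ (pderiv 0 Φ)) + V f₁ f₂ := by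
        apply V_eq_of (fun i j => M i j f₂ f₃)
        · intro i j
          have : g₃ = f₃ - ev f₁ f₂ Φ := by rw [hΦ]; abel
          rw [this, M_sub_right, M_swap i j (ev f₁ f₂ Φ) f₂, M_ev_right]; ring
        · exact ne_zero_of_deg_pos (by linarith)
        · exact hV12
        · intro i j
          have := le_V i j f₂ f₃
          linarith
      have k3 := V_le_add f₁ g₃
      exact lemY hG hδ h1 h2 (by linarith) (by linarith) hmin (by linarith) (by linarith)
  · -- the second degree is maximal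
    rcases Nat.lt_or_ge p 3 with hp | hp
    swap
    · have h5 : (3 : ℝ) ≤ p := by exact_mod_cast hp
      have : 3 * deg f₂ ≤ L := by rw [L2]; exact mul_le_mul_of_nonneg_right h5 h20.le
      linarith
    have hp : p = 2 := by omega
    subst hp
    have hodd := odd_of_two hpq
    push_cast at L2 h1
    rcases pq_small' hδ' hp2' hq2' h1' h3' (by rw [← hL']; linarith) with rfl | ⟨rfl, rfl⟩
    · have hodd' := odd_of_two hpq'
      push_cast at h1'
      have hδδ : δ' = δ := by linarith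
      have e1 : q' < q := by
        rw [h2, h3', hδδ] at h23
        have := lt_of_mul_lt_mul_right h23 hδ.le
        exact_mod_cast this
      have e2 : q < 2 + q' := by
        have : (q : ℝ) * δ < (2 + q') * δ := by
          rw [hδδ] at h3'
          linarith
        have := lt_of_mul_lt_mul_right this hδ.le
        exact_mod_cast this
      omega
    · push_cast at h1' h3'
      have hδδ : δ' = 2 / 3 * δ := by linarith
      have hq3 : q = 3 := by
        have : (q : ℝ) * δ < 4 * δ := by linarith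
        have := lt_of_mul_lt_mul_right this hδ.le
        have : q < 4 := by exact_mod_cast this
        omega
      subst hq3
      push_cast at h2
      have hL6 : L = 6 * δ := by rw [hL]; push_cast; ring
      have hL9 : L' = 4 * δ := by rw [hL', hδδ]; push_cast; ring
      have k1 : V f₁ g₃ = deg (- ev f₁ f₂ (pderiv 1 Φ)) + V f₁ f₂ := by
        apply V_eq_of (fun i j => M i j f₁ f₃)
        · intro i j
          have : g₃ = f₃ - ev f₁ f₂ Φ := by rw [hΦ]; abel
          rw [this, M_sub_right, M_ev_left]; ring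
        · exact neg_ne_zero.2 (ne_zero_of_deg_pos (by linarith))
        · exact hV12
        · intro i j
          rw [deg_neg]
          have := le_V i j f₁ f₃
          linarith
      rw [deg_neg] at k1
      have k2 := KP (s := 3) hcl hG (by linarith) hδ le_rfl rfl h1 (by rw [h2]; push_cast; ring)
        (by push_cast; linarith) hmin
      push_cast at k2
      linarith

theorem caseD [CharZero K] {f₁ f₂ f₃ f₂' : A K} {d : ℝ} {Ψ : MvPolynomial (Fin 2) K} {c₂ : K}
    (hcl : Cl K d) (hd : deg f₁ + deg f₂ + deg f₃ = d) (hR : RedG f₁ f₂ f₃)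
    (hnv : ∀ i j : ℕ, (i : ℝ) * deg f₁ + j * deg f₂ ≠ deg f₃)
    (hc₂ : c₂ ≠ 0) (hf2 : f₂' = c₂ • f₂ + ev f₁ f₃ Ψ) (hle : deg f₂' ≤ deg f₂)
    {p' q' : ℕ} {δ' : ℝ} (hp' : 0 < p') (hq' : 0 < q') (hpq' : p'.Coprime q') (hδ' : 0 < δ')
    (h1' : deg f₁ = p' * δ') (h3' : deg f₃ = q' * δ')
    (HW' : 2 ≤ p' → 2 ≤ q' → HardW f₁ f₃ Ψ (p' * q' * δ')) : Good f₁ f₂' f₃ := by
  have hM : El f₁ f₃ f₂ f₂' := ⟨c₂, hc₂, by rw [hf2, add_sub_cancel_left]; exact ev_mem _ _ _⟩
  obtain ⟨g₃, hmem, hlt, hG, hmin⟩ := hR.min hcl hd.le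
  have HK : Kel f₁ f₂ f₃ := hG.kel.el ⟨1, one_ne_zero, by rw [one_smul]; exact hmem⟩
  have h10 : 0 < deg f₁ := HK.deg_pos
  have h20 : 0 < deg f₂ := HK.rot.deg_pos
  have h30 : 0 < deg f₃ := HK.rot'.deg_pos
  have hdφ : deg (f₃ - g₃) = deg f₃ := deg_sub_eq_left hlt
  rcases val h10 h20 HK.rot'.V_pos hmem (by rw [hdφ]; exact h30) with ⟨i, j, hij⟩ |
    ⟨p, q, δ, hp, hq, hpq, hδ, h1, h2, h3⟩
  · exact absurd (by rw [hij, hdφ]) (hnv i j)
  rcases Nat.lt_or_ge p 2 with hp2 | hp2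
  · have hp1 : p = 1 := by omega
    subst hp1
    refine PB1 hcl hd hR hM h20 (x := f₁ ^ q) (Subalgebra.pow_mem _ (left_mem _ _) _) ?_
    rw [deg_pow q (ne_zero_of_deg_pos h10), h2, h1]; push_cast; ring
  rcases Nat.lt_or_ge p' 2 with hp2' | hp2'
  · have hp1 : p' = 1 := by omega
    subst hp1
    exfalso
    apply hnv q' 0
    rw [h3', h1']; push_cast; ring
  rcases Nat.lt_or_ge q 2 with hq2 | hq2
  · have hq1 : q = 1 := by omega
    subst hq1
    obtain ⟨c, hc, hE1, hlt1⟩ := El.of_val (f := f₂) (g := f₂) (h := f₁) (x := f₂ ^ p)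
      (Subalgebra.pow_mem _ (left_mem _ _) _) h10
      (by rw [deg_pow p (ne_zero_of_deg_pos h20), h2, h1]; push_cast; ring)
    have hG1 : Good f₂ (f₁ - c • f₂ ^ p) f₃ := P1a hcl (by linarith) hR.comm hE1 hlt1.le
    have hR1 : RedG f₃ f₂ f₁ := ⟨_, hE1.mono (self_le_right _ _), hlt1, hG1.rot'⟩
    have hG2 : Good f₃ f₂' f₁ := caseC hcl (by linarith) hR1
      ⟨0, p, by rw [h1, h2]; push_cast; ring⟩ hM.comm hle
    exact hG2.s13
  rcases Nat.lt_or_ge q' 2 with hq2' | hq2'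
  · have hq1 : q' = 1 := by omega
    subst hq1
    obtain ⟨c, hc, hE1, hlt1⟩ := El.of_val (f := f₃) (g := f₃) (h := f₁) (x := f₃ ^ p')
      (Subalgebra.pow_mem _ (left_mem _ _) _) h10
      (by rw [deg_pow p' (ne_zero_of_deg_pos h30), h3', h1']; push_cast; ring)
    have hB : Good f₂ (f₁ - c • f₃ ^ p') f₃ := by
      refine caseB (c₂ := 1) (Ψ := C (-c) * X 1 ^ p') hcl (by linarith) hR.comm ?_ one_ne_zero ?_
        hlt1.le ?_
      · intro i j h
        apply hnv j i
        linarith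
      · simp [smul_eq_C_mul, sub_eq_add_neg]
      · intro s hs
        rw [X_pow_eq_monomial, C_mul_monomial, coeff_monomial] at hs
        have h4 : Finsupp.single 1 p' = s := by
          by_contra hc
          rw [if_neg hc] at hs
          exact hs rfl
        rw [← h4, fw]
        simp only [Finsupp.single_apply]
        rw [h1', h3']
        simp
    exact PF hcl hd hB.s12 hE1 hlt1 hM hle
  exfalso
  obtain ⟨Φ, hΦ, HW⟩ := h3 hp2 hq2
  refine caseD_core hcl hd hG hmem hlt hmin hnv hpq hδ hp2 hq2 h1 h2 hΦ HW hpq' hδ' hp2' hq2' h1' h3'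
    ?_ (HW' hp2' hq2')
  have : ev f₁ f₃ Ψ = f₂' - c₂ • f₂ := by rw [hf2]; abel
  rw [this]
  exact deg_sub_le_of hle (deg_smul_le _ _)

/-- the peak lemma for two elementary reductions -/
theorem peak [CharZero K] {f₁ f₂ f₃ f₂' : A K} {d : ℝ} (hcl : Cl K d)
    (hd : deg f₁ + deg f₂ + deg f₃ = d) (hR : RedG f₁ f₂ f₃)
    (hM : El f₁ f₃ f₂ f₂') (hle : deg f₂' ≤ deg f₂) : Good f₁ f₂' f₃ := by
  by_cases hv : ∃ i j : ℕ, (i : ℝ) * deg f₁ + j * deg f₂ = deg f₃
  · exact caseC hcl hd hR hv hM hle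
  push Not at hv
  obtain ⟨c₂, hc₂, hψ⟩ := hM
  obtain ⟨Ψ, hΨ⟩ := exists_ev hψ
  obtain ⟨h', hE, hlt, hG⟩ := hR
  have hR : RedG f₁ f₂ f₃ := ⟨h', hE, hlt, hG⟩
  have HK : Kel f₁ f₂ f₃ := hG.kel.el hE.symm
  have hf2 : f₂' = c₂ • f₂ + ev f₁ f₃ Ψ := by rw [hΨ]; abel
  have hdψ : deg (ev f₁ f₃ Ψ) ≤ deg f₂ := by
    rw [hΨ]
    exact deg_sub_le_of hle (deg_smul_le _ _)
  rcases dich HK.deg_pos HK.rot'.deg_pos HK.swap23.rot'.V_pos Ψ with h |
    ⟨p, q, δ, hp, hq, hpq, hδ, h1, h2, h3⟩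
  · exact caseB hcl hd hR hv hc₂ hf2 hle (fun s hs => (h s hs).trans hdψ)
  · refine caseD hcl hd hR hv hc₂ hf2 hle hp hq hpq hδ h1 h2 ?_
    intro hp2 hq2
    obtain ⟨n1, n2, n3, n4⟩ := h3 hp2 hq2
    exact ⟨n1, n2, n3, n4⟩

end Pool.Agent.Helper555_TN
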