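import Mathlib
import Pool.Agent.Helper555_TN.PeakD

set_option autoImplicit false

/-!
# Elementary changes of the top of a Shestakov-Umirbaev pair
-/

open MvPolynomial

namespace Pool.Agent.Helper555_TN

variable {K : Type*} [Field K]

theorem one_le_cast {n : ℕ} (h : n ≠ 0) : (1 : ℝ) ≤ n := by
  have : 1 ≤ n := Nat.one_le_iff_ne_zero.2 h
  exact_mod_cast this

theorem SU.move1 [CharZero K] {f₁ f₂ f₃ g₁ g₂ g₃ f₁' : A K} {s : ℕ} {δ d : ℝ} {a b c : K}
    (S : SU f₁ f₂ f₃ g₁ g₂ g₃ s δ a b c) (hG : Good g₁ g₂ g₃) (hcl : Cl K d)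
    (hd : deg f₁ + deg f₂ + deg f₃ = d) (hM : El f₂ f₃ f₁ f₁') (hle : deg f₁' ≤ deg f₁) :
    Good f₁' f₂ f₃ := by
  obtain ⟨x, P⟩ := S.props hG.kel
  have HK : Kel f₁ f₂ f₃ := S.kel hG.kel
  have hsum := S.sum_lt hG.kel
  have h20 : 0 < deg f₂ := HK.rot.deg_pos
  have h30 : 0 < deg f₃ := HK.rot'.deg_pos
  have hδ := S.hδ
  have hsR : (3 : ℝ) ≤ s := by exact_mod_cast S.hs
  have hsδ : 3 * δ ≤ s * δ := mul_le_mul_of_nonneg_right hsR hδ.le
  have hv := P.hv
  have hlo := P.lo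
  have hxs := P.xs
  have e1 := S.e1
  have e2 := S.e2
  have e3 := S.e3
  obtain ⟨c₀, hc₀, hχ⟩ := hM
  obtain ⟨X, hX⟩ := exists_ev hχ
  have hf1 : f₁' = c₀ • f₁ + ev f₂ f₃ X := by rw [hX]; abel
  have hdχ : deg (ev f₂ f₃ X) ≤ deg f₁ := by
    rw [hX]
    exact deg_sub_le_of hle (deg_smul_le _ _)
  have heasy : ∀ s, coeff s X ≠ 0 → fw f₂ f₃ s ≤ deg (ev f₂ f₃ X) := by
    rcases dich h20 h30 HK.V_pos X with h | ⟨p, q, ε, hp, hq, hpq, hε, k1, k2, k3⟩
    · exact h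
    exfalso
    rcases Nat.lt_or_ge p 2 with hp2 | hp2
    · have hp1 : p = 1 := by omega
      subst hp1
      apply S.e3' q
      rw [k2, ← e2, k1]; push_cast; ring
    have hp2R : (2 : ℝ) ≤ p := by exact_mod_cast hp2
    rcases Nat.lt_or_ge q 2 with hq2 | hq2
    · have hq1 : q = 1 := by omega
      subst hq1
      push_cast at k2
      have : 2 * ε ≤ p * ε := mul_le_mul_of_nonneg_right hp2R hε.le
      linarith
    have hq2R : (2 : ℝ) ≤ q := by exact_mod_cast hq2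
    obtain ⟨k4, -⟩ := k3 hp2 hq2
    have m1 : 2 * deg f₂ ≤ p * q * ε := by
      have : (p : ℝ) * q * ε = q * deg f₂ := by rw [k1]; ring
      rw [this]; exact mul_le_mul_of_nonneg_right hq2R h20.le
    have m2 : 2 * deg f₃ ≤ p * q * ε := by
      have : (p : ℝ) * q * ε = p * deg f₃ := by rw [k2]; ring
      rw [this]; exact mul_le_mul_of_nonneg_right hp2R h30.le
    have := P.v23
    linarith
  have hw : ∀ t, coeff t X ≠ 0 → (t 0 : ℝ) * (2 * δ) + t 1 * deg f₃ ≤ s * δ := by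
    intro t ht
    have h4 := heasy t ht
    rw [fw, e2] at h4
    linarith
  have hsup : ∀ t, coeff t X ≠ 0 → t 1 = 0 ∨ (t 0 = 0 ∧ t 1 = 1) ∨ (t 0 = 0 ∧ t 1 = 2) := by
    intro t ht
    have h4 := hw t ht
    rcases Nat.eq_zero_or_pos (t 1) with h5 | h5
    · exact Or.inl h5
    right
    have h6 : t 0 = 0 := by
      by_contra hc
      have h7 := one_le_cast hc
      have h8 : (1 : ℝ) ≤ t 1 := by exact_mod_cast h5
      have h9 : deg f₃ ≤ t 1 * deg f₃ := by nlinarith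
      have h10' : 2 * δ ≤ t 0 * (2 * δ) := by nlinarith
      linarith
    rcases Nat.lt_or_ge (t 1) 3 with h7 | h7
    · have : t 1 = 1 ∨ t 1 = 2 := by omega
      tauto
    · exfalso
      have h8 : (3 : ℝ) ≤ t 1 := by exact_mod_cast h7
      have h9 : 3 * deg f₃ ≤ t 1 * deg f₃ := mul_le_mul_of_nonneg_right h8 h30.le
      have h10' : 0 ≤ (t 0 : ℝ) * (2 * δ) := by positivity
      linarith
  obtain ⟨X₀, α, β, h4, h5, -, -⟩ := split2 f₂ f₃ hsup
  have hX0 : deg (ev f₂ f₃ X₀) < s * δ := by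
    apply lt_of_le_of_lt (b := (s - 1) * δ)
    · apply deg_ev_le
      · apply mul_nonneg _ hδ.le
        linarith
      · intro t ht
        obtain ⟨h8, h9⟩ := h5 t ht
        have h10' := hw t h9
        rw [h8] at h10'
        rw [fw, e2, h8]
        push_cast at h10' ⊢
        have h11 : δ * ((t 0 : ℝ) * 2) ≤ δ * s := by linarith
        have h12 : (t 0 : ℝ) * 2 ≤ s := le_of_mul_le_mul_left h11 hδ
        have h13 : t 0 * 2 ≤ s := by exact_mod_cast h12
        have h14 : t 0 * 2 + 1 ≤ s := by have := S.hodd; omega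
        have h15 : (t 0 : ℝ) * 2 + 1 ≤ s := by exact_mod_cast h14
        nlinarith
    · nlinarith
  obtain ⟨χ₁, e, hχ1, hdχ1, hχe⟩ : ∃ (χ₁ : A K) (e : K), χ₁ ∈ Sb g₂ g₂ ∧ deg χ₁ < s * δ ∧
      ev f₂ f₃ X₀ = χ₁ + e • f₃ := by
    by_cases hb : b = 0
    · refine ⟨ev f₂ f₃ X₀, 0, ?_, hX0, by simp⟩
      have : g₂ = f₂ := by rw [S.h2, hb, zero_smul, add_zero]
      rw [this]
      exact ev_mem_left (fun t ht => (h5 t ht).1)
    · have h3 := P.bpar hb
      have hs3 : s = 3 := by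
        rcases odd_cases S.hs S.hodd with h | h
        · exact_mod_cast h
        · exfalso
          have : 5 * δ ≤ s * δ := mul_le_mul_of_nonneg_right h hδ.le
          linarith
      obtain ⟨e₀, e₁, he⟩ := split1 f₂ f₃ (Ψ := X₀) (fun t ht => by
        obtain ⟨h8, h9⟩ := h5 t ht
        refine ⟨h8, ?_⟩
        have h10' := hw t h9
        rw [h8, hs3] at h10'
        push_cast at h10'
        have : (t 0 : ℝ) < 2 := by
          by_contra hc
          push Not at hc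
          have : 2 * (2 * δ) ≤ t 0 * (2 * δ) := by nlinarith
          linarith
        have : t 0 < 2 := by exact_mod_cast this
        omega)
      refine ⟨C e₀ + e₁ • g₂, - (e₁ * b), ?_, ?_, ?_⟩
      · exact Subalgebra.add_mem _ (C_mem _ _) (Subalgebra.smul_mem _ (left_mem _ _) _)
      · apply deg_add_lt_of
        · rw [deg_C]; linarith
        · refine (deg_smul_le _ _).trans_lt ?_
          rw [S.d2]; linarith
      · rw [he, S.h2, smul_add, smul_smul, neg_smul]; abel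
  set u := c₀ • g₁ + χ₁ with hu
  have hdu : deg u = s * δ := by
    rw [hu, deg_add_eq_left, deg_smul hc₀, S.d1]
    rw [deg_smul hc₀, S.d1]; exact hdχ1
  have hEu : El g₂ g₂ g₁ u := ⟨c₀, hc₀, by rw [hu, add_sub_cancel_left]; exact hχ1⟩
  have hd1 := S.d1
  have hd2 := S.d2
  have hGu : Good u g₂ g₃ := hcl.first hG (by linarith) (hEu.mono (self_le_left _ _))
  refine mkSU (u := u) (w := g₂) (f₃ := f₃) (g := g₃) (a := c₀ * a - α) (b := b)
    (c := c₀ * c - β - e) (s := s) (δ := δ) (d := d) hcl (by linarith) hGu ?_ S.d3 hδ S.hs S.hodd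
    hdu S.d2 S.e3 S.e3' ?_ S.h2 (by linarith) S.e2
  · have h6 : El g₁ g₂ f₃ g₃ := (El.symm ⟨1, one_ne_zero, by rw [one_smul]; exact S.h3⟩)
    exact h6.mono (Sb_congr_left hEu.symm)
  · rw [hu, hf1, h4, hχe, S.h1]
    simp only [smul_add, smul_smul, sub_smul]
    abel

theorem SU.move2 [CharZero K] {f₁ f₂ f₃ g₁ g₂ g₃ f₂' : A K} {s : ℕ} {δ d : ℝ} {a b c : K}
    (S : SU f₁ f₂ f₃ g₁ g₂ g₃ s δ a b c) (hG : Good g₁ g₂ g₃) (hcl : Cl K d)
    (hd : deg f₁ + deg f₂ + deg f₃ = d) (hM : El f₁ f₃ f₂ f₂') (hle : deg f₂' ≤ deg f₂) :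
    Good f₁ f₂' f₃ := by
  obtain ⟨x, P⟩ := S.props hG.kel
  have HK : Kel f₁ f₂ f₃ := S.kel hG.kel
  have hsum := S.sum_lt hG.kel
  have h10 : 0 < deg f₁ := HK.deg_pos
  have h20 : 0 < deg f₂ := HK.rot.deg_pos
  have h30 : 0 < deg f₃ := HK.rot'.deg_pos
  have hδ := S.hδ
  have hsR : (3 : ℝ) ≤ s := by exact_mod_cast S.hs
  have hsδ : 3 * δ ≤ s * δ := mul_le_mul_of_nonneg_right hsR hδ.le
  have hv := P.hv
  have hlo := P.lo
  have hxs := P.xs
  have e1 := S.e1
  have e2 := S.e2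
  have e3 := S.e3
  have h1lo : 5 / 2 * δ < deg f₁ := by
    rcases P.top with h | ⟨-, -, -, h, -⟩ <;> linarith
  have h13 : deg f₃ < deg f₁ := by
    rcases P.top with h | ⟨-, h', -, h, -⟩ <;> linarith
  obtain ⟨c₀, hc₀, hχ⟩ := hM
  have hM : El f₁ f₃ f₂ f₂' := ⟨c₀, hc₀, hχ⟩
  obtain ⟨X, hX⟩ := exists_ev hχ
  have hf2 : f₂' = c₀ • f₂ + ev f₁ f₃ X := by rw [hX]; abel
  have hdχ : deg (ev f₁ f₃ X) ≤ deg f₂ := by
    rw [hX]
    exact deg_sub_le_of hle (deg_smul_le _ _)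
  -- the first polynomial is reducible by a power of the third
  have hpf : ∀ p : ℕ, deg f₁ = p * deg f₃ → Good f₁ f₂' f₃ := by
    intro p hp
    obtain ⟨c', hc', hE', hlt'⟩ := El.of_val (f := f₃) (g := f₃) (h := f₁) (x := f₃ ^ p)
      (Subalgebra.pow_mem _ (left_mem _ _) _) h10 (by rw [deg_pow p (ne_zero_of_deg_pos h30), hp])
    have h1 : Good (f₁ - c' • f₃ ^ p) f₂ f₃ :=
      S.move1 hG hcl hd (hE'.mono (self_le_right _ _)) hlt'.le
    exact PF hcl hd h1 hE' hlt' hM hle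
  rcases dich h10 h30 HK.swap23.rot'.V_pos X with h | ⟨p, q, ε, hp, hq, hpq, hε, k1, k2, k3⟩
  swap
  · rcases Nat.lt_or_ge q 2 with hq2 | hq2
    · have hq1 : q = 1 := by omega
      subst hq1
      apply hpf p
      rw [k1, k2]; push_cast; ring
    exfalso
    have hq2R : (2 : ℝ) ≤ q := by exact_mod_cast hq2
    rcases Nat.lt_or_ge p 2 with hp2 | hp2
    · have hp1 : p = 1 := by omega
      subst hp1
      push_cast at k1
      have : 2 * ε ≤ q * ε := mul_le_mul_of_nonneg_right hq2R hε.le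
      linarith
    have hp2R : (2 : ℝ) ≤ p := by exact_mod_cast hp2
    obtain ⟨k4, -⟩ := k3 hp2 hq2
    have m1 : 2 * deg f₁ ≤ p * q * ε := by
      have : (p : ℝ) * q * ε = q * deg f₁ := by rw [k1]; ring
      rw [this]; exact mul_le_mul_of_nonneg_right hq2R h10.le
    have m2 : 2 * deg f₃ ≤ p * q * ε := by
      have : (p : ℝ) * q * ε = p * deg f₃ := by rw [k2]; ring
      rw [this]; exact mul_le_mul_of_nonneg_right hp2R h30.le
    have := P.v13
    linarith
  have hsup : ∀ t, coeff t X ≠ 0 → t 0 = 0 ∧ (t 1 = 0 ∨ (t 1 = 1 ∧ deg f₃ < 2 * δ)) := by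
    intro t ht
    have h4 := h t ht
    rw [fw] at h4
    have h8 : 0 ≤ (t 1 : ℝ) * deg f₃ := by positivity
    have h6 : t 0 = 0 := by
      by_contra hc
      have h7 := one_le_cast hc
      have h10' : deg f₁ ≤ t 0 * deg f₁ := by nlinarith
      linarith
    refine ⟨h6, ?_⟩
    have h10' : 0 ≤ (t 0 : ℝ) * deg f₁ := by positivity
    rcases Nat.lt_or_ge (t 1) 2 with h7 | h7
    · rcases Nat.eq_zero_or_pos (t 1) with h9 | h9
      · exact Or.inl h9
      · have h11 : t 1 = 1 := by omega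
        refine Or.inr ⟨h11, ?_⟩
        rw [h11] at h4
        push_cast at h4
        refine lt_of_le_of_ne (by linarith) ?_
        have := S.e3' 1
        intro h12
        apply this
        rw [h12]; push_cast; ring
    · exfalso
      have h8 : (2 : ℝ) ≤ t 1 := by exact_mod_cast h7
      have h9 : 2 * deg f₃ ≤ t 1 * deg f₃ := mul_le_mul_of_nonneg_right h8 h30.le
      linarith
  obtain ⟨X₀, α, β, h4, h5, h6, h7⟩ := split2 f₁ f₃ (fun t ht => by
    have := hsup t ht; tauto)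
  have hα : α = 0 := by
    by_contra hα
    have := (hsup _ (h6 hα)).2
    simp at this
  subst hα
  rw [zero_smul, add_zero] at h4
  have hβ : deg (β • f₃) < 2 * δ := by
    by_cases hβ : β = 0
    · rw [hβ, zero_smul, deg_zero]; linarith
    · have := (hsup _ (h7 hβ)).2
      simp at this
      refine (deg_smul_le _ _).trans_lt ?_
      exact this
  obtain ⟨e₀, e₁, he⟩ := split1 f₁ f₃ (Ψ := X₀) (fun t ht => by
    obtain ⟨h8, h9⟩ := h5 t ht
    exact ⟨h8, Or.inl (hsup t h9).1⟩)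
  have hu0 : deg (ev f₁ f₃ X₀) ≤ 0 := by
    apply deg_ev_le _ _ _ le_rfl
    intro t ht
    obtain ⟨h8, h9⟩ := h5 t ht
    rw [fw, h8, (hsup t h9).1]
    simp
  have hcon : ev f₁ f₃ X₀ ∈ Sb g₁ g₁ := by
    rw [eq_C_of_deg_le_zero hu0]
    exact C_mem _ _
  set w := c₀ • g₂ + ev f₁ f₃ X₀ with hw
  have hdw : deg w = 2 * δ := by
    rw [hw, deg_add_eq_left, deg_smul hc₀, S.d2]
    rw [deg_smul hc₀, S.d2]; linarith
  have hEw : El g₁ g₁ g₂ w := ⟨c₀, hc₀, by rw [hw, add_sub_cancel_left]; exact hcon⟩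
  have hd1 := S.d1
  have hd2 := S.d2
  have hGw : Good g₁ w g₃ := hcl.second hG (by linarith) (hEw.mono (self_le_left _ _))
  refine mkSU (u := g₁) (w := w) (f₃ := f₃) (g := g₃) (a := a) (b := c₀ * b - β)
    (c := c) (s := s) (δ := δ) (d := d) hcl (by linarith) hGw ?_ S.d3 hδ S.hs S.hodd
    S.d1 hdw S.e3 S.e3' S.h1 ?_ S.e1 ?_
  · have h6 : El g₁ g₂ f₃ g₃ := (El.symm ⟨1, one_ne_zero, by rw [one_smul]; exact S.h3⟩)
    exact h6.mono (Sb_congr_right hEw.symm)
  · rw [hw, hf2, h4, S.h2]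
    simp only [smul_add, smul_smul, sub_smul]
    abel
  · rw [hf2, h4, deg_add_eq_left, deg_smul hc₀, S.e2]
    rw [deg_smul hc₀, S.e2]
    apply deg_add_lt_of _ hβ
    linarith

theorem SU.move3 [CharZero K] {f₁ f₂ f₃ g₁ g₂ g₃ f₃' : A K} {s : ℕ} {δ d : ℝ} {a b c : K}
    (S : SU f₁ f₂ f₃ g₁ g₂ g₃ s δ a b c) (hG : Good g₁ g₂ g₃) (hcl : Cl K d)
    (hd : deg f₁ + deg f₂ + deg f₃ = d) (hM : El f₁ f₂ f₃ f₃') (hle : deg f₃' ≤ deg f₃) :
    Good f₁ f₂ f₃' := by
  obtain ⟨x, P⟩ := S.props hG.kel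
  have HK : Kel f₁ f₂ f₃ := S.kel hG.kel
  have hsum := S.sum_lt hG.kel
  have h10 : 0 < deg f₁ := HK.deg_pos
  have h20 : 0 < deg f₂ := HK.rot.deg_pos
  have h30 : 0 < deg f₃ := HK.rot'.deg_pos
  have hδ := S.hδ
  have hsR : (3 : ℝ) ≤ s := by exact_mod_cast S.hs
  have hsδ : 3 * δ ≤ s * δ := mul_le_mul_of_nonneg_right hsR hδ.le
  have hv := P.hv
  have hlo := P.lo
  have hxs := P.xs
  have e1 := S.e1
  have e2 := S.e2
  have e3 := S.e3
  have h1lo : 5 / 2 * δ < deg f₁ := by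
    rcases P.top with h | ⟨-, -, -, h, -⟩ <;> linarith
  have h13 : deg f₃ < deg f₁ := by
    rcases P.top with h | ⟨-, h', -, h, -⟩ <;> linarith
  obtain ⟨c₀, hc₀, hχ⟩ := hM
  obtain ⟨X, hX⟩ := exists_ev hχ
  have hf3 : f₃' = c₀ • f₃ + ev f₁ f₂ X := by rw [hX]; abel
  have hdχ : deg (ev f₁ f₂ X) ≤ deg f₃ := by
    rw [hX]
    exact deg_sub_le_of hle (deg_smul_le _ _)
  have heasy : ∀ t, coeff t X ≠ 0 → fw f₁ f₂ t ≤ deg (ev f₁ f₂ X) := by
    rcases dich h10 h20 HK.rot'.V_pos X with h | ⟨p, q, ε, hp, hq, hpq, hε, k1, k2, k3⟩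
    · exact h
    exfalso
    rcases Nat.lt_or_ge p 2 with hp2 | hp2
    · have hp1 : p = 1 := by omega
      subst hp1
      push_cast at k1
      have : (1 : ℝ) ≤ q := by exact_mod_cast hq
      have : 1 * ε ≤ q * ε := mul_le_mul_of_nonneg_right this hε.le
      linarith
    have hp2R : (2 : ℝ) ≤ p := by exact_mod_cast hp2
    rcases Nat.lt_or_ge q 2 with hq2 | hq2
    · have hq1 : q = 1 := by omega
      subst hq1
      push_cast at k2
      have hε2 : ε = 2 * δ := by linarith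
      rw [hε2] at k1
      rcases P.top with h | ⟨-, -, -, h, h'⟩
      · have h4 : (s : ℝ) * δ = (p * 2 : ℝ) * δ := by linarith
        have h5 : (s : ℝ) = p * 2 := mul_right_cancel₀ hδ.ne' h4
        have h6 : s = p * 2 := by exact_mod_cast h5
        have := S.hodd
        omega
      · have h4 : δ * (5 : ℝ) < δ * (4 * p) := by linarith
        have h5 : δ * (2 * p : ℝ) < δ * 3 := by linarith
        have h6 := lt_of_mul_lt_mul_left h4 hδ.le
        have h7 := lt_of_mul_lt_mul_left h5 hδ.le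
        have h8 : 5 < 4 * p := by exact_mod_cast h6
        have h9 : 2 * p < 3 := by exact_mod_cast h7
        omega
    have hq2R : (2 : ℝ) ≤ q := by exact_mod_cast hq2
    obtain ⟨k4, -⟩ := k3 hp2 hq2
    have m1 : 2 * deg f₁ ≤ p * q * ε := by
      have : (p : ℝ) * q * ε = q * deg f₁ := by rw [k1]; ring
      rw [this]; exact mul_le_mul_of_nonneg_right hq2R h10.le
    have m2 : 2 * deg f₂ ≤ p * q * ε := by
      have : (p : ℝ) * q * ε = p * deg f₂ := by rw [k2]; ring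
      rw [this]; exact mul_le_mul_of_nonneg_right hp2R h20.le
    by_cases ha : a = 0
    · by_cases hb : b = 0
      · have := P.v12c ha hb
        linarith
      · have := P.v12b ha hb
        linarith
    · have := P.v12a ha
      linarith
  have hsup : ∀ t, coeff t X ≠ 0 → t 0 = 0 ∧ (t 1 : ℝ) * (2 * δ) ≤ deg f₃ := by
    intro t ht
    have h4 := heasy t ht
    rw [fw] at h4
    have h8 : 0 ≤ (t 1 : ℝ) * deg f₂ := by positivity
    have h6 : t 0 = 0 := by
      by_contra hc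
      have h7 := one_le_cast hc
      have h10' : deg f₁ ≤ t 0 * deg f₁ := by nlinarith
      linarith
    refine ⟨h6, ?_⟩
    rw [h6, e2] at h4
    push_cast at h4
    linarith
  set χ := ev f₁ f₂ X with hχdef
  have hχmem : χ ∈ Sb f₂ f₂ := ev_mem_right (fun t ht => (hsup t ht).1)
  have hχlt : deg χ < deg f₃ := by
    by_cases hX : ∀ t, coeff t X ≠ 0 → t 1 = 0
    · have : deg χ ≤ 0 := by
        apply deg_ev_le _ _ _ le_rfl
        intro t ht
        rw [fw, (hsup t ht).1, hX t ht]; simp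
      linarith
    · obtain ⟨k, hk⟩ : ∃ k : ℕ, ∀ t, coeff t X ≠ 0 → t 1 ≤ k ∧ (k : ℝ) * (2 * δ) ≤ deg f₃ := by
        push Not at hX
        obtain ⟨t₁, ht₁, -⟩ := hX
        obtain ⟨t₀, ht₀, hmax⟩ := Finset.exists_max_image X.support (fun t => t 1)
          ⟨t₁, mem_support_iff.2 ht₁⟩
        exact ⟨t₀ 1, fun t ht => ⟨hmax t (mem_support_iff.2 ht),
          (hsup t₀ (mem_support_iff.1 ht₀)).2⟩⟩
      push Not at hX
      obtain ⟨t₁, ht₁, -⟩ := hX
      have hk2 := (hk t₁ ht₁).2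
      refine lt_of_le_of_lt (b := (k : ℝ) * (2 * δ)) ?_ (lt_of_le_of_ne hk2 (fun h => S.e3' k h.symm))
      apply deg_ev_le
      · positivity
      · intro t ht
        rw [fw, (hsup t ht).1, e2]
        have : (t 1 : ℝ) ≤ k := by exact_mod_cast (hk t ht).1
        push_cast
        nlinarith
  have hd3' : deg f₃' = deg f₃ := by
    rw [hf3, deg_add_eq_left, deg_smul hc₀]
    rw [deg_smul hc₀]; exact hχlt
  have hf3i : f₃ = c₀⁻¹ • f₃' - c₀⁻¹ • χ := by
    rw [hf3, smul_add, smul_smul, inv_mul_cancel₀ hc₀, one_smul]; abel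
  have hd1 := S.d1
  have hd2 := S.d2
  have hdχs : deg χ < s * δ := by linarith
  -- the new bottom triple
  suffices H : ∃ (u w : A K) (a' b' c' : K), El g₂ g₂ g₁ u ∧ El u u g₂ w ∧ deg u = s * δ ∧
      deg w = 2 * δ ∧ u = f₁ + a' • f₃' ^ 2 + c' • f₃' ∧ w = f₂ + b' • f₃' ∧ χ ∈ Sb u w by
    obtain ⟨u, w, a', b', c', hEu, hEw, hdu, hdw, q1, q2, q3⟩ := H
    have hGu : Good u g₂ g₃ := hcl.first hG (by linarith) (hEu.mono (self_le_left _ _))
    have hGw : Good u w g₃ := hcl.second hGu (by linarith) (hEw.mono (self_le_left _ _))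
    refine mkSU (u := u) (w := w) (f₃ := f₃') (g := g₃) (a := a') (b := b')
      (c := c') (s := s) (δ := δ) (d := d) hcl (by linarith) hGw ?_ (by rw [hd3']; exact S.d3) hδ
      S.hs S.hodd hdu hdw (by rw [hd3']; exact S.e3) (by rw [hd3']; exact S.e3') q1 q2 S.e1 S.e2
    have h6 : El g₁ g₂ f₃ g₃ := (El.symm ⟨1, one_ne_zero, by rw [one_smul]; exact S.h3⟩)
    have h7 : El u w f₃ g₃ := (h6.mono (Sb_congr_left hEu.symm)).mono (Sb_congr_right hEw.symm)
    have h8 : El u w f₃ f₃' := ⟨c₀, hc₀, by rw [hf3, add_sub_cancel_left]; exact q3⟩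
    exact h8.symm.trans h7
  by_cases hab : a = 0 ∧ b = 0
  · obtain ⟨ha, hb⟩ := hab
    have hg2 : g₂ = f₂ := by rw [S.h2, hb, zero_smul, add_zero]
    have hd' : deg (g₁ + (c * c₀⁻¹) • χ) = s * δ := by
      rw [deg_add_eq_left, hd1]
      rw [hd1]
      exact (deg_smul_le _ _).trans_lt hdχs
    refine ⟨g₁ + (c * c₀⁻¹) • χ, g₂, 0, 0, c * c₀⁻¹, ⟨1, one_ne_zero, ?_⟩, El.refl _ _ _, hd', hd2,
      ?_, by rw [hg2, zero_smul, add_zero], ?_⟩
    · rw [one_smul, add_sub_cancel_left, hg2]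
      exact Subalgebra.smul_mem _ hχmem _
    · rw [S.h1, ha, hf3i]
      simp only [zero_smul, smul_sub, smul_smul, add_zero]
      abel
    · rw [hg2]
      exact self_le_right _ _ hχmem
  · -- then the change is constant
    have hd32 : deg f₃ < 2 * δ := by
      by_cases hb : b = 0
      · have ha : a ≠ 0 := fun ha => hab ⟨ha, hb⟩
        have h1 := P.apar ha
        rcases odd_cases S.hs S.hodd with h | h
        · rw [h] at h1; linarith
        · exfalso
          have : 5 * δ ≤ s * δ := mul_le_mul_of_nonneg_right h hδ.le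
          linarith
      · exact P.bpar hb
    have hχ0 : deg χ ≤ 0 := by
      apply deg_ev_le _ _ _ le_rfl
      intro t ht
      obtain ⟨h4, h5⟩ := hsup t ht
      have h6 : t 1 = 0 := by
        by_contra hc
        have h7 := one_le_cast hc
        have : 1 * (2 * δ) ≤ t 1 * (2 * δ) := by nlinarith
        linarith
      rw [fw, h4, h6]; simp
    obtain ⟨χ₀, hχc⟩ : ∃ χ₀ : K, χ = C χ₀ := ⟨_, eq_C_of_deg_le_zero hχ0⟩
    have hf3c : f₃ = c₀⁻¹ • f₃' - C (c₀⁻¹ * χ₀) := by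
      conv_lhs => rw [hf3i]
      rw [hχc, smul_eq_C_mul, smul_eq_C_mul, C_mul]
    refine ⟨g₁ - C (a * c₀⁻¹ ^ 2 * χ₀ ^ 2 - c * c₀⁻¹ * χ₀), g₂ + C (b * c₀⁻¹ * χ₀), a * c₀⁻¹ ^ 2,
      b * c₀⁻¹, c * c₀⁻¹ - 2 * a * c₀⁻¹ ^ 2 * χ₀, ⟨1, one_ne_zero, ?_⟩, ⟨1, one_ne_zero, ?_⟩,
      ?_, ?_, ?_, ?_, ?_⟩
    · rw [one_smul, sub_sub_cancel_left, ← C_neg]
      exact C_mem _ _
    · rw [one_smul, add_sub_cancel_left]
      exact C_mem _ _
    · rw [deg_sub_eq_left, hd1]
      rw [hd1, deg_C]; linarith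
    · rw [deg_add_eq_left, hd2]
      rw [hd2, deg_C]; linarith
    · rw [S.h1, hf3c]
      simp only [smul_eq_C_mul, C_mul, C_sub, map_pow, map_ofNat]
      ring
    · rw [S.h2, hf3c]
      simp only [smul_eq_C_mul, C_mul]
      ring
    · rw [hχc]
      exact C_mem _ _

end Pool.Agent.Helper555_TN
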