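import Mathlib
import Pool.Agent.Helper555_TN.Move

set_option autoImplicit false

/-!
# Reducible triples are closed under elementary changes
-/

open MvPolynomial

namespace Pool.Agent.Helper555_TN

variable {K : Type*} [Field K]

theorem step [CharZero K] {f g h h' : A K} {d : ℝ} (hcl : Cl K d)
    (hd : deg f + deg g + deg h = d) (hG : Good f g h) (hE : El f g h h') : Good f g h' := by
  rcases lt_or_ge (deg h) (deg h') with hlt | hle
  · exact Good.el hG hE.symm hlt
  rcases hG.inv with hb | (hr | hr | hr) | (hs | hs | hs | hs | hs | hs)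
  · exact Good.base (hG.kel.el hE) (by linarith)
  · exact hr.all hcl hd hE
  · exact (peak hcl (by linarith) hr hE.comm hle).rot'
  · exact (peak hcl (by linarith) hr.comm hE hle).s23
  · obtain ⟨g₁, g₂, g₃, s, δ, a, b, c, S, hG'⟩ := hs
    exact S.move3 hG' hcl hd hE hle
  · obtain ⟨g₁, g₂, g₃, s, δ, a, b, c, S, hG'⟩ := hs
    exact (S.move2 hG' hcl (by linarith) hE hle).s23
  · obtain ⟨g₁, g₂, g₃, s, δ, a, b, c, S, hG'⟩ := hs
    exact (S.move3 hG' hcl (by linarith) hE.comm hle).s12
  · obtain ⟨g₁, g₂, g₃, s, δ, a, b, c, S, hG'⟩ := hs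
    exact (S.move2 hG' hcl (by linarith) hE.comm hle).rot'
  · obtain ⟨g₁, g₂, g₃, s, δ, a, b, c, S, hG'⟩ := hs
    exact (S.move1 hG' hcl (by linarith) hE hle).rot
  · obtain ⟨g₁, g₂, g₃, s, δ, a, b, c, S, hG'⟩ := hs
    exact (S.move1 hG' hcl (by linarith) hE.comm hle).s13

theorem Good.elem [CharZero K] {f g h h' : A K} (hG : Good f g h) (hE : El f g h h') :
    Good f g h' := by
  induction hn : rk (deg f + deg g + deg h) using Nat.strong_induction_on generalizing f g h h' with
  | _ n ih =>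
    refine step (d := deg f + deg g + deg h) ?_ rfl hG hE
    intro f₁ g₁ h₁ h₁' hG₁ hlt hE₁
    obtain ⟨a, ha⟩ := exists_wt_sum f₁ g₁ h₁
    exact ih _ (by rw [← hn]; exact rk_lt ha hlt) hG₁ hE₁ rfl

theorem Good.elem1 [CharZero K] {f g h f' : A K} (hG : Good f g h) (hE : El g h f f') :
    Good f' g h := (hG.rot.elem hE).rot'

theorem Good.elem2 [CharZero K] {f g h g' : A K} (hG : Good f g h) (hE : El f h g g') :
    Good f g' h := (hG.s23.elem hE).s23

end Pool.Agent.Helper555_TN
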