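import Mathlib

set_option autoImplicit false

/-!
# Tame automorphisms of polynomial algebras
-/

open MvPolynomial

namespace Pool.Agent.Helper555_TN

section general

variable {K : Type*} [Field K] {n : ℕ}

/-- affine automorphisms: the images of the variables have degree at most one and
the linear parts are invertible -/
def IsAff (φ : MvPolynomial (Fin n) K ≃ₐ[K] MvPolynomial (Fin n) K) : Prop :=
  ∃ (M : Matrix (Fin n) (Fin n) K) (b : Fin n → K), M.det ≠ 0 ∧
    ∀ i, φ (X i) = ∑ j, C (M i j) * X j + C (b i)

/-- elementary automorphisms: some variable `X i` is sent to `α X i + f` where `f` does not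
involve `X i`, and the other variables are fixed -/
def IsElem (φ : MvPolynomial (Fin n) K ≃ₐ[K] MvPolynomial (Fin n) K) : Prop :=
  ∃ (i : Fin n) (α : K) (f : MvPolynomial (Fin n) K), α ≠ 0 ∧ i ∉ f.vars ∧
    φ (X i) = C α * X i + f ∧ ∀ j, j ≠ i → φ (X j) = X j

/-- the tame subgroup, generated by affine and elementary automorphisms -/
noncomputable def TAut (n : ℕ) (K : Type*) [Field K] :
    Subgroup (MvPolynomial (Fin n) K ≃ₐ[K] MvPolynomial (Fin n) K) :=
  Subgroup.closure {φ | IsAff φ ∨ IsElem φ}

end general

end Pool.Agent.Helper555_TN
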