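import Mathlib
import Pool.Agent.Helper555_TN.Clos
import Pool.Agent.Helper555_TN.Def

set_option autoImplicit false

/-!
# Tame automorphisms, and their triples
-/

open MvPolynomial

namespace Pool.Agent.Helper555_TN

variable {K : Type*} [Field K]

/-- the subalgebra generated by the entries other than the `i`-th one -/
noncomputable def Oth (v : Fin 3 → A K) (i : Fin 3) : Subalgebra K (A K) :=
  Algebra.adjoin K (v '' {i}ᶜ)

theorem Oth0 (v : Fin 3 → A K) : Oth v 0 = Sb (v 1) (v 2) := by
  rw [Oth, Sb]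
  congr 1
  ext x
  constructor
  · rintro ⟨j, hj, rfl⟩
    fin_cases j
    · exact absurd rfl hj
    · simp
    · simp
  · rintro (rfl | rfl)
    · exact ⟨1, by simp, rfl⟩
    · exact ⟨2, by simp, rfl⟩

theorem Oth1 (v : Fin 3 → A K) : Oth v 1 = Sb (v 0) (v 2) := by
  rw [Oth, Sb]
  congr 1
  ext x
  constructor
  · rintro ⟨j, hj, rfl⟩
    fin_cases j
    · simp
    · exact absurd rfl hj
    · simp
  · rintro (rfl | rfl)
    · exact ⟨0, by simp, rfl⟩
    · exact ⟨2, by simp, rfl⟩

theorem Oth2 (v : Fin 3 → A K) : Oth v 2 = Sb (v 0) (v 1) := by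
  rw [Oth, Sb]
  congr 1
  ext x
  constructor
  · rintro ⟨j, hj, rfl⟩
    fin_cases j
    · simp
    · simp
    · exact absurd rfl hj
  · rintro (rfl | rfl)
    · exact ⟨0, by simp, rfl⟩
    · exact ⟨1, by simp, rfl⟩

theorem Oth_congr {v v' : Fin 3 → A K} {i : Fin 3} (h : ∀ j, j ≠ i → v' j = v j) :
    Oth v' i = Oth v i := by
  rw [Oth, Oth]
  congr 1
  apply Set.image_congr
  intro j hj
  exact h j hj

/-- reducible triples as vectors -/
def GV (v : Fin 3 → A K) : Prop := Good (v 0) (v 1) (v 2)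

theorem GV.move [CharZero K] {v v' : Fin 3 → A K} (h : GV v) (i : Fin 3)
    (hj : ∀ j, j ≠ i → v' j = v j) {c : K} (hc : c ≠ 0) (hm : v' i - c • v i ∈ Oth v i) :
    GV v' := by
  fin_cases i
  · have e1 := hj 1 (by decide)
    have e2 := hj 2 (by decide)
    simp only [Fin.zero_eta] at hm
    rw [Oth0] at hm
    have : Good (v' 0) (v 1) (v 2) := Good.elem1 h ⟨c, hc, hm⟩
    rw [GV, e1, e2]
    exact this
  · have e1 := hj 0 (by decide)
    have e2 := hj 2 (by decide)
    simp only [Fin.mk_one] at hm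
    rw [Oth1] at hm
    have : Good (v 0) (v' 1) (v 2) := Good.elem2 h ⟨c, hc, hm⟩
    rw [GV, e1, e2]
    exact this
  · have e1 := hj 0 (by decide)
    have e2 := hj 1 (by decide)
    simp only [Fin.reduceFinMk] at hm
    rw [Oth2] at hm
    have : Good (v 0) (v 1) (v' 2) := Good.elem h ⟨c, hc, hm⟩
    rw [GV, e1, e2]
    exact this

theorem GV.move_iff [CharZero K] {v v' : Fin 3 → A K} (i : Fin 3)
    (hj : ∀ j, j ≠ i → v' j = v j) {c : K} (hc : c ≠ 0) (hm : v' i - c • v i ∈ Oth v i) :
    GV v ↔ GV v' := by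
  refine ⟨fun h => h.move i hj hc hm, fun h => h.move i (fun j hji => (hj j hji).symm)
    (inv_ne_zero hc) ?_⟩
  rw [Oth_congr hj]
  have h2 := (Oth v i).smul_mem hm (-c⁻¹)
  have h3 : (-c⁻¹) • (v' i - c • v i) = v i - c⁻¹ • v' i := by
    rw [smul_sub, smul_smul, neg_mul, inv_mul_cancel₀ hc, neg_smul, neg_smul, one_smul]
    abel
  rwa [h3] at h2

/-- the action of matrices on triples -/
noncomputable def mulv (M : Matrix (Fin 3) (Fin 3) K) (v : Fin 3 → A K) : Fin 3 → A K :=
  fun i => ∑ j, M i j • v j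

theorem mulv_mul (M N : Matrix (Fin 3) (Fin 3) K) (v : Fin 3 → A K) :
    mulv (M * N) v = mulv M (mulv N v) := by
  funext i
  simp only [mulv, Matrix.mul_apply, Finset.smul_sum, Finset.sum_smul, smul_smul]
  rw [Finset.sum_comm]

theorem mulv_one (v : Fin 3 → A K) : mulv 1 v = v := by
  funext i
  simp [mulv, Matrix.one_apply, ite_smul]

theorem GV.mulv_diagonal [CharZero K] {v : Fin 3 → A K} (h : GV v) {D : Fin 3 → K}
    (hD : ∀ i, D i ≠ 0) : GV (mulv (Matrix.diagonal D) v) := by
  have e : ∀ i, mulv (Matrix.diagonal D) v i = D i • v i := by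
    intro i
    simp [mulv, Matrix.diagonal_apply, ite_smul]
  rw [GV, e, e, e]
  have h1 : Good (D 0 • v 0) (v 1) (v 2) :=
    Good.elem1 h ⟨D 0, hD 0, by rw [sub_self]; exact Subalgebra.zero_mem _⟩
  have h2 : Good (D 0 • v 0) (D 1 • v 1) (v 2) :=
    Good.elem2 h1 ⟨D 1, hD 1, by rw [sub_self]; exact Subalgebra.zero_mem _⟩
  exact Good.elem h2 ⟨D 2, hD 2, by rw [sub_self]; exact Subalgebra.zero_mem _⟩

theorem GV.mulv_transvection [CharZero K] {v : Fin 3 → A K} (h : GV v)
    (t : Matrix.TransvectionStruct (Fin 3) K) : GV (mulv t.toMatrix v) := by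
  have e : ∀ k, mulv t.toMatrix v k = v k + if k = t.i then t.c • v t.j else 0 := by
    intro k
    have h1 : mulv t.toMatrix v k = v k + ∑ l, (Matrix.single t.i t.j t.c : Matrix _ _ K) k l • v l := by
      simp only [mulv, Matrix.TransvectionStruct.toMatrix, Matrix.transvection, Matrix.add_apply,
        add_smul, Finset.sum_add_distrib]
      congr 1
      simp [Matrix.one_apply, ite_smul]
    rw [h1]
    congr 1
    by_cases hk : k = t.i
    · subst hk
      rw [if_pos rfl, Finset.sum_eq_single t.j]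
      · rw [Matrix.single_apply_same]
      · intro l _ hl
        rw [Matrix.single_apply_of_ne, zero_smul]
        tauto
      · simp
    · rw [if_neg hk]
      apply Finset.sum_eq_zero
      intro l _
      rw [Matrix.single_apply_of_ne, zero_smul]
      tauto
  refine h.move t.i (c := 1) ?_ one_ne_zero ?_
  · intro j hj
    rw [e, if_neg hj, add_zero]
  · rw [e, if_pos rfl, one_smul, add_sub_cancel_left]
    apply Subalgebra.smul_mem
    exact Algebra.subset_adjoin ⟨t.j, fun h => t.hij h.symm, rfl⟩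

theorem GV.mulv [CharZero K] {v : Fin 3 → A K} (h : GV v) {M : Matrix (Fin 3) (Fin 3) K}
    (hM : M.det ≠ 0) : GV (mulv M v) := by
  revert v
  refine Matrix.diagonal_transvection_induction_of_det_ne_zero
    (fun M => ∀ {v : Fin 3 → A K}, GV v → GV (Pool.Agent.Helper555_TN.mulv M v)) M hM ?_ ?_ ?_
  · intro D hD v h
    apply h.mulv_diagonal
    intro i hi
    apply hD
    rw [Matrix.det_diagonal]
    exact Finset.prod_eq_zero (Finset.mem_univ i) hi
  · intro t v h
    exact h.mulv_transvection t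
  · intro M N _ _ h1 h2 v h
    rw [mulv_mul]
    exact h1 (h2 h)

theorem GV.add_C [CharZero K] {v : Fin 3 → A K} (h : GV v) (b : Fin 3 → K) :
    GV (fun i => v i + C (b i)) := by
  have h1 : Good (v 0 + C (b 0)) (v 1) (v 2) := Good.elem1 h (El.add (C_mem _ _))
  have h2 : Good (v 0 + C (b 0)) (v 1 + C (b 1)) (v 2) := Good.elem2 h1 (El.add (C_mem _ _))
  exact Good.elem h2 (El.add (C_mem _ _))

/-- the triple of an automorphism -/
noncomputable def tr (φ : A K ≃ₐ[K] A K) : Fin 3 → A K := fun i => φ (X i)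

theorem mem_Oth_of_vars {σ : A K ≃ₐ[K] A K} {i : Fin 3} {f : A K} (hf : i ∉ f.vars) :
    σ f ∈ Oth (tr σ) i := by
  have h1 : f ∈ supported K ({i}ᶜ : Set (Fin 3)) := by
    rw [mem_supported]
    intro j hj
    simp only [Set.mem_compl_iff, Set.mem_singleton_iff]
    rintro rfl
    exact hf hj
  rw [supported_eq_adjoin_X] at h1
  have h2 : (σ : A K →ₐ[K] A K) f ∈ (Algebra.adjoin K (X '' ({i}ᶜ : Set (Fin 3)))).map
      (σ : A K →ₐ[K] A K) := ⟨f, h1, rfl⟩
  rw [AlgHom.map_adjoin, Set.image_image] at h2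
  exact h2

theorem GV.mul_iff [CharZero K] {φ : A K ≃ₐ[K] A K} (hφ : φ ∈ TAut 3 K) :
    ∀ σ : A K ≃ₐ[K] A K, GV (tr σ) ↔ GV (tr (σ * φ)) := by
  induction hφ using Subgroup.closure_induction with
  | mem φ hφ =>
    intro σ
    rcases hφ with ⟨M, b, hM, hb⟩ | ⟨i, α, f, hα, hf, h1, h2⟩
    · have e : tr (σ * φ) = fun i => Pool.Agent.Helper555_TN.mulv M (tr σ) i + C (b i) := by
        funext i
        have : tr (σ * φ) i = σ (φ (X i)) := rfl
        rw [this, hb]
        simp only [map_add, map_sum, map_mul, Pool.Agent.Helper555_TN.mulv, tr]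
        have hC : ∀ c : K, σ (C c) = C c := fun c => by
          rw [← algebraMap_eq]; exact σ.commutes c
        simp only [hC, smul_eq_C_mul]
      rw [e]
      constructor
      · intro h
        exact (h.mulv hM).add_C b
      · intro h
        have h3 := h.add_C (fun i => - b i)
        have h4 : (fun i => Pool.Agent.Helper555_TN.mulv M (tr σ) i + C (b i) + C (-b i)) =
            Pool.Agent.Helper555_TN.mulv M (tr σ) := by
          funext i
          rw [add_assoc, ← C_add, add_neg_cancel, C_0, add_zero]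
        rw [h4] at h3
        have h5 := h3.mulv (M := M⁻¹) (by
          intro h0
          have h6 : (M⁻¹ * M).det = 1 := by
            rw [Matrix.nonsing_inv_mul _ (isUnit_iff_ne_zero.2 hM), Matrix.det_one]
          rw [Matrix.det_mul, h0, zero_mul] at h6
          exact zero_ne_one h6)
        rw [← mulv_mul, Matrix.nonsing_inv_mul _ (isUnit_iff_ne_zero.2 hM), mulv_one] at h5
        exact h5
    · apply GV.move_iff i (c := α) _ hα
      · have e : tr (σ * φ) i - α • tr σ i = σ f := by
          have : tr (σ * φ) i = σ (φ (X i)) := rfl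
          have hC : ∀ c : K, σ (C c) = C c := fun c => by
            rw [← algebraMap_eq]; exact σ.commutes c
          rw [this, h1, map_add, map_mul, hC, smul_eq_C_mul, tr, add_sub_cancel_left]
        rw [e]
        exact mem_Oth_of_vars hf
      · intro j hj
        have : tr (σ * φ) j = σ (φ (X j)) := rfl
        rw [this, h2 j hj, tr]
  | one => intro σ; rw [mul_one]
  | mul φ φ' _ _ ih ih' =>
    intro σ
    rw [ih σ, ih' (σ * φ), mul_assoc]
  | inv φ _ ih =>
    intro σ
    rw [ih (σ * φ⁻¹), inv_mul_cancel_right]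

theorem th_X (i j : Fin 3) : th i (X j : A K) = if i = j then X i else 0 := by
  rw [th_apply, pderiv_X, Pi.single_apply]
  by_cases h : i = j
  · subst h; simp
  · rw [if_neg h, if_neg (fun h' => h h'.symm), mul_zero]

theorem GV_one : GV (tr (1 : A K ≃ₐ[K] A K)) := by
  apply Good.base
  · refine ⟨1, one_ne_zero, ?_⟩
    simp only [tr, AlgEquiv.one_apply, Jm, M, th_X]
    simp
    ring
  · simp only [tr, AlgEquiv.one_apply, deg_X]
    rw [W]

/-- the triple of a tame automorphism is reducible -/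
theorem good_of_tame [CharZero K] {φ : A K ≃ₐ[K] A K} (hφ : φ ∈ TAut 3 K) : GV (tr φ) := by
  have := (GV.mul_iff hφ 1).1 GV_one
  rwa [one_mul] at this

end Pool.Agent.Helper555_TN
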