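import Mathlib
import Pool.Agent.Helper555_TN.Tame

set_option autoImplicit false

/-!
# Existence of incommensurable degrees in two-generated subalgebras
-/

open MvPolynomial

namespace Pool.Agent.Helper555_TN

variable {K : Type*} [Field K]

theorem wt_ge (a : Fin 3 →₀ ℕ) (l : Fin 3) : (a l : ℝ) * wv l ≤ wt a := by
  have : (a l : NNReal) * wv l ≤ wt a := by
    rw [wt]
    exact Finset.single_le_sum (f := fun i => (a i : NNReal) * wv i) (fun i _ => zero_le)
      (Finset.mem_univ l)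
  exact_mod_cast this

/-- the exponent of a pair -/
noncomputable def ex2 (i j : ℕ) : Fin 2 →₀ ℕ := Finsupp.single 0 i + Finsupp.single 1 j

@[simp] theorem ex2_0 (i j : ℕ) : ex2 i j 0 = i := by simp [ex2]
@[simp] theorem ex2_1 (i j : ℕ) : ex2 i j 1 = j := by simp [ex2]

theorem ex2_inj {i j i' j' : ℕ} (h : ex2 i j = ex2 i' j') : i = i' ∧ j = j' := by
  constructor
  · have := congrArg (fun t => t 0) h
    simpa using this
  · have := congrArg (fun t => t 1) h
    simpa using this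

theorem exists_incomm {f g : A K} (hf : 0 < deg f) (hinj : ∀ Φ, ev f g Φ = 0 → Φ = 0) :
    ∃ Φ, 0 < deg (ev f g Φ) ∧
      ∀ p q : ℕ, 0 < p → 0 < q → (q : ℝ) * deg (ev f g Φ) ≠ p * deg f := by
  classical
  by_contra hcon
  push Not at hcon
  obtain ⟨a₁, ha₁, hwt₁⟩ := exists_lead (ne_zero_of_deg_pos hf)
  obtain ⟨l, hl⟩ : ∃ l, a₁ l ≠ 0 := by
    by_contra hc
    push Not at hc
    have : a₁ = 0 := by ext i; exact hc i
    rw [this, wt_zero] at hwt₁
    rw [← hwt₁] at hf
    simp at hf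
  have hwl : (0 : ℝ) < wv l := wv_pos l
  have key : ∀ Φ, ∀ a : Fin 3 →₀ ℕ, (wt a : ℝ) = deg (ev f g Φ) → ∀ i, a i * a₁ l = a l * a₁ i := by
    intro Φ a ha i
    rcases (deg_nonneg (ev f g Φ)).eq_or_lt with h0 | h0
    · rw [← h0] at ha
      have h1 : a = 0 := by
        apply wt_inj
        rw [wt_zero]
        exact_mod_cast ha
      rw [h1]; simp
    · obtain ⟨p, q, hp, hq, hpq⟩ := hcon Φ h0
      have h1 : wt (q • a) = wt (p • a₁) := by
        apply NNReal.coe_injective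
        rw [wt_nsmul, wt_nsmul]
        push_cast
        rw [ha, hwt₁, hpq]
      have h2 := wt_inj h1
      have h3 : ∀ j, q * a j = p * a₁ j := by
        intro j
        have := congrArg (fun t => t j) h2
        simpa using this
      have h4 : q * (a i * a₁ l) = q * (a l * a₁ i) := by
        rw [← mul_assoc, h3, ← mul_assoc, h3]; ring
      exact Nat.eq_of_mul_eq_mul_left hq h4
  set C₀ := ⌈(deg f + deg g) / wv l⌉₊ with hC₀
  have hC : deg f + deg g ≤ C₀ * wv l := by
    have := Nat.le_ceil ((deg f + deg g) / wv l)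
    rwa [div_le_iff₀ hwl] at this
  set n := C₀ + 1 with hn
  set e : ℕ → (Fin 3 →₀ ℕ) := fun m => Finsupp.equivFunOnFinite.symm (fun i => m * a₁ i / a₁ l)
    with he
  have hea : ∀ a : Fin 3 →₀ ℕ, (∀ i, a i * a₁ l = a l * a₁ i) → a = e (a l) := by
    intro a ha
    ext i
    simp only [he, Finsupp.equivFunOnFinite_symm_apply_apply]
    rw [← ha i, Nat.mul_div_cancel _ (Nat.pos_of_ne_zero hl)]
  -- the linear map
  let mon : Fin (n + 1) × Fin (n + 1) → A K := fun p => f ^ (p.1 : ℕ) * g ^ (p.2 : ℕ)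
  let T : (Fin (n + 1) × Fin (n + 1) → K) →ₗ[K] (Fin (n * C₀ + 1) → K) :=
    LinearMap.pi (fun m => (lcoeff K (e m)).comp (Fintype.linearCombination K mon))
  have hT : ∀ c m, T c m = coeff (e m) (∑ p, c p • mon p) := by
    intro c m
    simp [T, Fintype.linearCombination_apply, lcoeff]
  have hker : LinearMap.ker T ≠ ⊥ := by
    apply LinearMap.ker_ne_bot_of_finrank_lt
    simp only [Module.finrank_fintype_fun_eq_card, Fintype.card_prod, Fintype.card_fin]
    rw [hn]
    nlinarith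
  obtain ⟨c, hc, hc0⟩ := (Submodule.ne_bot_iff _).1 hker
  rw [LinearMap.mem_ker] at hc
  set Φ : MvPolynomial (Fin 2) K := ∑ p : Fin (n + 1) × Fin (n + 1),
    monomial (ex2 p.1 p.2) (c p) with hΦ
  have hevΦ : ev f g Φ = ∑ p, c p • mon p := by
    rw [hΦ, map_sum]
    apply Finset.sum_congr rfl
    intro p _
    rw [ev_monomial, smul_eq_C_mul, ex2_0, ex2_1]
  have hcoef : ∀ p : Fin (n + 1) × Fin (n + 1), coeff (ex2 p.1 p.2) Φ = c p := by
    intro p
    rw [hΦ, coeff_sum, Finset.sum_eq_single p]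
    · rw [coeff_monomial, if_pos rfl]
    · intro q _ hqp
      rw [coeff_monomial, if_neg]
      intro h
      apply hqp
      obtain ⟨h1, h2⟩ := ex2_inj h
      ext
      · exact h1
      · exact h2
    · simp
  have hΦ0 : Φ ≠ 0 := by
    intro h
    apply hc0
    funext p
    rw [← hcoef p, h]; simp
  have hx0 : ev f g Φ ≠ 0 := fun h => hΦ0 (hinj Φ h)
  obtain ⟨a, ha, hwa⟩ := exists_lead hx0
  have hdeg : deg (ev f g Φ) ≤ n * (deg f + deg g) := by
    rw [hevΦ]
    apply deg_sum_le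
    · have := deg_nonneg g
      positivity
    · intro p _
      refine (deg_smul_le _ _).trans ((deg_mul_le _ _).trans ?_)
      have h1 := deg_pow_le f (p.1 : ℕ)
      have h2 := deg_pow_le g (p.2 : ℕ)
      have h3 : ((p.1 : ℕ) : ℝ) ≤ n := by
        have := p.1.2
        exact_mod_cast Nat.lt_succ_iff.1 this
      have h4 : ((p.2 : ℕ) : ℝ) ≤ n := by
        have := p.2.2
        exact_mod_cast Nat.lt_succ_iff.1 this
      have h5 := mul_le_mul_of_nonneg_right h3 (deg_nonneg f)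
      have h6 := mul_le_mul_of_nonneg_right h4 (deg_nonneg g)
      linarith
  have hal : a l ≤ n * C₀ := by
    have h1 := wt_ge a l
    rw [hwa] at h1
    have h2 : (a l : ℝ) * wv l ≤ (n * C₀ : ℝ) * wv l := by
      have h3 : (n : ℝ) * (deg f + deg g) ≤ n * (C₀ * wv l) :=
        mul_le_mul_of_nonneg_left hC (Nat.cast_nonneg n)
      linarith
    have h3 := le_of_mul_le_mul_right h2 hwl
    exact_mod_cast h3
  have h1 := hea a (key Φ a hwa)
  have h2 : T c ⟨a l, by omega⟩ = 0 := by rw [hc]; rfl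
  rw [hT, ← hevΦ] at h2
  simp only at h2
  rw [← h1] at h2
  exact ha h2

/-- existence of elementary automorphisms -/
theorem exists_elem (i a b : Fin 3) (hia : a ≠ i) (hib : b ≠ i) {c : K} (hc : c ≠ 0)
    (Φ : MvPolynomial (Fin 2) K) :
    ∃ τ ∈ TAut 3 K, τ (X i) = c • X i + ev (X a) (X b) Φ ∧ ∀ j, j ≠ i → τ (X j) = X j := by
  classical
  let F : A K →ₐ[K] A K := aeval (Function.update (fun j => (X j : A K)) i
    (c • X i + ev (X a) (X b) Φ))
  let G : A K →ₐ[K] A K := aeval (Function.update (fun j => (X j : A K)) i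
    (c⁻¹ • X i - c⁻¹ • ev (X a) (X b) Φ))
  have Fi : F (X i) = c • X i + ev (X a) (X b) Φ := by simp [F]
  have Gi : G (X i) = c⁻¹ • X i - c⁻¹ • ev (X a) (X b) Φ := by simp [G]
  have Fj : ∀ j, j ≠ i → F (X j) = X j := by intro j hj; simp [F, hj]
  have Gj : ∀ j, j ≠ i → G (X j) = X j := by intro j hj; simp [G, hj]
  have hev : ∀ H : A K →ₐ[K] A K, H (X a) = X a → H (X b) = X b →
      H (ev (X a) (X b) Φ) = ev (X a) (X b) Φ := by
    intro H h1 h2
    have : (H.comp (ev (X a) (X b))) = (ev (X a) (X b) : MvPolynomial (Fin 2) K →ₐ[K] A K) := by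
      apply algHom_ext
      intro t
      fin_cases t
      · simp [h1]
      · simp [h2]
    exact congrArg (fun T => T Φ) this
  have hFG : F.comp G = AlgHom.id K (A K) := by
    apply algHom_ext
    intro j
    by_cases hj : j = i
    · subst hj
      rw [AlgHom.comp_apply, Gi, map_sub, map_smul, map_smul, Fi, hev F (Fj a hia) (Fj b hib),
        smul_add, smul_smul, inv_mul_cancel₀ hc, one_smul, add_sub_cancel_right]
      rfl
    · rw [AlgHom.comp_apply, Gj j hj, Fj j hj]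
      rfl
  have hGF : G.comp F = AlgHom.id K (A K) := by
    apply algHom_ext
    intro j
    by_cases hj : j = i
    · subst hj
      rw [AlgHom.comp_apply, Fi, map_add, map_smul, Gi, hev G (Gj a hia) (Gj b hib), smul_sub,
        smul_smul, smul_smul, mul_inv_cancel₀ hc, one_smul, one_smul, sub_add_cancel]
      rfl
    · rw [AlgHom.comp_apply, Fj j hj, Gj j hj]
      rfl
  refine ⟨AlgEquiv.ofAlgHom F G hFG hGF, ?_, Fi, Fj⟩
  apply Subgroup.subset_closure
  right
  refine ⟨i, c, ev (X a) (X b) Φ, hc, ?_, by rw [← smul_eq_C_mul]; exact Fi, Fj⟩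
  have h1 : ev (X a) (X b) Φ ∈ supported K ({i}ᶜ : Set (Fin 3)) := by
    apply Sb_le _ _ (ev_mem (X a) (X b) Φ)
    · rw [supported_eq_adjoin_X]
      exact Algebra.subset_adjoin ⟨a, hia, rfl⟩
    · rw [supported_eq_adjoin_X]
      exact Algebra.subset_adjoin ⟨b, hib, rfl⟩
  rw [mem_supported] at h1
  intro h2
  exact h1 h2 rfl

theorem map_ev {σ : A K ≃ₐ[K] A K} (f g : A K) (Φ : MvPolynomial (Fin 2) K) :
    σ (ev f g Φ) = ev (σ f) (σ g) Φ := by
  have : ((σ : A K →ₐ[K] A K).comp (ev f g)) = ev (σ f) (σ g) := by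
    apply algHom_ext
    intro t
    fin_cases t <;> simp
  exact congrArg (fun T => T Φ) this

theorem ev_X_inj (a b : Fin 3) (hab : a ≠ b) (Φ : MvPolynomial (Fin 2) K)
    (h : (ev (X a) (X b) Φ : A K) = 0) : Φ = 0 := by
  have h1 : (ev (X a) (X b) Φ : A K) = rename ![a, b] Φ := by
    have : (ev (X a) (X b) : MvPolynomial (Fin 2) K →ₐ[K] A K) = rename ![a, b] := by
      apply algHom_ext
      intro t
      fin_cases t <;> simp
    rw [this]
  rw [h1] at h
  have hinj : Function.Injective (![a, b] : Fin 2 → Fin 3) := by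
    intro s t hst
    fin_cases s <;> fin_cases t <;> simp_all
  exact rename_injective _ hinj (by rw [h, map_zero])

theorem aut_deg_pos (σ : A K ≃ₐ[K] A K) (i : Fin 3) : 0 < deg (σ (X i)) := by
  by_contra h
  push Not at h
  have h1 := eq_C_of_deg_le_zero h
  have h2 : σ (X i) = σ (C (coeff 0 (σ (X i)))) := by
    rw [← algebraMap_eq, σ.commutes, algebraMap_eq]
    exact h1
  have h3 := σ.injective h2
  have h4 := congrArg (coeff (Finsupp.single i 1)) h3
  have h6 : ¬ ((0 : Fin 3 →₀ ℕ) = Finsupp.single i 1) := by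
    intro h5
    have := congrArg (fun t => t i) h5
    simp at this
  rw [coeff_X, coeff_C, if_neg h6, if_pos rfl] at h4
  exact one_ne_zero h4

/-- incommensurable degrees after a tame change -/
theorem exists_base (γ : A K ≃ₐ[K] A K) : ∃ φ ∈ TAut 3 K,
    ∀ p q : ℕ, 0 < p → 0 < q →
      (q : ℝ) * deg ((γ * φ) (X 0)) ≠ p * deg ((γ * φ) (X 1)) := by
  obtain ⟨Φ, h1, h2⟩ := exists_incomm (f := γ (X 0)) (g := γ (X 2)) (aut_deg_pos γ 0) (by
    intro Φ h
    rw [← map_ev, EmbeddingLike.map_eq_zero_iff] at h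
    exact ev_X_inj 0 2 (by decide) Φ h)
  have h0 := aut_deg_pos γ 0
  obtain ⟨N, hN⟩ := exists_nat_gt (deg (γ (X 1)) / deg (γ (X 0)))
  rw [div_lt_iff₀ h0] at hN
  obtain ⟨τ, hτ, hτ1, hτ2⟩ := exists_elem (1 : Fin 3) 0 2 (by decide) (by decide)
    (c := (1 : K)) one_ne_zero (X 0 ^ N * Φ)
  refine ⟨τ, hτ, ?_⟩
  have e0 : (γ * τ) (X 0) = γ (X 0) := by
    rw [AlgEquiv.mul_apply, hτ2 0 (by decide)]
  have e1 : (γ * τ) (X 1) = γ (X 1) + γ (X 0) ^ N * ev (γ (X 0)) (γ (X 2)) Φ := by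
    rw [AlgEquiv.mul_apply, hτ1, one_smul, map_add, map_ev, map_mul, map_pow, ev_X0]
  have hd : deg (γ (X 0) ^ N * ev (γ (X 0)) (γ (X 2)) Φ) =
      N * deg (γ (X 0)) + deg (ev (γ (X 0)) (γ (X 2)) Φ) := by
    rw [deg_mul (pow_ne_zero _ (ne_zero_of_deg_pos h0)) (ne_zero_of_deg_pos h1),
      deg_pow N (ne_zero_of_deg_pos h0)]
  have hd1 : deg ((γ * τ) (X 1)) = N * deg (γ (X 0)) + deg (ev (γ (X 0)) (γ (X 2)) Φ) := by
    rw [e1, deg_add_eq_right, hd]
    rw [hd]; linarith
  intro p q hp hq h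
  rw [e0, hd1] at h
  -- q d0 = p (N d0 + deg P)
  have h3 : (p : ℝ) * deg (ev (γ (X 0)) (γ (X 2)) Φ) = ((q : ℝ) - p * N) * deg (γ (X 0)) := by
    linarith
  have h4 : (0 : ℝ) < (q : ℝ) - p * N := by
    have : 0 < ((q : ℝ) - p * N) * deg (γ (X 0)) := by
      rw [← h3]
      have : (0 : ℝ) < p := by exact_mod_cast hp
      positivity
    exact (pos_iff_pos_of_mul_pos this).2 h0
  have h5 : p * N < q := by
    have : ((p * N : ℕ) : ℝ) < q := by push_cast; linarith
    exact_mod_cast this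
  apply h2 (q - p * N) p (by omega) hp
  rw [h3, Nat.cast_sub h5.le]
  push_cast
  ring

end Pool.Agent.Helper555_TN
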