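import Mathlib
import Pool.Agent.Helper555_TN.Dim

set_option autoImplicit false

/-!
# Substitutions with large degrees
-/

open MvPolynomial

namespace Pool.Agent.Helper555_TN

variable {K : Type*} [Field K]

/-- weights for a substitution of large degree -/
def vN (D₁ D₂ : ℝ) (N : ℕ) (s : Fin 3 →₀ ℕ) : ℝ :=
  (s 0 : ℝ) * D₁ + s 1 * D₂ + s 2 * (N * D₁ + N ^ 2 * D₂)

/-- the limit order -/
def lt3 (D₁ D₂ : ℝ) (s t : Fin 3 →₀ ℕ) : Prop :=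
  s 2 < t 2 ∨ (s 2 = t 2 ∧ (s 0 : ℝ) * D₁ + s 1 * D₂ < t 0 * D₁ + t 1 * D₂)

/-- incommensurable positive numbers -/
structure Inc (D₁ D₂ : ℝ) : Prop where
  h1 : 0 < D₁
  h2 : 0 < D₂
  h : ∀ p q : ℕ, 0 < p → 0 < q → (q : ℝ) * D₁ ≠ p * D₂

theorem Inc.indep {D₁ D₂ : ℝ} (H : Inc D₁ D₂) {a b c d : ℕ}
    (h : (a : ℝ) * D₁ + b * D₂ = c * D₁ + d * D₂) : a = c ∧ b = d := by
  have key : ∀ a b c d : ℕ, (a : ℝ) * D₁ + b * D₂ = c * D₁ + d * D₂ → ¬ (a < c) := by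
    intro a b c d h hac
    have h1 : ((c - a : ℕ) : ℝ) * D₁ = ((b : ℝ) - d) * D₂ := by
      rw [Nat.cast_sub hac.le]; linarith
    have h2 : (0 : ℝ) < ((c - a : ℕ) : ℝ) * D₁ := by
      have : 0 < c - a := by omega
      have h3 : (0 : ℝ) < ((c - a : ℕ) : ℝ) := by exact_mod_cast this
      exact mul_pos h3 H.h1
    rw [h1] at h2
    have h3 : (0 : ℝ) < (b : ℝ) - d := (pos_iff_pos_of_mul_pos h2).2 H.h2
    have h4 : d < b := by
      have : (d : ℝ) < b := by linarith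
      exact_mod_cast this
    apply H.h (b - d) (c - a) (by omega) (by omega)
    rw [h1, Nat.cast_sub h4.le]
  have h1 : a = c := by
    rcases lt_trichotomy a c with h' | h' | h'
    · exact absurd h' (key a b c d h)
    · exact h'
    · exact absurd h' (key c d a b h.symm)
  refine ⟨h1, ?_⟩
  subst h1
  have h2 : (b : ℝ) * D₂ = d * D₂ := by linarith
  have := mul_right_cancel₀ H.h2.ne' h2
  exact_mod_cast this

theorem vN_eq (D₁ D₂ : ℝ) (N : ℕ) (s : Fin 3 →₀ ℕ) :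
    vN D₁ D₂ N s = ((s 0 + N * s 2 : ℕ) : ℝ) * D₁ + ((s 1 + N ^ 2 * s 2 : ℕ) : ℝ) * D₂ := by
  rw [vN]; push_cast; ring

theorem vN_add (D₁ D₂ : ℝ) (N : ℕ) (s t : Fin 3 →₀ ℕ) :
    vN D₁ D₂ N (s + t) = vN D₁ D₂ N s + vN D₁ D₂ N t := by
  simp only [vN, Finsupp.add_apply]; push_cast; ring

theorem vN_inj {D₁ D₂ : ℝ} (H : Inc D₁ D₂) {N : ℕ} {s t : Fin 3 →₀ ℕ} (hs : ∀ i, s i < N)
    (ht : ∀ i, t i < N) (h : vN D₁ D₂ N s = vN D₁ D₂ N t) : s = t := by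
  rw [vN_eq, vN_eq] at h
  obtain ⟨h1, h2⟩ := H.indep h
  have h3 : s 0 = t 0 := by
    have := congrArg (fun x => x % N) h1
    simp only [Nat.add_mul_mod_self_left] at this
    rwa [Nat.mod_eq_of_lt (hs 0), Nat.mod_eq_of_lt (ht 0)] at this
  have h4 : s 2 = t 2 := by
    rw [h3] at h1
    have h5 : N * s 2 = N * t 2 := by omega
    exact Nat.eq_of_mul_eq_mul_left (by have := hs 0; omega) h5
  have h6 : s 1 = t 1 := by
    rw [h4] at h2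
    omega
  ext i
  fin_cases i
  · exact h3
  · exact h6
  · exact h4

theorem vN_lt_of {D₁ D₂ : ℝ} (H : Inc D₁ D₂) {N : ℕ} {s t : Fin 3 →₀ ℕ} (hs : ∀ i, s i < N)
    (h : lt3 D₁ D₂ s t) : vN D₁ D₂ N s < vN D₁ D₂ N t := by
  have h1 := H.h1
  have h2 := H.h2
  rcases h with h | ⟨h, h'⟩
  · have e1 : (s 2 : ℝ) + 1 ≤ t 2 := by exact_mod_cast h
    have e2 : (s 0 : ℝ) + 1 ≤ N := by exact_mod_cast hs 0
    have e3 : (s 1 : ℝ) + 1 ≤ N := by exact_mod_cast hs 1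
    have eN : (1 : ℝ) ≤ N := by
      have : (0 : ℝ) ≤ s 0 := Nat.cast_nonneg _
      linarith
    have e4 : (N : ℝ) ≤ N ^ 2 := by nlinarith
    have e5 : (s 0 : ℝ) * D₁ < N * D₁ := mul_lt_mul_of_pos_right (by linarith) h1
    have e6 : (s 1 : ℝ) * D₂ < N ^ 2 * D₂ := mul_lt_mul_of_pos_right (by linarith) h2
    have e7 : 0 ≤ (N : ℝ) * D₁ + N ^ 2 * D₂ := by positivity
    have e8 : ((s 2 : ℝ) + 1) * (N * D₁ + N ^ 2 * D₂) ≤ t 2 * (N * D₁ + N ^ 2 * D₂) :=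
      mul_le_mul_of_nonneg_right e1 e7
    have e9 : 0 ≤ (t 0 : ℝ) * D₁ := by positivity
    have e10 : 0 ≤ (t 1 : ℝ) * D₂ := by positivity
    rw [vN, vN]
    linarith
  · rw [vN, vN, h]
    linarith

theorem lt3_or {D₁ D₂ : ℝ} (H : Inc D₁ D₂) (s t : Fin 3 →₀ ℕ) :
    lt3 D₁ D₂ s t ∨ s = t ∨ lt3 D₁ D₂ t s := by
  rcases lt_trichotomy (s 2) (t 2) with h | h | h
  · exact Or.inl (Or.inl h)
  · rcases lt_trichotomy ((s 0 : ℝ) * D₁ + s 1 * D₂) (t 0 * D₁ + t 1 * D₂) with h' | h' | h'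
    · exact Or.inl (Or.inr ⟨h, h'⟩)
    · right; left
      obtain ⟨h3, h4⟩ := H.indep h'
      ext i
      fin_cases i
      · exact h3
      · exact h4
      · exact h
    · exact Or.inr (Or.inr (Or.inr ⟨h.symm, h'⟩))
  · exact Or.inr (Or.inr (Or.inl h))

theorem lt3_of_vN_lt {D₁ D₂ : ℝ} (H : Inc D₁ D₂) {N : ℕ} {s t : Fin 3 →₀ ℕ}
    (ht : ∀ i, t i < N) (h : vN D₁ D₂ N s < vN D₁ D₂ N t) : lt3 D₁ D₂ s t := by
  rcases lt3_or H s t with h1 | h1 | h1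
  · exact h1
  · rw [h1] at h; exact absurd h (lt_irrefl _)
  · exact absurd (vN_lt_of H ht h1) (not_lt.2 h.le)

theorem exists_lmo {D₁ D₂ : ℝ} (H : Inc D₁ D₂) {h : A K} (hh : h ≠ 0) :
    ∃ s ∈ h.support, ∀ t ∈ h.support, t ≠ s → lt3 D₁ D₂ t s := by
  have hne : h.support.Nonempty := by
    rw [Finset.nonempty_iff_ne_empty]
    intro h0
    exact hh (support_eq_empty.1 h0)
  obtain ⟨N, hN⟩ : ∃ N : ℕ, ∀ t ∈ h.support, ∀ i, t i < N := by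
    refine ⟨h.totalDegree + 1, fun t ht i => ?_⟩
    have h1 := le_totalDegree ht
    have h2 : t i ≤ t.sum fun _ e => e := by
      rw [Finsupp.sum_fintype _ _ (fun _ => rfl)]
      exact Finset.single_le_sum (f := fun j => t j) (fun _ _ => Nat.zero_le _) (Finset.mem_univ i)
    omega
  obtain ⟨s, hs, hmax⟩ := Finset.exists_max_image h.support (vN D₁ D₂ N) hne
  refine ⟨s, hs, fun t ht hts => ?_⟩
  apply lt3_of_vN_lt H (hN s hs)
  refine lt_of_le_of_ne (hmax t ht) ?_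
  intro h1
  exact hts (vN_inj H (hN t ht) (hN s hs) h1)

open Classical in
/-- the leading exponent for the limit order -/
noncomputable def lmo (D₁ D₂ : ℝ) (h : A K) : Fin 3 →₀ ℕ :=
  if H : Inc D₁ D₂ ∧ h ≠ 0 then Classical.choose (exists_lmo H.1 H.2) else 0

theorem lmo_mem {D₁ D₂ : ℝ} (H : Inc D₁ D₂) {h : A K} (hh : h ≠ 0) :
    lmo D₁ D₂ h ∈ h.support := by
  rw [lmo, dif_pos ⟨H, hh⟩]
  exact (Classical.choose_spec (exists_lmo H hh)).1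

theorem lmo_max {D₁ D₂ : ℝ} (H : Inc D₁ D₂) {h : A K} (hh : h ≠ 0) {t : Fin 3 →₀ ℕ}
    (ht : t ∈ h.support) (hts : t ≠ lmo D₁ D₂ h) : lt3 D₁ D₂ t (lmo D₁ D₂ h) := by
  rw [lmo, dif_pos ⟨H, hh⟩] at hts ⊢
  exact (Classical.choose_spec (exists_lmo H hh)).2 t ht hts

theorem le_td {h : A K} {t : Fin 3 →₀ ℕ} (ht : t ∈ h.support) (i : Fin 3) :
    t i ≤ h.totalDegree := by
  have h1 := le_totalDegree ht
  have h2 : t i ≤ t.sum fun _ e => e := by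
    rw [Finsupp.sum_fintype _ _ (fun _ => rfl)]
    exact Finset.single_le_sum (f := fun j => t j) (fun _ _ => Nat.zero_le _) (Finset.mem_univ i)
  omega

theorem deg_sum_max {ι : Type*} [DecidableEq ι] (S : Finset ι) (t : ι → A K) {i₀ : ι}
    (hi : i₀ ∈ S) (h : ∀ i ∈ S, i ≠ i₀ → deg (t i) < deg (t i₀)) :
    deg (∑ i ∈ S, t i) = deg (t i₀) := by
  rw [← Finset.add_sum_erase S t hi]
  rcases (S.erase i₀).eq_empty_or_nonempty with h0 | h0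
  · rw [h0, Finset.sum_empty, add_zero]
  · obtain ⟨i₁, hi₁, hmax⟩ := Finset.exists_max_image (S.erase i₀) (fun i => deg (t i)) h0
    apply deg_add_eq_left
    refine lt_of_le_of_lt (deg_sum_le _ _ (deg_nonneg (t i₁)) hmax) ?_
    exact h i₁ (Finset.mem_of_mem_erase hi₁) (Finset.ne_of_mem_erase hi₁)

/-- the degrees of the images of the variables -/
structure Rho (D₁ D₂ : ℝ) (N : ℕ) (ρ : A K ≃ₐ[K] A K) : Prop where
  d0 : deg (ρ (X 0)) = D₁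
  d1 : deg (ρ (X 1)) = D₂
  d2 : deg (ρ (X 2)) = N * D₁ + N ^ 2 * D₂

theorem Rho.deg_eq {D₁ D₂ : ℝ} {N : ℕ} {ρ : A K ≃ₐ[K] A K} (R : Rho D₁ D₂ N ρ) (H : Inc D₁ D₂)
    {h : A K} (hh : h ≠ 0) (hN : ∀ t ∈ h.support, ∀ i, t i < N) :
    deg (ρ h) = vN D₁ D₂ N (lmo D₁ D₂ h) := by
  classical
  have hne : ∀ i, ρ (X i) ≠ 0 := fun i => ne_zero_of_deg_pos (aut_deg_pos ρ i)
  have hterm : ∀ t : Fin 3 →₀ ℕ, coeff t h ≠ 0 → deg (ρ (monomial t (coeff t h))) =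
      vN D₁ D₂ N t := by
    intro t ht
    have e1 : (monomial t (coeff t h) : A K) = C (coeff t h) * (X 0 ^ t 0 * X 1 ^ t 1 * X 2 ^ t 2) := by
      rw [monomial_eq, Finsupp.prod_fintype _ _ (by simp)]
      simp [Fin.prod_univ_three]
    have hC : ∀ c : K, ρ (C c) = C c := fun c => by
      rw [← algebraMap_eq]; exact ρ.commutes c
    rw [e1, map_mul, map_mul, map_mul, map_pow, map_pow, map_pow, hC, deg_C_mul ht,
      deg_mul (mul_ne_zero (pow_ne_zero _ (hne 0)) (pow_ne_zero _ (hne 1))) (pow_ne_zero _ (hne 2)),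
      deg_mul (pow_ne_zero _ (hne 0)) (pow_ne_zero _ (hne 1)), deg_pow _ (hne 0),
      deg_pow _ (hne 1), deg_pow _ (hne 2), R.d0, R.d1, R.d2]
    rfl
  have e2 : ρ h = ∑ t ∈ h.support, ρ (monomial t (coeff t h)) := by
    rw [← map_sum, ← MvPolynomial.as_sum]
  rw [e2, deg_sum_max h.support _ (lmo_mem H hh), hterm _ (mem_support_iff.1 (lmo_mem H hh))]
  intro t ht hts
  rw [hterm t (mem_support_iff.1 ht), hterm _ (mem_support_iff.1 (lmo_mem H hh))]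
  exact vN_lt_of H (hN t ht) (lmo_max H hh ht hts)

theorem Rho.deg_eq' {D₁ D₂ : ℝ} {N : ℕ} {ρ : A K ≃ₐ[K] A K} (R : Rho D₁ D₂ N ρ) (H : Inc D₁ D₂)
    {h : A K} (hh : h ≠ 0) (hN : h.totalDegree < N) :
    deg (ρ h) = vN D₁ D₂ N (lmo D₁ D₂ h) :=
  R.deg_eq H hh (fun _ ht i => (le_td ht i).trans_lt hN)

/-- the complexity of an automorphism -/
noncomputable def cpx (D₁ D₂ : ℝ) (σ : A K ≃ₐ[K] A K) : Fin 3 →₀ ℕ :=
  ∑ i, lmo D₁ D₂ (σ (X i))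

theorem aut_ne (σ : A K ≃ₐ[K] A K) (i : Fin 3) : σ (X i) ≠ 0 :=
  ne_zero_of_deg_pos (aut_deg_pos σ i)

theorem cpx_lt {D₁ D₂ : ℝ} {N B : ℕ} {ρ σ σ' : A K ≃ₐ[K] A K} (R : Rho D₁ D₂ N ρ)
    (H : Inc D₁ D₂) (hB : ∀ i, (σ (X i)).totalDegree ≤ B) (hB' : ∀ i, (σ' (X i)).totalDegree ≤ B)
    (hN : 3 * B < N) (h : ∑ i, deg (ρ (σ' (X i))) < ∑ i, deg (ρ (σ (X i)))) :
    lt3 D₁ D₂ (cpx D₁ D₂ σ') (cpx D₁ D₂ σ) := by
  have e1 : ∀ τ : A K ≃ₐ[K] A K, (∀ i, (τ (X i)).totalDegree ≤ B) →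
      ∑ i, deg (ρ (τ (X i))) = vN D₁ D₂ N (cpx D₁ D₂ τ) := by
    intro τ hτ
    have : ∀ i, deg (ρ (τ (X i))) = vN D₁ D₂ N (lmo D₁ D₂ (τ (X i))) := by
      intro i
      exact R.deg_eq' H (aut_ne τ i) (by have := hτ i; omega)
    rw [cpx]
    simp only [Fin.sum_univ_three, vN_add, this]
  rw [e1 σ hB, e1 σ' hB'] at h
  apply lt3_of_vN_lt H _ h
  intro i
  have e2 : ∀ j, lmo D₁ D₂ (σ (X j)) i ≤ B := by
    intro j
    exact (le_td (lmo_mem H (aut_ne σ j)) i).trans (hB j)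
  rw [cpx, Fin.sum_univ_three]
  simp only [Finsupp.add_apply]
  have := e2 0
  have := e2 1
  have := e2 2
  omega

/-- a rank for the limit order -/
noncomputable def key3 (D₁ D₂ : ℝ) (s : Fin 3 →₀ ℕ) : ℕ ×ₗ ℕ :=
  toLex (s 2, rk (s 0 * D₁ + s 1 * D₂))

theorem key3_lt {D₁ D₂ : ℝ} {a b : Fin 3 →₀ ℕ} (ha : (wt a : ℝ) = D₁) (hb : (wt b : ℝ) = D₂)
    {s t : Fin 3 →₀ ℕ} (h : lt3 D₁ D₂ s t) : key3 D₁ D₂ s < key3 D₁ D₂ t := by
  rw [key3, key3, Prod.Lex.toLex_lt_toLex]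
  rcases h with h | ⟨h, h'⟩
  · exact Or.inl h
  · refine Or.inr ⟨h, ?_⟩
    apply rk_lt (a := s 0 • a + s 1 • b) _ h'
    rw [wt_add, wt_nsmul, wt_nsmul]
    push_cast
    rw [ha, hb]

end Pool.Agent.Helper555_TN
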