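import Mathlib
import Pool.Agent.Helper555_TN.Ord

set_option autoImplicit false

/-!
# Arithmetic of the substitution
-/

open MvPolynomial

namespace Pool.Agent.Helper555_TN

variable {K : Type*} [Field K]

theorem mul_bd {B N i n a c : ℕ} (hN : B < N) (hn : 1 ≤ n) (h : i * (a + N * n) ≤ B + N * c)
    (hc : c ≤ B) : i ≤ B := by
  by_contra hi
  push Not at hi
  have h1 : (B + 1) * (a + N * n) ≤ i * (a + N * n) := Nat.mul_le_mul_right _ hi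
  have h2 : N * 1 ≤ N * n := Nat.mul_le_mul_left _ hn
  have h3 : N * c ≤ N * B := Nat.mul_le_mul_left _ hc
  nlinarith

theorem AR1 {a₁ b₁ n₁ a₂ b₂ n₂ a₃ b₃ n₃ i j B N : ℕ} (hN : 2 * B * B + B < N)
    (ha₂ : a₂ ≤ B) (hb₂ : b₂ ≤ B) (ha₃ : a₃ ≤ B) (hb₃ : b₃ ≤ B) (hn₃ : n₃ ≤ B)
    (hb₁ : b₁ ≤ B)
    (h1 : i * (a₁ + N * n₁) + j * (a₂ + N * n₂) = a₃ + N * n₃)
    (h2 : i * (b₁ + N ^ 2 * n₁) + j * (b₂ + N ^ 2 * n₂) = b₃ + N ^ 2 * n₃) (hn₂ : 1 ≤ n₂)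
    (hs : a₁ ≠ 0 ∨ b₁ ≠ 0 ∨ n₁ ≠ 0) : i ≤ B ∧ j ≤ B := by
  have hBN : B < N := by omega
  have hNpos : 0 < N := by omega
  have hBB : B * B < N := by nlinarith
  have hj : j ≤ B := by
    refine mul_bd (a := a₂) (n := n₂) (c := n₃) hBN hn₂ ?_ hn₃
    calc j * (a₂ + N * n₂) ≤ i * (a₁ + N * n₁) + j * (a₂ + N * n₂) := Nat.le_add_left _ _
      _ = a₃ + N * n₃ := h1
      _ ≤ B + N * n₃ := by omega
  refine ⟨?_, hj⟩
  rcases Nat.eq_zero_or_pos n₁ with hn₁ | hn₁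
  swap
  · refine mul_bd (a := a₁) (n := n₁) (c := n₃) hBN hn₁ ?_ hn₃
    calc i * (a₁ + N * n₁) ≤ i * (a₁ + N * n₁) + j * (a₂ + N * n₂) := Nat.le_add_right _ _
      _ = a₃ + N * n₃ := h1
      _ ≤ B + N * n₃ := by omega
  subst hn₁
  rcases Nat.lt_or_ge (j * n₂) n₃ with hm | hm
  · exfalso
    obtain ⟨m, hm'⟩ := Nat.exists_eq_add_of_lt hm
    -- n₃ = j * n₂ + m + 1
    have e1 : i * a₁ + j * a₂ = a₃ + N * (m + 1) := by
      rw [hm'] at h1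
      nlinarith
    have e2 : i * b₁ + j * b₂ = b₃ + N ^ 2 * (m + 1) := by
      rw [hm'] at h2
      nlinarith
    have hja : j * a₂ ≤ B * B := Nat.mul_le_mul hj ha₂
    have hjb : j * b₂ ≤ B * B := Nat.mul_le_mul hj hb₂
    have ha₁ : a₁ ≠ 0 := by
      rintro rfl
      nlinarith
    have ha₁' : 1 ≤ a₁ := Nat.one_le_iff_ne_zero.2 ha₁
    have e3 : i ≤ i * a₁ := Nat.le_mul_of_pos_right i ha₁'
    have e4 : i ≤ B + N * (m + 1) := by omega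
    have e5 : i * b₁ ≤ (B + N * (m + 1)) * B := Nat.mul_le_mul e4 hb₁
    have e6 : N ^ 2 * (m + 1) ≤ 2 * B * B + N * (m + 1) * B := by nlinarith
    have e7 : N * (m + 1) * (2 * B * B + B + 1) ≤ N * (m + 1) * N :=
      Nat.mul_le_mul_left _ hN
    have e8 : 1 ≤ N * (m + 1) := Nat.one_le_iff_ne_zero.2 (by positivity)
    have e9 : 2 * B * B ≤ N * (m + 1) * (2 * B * B) := Nat.le_mul_of_pos_left _ e8
    nlinarith
  · have e1 : i * a₁ ≤ a₃ := by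
      have : N * n₃ ≤ N * (j * n₂) := Nat.mul_le_mul_left _ hm
      nlinarith
    have e2 : i * b₁ ≤ b₃ := by
      have : N ^ 2 * n₃ ≤ N ^ 2 * (j * n₂) := Nat.mul_le_mul_left _ hm
      nlinarith
    rcases hs with hs | hs | hs
    · have : i ≤ i * a₁ := Nat.le_mul_of_pos_right i (Nat.pos_of_ne_zero hs)
      omega
    · have : i ≤ i * b₁ := Nat.le_mul_of_pos_right i (Nat.pos_of_ne_zero hs)
      omega
    · exact absurd rfl hs

theorem CM1 {a₁ b₁ a₂ b₂ n₂ p q B N : ℕ} (hN : 2 * B * B + B < N)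
    (ha₁ : a₁ ≤ B) (hb₁ : b₁ ≤ B) (ha₂ : a₂ ≤ B)
    (hp : 0 < p) (h1 : q * a₁ = p * (a₂ + N * n₂))
    (h2 : q * b₁ = p * (b₂ + N ^ 2 * n₂)) (hn₂ : 1 ≤ n₂) : False := by
  have hNpos : 0 < N := by omega
  have h3 : p * ((a₂ + N * n₂) * b₁) = p * (a₁ * (b₂ + N ^ 2 * n₂)) := by
    calc p * ((a₂ + N * n₂) * b₁) = (p * (a₂ + N * n₂)) * b₁ := by ring
      _ = q * a₁ * b₁ := by rw [h1]
      _ = a₁ * (q * b₁) := by ring
      _ = p * (a₁ * (b₂ + N ^ 2 * n₂)) := by rw [h2]; ring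
  have h4 := Nat.eq_of_mul_eq_mul_left hp h3
  have ha₁' : 1 ≤ a₁ := by
    rw [Nat.one_le_iff_ne_zero]
    rintro rfl
    have : 0 < p * (a₂ + N * n₂) := by positivity
    omega
  have e1 : N ^ 2 * n₂ ≤ a₁ * (b₂ + N ^ 2 * n₂) :=
    (Nat.le_add_left _ _).trans (Nat.le_mul_of_pos_left _ ha₁')
  have e2 : (a₂ + N * n₂) * b₁ ≤ (B + N * n₂) * B := Nat.mul_le_mul (by omega) hb₁
  have e3 : N ^ 2 * n₂ ≤ (B + N * n₂) * B := by omega
  have e4 : N * n₂ * (2 * B * B + B + 1) ≤ N * n₂ * N := Nat.mul_le_mul_left _ hN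
  have e5 : 1 ≤ N * n₂ := Nat.one_le_iff_ne_zero.2 (by positivity)
  have e6 : B * B ≤ N * n₂ * (B * B) := Nat.le_mul_of_pos_left _ e5
  nlinarith

theorem td_ev {f g : A K} {Φ : MvPolynomial (Fin 2) K} {B₁ B₂ E : ℕ} (hf : f.totalDegree ≤ B₁)
    (hg : g.totalDegree ≤ B₂) (hΦ : ∀ s, coeff s Φ ≠ 0 → s 0 ≤ E ∧ s 1 ≤ E) :
    (ev f g Φ).totalDegree ≤ E * B₁ + E * B₂ := by
  rw [ev_eq_sum]
  apply totalDegree_finsetSum_le
  intro s hs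
  obtain ⟨h1, h2⟩ := hΦ s (mem_support_iff.1 hs)
  refine (totalDegree_mul _ _).trans ?_
  rw [totalDegree_C, zero_add]
  refine (totalDegree_mul _ _).trans ?_
  exact add_le_add ((totalDegree_pow _ _).trans (Nat.mul_le_mul h1 hf))
    ((totalDegree_pow _ _).trans (Nat.mul_le_mul h2 hg))

theorem sum_perm {f g h : Fin 3} (h1 : f ≠ g) (h2 : f ≠ h) (h3 : g ≠ h) (x : Fin 3 → ℝ) :
    ∑ i, x i = x f + x g + x h := by
  rw [Fin.sum_univ_three]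
  fin_cases f <;> fin_cases g <;> fin_cases h <;> simp_all <;> ring

theorem fin3_cases {f g h : Fin 3} (h1 : f ≠ g) (h2 : f ≠ h) (h3 : g ≠ h) (i : Fin 3) :
    i = f ∨ i = g ∨ i = h := by
  fin_cases f <;> fin_cases g <;> fin_cases h <;> fin_cases i <;> simp_all

end Pool.Agent.Helper555_TN
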