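import Mathlib
import Pool.Agent.Helper555_TN.Arith

set_option autoImplicit false

/-!
# The main step
-/

open MvPolynomial

namespace Pool.Agent.Helper555_TN

variable {K : Type*} [Field K]

/-- the situation of the main step -/
structure Ctx (D₁ D₂ : ℝ) (N B : ℕ) (ρ σ : A K ≃ₐ[K] A K) : Prop where
  H : Inc D₁ D₂
  R : Rho D₁ D₂ N ρ
  hB : ∀ i, (σ (X i)).totalDegree ≤ B
  hN : 2 * B * B + B < N
  hIII : ∀ i j, i ≠ j → lmo D₁ D₂ (σ (X i)) 2 ≠ 0 ∨ lmo D₁ D₂ (σ (X j)) 2 ≠ 0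

section

variable {D₁ D₂ : ℝ} {N B : ℕ} {ρ σ : A K ≃ₐ[K] A K}

theorem Ctx.bd (T : Ctx D₁ D₂ N B ρ σ) (i j : Fin 3) : lmo D₁ D₂ (σ (X i)) j ≤ B :=
  (le_td (lmo_mem T.H (aut_ne σ i)) j).trans (T.hB i)

theorem Ctx.deg_eq (T : Ctx D₁ D₂ N B ρ σ) (i : Fin 3) :
    deg (ρ (σ (X i))) = vN D₁ D₂ N (lmo D₁ D₂ (σ (X i))) :=
  T.R.deg_eq' T.H (aut_ne σ i) (by have := T.hB i; have := T.hN; omega)

theorem Ctx.deg_pos (_T : Ctx D₁ D₂ N B ρ σ) (i : Fin 3) : 0 < deg (ρ (σ (X i))) :=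
  aut_deg_pos (ρ * σ) i

theorem Ctx.lin (T : Ctx D₁ D₂ N B ρ σ) (i j k : Fin 3) {a b : ℕ}
    (h : (a : ℝ) * deg (ρ (σ (X i))) + b * deg (ρ (σ (X j))) = deg (ρ (σ (X k)))) :
    a * (lmo D₁ D₂ (σ (X i)) 0 + N * lmo D₁ D₂ (σ (X i)) 2) +
      b * (lmo D₁ D₂ (σ (X j)) 0 + N * lmo D₁ D₂ (σ (X j)) 2) =
      lmo D₁ D₂ (σ (X k)) 0 + N * lmo D₁ D₂ (σ (X k)) 2 ∧
    a * (lmo D₁ D₂ (σ (X i)) 1 + N ^ 2 * lmo D₁ D₂ (σ (X i)) 2) +
      b * (lmo D₁ D₂ (σ (X j)) 1 + N ^ 2 * lmo D₁ D₂ (σ (X j)) 2) =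
      lmo D₁ D₂ (σ (X k)) 1 + N ^ 2 * lmo D₁ D₂ (σ (X k)) 2 := by
  rw [T.deg_eq, T.deg_eq, T.deg_eq, vN_eq, vN_eq, vN_eq] at h
  apply T.H.indep
  push_cast at h ⊢
  linarith

theorem Ctx.lmo_ne (T : Ctx D₁ D₂ N B ρ σ) (i : Fin 3) : lmo D₁ D₂ (σ (X i)) 0 ≠ 0 ∨
    lmo D₁ D₂ (σ (X i)) 1 ≠ 0 ∨ lmo D₁ D₂ (σ (X i)) 2 ≠ 0 := by
  by_contra hc
  push Not at hc
  obtain ⟨h0, h1, h2⟩ := hc
  have := T.deg_pos i
  rw [T.deg_eq, vN, h0, h1, h2] at this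
  simp at this

theorem Ctx.exp_bd (T : Ctx D₁ D₂ N B ρ σ) {i j : Fin 3} (hij : i ≠ j) (k : Fin 3) {a b : ℕ}
    (h : (a : ℝ) * deg (ρ (σ (X i))) + b * deg (ρ (σ (X j))) = deg (ρ (σ (X k)))) :
    a ≤ B ∧ b ≤ B := by
  obtain ⟨h1, h2⟩ := T.lin i j k h
  rcases T.hIII i j hij with h3 | h3
  · have := AR1 T.hN (T.bd i 0) (T.bd i 1) (T.bd k 0) (T.bd k 1) (T.bd k 2) (T.bd j 1)
      (i := b) (j := a) (by rw [← h1]; ring) (by rw [← h2]; ring) (Nat.one_le_iff_ne_zero.2 h3)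
      (T.lmo_ne j)
    exact this.symm
  · exact AR1 T.hN (T.bd j 0) (T.bd j 1) (T.bd k 0) (T.bd k 1) (T.bd k 2) (T.bd i 1)
      h1 h2 (Nat.one_le_iff_ne_zero.2 h3) (T.lmo_ne i)

theorem Ctx.comm_ne (T : Ctx D₁ D₂ N B ρ σ) {i j : Fin 3} (hij : i ≠ j) {p q : ℕ} (hp : 0 < p)
    (h : (q : ℝ) * deg (ρ (σ (X i))) = p * deg (ρ (σ (X j)))) :
    lmo D₁ D₂ (σ (X i)) 2 ≠ 0 := by
  intro h0
  have hj : lmo D₁ D₂ (σ (X j)) 2 ≠ 0 := by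
    rcases T.hIII i j hij with h1 | h1
    · exact absurd h0 h1
    · exact h1
  rw [T.deg_eq, T.deg_eq, vN_eq, vN_eq] at h
  have h1 : ((q * (lmo D₁ D₂ (σ (X i)) 0 + N * lmo D₁ D₂ (σ (X i)) 2) : ℕ) : ℝ) * D₁ +
      ((q * (lmo D₁ D₂ (σ (X i)) 1 + N ^ 2 * lmo D₁ D₂ (σ (X i)) 2) : ℕ) : ℝ) * D₂ =
      ((p * (lmo D₁ D₂ (σ (X j)) 0 + N * lmo D₁ D₂ (σ (X j)) 2) : ℕ) : ℝ) * D₁ +
      ((p * (lmo D₁ D₂ (σ (X j)) 1 + N ^ 2 * lmo D₁ D₂ (σ (X j)) 2) : ℕ) : ℝ) * D₂ := by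
    push_cast at h ⊢
    linarith
  obtain ⟨h2, h3⟩ := T.H.indep h1
  rw [h0, mul_zero, add_zero] at h2 h3
  exact CM1 T.hN (T.bd i 0) (T.bd i 1) (T.bd j 0) hp h2 h3 (Nat.one_le_iff_ne_zero.2 hj)

theorem Ctx.D3_pos (T : Ctx D₁ D₂ N B ρ σ) : 0 < (N : ℝ) * D₁ + N ^ 2 * D₂ := by
  have h1 := T.H.h1
  have h2 := T.H.h2
  have h3 : 0 < N := by have := T.hN; omega
  have h4 : (0 : ℝ) < N := by exact_mod_cast h3
  positivity

theorem Ctx.le_deg (T : Ctx D₁ D₂ N B ρ σ) {i : Fin 3} (h : lmo D₁ D₂ (σ (X i)) 2 ≠ 0) :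
    (N : ℝ) * D₁ + N ^ 2 * D₂ ≤ deg (ρ (σ (X i))) := by
  rw [T.deg_eq, vN]
  have h1 := T.H.h1
  have h2 := T.H.h2
  have h3 := T.D3_pos
  have h4 := one_le_cast h
  have h5 : 1 * ((N : ℝ) * D₁ + N ^ 2 * D₂) ≤
      (lmo D₁ D₂ (σ (X i)) 2 : ℝ) * ((N : ℝ) * D₁ + N ^ 2 * D₂) :=
    mul_le_mul_of_nonneg_right h4 h3.le
  have h6 : 0 ≤ (lmo D₁ D₂ (σ (X i)) 0 : ℝ) * D₁ := by positivity
  have h7 : 0 ≤ (lmo D₁ D₂ (σ (X i)) 1 : ℝ) * D₂ := by positivity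
  linarith

theorem Ctx.deg_le (T : Ctx D₁ D₂ N B ρ σ) (i : Fin 3) :
    deg (ρ (σ (X i))) ≤ ((B : ℝ) + 1) * (N * D₁ + N ^ 2 * D₂) := by
  rw [T.deg_eq, vN]
  have h1 := T.H.h1
  have h2 := T.H.h2
  have h3 := T.D3_pos
  have h4 : (lmo D₁ D₂ (σ (X i)) 2 : ℝ) ≤ B := by exact_mod_cast T.bd i 2
  have h5 : (lmo D₁ D₂ (σ (X i)) 0 : ℝ) ≤ N := by
    have := T.bd i 0
    have h := T.hN
    have : lmo D₁ D₂ (σ (X i)) 0 ≤ N := by omega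
    exact_mod_cast this
  have h6 : (lmo D₁ D₂ (σ (X i)) 1 : ℝ) ≤ N ^ 2 := by
    have := T.bd i 1
    have h := T.hN
    have h7 : lmo D₁ D₂ (σ (X i)) 1 ≤ N := by omega
    have h8 : N ≤ N ^ 2 := Nat.le_self_pow two_ne_zero N
    exact_mod_cast h7.trans h8
  have h7 := mul_le_mul_of_nonneg_right h4 h3.le
  have h8 := mul_le_mul_of_nonneg_right h5 h1.le
  have h9 := mul_le_mul_of_nonneg_right h6 h2.le
  linarith

theorem Ctx.exp_le (T : Ctx D₁ D₂ N B ρ σ) (k : Fin 3) {a : ℕ} {x : ℝ}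
    (hx : (N : ℝ) * D₁ + N ^ 2 * D₂ ≤ x) (h : (a : ℝ) * x ≤ 6 * deg (ρ (σ (X k)))) :
    a ≤ 6 * (B + 1) := by
  have h1 := T.D3_pos
  have h2 := T.deg_le k
  have h3 : (a : ℝ) * (N * D₁ + N ^ 2 * D₂) ≤ a * x :=
    mul_le_mul_of_nonneg_left hx (Nat.cast_nonneg _)
  have h4 : (a : ℝ) * (N * D₁ + N ^ 2 * D₂) ≤ (6 * ((B : ℝ) + 1)) * (N * D₁ + N ^ 2 * D₂) := by
    linarith
  have h5 := le_of_mul_le_mul_right h4 h1
  exact_mod_cast h5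

/-- a reduction with bounded exponents -/
theorem Ctx.redEl [CharZero K] (T : Ctx D₁ D₂ N B ρ σ) {i j k : Fin 3} (hij : i ≠ j) (hik : i ≠ k)
    (hjk : j ≠ k) (hK : Kel (ρ (σ (X i))) (ρ (σ (X j))) (ρ (σ (X k))))
    (hr : RedG (ρ (σ (X i))) (ρ (σ (X j))) (ρ (σ (X k)))) :
    ∃ i' j' k' : Fin 3, i' ≠ j' ∧ i' ≠ k' ∧ j' ≠ k' ∧ ∃ Φ : MvPolynomial (Fin 2) K,
      (∀ s, coeff s Φ ≠ 0 → s 0 ≤ 6 * (B + 1) ∧ s 1 ≤ 6 * (B + 1)) ∧
      deg (ρ (ev (σ (X i')) (σ (X j')) Φ)) = deg (ρ (σ (X k'))) := by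
  have hmon : ∀ i j k : Fin 3, i ≠ j → ∀ a b : ℕ,
      (a : ℝ) * deg (ρ (σ (X i))) + b * deg (ρ (σ (X j))) = deg (ρ (σ (X k))) →
      ∃ Φ : MvPolynomial (Fin 2) K,
        (∀ s, coeff s Φ ≠ 0 → s 0 ≤ 6 * (B + 1) ∧ s 1 ≤ 6 * (B + 1)) ∧
        deg (ρ (ev (σ (X i)) (σ (X j)) Φ)) = deg (ρ (σ (X k))) := by
    intro i j k hij a b hab
    obtain ⟨ha, hb⟩ := T.exp_bd hij k hab
    refine ⟨monomial (ex2 a b) 1, ?_, ?_⟩
    · intro s hs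
      rw [coeff_monomial] at hs
      have : ex2 a b = s := by
        by_contra hc
        rw [if_neg hc] at hs
        exact hs rfl
      rw [← this, ex2_0, ex2_1]
      constructor <;> omega
    · rw [ev_monomial, C_1, one_mul, ex2_0, ex2_1, map_mul, map_pow, map_pow,
        deg_mul (pow_ne_zero _ (ne_zero_of_deg_pos (T.deg_pos i)))
          (pow_ne_zero _ (ne_zero_of_deg_pos (T.deg_pos j))),
        deg_pow _ (ne_zero_of_deg_pos (T.deg_pos i)),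
        deg_pow _ (ne_zero_of_deg_pos (T.deg_pos j)), hab]
  obtain ⟨h', hE, hlt, hG⟩ := hr
  obtain ⟨x, hx, hdx⟩ := hE.val hlt
  rcases val (T.deg_pos i) (T.deg_pos j) hK.rot'.V_pos hx (by rw [hdx]; exact T.deg_pos k) with
    ⟨a, b, hab⟩ | ⟨p, q, δ, hp, hq, hpq, hδ, h1, h2, h3⟩
  · rw [hdx] at hab
    exact ⟨i, j, k, hij, hik, hjk, hmon i j k hij a b hab⟩
  rcases Nat.lt_or_ge p 2 with hp2 | hp2
  · have hp1 : p = 1 := by omega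
    subst hp1
    refine ⟨i, k, j, hik, hij, hjk.symm, hmon i k j hik q 0 ?_⟩
    rw [h2, h1]; push_cast; ring
  rcases Nat.lt_or_ge q 2 with hq2 | hq2
  · have hq1 : q = 1 := by omega
    subst hq1
    refine ⟨j, k, i, hjk, hij.symm, hik.symm, hmon j k i hjk p 0 ?_⟩
    rw [h2, h1]; push_cast; ring
  obtain ⟨Φ, hΦ, HW⟩ := h3 hp2 hq2
  have hni : lmo D₁ D₂ (σ (X i)) 2 ≠ 0 := T.comm_ne hij hp (q := q) (by rw [h1, h2]; ring)
  have hnj : lmo D₁ D₂ (σ (X j)) 2 ≠ 0 := T.comm_ne hij.symm hq (q := p) (by rw [h1, h2]; ring)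
  refine ⟨i, j, k, hij, hik, hjk, Φ, ?_, ?_⟩
  · intro s hs
    have h4 := HW.n4 s hs
    rw [hΦ, hdx, fw] at h4
    have h5 : 0 ≤ (s 0 : ℝ) * deg (ρ (σ (X i))) :=
      mul_nonneg (Nat.cast_nonneg _) (deg_nonneg _)
    have h6 : 0 ≤ (s 1 : ℝ) * deg (ρ (σ (X j))) :=
      mul_nonneg (Nat.cast_nonneg _) (deg_nonneg _)
    exact ⟨T.exp_le k (T.le_deg hni) (by linarith), T.exp_le k (T.le_deg hnj) (by linarith)⟩
  · rw [map_ev, hΦ, hdx]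

/-- the conclusion of the main step -/
def Concl (B : ℕ) (ρ σ : A K ≃ₐ[K] A K) : Prop :=
  ∃ τ ∈ TAut 3 K, (∀ i, ((σ * τ) (X i)).totalDegree ≤ 18 * B * (B + 1) + 2 * B) ∧
    ∑ i, deg (ρ ((σ * τ) (X i))) < ∑ i, deg (ρ (σ (X i)))

theorem concl_of_red (hB : ∀ i, (σ (X i)).totalDegree ≤ B) {i j k : Fin 3} (hij : i ≠ j)
    (hik : i ≠ k) (hjk : j ≠ k) {Φ : MvPolynomial (Fin 2) K}
    (hΦ : ∀ s, coeff s Φ ≠ 0 → s 0 ≤ 6 * (B + 1) ∧ s 1 ≤ 6 * (B + 1))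
    (hd : deg (ρ (ev (σ (X i)) (σ (X j)) Φ)) = deg (ρ (σ (X k)))) : Concl B ρ σ := by
  obtain ⟨c, hc, hlt⟩ := exists_cancel (aut_deg_pos (ρ * σ) k) hd.symm
  have hlt : deg (ρ (σ (X k)) - c • ρ (ev (σ (X i)) (σ (X j)) Φ)) < deg (ρ (σ (X k))) := hlt
  obtain ⟨τ, hτ, hτk, hτj⟩ := exists_elem k i j hik hjk (c := (1 : K)) one_ne_zero (C (-c) * Φ)
  have ek : (σ * τ) (X k) = σ (X k) - c • ev (σ (X i)) (σ (X j)) Φ := by
    rw [AlgEquiv.mul_apply, hτk, one_smul, map_add, map_ev, map_mul, ev_C, C_neg, smul_eq_C_mul]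
    ring
  have ej : ∀ l, l ≠ k → (σ * τ) (X l) = σ (X l) := by
    intro l hl
    rw [AlgEquiv.mul_apply, hτj l hl]
  refine ⟨τ, hτ, ?_, ?_⟩
  · intro l
    by_cases hl : l = k
    · subst hl
      rw [ek]
      refine (totalDegree_sub _ _).trans (max_le ?_ ?_)
      · have := hB l
        nlinarith
      · refine (totalDegree_smul_le _ _).trans ((td_ev (hB i) (hB j) hΦ).trans ?_)
        nlinarith
    · rw [ej l hl]
      have := hB l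
      nlinarith
  · rw [sum_perm hij hik hjk, sum_perm hij hik hjk, ej i hik, ej j hjk, ek, map_sub, map_smul]
    linarith

theorem Ctx.concl_of_su [CharZero K] (T : Ctx D₁ D₂ N B ρ σ) {f g h : Fin 3} (hfg : f ≠ g)
    (hfh : f ≠ h) (hgh : g ≠ h)
    (hs : SUG (ρ (σ (X f))) (ρ (σ (X g))) (ρ (σ (X h)))) : Concl B ρ σ := by
  obtain ⟨k₁, k₂, k₃, s, δ, a, b, c, x, S, hG, P, hδ, q1, q2, q3, q4, q5, q6, q7⟩ := hs.data
  have hng : lmo D₁ D₂ (σ (X g)) 2 ≠ 0 := by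
    rcases P.top with p1 | ⟨p1, p2, p3, p4, p5⟩
    · refine T.comm_ne hfg.symm (i := g) (j := f) (p := 2) (q := s) (by norm_num) ?_
      rw [q1, p1]; push_cast; ring
    · refine T.comm_ne hgh (i := g) (j := h) (p := 4) (q := 3) (by norm_num) ?_
      push_cast
      linarith
  have hDg := T.le_deg hng
  obtain ⟨τ₁, hτ₁, hτ₁f, hτ₁j⟩ := exists_elem f g h hfg.symm hfh.symm (c := (1 : K)) one_ne_zero
    (C a * X 1 ^ 2 + C c * X 1)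
  obtain ⟨τ₂, hτ₂, hτ₂g, hτ₂j⟩ := exists_elem g f h hfg hgh.symm (c := (1 : K)) one_ne_zero
    (C b * X 1)
  set F₁ : A K := σ (X f) + a • σ (X h) ^ 2 + c • σ (X h) with hF₁
  set F₂ : A K := σ (X g) + b • σ (X h) with hF₂
  have hk₁ : ρ F₁ = k₁ := by
    rw [S.h1, hF₁, map_add, map_add, map_smul, map_smul, map_pow]
  have hk₂ : ρ F₂ = k₂ := by
    rw [S.h2, hF₂, map_add, map_smul]
  have hk₁0 : 0 < deg k₁ := by rw [S.d1]; linarith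
  have hk₂0 : 0 < deg k₂ := by rw [S.d2]; linarith
  have hdh : deg (ρ (σ (X h)) - k₃) = deg (ρ (σ (X h))) := deg_sub_eq_left S.d3
  obtain ⟨Φ, hΦ, HW⟩ : ∃ Φ, ev k₁ k₂ Φ = ρ (σ (X h)) - k₃ ∧
      ∀ s, coeff s Φ ≠ 0 → fw k₁ k₂ s ≤ 6 * deg (ρ (σ (X h))) := by
    rcases val hk₁0 hk₂0 hG.kel.rot'.V_pos S.h3 (by rw [hdh]; exact T.deg_pos h) with ⟨i, j, hij⟩ |
      ⟨p, q, ε, hp, hq, hpq, hε, h1, h2, h3⟩
    · exfalso
      rw [hdh, S.d1, S.d2] at hij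
      have h3 := S.e3
      rcases nat_eq_zero_or_one_le i with hi | hi
      · apply S.e3' j
        rw [hi] at hij
        linarith
      · have h5 : (s * δ : ℝ) ≤ i * (s * δ) := by nlinarith
        have h6 : 0 ≤ (j : ℝ) * (2 * δ) := by positivity
        linarith
    · have hcop : s.Coprime 2 := by
        rw [Nat.coprime_two_right, Nat.odd_iff]
        exact S.hodd
      obtain ⟨rfl, rfl⟩ := pq_eq hε hpq hcop h1 h2 (by rw [S.d1, S.d2]; push_cast; ring)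
      obtain ⟨Φ, hΦ, HW⟩ := h3 (by omega) le_rfl
      refine ⟨Φ, hΦ, fun t ht => ?_⟩
      have := HW.n4 t ht
      rwa [hΦ, hdh] at this
  obtain ⟨τ₃, hτ₃, hτ₃h, hτ₃j⟩ := exists_elem h f g hfh hgh (c := (1 : K)) one_ne_zero
    (C (-1) * Φ)
  have hbΦ : ∀ t, coeff t Φ ≠ 0 → t 0 ≤ 6 * (B + 1) ∧ t 1 ≤ 6 * (B + 1) := by
    intro t ht
    have h4 := HW t ht
    rw [fw] at h4
    have h5 : 0 ≤ (t 0 : ℝ) * deg k₁ := mul_nonneg (Nat.cast_nonneg _) (deg_nonneg _)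
    have h6 : 0 ≤ (t 1 : ℝ) * deg k₂ := mul_nonneg (Nat.cast_nonneg _) (deg_nonneg _)
    have h7 : (N : ℝ) * D₁ + N ^ 2 * D₂ ≤ deg k₂ := by rw [S.d2]; linarith
    have h8 : (N : ℝ) * D₁ + N ^ 2 * D₂ ≤ deg k₁ := by rw [S.d1]; linarith
    exact ⟨T.exp_le h h8 (by linarith), T.exp_le h h7 (by linarith)⟩
  have ef : (σ * (τ₁ * τ₂ * τ₃)) (X f) = F₁ := by
    rw [AlgEquiv.mul_apply, AlgEquiv.mul_apply, AlgEquiv.mul_apply, hτ₃j f hfh, hτ₂j f hfg, hτ₁f,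
      one_smul, map_add, map_ev, map_add, map_mul, map_mul, map_pow, ev_C, ev_C, ev_X1, hF₁,
      smul_eq_C_mul, smul_eq_C_mul, add_assoc]
  have eg : (σ * (τ₁ * τ₂ * τ₃)) (X g) = F₂ := by
    rw [AlgEquiv.mul_apply, AlgEquiv.mul_apply, AlgEquiv.mul_apply, hτ₃j g hgh, hτ₂g,
      one_smul, map_add, map_ev, map_mul, ev_C, ev_X1, hτ₁j g hfg.symm, hτ₁j h hfh.symm, map_add,
      map_mul, hF₂, smul_eq_C_mul]
    congr 2
    rw [← algebraMap_eq]; exact σ.commutes b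
  have eh : (σ * (τ₁ * τ₂ * τ₃)) (X h) = σ (X h) - ev F₁ F₂ Φ := by
    have e1 : (σ * (τ₁ * τ₂)) (X f) = F₁ := by
      have e0 : (σ * (τ₁ * τ₂ * τ₃)) (X f) = (σ * (τ₁ * τ₂)) (τ₃ (X f)) := rfl
      rw [← ef, e0, hτ₃j f hfh]
    have e2 : (σ * (τ₁ * τ₂)) (X g) = F₂ := by
      have e0 : (σ * (τ₁ * τ₂ * τ₃)) (X g) = (σ * (τ₁ * τ₂)) (τ₃ (X g)) := rfl
      rw [← eg, e0, hτ₃j g hgh]
    have e3 : (σ * (τ₁ * τ₂)) (X h) = σ (X h) := by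
      rw [AlgEquiv.mul_apply, AlgEquiv.mul_apply, hτ₂j h hgh.symm, hτ₁j h hfh.symm]
    have e4 : (σ * (τ₁ * τ₂ * τ₃)) (X h) = (σ * (τ₁ * τ₂)) (τ₃ (X h)) := rfl
    rw [e4, hτ₃h, one_smul, map_add, e3, map_ev, e1, e2, map_mul, ev_C, C_neg, C_1]
    ring
  refine ⟨τ₁ * τ₂ * τ₃, Subgroup.mul_mem _ (Subgroup.mul_mem _ hτ₁ hτ₂) hτ₃, ?_, ?_⟩
  · have t1 : F₁.totalDegree ≤ 2 * B := by
      rw [hF₁]
      refine (totalDegree_add _ _).trans (max_le ((totalDegree_add _ _).trans (max_le ?_ ?_)) ?_)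
      · have := T.hB f; omega
      · refine (totalDegree_smul_le _ _).trans ((totalDegree_pow _ _).trans ?_)
        exact Nat.mul_le_mul_left _ (T.hB h)
      · refine (totalDegree_smul_le _ _).trans ?_
        have := T.hB h; omega
    have t2 : F₂.totalDegree ≤ B := by
      rw [hF₂]
      refine (totalDegree_add _ _).trans (max_le (T.hB g) ?_)
      exact (totalDegree_smul_le _ _).trans (T.hB h)
    intro l
    rcases fin3_cases hfg hfh hgh l with rfl | rfl | rfl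
    · rw [ef]; nlinarith
    · rw [eg]; nlinarith
    · rw [eh]
      refine (totalDegree_sub _ _).trans (max_le ?_ ?_)
      · have := T.hB l
        nlinarith
      · refine (td_ev t1 t2 hbΦ).trans ?_
        nlinarith
  · have hsum := S.sum_lt hG.kel
    rw [sum_perm hfg hfh hgh, sum_perm hfg hfh hgh, ef, eg, eh, map_sub, map_ev, hk₁, hk₂, hΦ,
      sub_sub_cancel]
    exact hsum

theorem Ctx.main [CharZero K] (T : Ctx D₁ D₂ N B ρ σ) (hW : W < N * D₁ + N ^ 2 * D₂)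
    (hG : GV (tr (ρ * σ))) : Concl B ρ σ := by
  have hG' : Good (ρ (σ (X 0))) (ρ (σ (X 1))) (ρ (σ (X 2))) := hG
  have hK := hG'.kel
  have hred : ∀ i j k : Fin 3, i ≠ j → i ≠ k → j ≠ k →
      Kel (ρ (σ (X i))) (ρ (σ (X j))) (ρ (σ (X k))) →
      RedG (ρ (σ (X i))) (ρ (σ (X j))) (ρ (σ (X k))) → Concl B ρ σ := by
    intro i j k hij hik hjk hK hr
    obtain ⟨i', j', k', h1, h2, h3, Φ, h4, h5⟩ := T.redEl hij hik hjk hK hr
    exact concl_of_red T.hB h1 h2 h3 h4 h5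
  rcases hG'.inv with hb | (hr | hr | hr) | (hs | hs | hs | hs | hs | hs)
  · exfalso
    have e0 := T.deg_pos 0
    have e1 := T.deg_pos 1
    have e2 := T.deg_pos 2
    rcases T.hIII 0 1 (by decide) with h | h
    · have := T.le_deg h
      linarith
    · have := T.le_deg h
      linarith
  · exact hred 0 1 2 (by decide) (by decide) (by decide) hK hr
  · exact hred 1 2 0 (by decide) (by decide) (by decide) hK.rot hr
  · exact hred 2 0 1 (by decide) (by decide) (by decide) hK.rot' hr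
  · exact T.concl_of_su (f := 0) (g := 1) (h := 2) (by decide) (by decide) (by decide) hs
  · exact T.concl_of_su (f := 0) (g := 2) (h := 1) (by decide) (by decide) (by decide) hs
  · exact T.concl_of_su (f := 1) (g := 0) (h := 2) (by decide) (by decide) (by decide) hs
  · exact T.concl_of_su (f := 1) (g := 2) (h := 0) (by decide) (by decide) (by decide) hs
  · exact T.concl_of_su (f := 2) (g := 0) (h := 1) (by decide) (by decide) (by decide) hs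
  · exact T.concl_of_su (f := 2) (g := 1) (h := 0) (by decide) (by decide) (by decide) hs

end

end Pool.Agent.Helper555_TN
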