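import Mathlib
import Pool.Agent.Helper555_TN.StepM

set_option autoImplicit false

/-!
# Jacobian determinants of automorphisms
-/

open MvPolynomial

namespace Pool.Agent.Helper555_TN

variable {K : Type*} [Field K]

/-- the Jacobian determinant -/
noncomputable def jac3 (f g h : A K) : A K :=
  pderiv 0 f * (pderiv 1 g * pderiv 2 h - pderiv 2 g * pderiv 1 h) -
  pderiv 1 f * (pderiv 0 g * pderiv 2 h - pderiv 2 g * pderiv 0 h) +
  pderiv 2 f * (pderiv 0 g * pderiv 1 h - pderiv 1 g * pderiv 0 h)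

theorem pderiv_map (σ : A K ≃ₐ[K] A K) (i : Fin 3) (h : A K) :
    pderiv i (σ h) = σ (pderiv 0 h) * pderiv i (σ (X 0)) + σ (pderiv 1 h) * pderiv i (σ (X 1)) +
      σ (pderiv 2 h) * pderiv i (σ (X 2)) := by
  induction h using MvPolynomial.induction_on with
  | C a =>
    have : σ (C a) = C a := by rw [← algebraMap_eq]; exact σ.commutes a
    rw [this]
    simp
  | add p q hp hq => simp only [map_add, hp, hq]; ring
  | mul_X p j hp =>
    rw [map_mul, Derivation.leibniz, hp]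
    fin_cases j
    · simp [pderiv_X, Derivation.leibniz]
      ring
    · simp [pderiv_X, Derivation.leibniz]
      ring
    · simp [pderiv_X, Derivation.leibniz]
      ring

theorem jac3_map (σ : A K ≃ₐ[K] A K) (f g h : A K) :
    jac3 (σ f) (σ g) (σ h) = σ (jac3 f g h) * jac3 (σ (X 0)) (σ (X 1)) (σ (X 2)) := by
  simp only [jac3, pderiv_map σ 0 f, pderiv_map σ 1 f, pderiv_map σ 2 f, pderiv_map σ 0 g,
    pderiv_map σ 1 g, pderiv_map σ 2 g, pderiv_map σ 0 h, pderiv_map σ 1 h, pderiv_map σ 2 h,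
    map_add, map_sub, map_mul]
  ring

theorem jac3_unit (σ : A K ≃ₐ[K] A K) :
    ∃ c : K, c ≠ 0 ∧ jac3 (σ (X 0)) (σ (X 1)) (σ (X 2)) = C c := by
  have h1 := jac3_map σ (σ⁻¹ (X 0)) (σ⁻¹ (X 1)) (σ⁻¹ (X 2))
  have h2 : ∀ x, σ (σ⁻¹ x) = x := fun x => σ.apply_symm_apply x
  rw [h2, h2, h2] at h1
  have h3 : jac3 (X 0 : A K) (X 1) (X 2) = 1 := by
    simp [jac3, pderiv_X]
  rw [h3] at h1
  have h4 : IsUnit (jac3 (σ (X 0)) (σ (X 1)) (σ (X 2))) := IsUnit.of_mul_eq_one_right _ h1.symm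
  rw [isUnit_iff_eq_C_of_isReduced] at h4
  obtain ⟨r, hr, h5⟩ := h4
  exact ⟨r, hr.ne_zero, h5⟩

theorem jac3_unit' (σ : A K ≃ₐ[K] A K) {i j k : Fin 3} (hij : i ≠ j) (hik : i ≠ k) (hjk : j ≠ k) :
    ∃ c : K, c ≠ 0 ∧ jac3 (σ (X i)) (σ (X j)) (σ (X k)) = C c := by
  obtain ⟨c, hc, h⟩ := jac3_unit σ
  have : jac3 (σ (X i)) (σ (X j)) (σ (X k)) = jac3 (σ (X 0)) (σ (X 1)) (σ (X 2)) ∨
      jac3 (σ (X i)) (σ (X j)) (σ (X k)) = - jac3 (σ (X 0)) (σ (X 1)) (σ (X 2)) := by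
    fin_cases i <;> fin_cases j <;> fin_cases k <;>
      first
      | exact absurd rfl hij
      | exact absurd rfl hik
      | exact absurd rfl hjk
      | (left; simp only [Fin.zero_eta, Fin.mk_one, Fin.reduceFinMk]; done)
      | (left; simp only [jac3, Fin.zero_eta, Fin.mk_one, Fin.reduceFinMk]; ring1)
      | (right; simp only [jac3, Fin.zero_eta, Fin.mk_one, Fin.reduceFinMk]; ring1)
  rcases this with h1 | h1
  · exact ⟨c, hc, h1.trans h⟩
  · exact ⟨-c, neg_ne_zero.2 hc, by rw [h1, h, C_neg]⟩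

theorem mem_of_supp {S : Subalgebra K (A K)} {h : A K}
    (H : ∀ t, coeff t h ≠ 0 → ∀ i, t i ≠ 0 → X i ∈ S) : h ∈ S := by
  rw [h.as_sum]
  apply Subalgebra.sum_mem
  intro t ht
  rw [monomial_eq, Finsupp.prod_fintype _ _ (by simp)]
  apply Subalgebra.mul_mem _ (Subalgebra.algebraMap_mem _ _)
  apply Subalgebra.prod_mem
  intro i _
  by_cases hi : t i = 0
  · rw [hi, pow_zero]
    exact Subalgebra.one_mem _
  · exact Subalgebra.pow_mem _ (H t (mem_support_iff.1 ht) i hi) _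

theorem pderiv2_eq_zero {h : A K} (H : ∀ t, coeff t h ≠ 0 → t 2 = 0) : pderiv 2 h = 0 := by
  apply pderiv_eq_zero_of_notMem_vars
  intro h1
  rw [mem_vars_iff_mem_support] at h1
  obtain ⟨t, ht, h2⟩ := h1
  rw [Finsupp.mem_support_iff] at h2
  exact h2 (H t (mem_support_iff.1 ht))

theorem no2_of_pderiv [CharZero K] {h : A K} (H : pderiv 2 h = 0) : ∀ t, coeff t h ≠ 0 → t 2 = 0 := by
  intro t ht
  have h1 := coeff_th 2 h t
  rw [th_apply, H, mul_zero, coeff_zero] at h1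
  have h2 := h1.symm
  rw [mul_eq_zero] at h2
  rcases h2 with h2 | h2
  · exact_mod_cast h2
  · exact absurd h2 ht

theorem homEv {B : Type*} [CommRing B] [Algebra K B] (F : A K →ₐ[K] B) (f g : A K)
    (Φ : MvPolynomial (Fin 2) K) : F (ev f g Φ) = aeval ![F f, F g] Φ := by
  have : F.comp (ev f g) = aeval ![F f, F g] := by
    apply algHom_ext
    intro t
    fin_cases t <;> simp
  exact congrArg (fun T => T Φ) this

theorem homEv' (F : A K →ₐ[K] A K) (f g : A K)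
    (Φ : MvPolynomial (Fin 2) K) : F (ev f g Φ) = ev (F f) (F g) Φ := homEv F f g Φ

theorem ev01_of_no2 {h : A K} (H : ∀ t, coeff t h ≠ 0 → t 2 = 0) :
    ∃ Φ, ev (X 0) (X 1) Φ = h := by
  apply exists_ev
  apply mem_of_supp
  intro t ht i hi
  fin_cases i
  · exact left_mem _ _
  · exact right_mem _ _
  · exact absurd (H t ht) hi

/-- the structure of an automorphism with two images in two variables -/
theorem two_struct [CharZero K] (σ : A K ≃ₐ[K] A K) {i j k : Fin 3} (hij : i ≠ j) (hik : i ≠ k)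
    (hjk : j ≠ k) (hi : ∀ t, coeff t (σ (X i)) ≠ 0 → t 2 = 0)
    (hj : ∀ t, coeff t (σ (X j)) ≠ 0 → t 2 = 0) :
    (∃ (c : K) (Φ : MvPolynomial (Fin 2) K), c ≠ 0 ∧ σ (X k) = c • X 2 + ev (X 0) (X 1) Φ) ∧
    X 0 ∈ Sb (σ (X i)) (σ (X j)) ∧ X 1 ∈ Sb (σ (X i)) (σ (X j)) := by
  obtain ⟨c, hc, h1⟩ := jac3_unit' σ hij hik hjk
  have h2 : jac3 (σ (X i)) (σ (X j)) (σ (X k)) = (pderiv 0 (σ (X i)) * pderiv 1 (σ (X j)) -
      pderiv 1 (σ (X i)) * pderiv 0 (σ (X j))) * pderiv 2 (σ (X k)) := by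
    rw [jac3, pderiv2_eq_zero hi, pderiv2_eq_zero hj]; ring
  rw [h2] at h1
  have h3 : IsUnit (pderiv 2 (σ (X k))) := by
    apply isUnit_of_mul_isUnit_right (x := pderiv 0 (σ (X i)) * pderiv 1 (σ (X j)) -
      pderiv 1 (σ (X i)) * pderiv 0 (σ (X j)))
    rw [h1]
    exact (isUnit_iff_ne_zero.2 hc).map C
  rw [isUnit_iff_eq_C_of_isReduced] at h3
  obtain ⟨r, hr, h4⟩ := h3
  have hr0 : r ≠ 0 := hr.ne_zero
  have h5 : pderiv 2 (σ (X k) - r • X 2) = 0 := by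
    rw [map_sub, Derivation.map_smul, h4, pderiv_X_self, smul_eq_C_mul, mul_one, sub_self]
  obtain ⟨Φ, hΦ⟩ := ev01_of_no2 (no2_of_pderiv h5)
  have h6 : σ (X k) = r • X 2 + ev (X 0) (X 1) Φ := by rw [hΦ]; abel
  refine ⟨⟨r, Φ, hr0, h6⟩, ?_⟩
  let θ : A K →ₐ[K] A K := aeval ![X 0, X 1, - r⁻¹ • ev (X 0) (X 1) Φ]
  have θ0 : θ (X 0) = X 0 := by simp [θ]
  have θ1 : θ (X 1) = X 1 := by simp [θ]
  have θ2 : θ (X 2) = - r⁻¹ • ev (X 0) (X 1) Φ := by simp [θ]
  have θev : ∀ Ψ, θ (ev (X 0) (X 1) Ψ) = ev (X 0) (X 1) Ψ := by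
    intro Ψ
    rw [homEv', θ0, θ1]
  have θi : θ (σ (X i)) = σ (X i) := by
    obtain ⟨Ψ, hΨ⟩ := ev01_of_no2 hi
    rw [← hΨ, θev]
  have θj : θ (σ (X j)) = σ (X j) := by
    obtain ⟨Ψ, hΨ⟩ := ev01_of_no2 hj
    rw [← hΨ, θev]
  have θk : θ (σ (X k)) = 0 := by
    rw [h6, map_add, map_smul, θ2, θev, smul_smul, mul_neg, mul_inv_cancel₀ hr0, neg_smul, one_smul,
      neg_add_cancel]
  have key : ∀ x, θ (σ x) ∈ Sb (σ (X i)) (σ (X j)) := by
    intro x
    induction x using MvPolynomial.induction_on with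
    | C a =>
      have : σ (C a) = C a := by rw [← algebraMap_eq]; exact σ.commutes a
      rw [this, ← algebraMap_eq, AlgHom.commutes]
      exact Subalgebra.algebraMap_mem _ _
    | add p q hp hq => rw [map_add, map_add]; exact Subalgebra.add_mem _ hp hq
    | mul_X p l hp =>
      rw [map_mul, map_mul]
      apply Subalgebra.mul_mem _ hp
      rcases fin3_cases hij hik hjk l with rfl | rfl | rfl
      · rw [θi]; exact left_mem _ _
      · rw [θj]; exact right_mem _ _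
      · rw [θk]; exact Subalgebra.zero_mem _
  constructor
  · have := key (σ⁻¹ (X 0))
    have h7 : σ (σ⁻¹ (X 0)) = X 0 := σ.apply_symm_apply _
    rwa [h7, θ0] at this
  · have := key (σ⁻¹ (X 1))
    have h7 : σ (σ⁻¹ (X 1)) = X 1 := σ.apply_symm_apply _
    rwa [h7, θ1] at this

end Pool.Agent.Helper555_TN
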