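import Mathlib
import Pool.Agent.Helper555_TN.Jac

set_option autoImplicit false

/-!
# Automorphisms with two images in two variables
-/

open MvPolynomial

namespace Pool.Agent.Helper555_TN

variable {K : Type*} [Field K]

theorem perm_tame (φ : A K ≃ₐ[K] A K) {i j k a b c : Fin 3} (hij : i ≠ j) (hik : i ≠ k)
    (hjk : j ≠ k) (_hab : a ≠ b) (_hac : a ≠ c) (_hbc : b ≠ c) (hi : φ (X i) = X a)
    (hj : φ (X j) = X b) (hk : φ (X k) = X c) : φ ∈ TAut 3 K := by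
  classical
  have hf : ∃ f : Fin 3 → Fin 3, ∀ l, φ (X l) = X (f l) := by
    refine ⟨fun l => if l = i then a else if l = j then b else c, fun l => ?_⟩
    rcases fin3_cases hij hik hjk l with rfl | rfl | rfl
    · simpa using hi
    · simpa [hij.symm] using hj
    · simpa [hik.symm, hjk.symm] using hk
  obtain ⟨f, hf⟩ := hf
  have hinj : Function.Injective f := by
    intro l m hlm
    have : φ (X l) = φ (X m) := by rw [hf, hf, hlm]
    exact X_injective (φ.injective this)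
  let π : Equiv.Perm (Fin 3) := Equiv.ofBijective f (Finite.injective_iff_bijective.1 hinj)
  apply Subgroup.subset_closure
  left
  refine ⟨π.permMatrix K, 0, ?_, ?_⟩
  · rw [Matrix.det_permutation]
    rcases Int.units_eq_one_or (Equiv.Perm.sign π) with h | h <;> rw [h] <;> simp
  · intro l
    rw [hf, Finset.sum_eq_single (f l)]
    · have : (π.permMatrix K) l (f l) = 1 := by
        simp [PEquiv.toMatrix_apply, Equiv.toPEquiv_apply, π]
      rw [this]; simp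
    · intro m _ hm
      have : (π.permMatrix K) l m = 0 := by
        simp only [PEquiv.toMatrix_apply, Equiv.toPEquiv_apply, π, Equiv.ofBijective_apply,
          Option.mem_some_iff]
        rw [if_neg (fun h => hm h.symm)]
      rw [this]; simp
    · simp

theorem eC (σ : A K ≃ₐ[K] A K) (c : K) : σ (C c) = C c := by
  rw [← algebraMap_eq]; exact σ.commutes c

/-- triangular automorphisms are tame -/
theorem tri_tame (σ : A K ≃ₐ[K] A K) {i j k a b : Fin 3} (hij : i ≠ j) (hik : i ≠ k)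
    (hjk : j ≠ k) (hab : a ≠ b) (ha2 : a ≠ 2) (hb2 : b ≠ 2) {c₁ c₂ c₃ e : K}
    {Φ₁ Φ₂ : MvPolynomial (Fin 2) K}
    (hc₁ : c₁ ≠ 0) (hc₂ : c₂ ≠ 0) (hc₃ : c₃ ≠ 0)
    (hi : σ (X i) = c₁ • X a + ev (X b) (X b) Φ₁) (hj : σ (X j) = c₂ • X b + C e)
    (hk : σ (X k) = c₃ • X 2 + ev (X a) (X b) Φ₂) : σ ∈ TAut 3 K := by
  obtain ⟨l₁, t₁, l₁2, l₁j⟩ := exists_elem 2 a b ha2 hb2 (inv_ne_zero hc₃) (C (-c₃⁻¹) * Φ₂)
  obtain ⟨l₂, t₂, l₂a, l₂j⟩ := exists_elem a b b hab.symm hab.symm (inv_ne_zero hc₁)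
    (C (-c₁⁻¹) * Φ₁)
  obtain ⟨l₃, t₃, l₃b, l₃j⟩ := exists_elem b a a hab hab (inv_ne_zero hc₂)
    (C (-(c₂⁻¹ * e)))
  have hmul : l₃ * (l₂ * (l₁ * σ)) ∈ TAut 3 K := by
    apply perm_tame _ hij hik hjk hab ha2 hb2
    · have e1 : (l₃ * (l₂ * (l₁ * σ))) (X i) = l₃ (l₂ (l₁ (σ (X i)))) := rfl
      rw [e1, hi, map_add, map_smul, map_ev, l₁j a ha2, l₁j b hb2, map_add, map_smul, map_ev,
        l₂a, l₂j b hab.symm, map_mul, ev_C, smul_add, smul_smul, mul_inv_cancel₀ hc₁, one_smul,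
        ← smul_eq_C_mul, smul_smul, mul_neg, mul_inv_cancel₀ hc₁, neg_smul, one_smul,
        neg_add_cancel_right, l₃j a hab]
    · have e1 : (l₃ * (l₂ * (l₁ * σ))) (X j) = l₃ (l₂ (l₁ (σ (X j)))) := rfl
      rw [e1, hj, map_add, map_smul, eC, l₁j b hb2, map_add, map_smul, eC, l₂j b hab.symm, map_add,
        map_smul, eC, l₃b, ev_C, smul_add, smul_smul, mul_inv_cancel₀ hc₂, one_smul, smul_eq_C_mul,
        ← C_mul, mul_neg, ← mul_assoc, mul_inv_cancel₀ hc₂, one_mul, C_neg, neg_add_cancel_right]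
    · have e1 : (l₃ * (l₂ * (l₁ * σ))) (X k) = l₃ (l₂ (l₁ (σ (X k)))) := rfl
      rw [e1, hk, map_add, map_smul, map_ev, l₁2, l₁j b hb2, l₁j a ha2, map_mul, ev_C, smul_add,
        smul_smul, mul_inv_cancel₀ hc₃, one_smul, ← smul_eq_C_mul, smul_smul, mul_neg,
        mul_inv_cancel₀ hc₃, neg_smul, one_smul, neg_add_cancel_right, l₂j 2 ha2.symm,
        l₃j 2 hb2.symm]
  have h1 := (Subgroup.mul_mem_cancel_left _ t₃).1 hmul
  have h2 := (Subgroup.mul_mem_cancel_left _ t₂).1 h1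
  exact (Subgroup.mul_mem_cancel_left _ t₁).1 h2

theorem M_ev_ev (l m : Fin 3) (f g : A K) (Φ Ψ : MvPolynomial (Fin 2) K) :
    M l m (ev f g Φ) (ev f g Ψ) = (ev f g (pderiv 0 Φ) * ev f g (pderiv 1 Ψ) -
      ev f g (pderiv 1 Φ) * ev f g (pderiv 0 Ψ)) * M l m f g := by
  simp only [M, der_ev]; ring

theorem V_ev_ge (f g : A K) (Φ Ψ : MvPolynomial (Fin 2) K) (hfg : 0 < V f g)
    (h : 0 < V (ev f g Φ) (ev f g Ψ)) : V f g ≤ V (ev f g Φ) (ev f g Ψ) := by
  obtain ⟨l, m, hlm⟩ := exists_V f g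
  have h1 := le_V l m (ev f g Φ) (ev f g Ψ)
  rw [M_ev_ev] at h1
  set J := ev f g (pderiv 0 Φ) * ev f g (pderiv 1 Ψ) -
      ev f g (pderiv 1 Φ) * ev f g (pderiv 0 Ψ) with hJ
  have hJ0 : J ≠ 0 := by
    intro h0
    obtain ⟨l', m', h2⟩ := exists_V (ev f g Φ) (ev f g Ψ)
    rw [M_ev_ev, ← hJ, h0, zero_mul, deg_zero] at h2
    linarith
  have hM : M l m f g ≠ 0 := ne_zero_of_deg_pos (by rw [hlm]; exact hfg)
  rw [deg_mul hJ0 hM, hlm] at h1
  have := deg_nonneg J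
  linarith

section

variable {D₁ D₂ : ℝ} {N B : ℕ} {ρ σ : A K ≃ₐ[K] A K}

/-- the final triangular case -/
theorem fin_tri (H : Inc D₁ D₂) {i j k : Fin 3} (hij : i ≠ j) (hik : i ≠ k)
    (hjk : j ≠ k) (hi : lmo D₁ D₂ (σ (X i)) = Finsupp.single 0 1)
    (hj : lmo D₁ D₂ (σ (X j)) = Finsupp.single 1 1)
    (hk : ∃ (c : K) (Φ : MvPolynomial (Fin 2) K), c ≠ 0 ∧ σ (X k) = c • X 2 + ev (X 0) (X 1) Φ) :
    σ ∈ TAut 3 K := by
  have h1 := H.h1
  have h2 := H.h2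
  set ci := coeff (Finsupp.single 0 1) (σ (X i)) with hci
  set cj := coeff (Finsupp.single 1 1) (σ (X j)) with hcj
  have hci0 : ci ≠ 0 := by
    have := lmo_mem H (aut_ne σ i)
    rw [hi, mem_support_iff] at this
    exact this
  have hcj0 : cj ≠ 0 := by
    have := lmo_mem H (aut_ne σ j)
    rw [hj, mem_support_iff] at this
    exact this
  have hP : ∀ t, coeff t (σ (X i) - ci • X 0) ≠ 0 → t 2 = 0 ∧ t 0 = 0 ∧ (t 1 : ℝ) * D₂ < D₁ := by
    intro t ht
    rw [coeff_sub, coeff_smul, coeff_X] at ht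
    by_cases h3 : Finsupp.single 0 1 = t
    · rw [if_pos h3, hci, h3] at ht
      simp at ht
    · rw [if_neg h3, smul_zero, sub_zero] at ht
      have h4 := lmo_max H (aut_ne σ i) (mem_support_iff.2 ht) (by rw [hi]; exact fun h => h3 h.symm)
      rw [hi] at h4
      rcases h4 with h4 | ⟨h4, h5⟩
      · simp at h4
      · simp at h4 h5
        refine ⟨h4, ?_, ?_⟩
        · by_contra hc
          have h6 := one_le_cast hc
          have h7 : 1 * D₁ ≤ t 0 * D₁ := mul_le_mul_of_nonneg_right h6 h1.le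
          have h8 : 0 ≤ (t 1 : ℝ) * D₂ := by positivity
          linarith
        · have h8 : 0 ≤ (t 0 : ℝ) * D₁ := by positivity
          linarith
  have hQ : ∀ t, coeff t (σ (X j) - cj • X 1) ≠ 0 → t 2 = 0 ∧ t 1 = 0 ∧ (t 0 : ℝ) * D₁ < D₂ := by
    intro t ht
    rw [coeff_sub, coeff_smul, coeff_X] at ht
    by_cases h3 : Finsupp.single 1 1 = t
    · rw [if_pos h3, hcj, h3] at ht
      simp at ht
    · rw [if_neg h3, smul_zero, sub_zero] at ht
      have h4 := lmo_max H (aut_ne σ j) (mem_support_iff.2 ht) (by rw [hj]; exact fun h => h3 h.symm)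
      rw [hj] at h4
      rcases h4 with h4 | ⟨h4, h5⟩
      · simp at h4
      · simp at h4 h5
        refine ⟨h4, ?_, ?_⟩
        · by_contra hc
          have h6 := one_le_cast hc
          have h7 : 1 * D₂ ≤ t 1 * D₂ := mul_le_mul_of_nonneg_right h6 h2.le
          have h8 : 0 ≤ (t 0 : ℝ) * D₁ := by positivity
          linarith
        · have h8 : 0 ≤ (t 1 : ℝ) * D₂ := by positivity
          linarith
  obtain ⟨c, Φ, hc, hk⟩ := hk
  rcases lt_or_ge D₁ D₂ with hD | hD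
  · -- the first one is linear
    have hP0 : σ (X i) - ci • X 0 = C (coeff 0 (σ (X i) - ci • X 0)) := by
      apply eq_C_of_deg_le_zero
      apply deg_le le_rfl
      intro t ht
      obtain ⟨h3, h4, h5⟩ := hP t ht
      have h6 : t 1 = 0 := by
        by_contra hc
        have h6 := one_le_cast hc
        have h7 : 1 * D₂ ≤ t 1 * D₂ := mul_le_mul_of_nonneg_right h6 h2.le
        linarith
      have : t = 0 := by
        ext l
        fin_cases l
        · exact h4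
        · exact h6
        · exact h3
      rw [this, wt_zero]; simp
    have hQ0 : σ (X j) - cj • X 1 ∈ Sb (X 0 : A K) (X 0) := by
      apply mem_of_supp
      intro t ht l hl
      obtain ⟨h3, h4, -⟩ := hQ t ht
      fin_cases l
      · exact left_mem _ _
      · exact absurd h4 hl
      · exact absurd h3 hl
    obtain ⟨Φ₁, hΦ₁⟩ := exists_ev hQ0
    obtain ⟨Φ₂, hΦ₂⟩ : ∃ Φ₂, ev (X 1 : A K) (X 0) Φ₂ = ev (X 0) (X 1) Φ := by
      apply exists_ev
      rw [Sb_comm]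
      exact ev_mem _ _ _
    refine tri_tame σ (i := j) (j := i) (k := k) (a := 1) (b := 0) hij.symm hjk hik (by decide)
      (by decide) (by decide) (c₁ := cj) (c₂ := ci) (c₃ := c)
      (e := coeff 0 (σ (X i) - ci • X 0)) (Φ₁ := Φ₁) (Φ₂ := Φ₂) hcj0 hci0 hc ?_ ?_ ?_
    · rw [hΦ₁]; abel
    · rw [← hP0]; abel
    · rw [hk, hΦ₂]
  · -- the second one is linear
    have hQ0 : σ (X j) - cj • X 1 = C (coeff 0 (σ (X j) - cj • X 1)) := by
      apply eq_C_of_deg_le_zero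
      apply deg_le le_rfl
      intro t ht
      obtain ⟨h3, h4, h5⟩ := hQ t ht
      have h6 : t 0 = 0 := by
        by_contra hc
        have h6 := one_le_cast hc
        have h7 : 1 * D₁ ≤ t 0 * D₁ := mul_le_mul_of_nonneg_right h6 h1.le
        linarith
      have : t = 0 := by
        ext l
        fin_cases l
        · exact h6
        · exact h4
        · exact h3
      rw [this, wt_zero]; simp
    have hP0 : σ (X i) - ci • X 0 ∈ Sb (X 1 : A K) (X 1) := by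
      apply mem_of_supp
      intro t ht l hl
      obtain ⟨h3, h4, -⟩ := hP t ht
      fin_cases l
      · exact absurd h4 hl
      · exact left_mem _ _
      · exact absurd h3 hl
    obtain ⟨Φ₁, hΦ₁⟩ := exists_ev hP0
    refine tri_tame σ (i := i) (j := j) (k := k) (a := 0) (b := 1) hij hik hjk (by decide)
      (by decide) (by decide) (c₁ := ci) (c₂ := cj) (c₃ := c)
      (e := coeff 0 (σ (X j) - cj • X 1)) (Φ₁ := Φ₁) (Φ₂ := Φ) hci0 hcj0 hc ?_ ?_ hk
    · rw [hΦ₁]; abel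
    · rw [← hQ0]; abel

theorem nat_mul_one {a b : ℕ} (h : a * b = 1) : a = 1 ∧ b = 1 := by
  have h1 : a ∣ 1 := Dvd.intro b h
  have h2 : b ∣ 1 := Dvd.intro_left a h
  exact ⟨Nat.dvd_one.1 h1, Nat.dvd_one.1 h2⟩

theorem unit_rows {a b a' b' α β α' β' : ℕ} (h1 : a * α + b * α' = 1) (h2 : a * β + b * β' = 0)
    (h3 : a' * α + b' * α' = 0) (h4 : a' * β + b' * β' = 1) (hi : α ≠ 0 ∨ β ≠ 0)
    (hj : α' ≠ 0 ∨ β' ≠ 0) :
    (α = 1 ∧ β = 0 ∧ α' = 0 ∧ β' = 1) ∨ (α = 0 ∧ β = 1 ∧ α' = 1 ∧ β' = 0) := by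
  have z2 : a * β = 0 ∧ b * β' = 0 := by omega
  have z3 : a' * α = 0 ∧ b' * α' = 0 := by omega
  obtain ⟨z2a, z2b⟩ := z2
  obtain ⟨z3a, z3b⟩ := z3
  rw [Nat.mul_eq_zero] at z2a z2b z3a z3b
  have u1 : (a * α = 1 ∧ b * α' = 0) ∨ (a * α = 0 ∧ b * α' = 1) := by omega
  have u4 : (a' * β = 1 ∧ b' * β' = 0) ∨ (a' * β = 0 ∧ b' * β' = 1) := by omega
  rcases u1 with ⟨u1, u1'⟩ | ⟨u1, u1'⟩
  · obtain ⟨ua, uα⟩ := nat_mul_one u1
    rw [Nat.mul_eq_zero] at u1'
    subst ua uα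
    have hβ : β = 0 := by tauto
    subst hβ
    have u4' : a' * 0 = 0 ∧ b' * β' = 1 := by omega
    obtain ⟨ub, uβ⟩ := nat_mul_one u4'.2
    subst ub uβ
    left
    refine ⟨rfl, rfl, ?_, rfl⟩
    tauto
  · obtain ⟨ub, uα⟩ := nat_mul_one u1'
    rw [Nat.mul_eq_zero] at u1
    subst ub uα
    have hβ : β' = 0 := by tauto
    subst hβ
    have u4' : a' * β = 1 := by omega
    obtain ⟨ua, uβ⟩ := nat_mul_one u4'
    subst ua uβ
    right
    refine ⟨?_, rfl, rfl, rfl⟩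
    tauto

theorem caseIII [CharZero K] (H : Inc D₁ D₂) (R : Rho D₁ D₂ N ρ)
    (hB : ∀ i, (σ (X i)).totalDegree ≤ B) (hN : B < N) {i j k : Fin 3} (hij : i ≠ j)
    (hik : i ≠ k) (hjk : j ≠ k) (hi2 : lmo D₁ D₂ (σ (X i)) 2 = 0)
    (hj2 : lmo D₁ D₂ (σ (X j)) 2 = 0)
    (hK : 0 < V (ρ (σ (X i))) (ρ (σ (X j)))) : Concl B ρ σ ∨ σ ∈ TAut 3 K := by
  have no2 : ∀ l, lmo D₁ D₂ (σ (X l)) 2 = 0 → ∀ t, coeff t (σ (X l)) ≠ 0 → t 2 = 0 := by
    intro l hl t ht
    by_cases h1 : t = lmo D₁ D₂ (σ (X l))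
    · rw [h1]; exact hl
    · rcases lmo_max H (aut_ne σ l) (mem_support_iff.2 ht) h1 with h2 | ⟨h2, -⟩
      · omega
      · omega
  have hdeg : ∀ l, lmo D₁ D₂ (σ (X l)) 2 = 0 → deg (ρ (σ (X l))) =
      (lmo D₁ D₂ (σ (X l)) 0 : ℝ) * D₁ + (lmo D₁ D₂ (σ (X l)) 1 : ℝ) * D₂ := by
    intro l hl
    rw [R.deg_eq' H (aut_ne σ l) ((hB l).trans_lt hN), vN, hl]
    push_cast; ring
  have hne : ∀ l, lmo D₁ D₂ (σ (X l)) 2 = 0 →
      lmo D₁ D₂ (σ (X l)) 0 ≠ 0 ∨ lmo D₁ D₂ (σ (X l)) 1 ≠ 0 := by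
    intro l hl
    by_contra hc
    push Not at hc
    have h0 : 0 < deg (ρ (σ (X l))) := aut_deg_pos (ρ * σ) l
    rw [hdeg l hl, hc.1, hc.2] at h0
    simp at h0
  have hpos : ∀ l, 0 < deg (ρ (σ (X l))) := fun l => aut_deg_pos (ρ * σ) l
  obtain ⟨hk, hX0, hX1⟩ := two_struct σ hij hik hjk (no2 i hi2) (no2 j hj2)
  -- reduction when one degree is a multiple of the other
  have hred : ∀ l m o : Fin 3, l ≠ m → l ≠ o → m ≠ o → lmo D₁ D₂ (σ (X l)) 2 = 0 →
      lmo D₁ D₂ (σ (X m)) 2 = 0 → ∀ q : ℕ,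
      deg (ρ (σ (X m))) = q * deg (ρ (σ (X l))) → Concl B ρ σ := by
    intro l m o hlm hlo hmo hl hm q hq
    have hq' : q ≤ B := by
      have h1 := hq
      rw [hdeg l hl, hdeg m hm] at h1
      have h2 : (lmo D₁ D₂ (σ (X m)) 0 : ℝ) * D₁ + (lmo D₁ D₂ (σ (X m)) 1 : ℝ) * D₂ =
          ((q * lmo D₁ D₂ (σ (X l)) 0 : ℕ) : ℝ) * D₁ +
          ((q * lmo D₁ D₂ (σ (X l)) 1 : ℕ) : ℝ) * D₂ := by
        rw [h1]; push_cast; ring
      obtain ⟨h3, h4⟩ := H.indep h2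
      have h5 : ∀ t, lmo D₁ D₂ (σ (X m)) t ≤ B := fun t =>
        (le_td (lmo_mem H (aut_ne σ m)) t).trans (hB m)
      rcases hne l hl with h6 | h6
      · have := Nat.le_mul_of_pos_right q (Nat.pos_of_ne_zero h6)
        have := h5 0
        omega
      · have := Nat.le_mul_of_pos_right q (Nat.pos_of_ne_zero h6)
        have := h5 1
        omega
    refine concl_of_red hB (i := l) (j := o) (k := m) (Φ := monomial (ex2 q 0) 1) hlo hlm
      hmo.symm ?_ ?_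
    · intro s hs
      rw [coeff_monomial] at hs
      have : ex2 q 0 = s := by
        by_contra hc
        rw [if_neg hc] at hs
        exact hs rfl
      rw [← this, ex2_0, ex2_1]
      constructor <;> omega
    · rw [ev_monomial, C_1, one_mul, ex2_0, ex2_1, pow_zero, mul_one, map_pow,
        deg_pow _ (ne_zero_of_deg_pos (hpos l)), hq]
  -- lower bound for the two-form
  have hVu : V (ρ (X 0)) (ρ (X 1)) = D₁ + D₂ := by
    rw [V_eq_of_incomm (aut_deg_pos ρ 0) (aut_deg_pos ρ 1), R.d0, R.d1]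
    intro p q hp hq
    rw [R.d0, R.d1]
    exact H.h p q hp hq
  have h1 := H.h1
  have h2 := H.h2
  have hV : D₁ + D₂ ≤ V (ρ (σ (X i))) (ρ (σ (X j))) := by
    obtain ⟨Φi, hΦi⟩ := ev01_of_no2 (no2 i hi2)
    obtain ⟨Φj, hΦj⟩ := ev01_of_no2 (no2 j hj2)
    rw [← hΦi, ← hΦj, map_ev, map_ev] at hK ⊢
    rw [← hVu]
    exact V_ev_ge _ _ _ _ (by rw [hVu]; linarith) hK
  have hval : ∀ x ∈ Sb (ρ (σ (X i))) (ρ (σ (X j))), 0 < deg x → deg x < D₁ + D₂ →
      (∃ a b : ℕ, (a : ℝ) * deg (ρ (σ (X i))) + b * deg (ρ (σ (X j))) = deg x) ∨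
      Concl B ρ σ := by
    intro x hx hx0 hxlt
    rcases val (hpos i) (hpos j) hK hx hx0 with h3 | ⟨p, q, δ, hp, hq, hpq, hδ, e1, e2, e3⟩
    · exact Or.inl h3
    right
    rcases Nat.lt_or_ge p 2 with hp2 | hp2
    · have hp1 : p = 1 := by omega
      subst hp1
      apply hred i j k hij hik hjk hi2 hj2 q
      rw [e1, e2]; push_cast; ring
    rcases Nat.lt_or_ge q 2 with hq2 | hq2
    · have hq1 : q = 1 := by omega
      subst hq1
      apply hred j i k hij.symm hjk hik hj2 hi2 p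
      rw [e1, e2]; push_cast; ring
    exfalso
    obtain ⟨Φ, hΦ, HW⟩ := e3 hp2 hq2
    have n1 := HW.n1
    rw [hΦ] at n1
    have hp2R : (2 : ℝ) ≤ p := by exact_mod_cast hp2
    have hq2R : (2 : ℝ) ≤ q := by exact_mod_cast hq2
    have m1 : 2 * deg (ρ (σ (X i))) ≤ p * q * δ := by
      have : (p : ℝ) * q * δ = q * deg (ρ (σ (X i))) := by rw [e1]; ring
      rw [this]; exact mul_le_mul_of_nonneg_right hq2R (hpos i).le
    have m2 : 2 * deg (ρ (σ (X j))) ≤ p * q * δ := by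
      have : (p : ℝ) * q * δ = p * deg (ρ (σ (X j))) := by rw [e2]; ring
      rw [this]; exact mul_le_mul_of_nonneg_right hp2R (hpos j).le
    linarith
  have hu : ∀ x, x ∈ Sb (σ (X i)) (σ (X j)) → ρ x ∈ Sb (ρ (σ (X i))) (ρ (σ (X j))) := by
    intro x hx
    obtain ⟨Ψ, hΨ⟩ := exists_ev hx
    rw [← hΨ, map_ev]
    exact ev_mem _ _ _
  rcases hval _ (hu _ hX0) (aut_deg_pos ρ 0) (by rw [R.d0]; linarith) with ⟨a, b, hab⟩ | hc
  swap
  · exact Or.inl hc
  rcases hval _ (hu _ hX1) (aut_deg_pos ρ 1) (by rw [R.d1]; linarith) with ⟨a', b', hab'⟩ | hc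
  swap
  · exact Or.inl hc
  right
  rw [R.d0, hdeg i hi2, hdeg j hj2] at hab
  rw [R.d1, hdeg i hi2, hdeg j hj2] at hab'
  obtain ⟨u1, u2⟩ := H.indep (a := a * lmo D₁ D₂ (σ (X i)) 0 + b * lmo D₁ D₂ (σ (X j)) 0)
    (b := a * lmo D₁ D₂ (σ (X i)) 1 + b * lmo D₁ D₂ (σ (X j)) 1) (c := 1) (d := 0)
    (by push_cast; linarith)
  obtain ⟨u3, u4⟩ := H.indep (a := a' * lmo D₁ D₂ (σ (X i)) 0 + b' * lmo D₁ D₂ (σ (X j)) 0)
    (b := a' * lmo D₁ D₂ (σ (X i)) 1 + b' * lmo D₁ D₂ (σ (X j)) 1) (c := 0) (d := 1)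
    (by push_cast; linarith)
  have hs : ∀ (t : Fin 3 →₀ ℕ) (l : Fin 3), l ≠ 2 → t l = 1 → (∀ m, m ≠ l → t m = 0) →
      t = Finsupp.single l 1 := by
    intro t l _ h1 h2
    ext m
    by_cases hm : m = l
    · rw [hm, h1]; simp
    · rw [h2 m hm, Finsupp.single_apply, if_neg (fun h => hm h.symm)]
  rcases unit_rows u1 u2 u3 u4 (hne i hi2) (hne j hj2) with ⟨v1, v2, v3, v4⟩ | ⟨v1, v2, v3, v4⟩
  · refine fin_tri H hij hik hjk (hs _ 0 (by decide) v1 ?_) (hs _ 1 (by decide) v4 ?_) hk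
    · intro m hm
      fin_cases m
      · exact absurd rfl hm
      · exact v2
      · exact hi2
    · intro m hm
      fin_cases m
      · exact v3
      · exact absurd rfl hm
      · exact hj2
  · refine fin_tri H hij.symm hjk hik (hs _ 0 (by decide) v3 ?_) (hs _ 1 (by decide) v2 ?_) hk
    · intro m hm
      fin_cases m
      · exact absurd rfl hm
      · exact v4
      · exact hj2
    · intro m hm
      fin_cases m
      · exact v1
      · exact absurd rfl hm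
      · exact hi2

end

end Pool.Agent.Helper555_TN
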