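import Mathlib
import Pool.Agent.Helper555_TN.CaseT

set_option autoImplicit false

/-!
# Automorphisms normalizing the tame group
-/

open MvPolynomial

namespace Pool.Agent.Helper555_TN

variable {K : Type*} [Field K]

theorem GV.V_pos {v : Fin 3 → A K} (h : GV v) {i j : Fin 3} (hij : i ≠ j) :
    0 < V (v i) (v j) := by
  have hK : Kel (v 0) (v 1) (v 2) := Good.kel h
  have h01 := hK.rot'.V_pos
  have h12 := hK.V_pos
  have h20 := hK.rot.V_pos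
  fin_cases i <;> fin_cases j
  · exact absurd rfl hij
  · exact h01
  · rw [V_comm]; exact h20
  · rw [V_comm]; exact h01
  · exact absurd rfl hij
  · exact h12
  · exact h20
  · rw [V_comm]; exact h12
  · exact absurd rfl hij

theorem exists_third : ∀ i j : Fin 3, ∃ k, i ≠ k ∧ j ≠ k := by decide

theorem norm_aux [CharZero K] {D₁ D₂ : ℝ} {a₁ a₂ : Fin 3 →₀ ℕ} (ha₁ : (wt a₁ : ℝ) = D₁)
    (ha₂ : (wt a₂ : ℝ) = D₂) (H : Inc D₁ D₂) {N₀ : ℕ} {ψ : A K ≃ₐ[K] A K}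
    {ρ : ℕ → (A K ≃ₐ[K] A K)}
    (hR : ∀ N, N₀ ≤ N → Rho D₁ D₂ N (ρ N)) (hρ : ∀ N, ρ N * ψ ∈ TAut 3 K) (p : ℕ ×ₗ ℕ) :
    ∀ τ ∈ TAut 3 K, key3 D₁ D₂ (cpx D₁ D₂ (ψ * τ)) = p → ψ ∈ TAut 3 K := by
  induction p using WellFoundedLT.induction with
  | _ p ih =>
    intro τ hτ hp
    have h1 := H.h1
    have h2 := H.h2
    set σ := ψ * τ with hσ
    obtain ⟨B, hB⟩ : ∃ B : ℕ, ∀ i, (σ (X i)).totalDegree ≤ B := by
      refine ⟨∑ i, (σ (X i)).totalDegree, fun i => ?_⟩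
      exact Finset.single_le_sum (f := fun i => (σ (X i)).totalDegree) (fun _ _ => Nat.zero_le _)
        (Finset.mem_univ i)
    obtain ⟨N₁, hN₁⟩ := exists_nat_gt (W / D₁)
    rw [div_lt_iff₀ h1] at hN₁
    set E := 18 * B * (B + 1) + 2 * B with hE
    set N := N₀ + N₁ + 3 * E + 2 * B * B + B + 1 with hN
    have hRN := hR N (by omega)
    have hBE : B ≤ E := by rw [hE]; nlinarith
    have hNB : 2 * B * B + B < N := by rw [hN]; omega
    have hN3 : 3 * E < N := by rw [hN]; omega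
    have hG : GV (tr (ρ N * σ)) := by
      apply good_of_tame
      rw [hσ, ← mul_assoc]
      exact Subgroup.mul_mem _ (hρ N) hτ
    have hC : Concl B (ρ N) σ → ψ ∈ TAut 3 K := by
      rintro ⟨τ', hτ', hB', hlt⟩
      have h3 := cpx_lt hRN H (fun i => (hB i).trans hBE) hB' hN3 hlt
      have h4 := key3_lt ha₁ ha₂ h3
      rw [hp] at h4
      refine ih _ h4 (τ * τ') (Subgroup.mul_mem _ hτ hτ') ?_
      rw [← mul_assoc]
    by_cases hIII : ∀ i j, i ≠ j → lmo D₁ D₂ (σ (X i)) 2 ≠ 0 ∨ lmo D₁ D₂ (σ (X j)) 2 ≠ 0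
    · apply hC
      refine Ctx.main ⟨H, hRN, hB, hNB, hIII⟩ ?_ hG
      have h3 : (N₁ : ℝ) ≤ N := by
        have : N₁ ≤ N := by rw [hN]; omega
        exact_mod_cast this
      have h4 : (N₁ : ℝ) * D₁ ≤ N * D₁ := mul_le_mul_of_nonneg_right h3 h1.le
      have h5 : 0 ≤ (N : ℝ) ^ 2 * D₂ := by positivity
      linarith
    · push Not at hIII
      obtain ⟨i, j, hij, hi, hj⟩ := hIII
      obtain ⟨k, hik, hjk⟩ := exists_third i j
      rcases caseIII H hRN hB (by omega) hij hik hjk hi hj (hG.V_pos hij) with h3 | h3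
      · exact hC h3
      · rw [hσ] at h3
        exact (Subgroup.mul_mem_cancel_right _ hτ).1 h3

/-- an automorphism of the polynomial algebra in three variables over a field of characteristic
zero which normalizes the tame group is tame -/
theorem norm_tame [CharZero K] (ψ : A K ≃ₐ[K] A K)
    (h : ∀ φ ∈ TAut 3 K, ψ⁻¹ * φ * ψ ∈ TAut 3 K) : ψ ∈ TAut 3 K := by
  obtain ⟨φ₀, hφ₀, hinc⟩ := exists_base ψ⁻¹
  set γ := ψ⁻¹ * φ₀ with hγ
  have hτ : ∀ N : ℕ, ∃ τ ∈ TAut 3 K, τ (X 2) = (1 : K) • X 2 + ev (X 0) (X 1) (X 0 ^ N * X 1 ^ (N ^ 2)) ∧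
      ∀ j, j ≠ 2 → τ (X j) = X j := fun N =>
    exists_elem 2 0 1 (by decide) (by decide) (c := (1 : K)) one_ne_zero (X 0 ^ N * X 1 ^ (N ^ 2))
  choose τ hτ1 hτ2 hτ3 using hτ
  obtain ⟨a₁, ha₁⟩ := exists_wt (γ (X 0))
  obtain ⟨a₂, ha₂⟩ := exists_wt (γ (X 1))
  have H : Inc (deg (γ (X 0))) (deg (γ (X 1))) := ⟨aut_deg_pos γ 0, aut_deg_pos γ 1, hinc⟩
  obtain ⟨N₀, hN₀⟩ := exists_nat_gt (deg (γ (X 2)) / deg (γ (X 0)))
  rw [div_lt_iff₀ H.h1] at hN₀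
  refine norm_aux ha₁ ha₂ H (N₀ := N₀) (ψ := ψ) (ρ := fun N => γ * τ N) ?_ ?_ _ 1
    (Subgroup.one_mem _) rfl
  · intro N hN
    have e2 : (γ * τ N) (X 2) = γ (X 2) + γ (X 0) ^ N * γ (X 1) ^ (N ^ 2) := by
      rw [AlgEquiv.mul_apply, hτ2, one_smul, map_add, map_ev, map_mul, map_pow, map_pow, ev_X0,
        ev_X1]
    have hd : deg (γ (X 0) ^ N * γ (X 1) ^ (N ^ 2)) =
        N * deg (γ (X 0)) + N ^ 2 * deg (γ (X 1)) := by
      rw [deg_mul (pow_ne_zero _ (aut_ne γ 0)) (pow_ne_zero _ (aut_ne γ 1)),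
        deg_pow _ (aut_ne γ 0), deg_pow _ (aut_ne γ 1)]
      push_cast; ring
    refine ⟨?_, ?_, ?_⟩
    · rw [AlgEquiv.mul_apply, hτ3 N 0 (by decide)]
    · rw [AlgEquiv.mul_apply, hτ3 N 1 (by decide)]
    · rw [e2, deg_add_eq_right, hd]
      rw [hd]
      have h1 := H.h1
      have h2 := H.h2
      have h3 : (N₀ : ℝ) ≤ N := by exact_mod_cast hN
      have h4 : (N₀ : ℝ) * deg (γ (X 0)) ≤ N * deg (γ (X 0)) :=
        mul_le_mul_of_nonneg_right h3 h1.le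
      have h5 : 0 ≤ (N : ℝ) ^ 2 * deg (γ (X 1)) := by positivity
      linarith
  · intro N
    have e : γ * τ N * ψ = ψ⁻¹ * (φ₀ * τ N) * ψ := by rw [hγ]; group
    rw [e]
    exact h _ (Subgroup.mul_mem _ hφ₀ (hτ1 N))

end Pool.Agent.Helper555_TN
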