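import Mathlib
import Pool.Agent.Helper555_TN.Norm
import Pool.Agent.Helper555_TN.DefFree

set_option autoImplicit false

/-!
# Automorphisms of the free associative algebra normalizing the tame group
-/

open MvPolynomial

namespace Pool.Agent.Helper555_TN

variable {K : Type*} [Field K] {n : ℕ}

@[simp] theorem abel_ι (i : Fin n) : abel K n (FreeAlgebra.ι K i) = X i := by
  simp [abel]

/-- the induced endomorphism -/
noncomputable def indE (f : FreeAlgebra K (Fin n) →ₐ[K] FreeAlgebra K (Fin n)) :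
    MvPolynomial (Fin n) K →ₐ[K] MvPolynomial (Fin n) K :=
  aeval (fun i => abel K n (f (FreeAlgebra.ι K i)))

theorem indE_abel (f : FreeAlgebra K (Fin n) →ₐ[K] FreeAlgebra K (Fin n))
    (x : FreeAlgebra K (Fin n)) : indE f (abel K n x) = abel K n (f x) := by
  have : (indE f).comp (abel K n) = (abel K n).comp f := by
    apply FreeAlgebra.hom_ext
    funext i
    simp [indE]
  exact congrArg (fun T => T x) this

theorem indE_comp (f g : FreeAlgebra K (Fin n) →ₐ[K] FreeAlgebra K (Fin n)) :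
    indE (f.comp g) = (indE f).comp (indE g) := by
  apply algHom_ext
  intro i
  have h1 : indE (f.comp g) (X i) = abel K n (f (g (FreeAlgebra.ι K i))) := by simp [indE]
  have h2 : indE g (X i) = abel K n (g (FreeAlgebra.ι K i)) := by simp [indE]
  rw [h1, AlgHom.comp_apply, h2, indE_abel]

theorem indE_id : indE (AlgHom.id K (FreeAlgebra K (Fin n))) = AlgHom.id K _ := by
  apply algHom_ext
  intro i
  simp [indE]

/-- the induced automorphism of the polynomial algebra -/
noncomputable def ind (φ : FreeAlgebra K (Fin n) ≃ₐ[K] FreeAlgebra K (Fin n)) :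
    MvPolynomial (Fin n) K ≃ₐ[K] MvPolynomial (Fin n) K :=
  AlgEquiv.ofAlgHom (indE φ) (indE φ.symm)
    (by rw [← indE_comp]; simp [indE_id])
    (by rw [← indE_comp]; simp [indE_id])

theorem ind_X (φ : FreeAlgebra K (Fin n) ≃ₐ[K] FreeAlgebra K (Fin n)) (i : Fin n) :
    ind φ (X i) = abel K n (φ (FreeAlgebra.ι K i)) := by
  simp [ind, indE]

theorem ind_abel (φ : FreeAlgebra K (Fin n) ≃ₐ[K] FreeAlgebra K (Fin n))
    (x : FreeAlgebra K (Fin n)) : ind φ (abel K n x) = abel K n (φ x) := by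
  have h1 : ind φ (abel K n x) =
      indE (φ : FreeAlgebra K (Fin n) →ₐ[K] FreeAlgebra K (Fin n)) (abel K n x) := by
    simp only [ind, AlgEquiv.ofAlgHom_apply]
  rw [h1, indE_abel]
  rfl

theorem aut_ext {φ ψ : MvPolynomial (Fin n) K ≃ₐ[K] MvPolynomial (Fin n) K}
    (h : ∀ i, φ (X i) = ψ (X i)) : φ = ψ := by
  have : (φ : MvPolynomial (Fin n) K →ₐ[K] MvPolynomial (Fin n) K) = ψ := by
    apply algHom_ext
    exact h
  ext x
  exact congrArg (fun T => coeff _ (T x)) this

/-- the homomorphism of automorphism groups induced by abelianization -/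
noncomputable def Ind (K : Type*) [Field K] (n : ℕ) :
    (FreeAlgebra K (Fin n) ≃ₐ[K] FreeAlgebra K (Fin n)) →*
    (MvPolynomial (Fin n) K ≃ₐ[K] MvPolynomial (Fin n) K) where
  toFun := ind
  map_one' := by
    apply aut_ext
    intro i
    rw [ind_X]
    simp
  map_mul' φ ψ := by
    apply aut_ext
    intro i
    rw [ind_X, AlgEquiv.mul_apply, AlgEquiv.mul_apply, ind_X, ind_abel]

theorem Ind_X (φ : FreeAlgebra K (Fin n) ≃ₐ[K] FreeAlgebra K (Fin n)) (i : Fin n) :
    Ind K n φ (X i) = abel K n (φ (FreeAlgebra.ι K i)) := ind_X φ i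

theorem abel_adjoin (i : Fin n) :
    (Algebra.adjoin K (FreeAlgebra.ι K '' ({i}ᶜ : Set (Fin n)))).map (abel K n) =
      supported K ({i}ᶜ : Set (Fin n)) := by
  rw [AlgHom.map_adjoin, Set.image_image, supported_eq_adjoin_X]
  congr 1
  apply Set.image_congr
  intro j _
  simp

/-- images of tame automorphisms are tame -/
theorem Ind_tame {φ : FreeAlgebra K (Fin n) ≃ₐ[K] FreeAlgebra K (Fin n)} (h : φ ∈ TAutF n K) :
    Ind K n φ ∈ TAut n K := by
  have h1 : TAutF n K ≤ (TAut n K).comap (Ind K n) := by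
    rw [TAutF, Subgroup.closure_le]
    rintro φ (⟨M, b, hM, hb⟩ | ⟨i, α, f, hα, hf, h1, h2⟩)
    · apply Subgroup.subset_closure
      left
      refine ⟨M, b, hM, fun i => ?_⟩
      rw [Ind_X, hb]
      simp [smul_eq_C_mul, algebraMap_eq]
    · apply Subgroup.subset_closure
      right
      have h3 : abel K n f ∈ supported K ({i}ᶜ : Set (Fin n)) := by
        rw [← abel_adjoin]
        exact ⟨f, hf, rfl⟩
      refine ⟨i, α, abel K n f, hα, ?_, ?_, ?_⟩
      · rw [mem_supported] at h3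
        intro h4
        exact h3 h4 rfl
      · rw [Ind_X, h1]
        simp [smul_eq_C_mul]
      · intro j hj
        rw [Ind_X, h2 j hj, abel_ι]
  exact h1 h

theorem freeHom_ext {F G : FreeAlgebra K (Fin n) →ₐ[K] FreeAlgebra K (Fin n)}
    (h : ∀ i, F (FreeAlgebra.ι K i) = G (FreeAlgebra.ι K i)) : F = G := by
  apply FreeAlgebra.hom_ext
  funext i
  exact h i

theorem adjoin_fixed {i : Fin n} {F : FreeAlgebra K (Fin n) →ₐ[K] FreeAlgebra K (Fin n)}
    (hF : ∀ j, j ≠ i → F (FreeAlgebra.ι K j) = FreeAlgebra.ι K j) {f : FreeAlgebra K (Fin n)}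
    (hf : f ∈ Algebra.adjoin K (FreeAlgebra.ι K '' ({i}ᶜ : Set (Fin n)))) : F f = f := by
  have : Algebra.adjoin K (FreeAlgebra.ι K '' ({i}ᶜ : Set (Fin n))) ≤
      AlgHom.equalizer F (AlgHom.id K _) := by
    apply Algebra.adjoin_le
    rintro x ⟨j, hj, rfl⟩
    exact hF j hj
  exact this hf

/-- elementary automorphisms of the free algebra exist -/
theorem exists_elemF (i : Fin n) {α : K} (hα : α ≠ 0) {f : FreeAlgebra K (Fin n)}
    (hf : f ∈ Algebra.adjoin K (FreeAlgebra.ι K '' ({i}ᶜ : Set (Fin n)))) :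
    ∃ φ ∈ TAutF n K, φ (FreeAlgebra.ι K i) = α • FreeAlgebra.ι K i + f ∧
      ∀ j, j ≠ i → φ (FreeAlgebra.ι K j) = FreeAlgebra.ι K j := by
  classical
  let F : FreeAlgebra K (Fin n) →ₐ[K] FreeAlgebra K (Fin n) := FreeAlgebra.lift K
    (Function.update (FreeAlgebra.ι K) i (α • FreeAlgebra.ι K i + f))
  let G : FreeAlgebra K (Fin n) →ₐ[K] FreeAlgebra K (Fin n) := FreeAlgebra.lift K
    (Function.update (FreeAlgebra.ι K) i (α⁻¹ • FreeAlgebra.ι K i - α⁻¹ • f))
  have Fi : F (FreeAlgebra.ι K i) = α • FreeAlgebra.ι K i + f := by simp [F]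
  have Gi : G (FreeAlgebra.ι K i) = α⁻¹ • FreeAlgebra.ι K i - α⁻¹ • f := by simp [G]
  have Fj : ∀ j, j ≠ i → F (FreeAlgebra.ι K j) = FreeAlgebra.ι K j := by
    intro j hj; simp [F, hj]
  have Gj : ∀ j, j ≠ i → G (FreeAlgebra.ι K j) = FreeAlgebra.ι K j := by
    intro j hj; simp [G, hj]
  have hFG : F.comp G = AlgHom.id K _ := by
    apply freeHom_ext
    intro j
    by_cases hj : j = i
    · subst hj
      rw [AlgHom.comp_apply, Gi, map_sub, map_smul, map_smul, Fi, adjoin_fixed Fj hf,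
        smul_add, smul_smul, inv_mul_cancel₀ hα, one_smul, add_sub_cancel_right]
      rfl
    · rw [AlgHom.comp_apply, Gj j hj, Fj j hj]
      rfl
  have hGF : G.comp F = AlgHom.id K _ := by
    apply freeHom_ext
    intro j
    by_cases hj : j = i
    · subst hj
      rw [AlgHom.comp_apply, Fi, map_add, map_smul, Gi, adjoin_fixed Gj hf, smul_sub,
        smul_smul, smul_smul, mul_inv_cancel₀ hα, one_smul, one_smul, sub_add_cancel]
      rfl
    · rw [AlgHom.comp_apply, Fj j hj, Gj j hj]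
      rfl
  refine ⟨AlgEquiv.ofAlgHom F G hFG hGF, ?_, Fi, Fj⟩
  apply Subgroup.subset_closure
  right
  exact ⟨i, α, f, hα, hf, Fi, Fj⟩

/-- the linear substitution of a matrix -/
noncomputable def linF (M : Matrix (Fin n) (Fin n) K) (b : Fin n → K) :
    FreeAlgebra K (Fin n) →ₐ[K] FreeAlgebra K (Fin n) :=
  FreeAlgebra.lift K (fun i => ∑ j, M i j • FreeAlgebra.ι K j + algebraMap K _ (b i))

theorem linF_ι (M : Matrix (Fin n) (Fin n) K) (b : Fin n → K) (i : Fin n) :
    linF M b (FreeAlgebra.ι K i) = ∑ j, M i j • FreeAlgebra.ι K j + algebraMap K _ (b i) := by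
  simp [linF]

theorem linF_comp (M N : Matrix (Fin n) (Fin n) K) (b c : Fin n → K) :
    (linF M b).comp (linF N c) = linF (N * M) (fun i => ∑ j, N i j * b j + c i) := by
  apply freeHom_ext
  intro i
  rw [AlgHom.comp_apply, linF_ι, linF_ι, map_add, map_sum, AlgHom.commutes]
  simp only [map_smul, linF_ι, smul_add, Finset.sum_add_distrib, Finset.smul_sum, smul_smul]
  rw [Finset.sum_comm, map_add, map_sum, add_assoc]
  congr 1
  · apply Finset.sum_congr rfl
    intro j _
    rw [Matrix.mul_apply, Finset.sum_smul]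
  · congr 1
    apply Finset.sum_congr rfl
    intro j _
    rw [map_mul, Algebra.smul_def]

theorem linF_one : linF (1 : Matrix (Fin n) (Fin n) K) 0 = AlgHom.id K _ := by
  classical
  apply freeHom_ext
  intro i
  rw [linF_ι]
  simp [Matrix.one_apply, ite_smul]

/-- affine automorphisms of the free algebra exist -/
theorem exists_affF {M : Matrix (Fin n) (Fin n) K} (hM : M.det ≠ 0) (b : Fin n → K) :
    ∃ φ ∈ TAutF n K, ∀ i, φ (FreeAlgebra.ι K i) =
      ∑ j, M i j • FreeAlgebra.ι K j + algebraMap K _ (b i) := by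
  have hu : IsUnit M.det := isUnit_iff_ne_zero.2 hM
  refine ⟨AlgEquiv.ofAlgHom (linF M b) (linF M⁻¹ (fun i => - ∑ j, M⁻¹ i j * b j)) ?_ ?_, ?_, ?_⟩
  · rw [linF_comp, Matrix.nonsing_inv_mul _ hu]
    have : (fun i => ∑ j, M⁻¹ i j * b j + - ∑ j, M⁻¹ i j * b j) = (0 : Fin n → K) := by
      funext i; simp
    rw [this, linF_one]
  · rw [linF_comp, Matrix.mul_nonsing_inv _ hu]
    have : (fun i => ∑ j, M i j * (- ∑ k, M⁻¹ j k * b k) + b i) = (0 : Fin n → K) := by
      funext i
      have h1 : ∑ j, M i j * (- ∑ k, M⁻¹ j k * b k) = - ∑ k, (M * M⁻¹) i k * b k := by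
        simp only [Matrix.mul_apply, Finset.sum_mul, mul_neg, Finset.mul_sum, Finset.sum_neg_distrib]
        rw [Finset.sum_comm]
        simp only [mul_assoc]
      rw [h1, Matrix.mul_nonsing_inv _ hu]
      simp [Matrix.one_apply]
    rw [this, linF_one]
  · apply Subgroup.subset_closure
    left
    exact ⟨M, b, hM, fun i => linF_ι M b i⟩
  · intro i
    exact linF_ι M b i

/-- tame automorphisms of the polynomial algebra lift to tame automorphisms -/
theorem exists_liftF {φ : MvPolynomial (Fin n) K ≃ₐ[K] MvPolynomial (Fin n) K}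
    (h : φ ∈ TAut n K) : ∃ φ' ∈ TAutF n K, Ind K n φ' = φ := by
  have h1 : TAut n K ≤ (TAutF n K).map (Ind K n) := by
    rw [TAut, Subgroup.closure_le]
    rintro φ (⟨M, b, hM, hb⟩ | ⟨i, α, f, hα, hf, h1, h2⟩)
    · obtain ⟨φ', h3, h4⟩ := exists_affF hM b
      refine ⟨φ', h3, ?_⟩
      apply aut_ext
      intro i
      rw [Ind_X, h4, hb]
      simp [smul_eq_C_mul, algebraMap_eq]
    · have h3 : f ∈ supported K ({i}ᶜ : Set (Fin n)) := by
        rw [mem_supported]
        intro j hj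
        simp only [Set.mem_compl_iff, Set.mem_singleton_iff]
        rintro rfl
        exact hf hj
      rw [← abel_adjoin] at h3
      obtain ⟨f', hf', h4⟩ := h3
      have h4 : abel K n f' = f := h4
      obtain ⟨φ', h5, h6, h7⟩ := exists_elemF i hα hf'
      refine ⟨φ', h5, ?_⟩
      apply aut_ext
      intro j
      rw [Ind_X]
      by_cases hj : j = i
      · subst hj
        rw [h6, h1, map_add, map_smul, abel_ι, h4, smul_eq_C_mul]
      · rw [h7 j hj, h2 j hj, abel_ι]
  exact h1 h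

/-- an automorphism of the free associative algebra in three generators over a field of
characteristic zero which normalizes the tame group is tame up to an automorphism inducing
the identity on the polynomial algebra -/
theorem norm_free [CharZero K] (ψ : FreeAlgebra K (Fin 3) ≃ₐ[K] FreeAlgebra K (Fin 3))
    (h : ∀ φ ∈ TAutF 3 K, ψ⁻¹ * φ * ψ ∈ TAutF 3 K) :
    ∃ τ ∈ TAutF 3 K, ∀ x, abel K 3 ((τ * ψ) x) = abel K 3 x := by
  have h1 : Ind K 3 ψ ∈ TAut 3 K := by
    apply norm_tame
    intro φ hφ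
    obtain ⟨φ', hφ', rfl⟩ := exists_liftF hφ
    have h2 := Ind_tame (h φ' hφ')
    rwa [map_mul, map_mul, map_inv] at h2
  obtain ⟨τ, hτ, hτ2⟩ := exists_liftF (Subgroup.inv_mem _ h1)
  refine ⟨τ, hτ, fun x => ?_⟩
  have h3 : Ind K 3 (τ * ψ) = 1 := by rw [map_mul, hτ2, inv_mul_cancel]
  have h4 : Ind K 3 (τ * ψ) (abel K 3 x) = abel K 3 ((τ * ψ) x) := ind_abel (τ * ψ) x
  rw [← h4, h3, AlgEquiv.one_apply]

end Pool.Agent.Helper555_TN
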